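import Pool.Agent.MP_d171e3_nt.Mg.Rel

/-! Rational functions of one number; quadratic monomials. -/

namespace Pool.Agent.MP_d171e3_nt

open Module Polynomial

theorem mul_bound {μ : Type} [Fintype μ] (pr : μ → ℕ) (hp : ∀ k, (pr k).Prime)
    (hi : Function.Injective pr) (B C : Submodule ℚ ℂ) [FiniteDimensional ℚ B]
    [FiniteDimensional ℚ C] (b : μ → ℂ) (hb : ∀ k, b k ≠ 0) (h1 : ∀ c ∈ C, ∀ k, c * b k ∈ B)
    (h2 : ∀ c ∈ C, ∀ k, c * b k * (Real.log (pr k) : ℂ) ∈ B) :
    Fintype.card μ * finrank ℚ C ≤ finrank ℚ B ^ 2 := by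
  let Ψ : (μ → C) →ₗ[ℚ] (μ → ℂ) :=
    LinearMap.pi fun k => LinearMap.mulRight ℚ (b k) ∘ₗ C.subtype ∘ₗ LinearMap.proj k
  have hΨ : Function.Injective Ψ := by
    intro x y hxy
    funext k
    exact Subtype.ext (mul_left_injective₀ (hb k) (congrFun hxy k))
  have h := rel_bound pr hp hi B (LinearMap.range Ψ)
    (by rintro _ ⟨x, rfl⟩ k; exact h1 _ (x k).2 k)
    (by rintro _ ⟨x, rfl⟩; exact B.sum_mem fun k _ => h2 _ (x k).2 k)
  rwa [LinearMap.finrank_range_of_inj hΨ, finrank_pi_fintype, Finset.sum_const, Finset.card_univ,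
    smul_eq_mul] at h

theorem ratfun_bound (t : ℂ) (D : ℕ) (hD : 0 < D) (S : Finset ℕ)
    (hS : ∀ q ∈ S, q.Prime ∧ ∃ A B : ℚ[X], A.natDegree ≤ D ∧ B.natDegree ≤ D ∧ aeval t B ≠ 0 ∧
      aeval t B * (Real.log q : ℂ) = aeval t A) : S.card ≤ 4 * D := by
  let V : ℕ → Submodule ℚ ℂ := fun n => (degreeLT ℚ n).map (aeval t).toLinearMap
  have hfin : ∀ n, finrank ℚ (degreeLT ℚ n) = n := fun n => by
    rw [(degreeLTEquiv ℚ n).finrank_eq, finrank_fin_fun]
  have hV : ∀ n, finrank ℚ (V n) ≤ n := fun n => (Submodule.finrank_map_le _ _).trans (hfin n).le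
  choose A B hA hB hB0 hAB using fun q : S => (hS q.1 q.2).2
  have hmul : ∀ c ∈ V D, ∀ f : ℚ[X], f.natDegree ≤ D → c * aeval t f ∈ V (2 * D) := by
    rintro _ ⟨g, hg, rfl⟩ f hf
    refine ⟨g * f, ?_, by simp⟩
    rw [SetLike.mem_coe, mem_degreeLT] at hg ⊢
    by_cases h0 : g = 0
    · rw [h0, zero_mul, degree_zero]
      exact WithBot.bot_lt_coe _
    · have := (natDegree_lt_iff_degree_lt h0).mpr hg
      refine lt_of_le_of_lt degree_le_natDegree ?_
      have h2 := natDegree_mul_le (p := g) (q := f)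
      exact_mod_cast (by omega : (g * f).natDegree < 2 * D)
  have h := mul_bound (fun q : S => q.1) (fun q => (hS q.1 q.2).1) Subtype.val_injective
    (V (2 * D)) (V D) (fun q => aeval t (B q)) hB0 (fun c hc q => hmul c hc _ (hB q))
    (fun c hc q => by rw [mul_assoc, hAB]; exact hmul c hc _ (hA q))
  rw [Fintype.card_coe] at h
  by_cases hinj : Function.Injective ((aeval t).toLinearMap.domRestrict (degreeLT ℚ D))
  · have h1 := LinearMap.finrank_range_of_inj hinj
    rw [LinearMap.range_domRestrict, hfin] at h1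
    have h2 := hV (2 * D)
    rw [show finrank ℚ (V D) = D from h1] at h
    have h3 : S.card * D ≤ 4 * D * D := h.trans ((Nat.pow_le_pow_left h2 2).trans (by nlinarith))
    exact Nat.le_of_mul_le_mul_right h3 hD
  · rw [injective_iff_map_eq_zero] at hinj
    push Not at hinj
    obtain ⟨g, hg, hg0⟩ := hinj
    have hg1 : g.1 ≠ 0 := fun h => hg0 (Subtype.ext h)
    have hle : V (2 * D) ≤ V D := by
      rintro _ ⟨f, -, rfl⟩
      refine ⟨f % g.1, mem_degreeLT.mpr ((degree_mod_lt f hg1).trans (mem_degreeLT.mp g.2)), ?_⟩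
      have e := congrArg (aeval t) (EuclideanDomain.div_add_mod f g.1)
      rw [map_add, map_mul, show aeval t g.1 = 0 from hg, zero_mul, zero_add] at e
      exact e
    have h1 := Submodule.finrank_mono hle
    have h2 : 0 < finrank ℚ (V D) := by
      rw [finrank_pos_iff_exists_ne_zero]
      refine ⟨⟨1, 1, mem_degreeLT.mpr ?_, by simp⟩, fun h => one_ne_zero (congrArg Subtype.val h)⟩
      rw [degree_one]; exact_mod_cast hD
    have h3 : S.card * finrank ℚ (V D) ≤ finrank ℚ (V D) * finrank ℚ (V D) :=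
      h.trans ((Nat.pow_le_pow_left h1 2).trans (sq _).le)
    have := Nat.le_of_mul_le_mul_right h3 h2
    have := hV D
    omega

theorem log_indep {μ : Type} [Fintype μ] (pr : μ → ℕ) (hp : ∀ k, (pr k).Prime)
    (hi : Function.Injective pr) : LinearIndependent ℚ fun k => (Real.log (pr k) : ℂ) := by
  rw [Fintype.linearIndependent_iff]
  intro g hg
  have h := hyper pr hp hi 1 Unit (by simp) (fun _ => 1) (by simp) (ℚ ∙ fun _ => g) (by
    intro A hA
    obtain ⟨c, rfl⟩ := Submodule.mem_span_singleton.mp hA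
    simp only [Rat.smul_def] at hg
    simp only [Finset.univ_unique, Finset.sum_singleton, Pi.smul_apply, smul_eq_mul,
      Rat.cast_mul, mul_assoc, ← Finset.mul_sum, hg, mul_zero])
  by_contra hc
  rw [finrank_span_singleton (fun h0 => hc fun k => congrFun (congrFun h0 ()) k)] at h
  omega

theorem quad_bound (S : Finset ℕ) (hS : ∀ q ∈ S, q.Prime) : (S.card + 1) ^ 2 / 4 ≤
    finrank ℚ (Submodule.span ℚ {x : ℝ | ∃ p ∈ S, ∃ q ∈ S, x = Real.log p * Real.log q}) := by
  classical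
  set M := Submodule.span ℚ {x : ℝ | ∃ p ∈ S, ∃ q ∈ S, x = Real.log p * Real.log q} with hM
  have : FiniteDimensional ℚ M := FiniteDimensional.span_of_finite ℚ
    ((Set.toFinite ((fun z : ℕ × ℕ => Real.log z.1 * Real.log z.2) '' (S ×ˢ S : Finset _))).subset (by
      rintro _ ⟨p, hp, q, hq, rfl⟩
      exact ⟨(p, q), by simp [hp, hq], rfl⟩))
  obtain ⟨S', h1, h2⟩ := Finset.exists_subset_card_eq (s := S) (n := (S.card + 1) / 2) (by omega)
  let B := Submodule.span ℚ (Set.range fun q : S' => (Real.log (q.1 : ℕ) : ℂ))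
  have : FiniteDimensional ℚ B := FiniteDimensional.span_of_finite ℚ (Set.finite_range _)
  have hB : finrank ℚ B = (S.card + 1) / 2 := by
    rw [finrank_span_eq_card (log_indep (fun q : S' => q.1) (fun q => hS _ (h1 q.2))
      Subtype.val_injective), Fintype.card_coe, h2]
  let Ψ : (S → B) →ₗ[ℚ] (S → ℂ) := LinearMap.pi fun k => B.subtype ∘ₗ LinearMap.proj k
  have hΨ : Function.Injective Ψ := fun x y hxy => funext fun k => Subtype.ext (congrFun hxy k)
  have h3 := LinearMap.finrank_range_add_finrank_ker (lf (fun q : S => q.1) ∘ₗ Ψ)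
  have h4 := ker_bound (fun q : S => q.1) (fun q => hS _ q.2) Subtype.val_injective B
    ((LinearMap.ker (lf (fun q : S => q.1) ∘ₗ Ψ)).map Ψ)
    (by rintro _ ⟨f, -, rfl⟩ k; exact (f k).2) (by rintro _ ⟨f, hf, rfl⟩; exact hf)
  rw [← (Submodule.equivMapOfInjective _ hΨ _).finrank_eq] at h4
  let ι : ℝ →ₗ[ℚ] ℂ := Complex.ofRealAm.toLinearMap.restrictScalars ℚ
  have h5 : LinearMap.range (lf (fun q : S => q.1) ∘ₗ Ψ) ≤ M.map ι := by
    rintro _ ⟨f, rfl⟩
    refine Submodule.sum_mem _ fun q _ => ?_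
    obtain ⟨c, hc⟩ := (Submodule.mem_span_range_iff_exists_fun ℚ).mp (f q).2
    change (f q).1 * _ ∈ _
    rw [← hc, Finset.sum_mul]
    refine Submodule.sum_mem _ fun p _ => ?_
    rw [smul_mul_assoc]
    exact Submodule.smul_mem _ _ ⟨_, Submodule.subset_span ⟨p.1, h1 p.2, q.1, q.2, rfl⟩, by simp [ι]⟩
  have h6 := (Submodule.finrank_mono h5).trans (Submodule.finrank_map_le _ _)
  rw [finrank_pi_fintype, Finset.sum_const, Finset.card_univ, Fintype.card_coe, smul_eq_mul] at h3
  rw [hB] at h3 h4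
  have h7 : (S.card + 1) ^ 2 / 4 + (S.card + 1) / 2 * ((S.card + 1) / 2 - 1) ≤
      S.card * ((S.card + 1) / 2) := by
    generalize S.card = m
    rcases Nat.even_or_odd' m with ⟨k, rfl | rfl⟩
    · have e1 : (2 * k + 1) / 2 = k := by omega
      have e2 : (2 * k + 1) ^ 2 / 4 = k * k + k := by
        rw [show (2 * k + 1) ^ 2 = 4 * (k * k + k) + 1 by ring]; omega
      rw [e1, e2]
      rcases k with _ | k
      · simp
      · simp only [Nat.add_sub_cancel]; nlinarith
    · have e1 : (2 * k + 1 + 1) / 2 = k + 1 := by omega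
      have e2 : (2 * k + 1 + 1) ^ 2 / 4 = (k + 1) * (k + 1) := by
        rw [show (2 * k + 1 + 1) ^ 2 = 4 * ((k + 1) * (k + 1)) by ring]; omega
      rw [e1, e2]
      simp only [Nat.add_sub_cancel]; nlinarith
  omega

end Pool.Agent.MP_d171e3_nt
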