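import Mathlib

attribute [-instance] IsPurelyInseparable.isIntegral
  ContinuousSemilinearMapClass.toSemilinearMapClass instCharZeroOfIsSemireal
  CoalgHomClass.toSemilinearMapClass Module.Finite.quotient Algebra.Smooth.flat
  RingHomClass.toLinearMapClassNNRat IntermediateField.isSeparable_tower_top
  instCoeHTCOfCoeHeadOfCoeOTC instNonUnitalAlgHomClassOfNonUnitalAlgEquivClass
  RightPreLieAlgebra.toModule NonUnitalNormedRing.toNormedAddCommGroup instNontrivialOfCharZero
  LeftPreLieAlgebra.toModule MonTypeEquivalenceMon.monMonoid CommRing.Pic.instFreeOfSubsingleton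
  littleWedderburn RingHomClass.toLinearMapClassRat SemilinearIsometryClass.toSemilinearMapClass
  Algebra.instEtaleOfIsStandardSmoothOfRelativeDimensionOfNatNat
  NonUnitalAlgHomClass.instSemilinearMapClassOfNonUnitalAlgSemiHomClassToMonoidHomRingHom
  TrivSqZeroExt.distribMulAction
  Algebra.IsFiniteSplit.instOfIsSepClosedOfEssFiniteTypeOfFormallyEtale FloorSemiring.instCharZero
  BialgHomClass.toAlgHomClass NormedCommRing.toCommRing instCoeTCOfCoe AlgHomClass.linearMapClass
  SeminormedCommRing.toCommRing GrpTypeEquivalenceGrp.grpGroup Algebra.IsQuadraticExtension.toFree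
  FunLike.toDecidableEq NonUnitalAlgHomClass.toNonUnitalRingHomClass
  Algebra.instEtaleOfIsStandardEtale Field.instIsLocalRing AddGroup.existsAddOfLE
  AddGroupSeminormClass.toZeroHomClass MulRingSeminormClass.toMonoidWithZeroHomClass bot_nonempty
  SubringClass.toCommRing BialgHomClass.toMonoidHomClass SetLike.GradeZero.instSemiring
  RCLike.charZero_rclike ValuationRing.instLinearOrderIdealOfDecidableLE AlgEquivClass.toAlgHomClass
  AddQuantale.instAddLeftMono instCoeOutOfCoeFun Fintype.decidableForallFintype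
  EuclideanDomain.instIsDomain NormedField.toField KleeneAlgebra.toIdemSemiring
  IdemCommSemiring.toIdemSemiring TestFunctionClass.toDFunLike
  MulSemiringActionSemiHomClass.toDistribMulActionSemiHomClass NumberField.to_charZero
  LieAdmissibleAlgebra.toIsScalarTower Fin.addCommMonoid ValuationClass.toMonoidWithZeroHomClass
  Ideal.Quotient.instFaithfulSMul Ideal.Quotient.algebra_isIntegral_of_liesOver
  ContDiffMapSupportedInClass.toDFunLike instCoeHTCTOfCoeTailOfCoeHTC
  NonUnitalNormedRing.toNonUnitalSeminormedRing Action.FintypeCat.instMulActionObjFiniteOf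
  Field.isDomain CommMonTypeEquivalenceCommMon.commMonCommMonoid
  Algebra.FormallyEtale.subsingleton_kaehlerDifferential Nontrivial.to_nonempty Rat.isDomain
  SetLike.GradeZero.instCommRing RingConeClass.toSubsemiringClass
  Group.IsPerfect.subsingleton_of_isMulCommutative instSMulZeroClass
  CentroidHomClass.toAddMonoidHomClass LinearOrder.toDecidableEq IdemCommSemiring.toCommSemiring
  SetLike.GradeZero.instRing RightPreLieAlgebra.toIsScalarTower LeftPreLieAlgebra.toIsScalarTower
  instIsDomain DivisionRing.isDomain Real.instRCLike MulSemiringAction.toDistribMulAction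
  instIsFractionRing LieAdmissibleRing.instLieRing MulCharClass.toMonoidHomClass
  instIsIntegralQuotientIdeal AddQuantale.instAddRightMono LieRinehartAlgebra.toIsScalarTower
  BooleanRing.toRing MulDistribMulActionSemiHomClass.toMonoidHomClass instCoeTOfCoeDep
  CategoryTheory.Limits.Concrete.instUniqueToTypeTerminal DivisionRing.toDivisionSemiring
  Zero.instNonempty IsStrictOrderedRing.toCharZero SemilatticeInf.toPartialOrder
  Algebra.IsStandardSmoothOfRelativeDimension.subsingleton_kaehlerDifferential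
  IsometryClass.instCoeOutIsometryEquiv NonUnitalNormedCommRing.toNonUnitalSeminormedCommRing
  Module.Invertible.instProjective LieAdmissibleRing.toNonUnitalNonAssocRing NormedRing.toRing

-- part MP_d171e3_nt.H31.Defs
section

/-! Definitions for the several-variable G-function method for logarithms of primes. -/

namespace Pool.Agent.MP_d171e3_nt.H31

open MvPolynomial Finset

/-- truncated series of `log (1 + v)` -/
noncomputable def logT {A : Type*} [CommRing A] [Algebra ℂ A] (T : ℕ) (v : A) : A :=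
  ∑ s ∈ range T, ((-1) ^ s / (s + 1) : ℂ) • v ^ (s + 1)

/-- integer linear forms -/
def lin {ι κ A : Type*} [Fintype ι] [CommRing A] (a : κ → ι → ℤ) (x : ι → A) (j : κ) : A :=
  ∑ l, (a j l : A) * x l

/-- value at `(x, y)` of the integer polynomial with coefficients `p`
(exponents `< k` in each `x l`, `< D` in each `y j`) -/
def ev {ι κ A : Type*} [Fintype ι] [DecidableEq ι] [Fintype κ] [DecidableEq κ] [CommRing A]
    {k D : ℕ} (p : (ι → Fin k) × (κ → Fin D) → ℤ) (x : ι → A) (y : κ → A) : A :=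
  ∑ z, (p z : A) * ((∏ l, x l ^ (z.1 l : ℕ)) * ∏ j, y j ^ (z.2 j : ℕ))

/-- the polynomial `P(ξ + z, y + logT (lin z / (1 + lin ξ)))`, in `y` over `ℂ[z]` -/
noncomputable def jet {ι κ : Type*} [Fintype ι] [DecidableEq ι] [Fintype κ] [DecidableEq κ]
    (a : κ → ι → ℤ) {k D : ℕ} (p : (ι → Fin k) × (κ → Fin D) → ℤ) (ξ : ι → ℂ) (T : ℕ) :
    MvPolynomial κ (MvPolynomial ι ℂ) :=
  ev p (fun l => C (C (ξ l) + X l))
    (fun j => X j + C (logT T (C (1 + lin a ξ j)⁻¹ * lin a X j)))

/-- the maximal ideal of a point -/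
noncomputable def mx {σ : Type*} (ξ : σ → ℂ) : Ideal (MvPolynomial σ ℂ) := RingHom.ker (eval ξ)

/-- affine Hilbert function -/
noncomputable def hf {σ : Type*} (I : Ideal (MvPolynomial σ ℂ)) (m : ℕ) : ℕ :=
  Module.finrank ℂ ((restrictTotalDegree σ ℂ m).map (Ideal.Quotient.mkₐ ℂ I).toLinearMap)

/-- apply a derivation to the coefficients -/
noncomputable def cmap {κ A : Type*} [CommRing A] [Algebra ℂ A] (δ : Derivation ℂ A A)
    (Q : MvPolynomial κ A) : MvPolynomial κ A :=
  ∑ α ∈ Q.support, monomial α (δ (coeff α Q))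

/-- the derivation of `A[y]` extending `δ` with `y j ↦ v j` -/
noncomputable def DD {κ A : Type*} [Fintype κ] [CommRing A] [Algebra ℂ A] (δ : Derivation ℂ A A)
    (v : κ → A) (Q : MvPolynomial κ A) : MvPolynomial κ A :=
  cmap δ Q + ∑ j, C (v j) * pderiv j Q

/-- the substitution `y j ↦ y j + L j` -/
noncomputable def shift {κ A : Type*} [CommRing A] (L : κ → A) :
    MvPolynomial κ A →ₐ[A] MvPolynomial κ A :=
  aeval fun j => X j + C (L j)

/-- contraction of the coefficients with a complex functional -/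
noncomputable def ctr {κ A : Type*} [CommRing A] [Algebra ℂ A] (I : Finset (κ →₀ ℕ))
    (φ : (κ →₀ ℕ) → ℂ) (Q : MvPolynomial κ A) : A :=
  ∑ γ ∈ I, φ γ • coeff γ Q

lemma map_lin {ι κ A B F : Type*} [Fintype ι] [CommRing A] [CommRing B] [FunLike F A B]
    [RingHomClass F A B] (f : F) (a : κ → ι → ℤ) (x : ι → A) (j : κ) :
    f (lin a x j) = lin a (fun l => f (x l)) j := by
  simp only [lin, map_sum, map_mul, map_intCast]

lemma map_ev {ι κ A B F : Type*} [Fintype ι] [DecidableEq ι] [Fintype κ] [DecidableEq κ]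
    [CommRing A] [CommRing B] [FunLike F A B] [RingHomClass F A B] (f : F)
    {k D : ℕ} (p : (ι → Fin k) × (κ → Fin D) → ℤ) (x : ι → A) (y : κ → A) :
    f (ev p x y) = ev p (fun l => f (x l)) (fun j => f (y j)) := by
  simp only [ev, map_sum, map_mul, map_intCast, map_prod, map_pow]

lemma map_logT {A B : Type*} [CommRing A] [Algebra ℂ A] [CommRing B] [Algebra ℂ B]
    (f : A →ₐ[ℂ] B) (T : ℕ) (v : A) : f (logT T v) = logT T (f v) := by
  simp only [logT, map_sum, map_smul, map_pow]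

lemma mem_mx {σ : Type*} {ξ : σ → ℂ} {f : MvPolynomial σ ℂ} : f ∈ mx ξ ↔ eval ξ f = 0 :=
  RingHom.mem_ker

lemma coeff_cmap {κ A : Type*} [CommRing A] [Algebra ℂ A] (δ : Derivation ℂ A A)
    (Q : MvPolynomial κ A) (α : κ →₀ ℕ) : coeff α (cmap δ Q) = δ (coeff α Q) := by
  classical
  simp only [cmap, coeff_sum, coeff_monomial, Finset.sum_ite_eq', mem_support_iff]
  split_ifs with h
  · rfl
  · rw [not_not.1 h, map_zero]

lemma coeff_DD {κ A : Type*} [Fintype κ] [CommRing A] [Algebra ℂ A] (δ : Derivation ℂ A A)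
    (v : κ → A) (Q : MvPolynomial κ A) (β : κ →₀ ℕ) : coeff β (DD δ v Q) =
      δ (coeff β Q) + ∑ j, v j * (coeff (β + Finsupp.single j 1) Q * (β j + 1)) := by
  simp only [DD, coeff_add, coeff_cmap, coeff_sum, coeff_C_mul, coeff_pderiv]

lemma logT_der {A : Type*} [CommRing A] [Algebra ℂ A] (δ : Derivation ℂ A A) (T : ℕ) (v : A) :
    (1 + v) * δ (logT T v) = (1 - (-v) ^ T) * δ v := by
  induction T with
  | zero => simp only [logT, range_zero, sum_empty, map_zero, mul_zero, pow_zero, sub_self, zero_mul]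
  | succ T ih =>
    rw [logT, Finset.sum_range_succ, ← logT, map_add, mul_add, ih, Derivation.map_smul,
      Derivation.leibniz_pow]
    have h : ((T : ℂ) + 1) ≠ 0 := by exact_mod_cast Nat.succ_ne_zero T
    have h2 : ((-1) ^ T / (T + 1) : ℂ) • ((T + 1) • v ^ (T + 1 - 1) • δ v) = (-v) ^ T * δ v := by
      rw [← Nat.cast_smul_eq_nsmul ℂ, smul_smul, Nat.add_sub_cancel, smul_eq_mul]
      push_cast
      rw [div_mul_cancel₀ _ h, neg_pow v, Algebra.smul_def]
      simp only [map_pow, map_neg, map_one, mul_assoc]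
    rw [h2]
    ring

end Pool.Agent.MP_d171e3_nt.H31

end

-- part MP_d171e3_nt.H31.Hilb
section

/-! Basic properties of the affine Hilbert function. -/

namespace Pool.Agent.MP_d171e3_nt.H31

open MvPolynomial Finset

variable {σ : Type*} [Fintype σ]

lemma hilb_mem (I : Ideal (MvPolynomial σ ℂ)) {m : ℕ} {f : MvPolynomial σ ℂ}
    (hf : f.totalDegree ≤ m) : Ideal.Quotient.mk I f ∈
      (restrictTotalDegree σ ℂ m).map (Ideal.Quotient.mkₐ ℂ I).toLinearMap :=
  ⟨f, (mem_restrictTotalDegree σ m f).2 hf, rfl⟩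

theorem hf_mono (I : Ideal (MvPolynomial σ ℂ)) : Monotone (hf I) := by
  intro m n h
  refine Submodule.finrank_mono (Submodule.map_mono fun f hf => ?_)
  exact (mem_restrictTotalDegree σ n f).2 (((mem_restrictTotalDegree σ m f).1 hf).trans h)

theorem le_hf (I : Ideal (MvPolynomial σ ℂ)) {m : ℕ} {α : Type*} [Fintype α]
    (v : α → MvPolynomial σ ℂ) (hv : ∀ i, (v i).totalDegree ≤ m)
    (hli : LinearIndependent ℂ fun i => Ideal.Quotient.mk I (v i)) :
    Fintype.card α ≤ hf I m := by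
  have h : LinearIndependent ℂ fun i => (⟨Ideal.Quotient.mk I (v i), hilb_mem I (hv i)⟩ :
      (restrictTotalDegree σ ℂ m).map (Ideal.Quotient.mkₐ ℂ I).toLinearMap) :=
    LinearIndependent.of_comp (Submodule.subtype _) hli
  exact h.fintype_card_le_finrank

theorem hf_le (I : Ideal (MvPolynomial σ ℂ)) {m : ℕ} {α : Type*} [Fintype α]
    (v : α → MvPolynomial σ ℂ)
    (hv : ∀ f : MvPolynomial σ ℂ, f.totalDegree ≤ m →
      Ideal.Quotient.mk I f ∈ Submodule.span ℂ (Set.range fun i => Ideal.Quotient.mk I (v i))) :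
    hf I m ≤ Fintype.card α := by
  refine le_trans ?_ (finrank_range_le_card (R := ℂ) fun i => Ideal.Quotient.mk I (v i))
  have := Module.Finite.span_of_finite ℂ
    (Set.finite_range fun i => Ideal.Quotient.mk I (v i))
  refine Submodule.finrank_mono ?_
  rintro _ ⟨f, hf, rfl⟩
  exact hv f ((mem_restrictTotalDegree σ m f).1 hf)

/-- converse of `hf_le`: a spanning family of size `hf I m`. -/
theorem exists_hf_span (I : Ideal (MvPolynomial σ ℂ)) (m : ℕ) :
    ∃ v : Fin (hf I m) → MvPolynomial σ ℂ, (∀ i, (v i).totalDegree ≤ m) ∧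
      (LinearIndependent ℂ fun i => Ideal.Quotient.mk I (v i)) ∧
      ∀ f : MvPolynomial σ ℂ, f.totalDegree ≤ m →
        Ideal.Quotient.mk I f ∈ Submodule.span ℂ (Set.range fun i => Ideal.Quotient.mk I (v i)) := by
  let W := (restrictTotalDegree σ ℂ m).map (Ideal.Quotient.mkₐ ℂ I).toLinearMap
  let b : Module.Basis (Fin (hf I m)) ℂ W := Module.finBasis ℂ W
  choose v hv hv' using fun i => (b i).2
  have e : (fun i => Ideal.Quotient.mk I (v i)) = W.subtype ∘ b := funext hv'
  refine ⟨v, fun i => (mem_restrictTotalDegree σ m _).1 (hv i), ?_, fun f h => ?_⟩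
  · rw [e]
    exact b.linearIndependent.map' _ (Submodule.ker_subtype W)
  · rw [e, Set.range_comp, ← Submodule.map_span, b.span_eq]
    exact ⟨⟨_, hilb_mem I h⟩, trivial, rfl⟩

lemma hilb_sum (I : Ideal (MvPolynomial σ ℂ)) {α : Type*} [Fintype α] (a : α → ℂ)
    (v : α → MvPolynomial σ ℂ) :
    ∑ i, a i • Ideal.Quotient.mk I (v i) = 0 ↔ ∑ i, a i • v i ∈ I := by
  rw [← Ideal.Quotient.eq_zero_iff_mem, ← Ideal.Quotient.mkₐ_eq_mk ℂ, map_sum]
  simp only [map_smul]

/-- The exact sequence `0 → R/(I:f) → R/I → R/(I+f) → 0`. -/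
theorem hf_add (I : Ideal (MvPolynomial σ ℂ)) (f : MvPolynomial σ ℂ) {T : ℕ}
    (hT : f.totalDegree ≤ T) (m : ℕ) :
    hf (I ⊔ Ideal.span {f}) (m + T) + hf (I.colon {f}) m ≤ hf I (m + T) := by
  obtain ⟨v, h1, h2, -⟩ := exists_hf_span (I ⊔ Ideal.span {f}) (m + T)
  obtain ⟨w, k1, k2, -⟩ := exists_hf_span (I.colon {f}) m
  have h := le_hf I (m := m + T) (Sum.elim v fun i => f * w i) ?_ ?_
  · simpa only [ge_iff_le, Fintype.card_sum, Fintype.card_fin] using h
  · rintro (i | i)
    · exact h1 i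
    · exact (totalDegree_mul _ _).trans (by have := k1 i; omega)
  · rw [Fintype.linearIndependent_iff] at h2 k2 ⊢
    intro g hg
    rw [hilb_sum, Fintype.sum_sum_type] at hg
    simp only [Sum.elim_inl, Sum.elim_inr, ← mul_smul_comm, ← mul_sum] at hg
    have a : ∀ i, g (Sum.inl i) = 0 := by
      refine h2 (fun i => g (Sum.inl i)) ((hilb_sum _ _ _).2 ?_)
      have := sub_mem (Ideal.mem_sup_left (T := Ideal.span {f}) hg)
        (Ideal.mem_sup_right (S := I) (Ideal.mul_mem_right (∑ i, g (Sum.inr i) • w i) _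
          (Ideal.mem_span_singleton_self f)))
      rwa [add_sub_cancel_right] at this
    have b : ∀ i, g (Sum.inr i) = 0 := by
      refine k2 (fun i => g (Sum.inr i)) ((hilb_sum _ _ _).2 ?_)
      simp only [a, zero_smul, sum_const_zero, zero_add] at hg
      rw [Submodule.mem_colon_singleton, smul_eq_mul, mul_comm]
      exact hg
    rintro (i | i)
    exacts [a i, b i]

end Pool.Agent.MP_d171e3_nt.H31

end

-- part MP_d171e3_nt.H31.Curve
section

/-! A curve of small degree through many of the given points. -/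

namespace Pool.Agent.MP_d171e3_nt.H31

open MvPolynomial Finset

lemma curve_deg {σ : Type*} {f : MvPolynomial σ ℂ} {s : σ →₀ ℕ} (h : s ∈ f.support) :
    s.degree ≤ f.totalDegree := le_totalDegree h

/-- reduction of monomials by rewriting rules -/
lemma curve_rw {σ : Type*} (W : Submodule ℂ (MvPolynomial σ ℂ)) (μ : (σ →₀ ℕ) → ℕ) (m : ℕ)
    (h : ∀ s : σ →₀ ℕ, s.degree ≤ m → monomial s (1 : ℂ) ∈ W ∨
      ∃ (r u : σ →₀ ℕ) (g : MvPolynomial σ ℂ), s = r + u ∧ monomial r (1 : ℂ) * g ∈ W ∧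
        coeff u g ≠ 0 ∧ ∀ t ∈ g.support, t ≠ u → t.degree ≤ u.degree ∧ μ (r + t) < μ s)
    (f : MvPolynomial σ ℂ) (hf : f.totalDegree ≤ m) : f ∈ W := by
  classical
  have key : ∀ N, ∀ s : σ →₀ ℕ, μ s < N → s.degree ≤ m → monomial s (1 : ℂ) ∈ W := by
    intro N
    induction N with
    | zero => intro s hs; omega
    | succ N ih =>
      intro s hs hd
      rcases h s hd with h1 | ⟨r, u, g, rfl, hW, hc, ht⟩
      · exact h1
      · have e : monomial r (1 : ℂ) * g = coeff u g • monomial (r + u) (1 : ℂ) +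
            ∑ t ∈ g.support.erase u, coeff t g • monomial (r + t) (1 : ℂ) := by
          conv_lhs => rw [g.as_sum, mul_sum, ← add_sum_erase _ _ (mem_support_iff.2 hc)]
          simp only [monomial_mul, one_mul, smul_monomial, smul_eq_mul, mul_one]
        have h2 : ∑ t ∈ g.support.erase u, coeff t g • monomial (r + t) (1 : ℂ) ∈ W := by
          refine W.sum_mem fun t htm => W.smul_mem _ ?_
          obtain ⟨h3, h4⟩ := ht t (mem_of_mem_erase htm) (ne_of_mem_erase htm)
          refine ih _ (by omega) ?_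
          rw [map_add] at hd ⊢
          omega
        rw [e] at hW
        exact (W.smul_mem_iff hc).1 ((W.add_mem_iff_left h2).1 hW)
  rw [f.as_sum]
  refine W.sum_mem fun s hs => ?_
  have : monomial s (coeff s f) = coeff s f • monomial s (1 : ℂ) := by simp only [smul_monomial, smul_eq_mul, mul_one]
  rw [this]
  exact W.smul_mem _ (key _ s (Nat.lt_succ_self _) ((curve_deg hs).trans hf))

lemma curve_split {σ : Type*} (s : σ →₀ ℕ) (j : σ) {d : ℕ} (h : d ≤ s j) :
    ∃ r, s = r + Finsupp.single j d :=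
  ⟨s - Finsupp.single j d, (tsub_add_cancel_of_le (Finsupp.single_le_iff.2 h)).symm⟩

lemma curve_a (n γ : ℕ) (g : Fin n → MvPolynomial (Fin (n + 1)) ℂ)
    (hg : ∀ j, (g j).totalDegree < γ) (I : Ideal (MvPolynomial (Fin (n + 1)) ℂ))
    (hI : ∀ j, X j.succ ^ γ - g j ∈ I) (m : ℕ) : hf I m ≤ γ ^ n * (m + 1) := by
  classical
  let v : (Fin n → Fin γ) × Fin (m + 1) → MvPolynomial (Fin (n + 1)) ℂ := fun a =>
    monomial (Finsupp.cons (a.2 : ℕ) (Finsupp.equivFunOnFinite.symm fun j => (a.1 j : ℕ))) 1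
  refine (hf_le I v fun f hf => ?_).trans (by simp only [Fintype.card_prod, Fintype.card_pi, Fintype.card_fin, prod_const, card_univ, Std.le_refl])
  refine curve_rw ((Submodule.span ℂ (Set.range fun i => Ideal.Quotient.mk I (v i))).comap
    (Ideal.Quotient.mkₐ ℂ I).toLinearMap) Finsupp.degree m (fun s hs => ?_) f hf
  by_cases h : ∀ j : Fin n, s j.succ < γ
  · left
    refine Submodule.subset_span ⟨(fun j => ⟨_, h j⟩,
      ⟨s 0, Nat.lt_succ_of_le ((Finsupp.le_degree 0 s).trans hs)⟩), ?_⟩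
    have : Finsupp.cons (s 0) (Finsupp.equivFunOnFinite.symm fun j => s j.succ) = s := by
      ext i
      cases i using Fin.cases <;> simp only [Finsupp.cons_zero, Finsupp.cons_succ, Finsupp.equivFunOnFinite_symm_apply_apply]
    simp only [v, this]
    rfl
  · right
    push Not at h
    obtain ⟨j, hj⟩ := h
    obtain ⟨r, hr⟩ := curve_split s j.succ hj
    have hc : coeff (Finsupp.single j.succ γ) (g j) = 0 := by
      by_contra h0
      have := curve_deg (mem_support_iff.2 h0)
      have := hg j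
      simp only [Finsupp.degree_single] at *
      omega
    refine ⟨r, _, X j.succ ^ γ - g j, hr, ?_, ?_, fun t ht hne => ?_⟩
    · have : Ideal.Quotient.mk I (monomial r 1 * (X j.succ ^ γ - g j)) = 0 :=
        Ideal.Quotient.eq_zero_iff_mem.2 (I.mul_mem_left _ (hI j))
      simp only [Submodule.mem_comap, AlgHom.toLinearMap_apply, Ideal.Quotient.mkₐ_eq_mk, this]
      exact Submodule.zero_mem _
    · simp [coeff_X_pow, hc]
    · have h1 : t ∈ (g j).support := by
        rw [mem_support_iff] at ht ⊢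
        simpa [coeff_X_pow, hne.symm] using ht
      have := curve_deg h1
      have := hg j
      rw [hr, map_add, map_add, Finsupp.degree_single]
      omega

/-- selection of points on which the evaluation is onto -/
lemma curve_sel {ι V : Type*} [AddCommGroup V] [Module ℂ V] [Module.Finite ℂ V]
    (φ : ι → V →ₗ[ℂ] ℂ) (Z : Finset ι) (hinj : ∀ v, (∀ ξ ∈ Z, φ ξ v = 0) → v = 0) :
    ∃ Z' ⊆ Z, Module.finrank ℂ V ≤ Z'.card ∧ ∀ y : ι → ℂ, ∃ v, ∀ ξ ∈ Z', φ ξ v = y ξ := by
  classical
  obtain ⟨Z', hZ', hmax⟩ := exists_max_image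
    (Z.powerset.filter fun Y => ∀ y : ι → ℂ, ∃ v, ∀ ξ ∈ Y, φ ξ v = y ξ) card
    ⟨∅, by simp only [mem_filter, mem_powerset, empty_subset, notMem_empty, IsEmpty.forall_iff, implies_true, exists_const, and_self]⟩
  rw [mem_filter, mem_powerset] at hZ'
  refine ⟨Z', hZ'.1, ?_, hZ'.2⟩
  have hi : Function.Injective (LinearMap.pi fun ξ : Z' => φ ξ) := by
    rw [injective_iff_map_eq_zero]
    intro v hv
    have hv' : ∀ ξ ∈ Z', φ ξ v = 0 := fun ξ hξ => congrFun hv ⟨ξ, hξ⟩
    by_contra h0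
    obtain ⟨η, hη, hne⟩ : ∃ η ∈ Z, φ η v ≠ 0 := by
      by_contra hc
      push Not at hc
      exact h0 (hinj v hc)
    have hη' : η ∉ Z' := fun h => hne (hv' η h)
    have := hmax (insert η Z') (by
      rw [mem_filter, mem_powerset]
      refine ⟨insert_subset hη hZ'.1, fun y => ?_⟩
      obtain ⟨u, hu⟩ := hZ'.2 y
      refine ⟨u + ((y η - φ η u) / φ η v) • v, fun ξ hξ => ?_⟩
      rcases mem_insert.1 hξ with rfl | hξ
      · rw [map_add, map_smul, smul_eq_mul, div_mul_cancel₀ _ hne]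
        ring
      · simp [hu ξ hξ, hv' ξ hξ])
    rw [card_insert_of_notMem hη'] at this
    omega
  simpa only [ge_iff_le, Module.finrank_fintype_fun_eq_card, Fintype.card_coe] using LinearMap.finrank_le_finrank_of_injective hi

lemma curve_dim (n E d : ℕ) (h : n * E ≤ d + 1) (hn : 0 < n) :
    E ^ n ≤ Module.finrank ℂ (restrictTotalDegree (Fin n) ℂ d) := by
  let e : (Fin n → Fin E) → (Fin n →₀ ℕ) := fun a =>
    Finsupp.equivFunOnFinite.symm fun j => (a j : ℕ)
  have he : Function.Injective e := fun a b hab => by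
    ext j
    simpa [e] using DFunLike.congr_fun hab j
  have hm : ∀ a, monomial (e a) (1 : ℂ) ∈ restrictTotalDegree (Fin n) ℂ d := fun a => by
    rw [mem_restrictTotalDegree]
    refine (totalDegree_monomial_le _ _).trans ?_
    have h1 : ∑ j : Fin n, ((a j : ℕ) + 1) ≤ ∑ j : Fin n, E := sum_le_sum fun j _ => (a j).2
    rw [Finsupp.sum_fintype _ _ (by simp)]
    simp only [sum_add_distrib, sum_const, card_univ, Fintype.card_fin, smul_eq_mul, mul_one] at h1
    simp only [e, Finsupp.equivFunOnFinite_symm_apply_apply, id_eq, ge_iff_le]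
    omega
  have hli : LinearIndependent ℂ fun a => (⟨_, hm a⟩ : restrictTotalDegree (Fin n) ℂ d) := by
    refine LinearIndependent.of_comp (Submodule.subtype _) ?_
    simpa only [Submodule.coe_subtype, Function.comp_def, coe_basisMonomials] using (basisMonomials (Fin n) ℂ).linearIndependent.comp e he
  simpa only [ge_iff_le, Fintype.card_pi, Fintype.card_fin, prod_const, card_univ] using hli.fintype_card_le_finrank

/-- the linear change of variables -/
noncomputable def curve_T {n : ℕ} (a : ℂ) (c : Fin n → ℂ) :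
    MvPolynomial (Fin (n + 1)) ℂ →ₐ[ℂ] MvPolynomial (Fin (n + 1)) ℂ :=
  aeval (Fin.cons (C a * X 0) fun l => X l.succ + C (c l) * X 0)

lemma curve_T_hom {n d : ℕ} (a : ℂ) (c : Fin n → ℂ) {f : MvPolynomial (Fin (n + 1)) ℂ}
    (hf : f.IsHomogeneous d) : (curve_T a c f).IsHomogeneous d := by
  have := hf.aeval (n := 1) (Fin.cons (C a * X 0) fun l => X l.succ + C (c l) * X 0 :
    Fin (n + 1) → MvPolynomial (Fin (n + 1)) ℂ) fun i => by
      cases i using Fin.cases with
      | zero => exact isHomogeneous_C_mul_X _ _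
      | succ i => exact (isHomogeneous_X _ _).add (isHomogeneous_C_mul_X _ _)
  rwa [one_mul] at this

lemma curve_T_deg {n : ℕ} (a : ℂ) (c : Fin n → ℂ) (f : MvPolynomial (Fin (n + 1)) ℂ) :
    (curve_T a c f).totalDegree ≤ f.totalDegree := by
  conv_lhs => rw [← sum_homogeneousComponent f, map_sum]
  refine totalDegree_finsetSum_le fun d hd => ?_
  exact (curve_T_hom a c (homogeneousComponent_isHomogeneous d f)).totalDegree_le.trans
    (Nat.le_of_lt_succ (mem_range.1 hd))

lemma curve_T_eval {n : ℕ} (a : ℂ) (c : Fin n → ℂ) (f : MvPolynomial (Fin (n + 1)) ℂ)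
    (ξ : Fin (n + 1) → ℂ) : eval ξ (curve_T a c f) =
      eval (Fin.cons (a * ξ 0) fun l => ξ l.succ + c l * ξ 0 : Fin (n + 1) → ℂ) f := by
  rw [curve_T, aeval_eq_bind₁, eval, eval₂Hom_bind₁, eval]
  congr 2
  ext i
  cases i using Fin.cases <;> simp

lemma curve_T_inv {n : ℕ} {a : ℂ} (ha : a ≠ 0) (c : Fin n → ℂ)
    (f : MvPolynomial (Fin (n + 1)) ℂ) :
    curve_T a⁻¹ (fun l => -c l * a⁻¹) (curve_T a c f) = f := by
  refine MvPolynomial.funext fun ξ => ?_
  rw [curve_T_eval, curve_T_eval]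
  congr 2
  ext i
  cases i using Fin.cases <;> simp only [neg_mul, mul_assoc, Fin.cons_zero, ne_eq, ha, not_false_eq_true, mul_inv_cancel_left₀, Fin.cons_succ, neg_add_cancel_right]

lemma curve_lead {n d : ℕ} {f : MvPolynomial (Fin (n + 1)) ℂ} (hf : f.IsHomogeneous d) :
    eval (Fin.cons 1 0 : Fin (n + 1) → ℂ) f = coeff (Finsupp.single 0 d) f := by
  classical
  rw [eval_eq', sum_eq_single (Finsupp.single 0 d)]
  · simp only [Fin.prod_univ_succ, Fin.cons_zero, Finsupp.single_eq_same, one_pow, Fin.cons_succ, Pi.zero_apply, ne_eq, Fin.succ_ne_zero, not_false_eq_true, Finsupp.single_eq_of_ne, pow_zero, prod_const_one, mul_one]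
  · intro t ht hne
    by_contra h0
    have h1 := right_ne_zero_of_mul h0
    rw [Fin.prod_univ_succ] at h1
    have h2 : ∀ l : Fin n, t l.succ = 0 := fun l => by
      have := prod_ne_zero_iff.1 (right_ne_zero_of_mul h1) l (mem_univ _)
      simpa using this
    have h3 : t.degree = d := by
      by_contra h4
      exact mem_support_iff.1 ht (hf.coeff_eq_zero h4)
    rw [Finsupp.degree_eq_sum, Fin.sum_univ_succ] at h3
    apply hne
    ext i
    cases i using Fin.cases <;> simp_all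
  · intro h
    simp [notMem_support_iff.1 h]

lemma curve_c {n : ℕ} {g : MvPolynomial (Fin (n + 1)) ℂ} (hg : g ≠ 0) :
    ∃ a c, a ≠ 0 ∧ coeff (Finsupp.single 0 g.totalDegree) (curve_T a c g) ≠ 0 := by
  classical
  have hH : homogeneousComponent g.totalDegree g ≠ 0 := by
    obtain ⟨s, hs, hd⟩ := exists_mem_eq_sup g.support (support_nonempty.2 hg)
      fun s => s.sum fun _ e => e
    intro h0
    have := coeff_homogeneousComponent g.totalDegree g s
    rw [h0, if_pos (by exact hd.symm)] at this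
    exact mem_support_iff.1 hs this.symm
  obtain ⟨x, hx⟩ : ∃ x, eval x (X 0 * homogeneousComponent g.totalDegree g) ≠ 0 := by
    by_contra hc
    push Not at hc
    exact mul_ne_zero (X_ne_zero _) hH (MvPolynomial.funext fun x => by rw [hc x, map_zero])
  rw [map_mul, eval_X] at hx
  refine ⟨x 0, fun l => x l.succ, left_ne_zero_of_mul hx, ?_⟩
  have e : ∀ T : _ →ₐ[ℂ] MvPolynomial (Fin (n + 1)) ℂ, T g =
      ∑ d ∈ range (g.totalDegree + 1), T (homogeneousComponent d g) := fun T => by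
    rw [← map_sum, sum_homogeneousComponent]
  rw [e, coeff_sum, sum_range_succ, sum_eq_zero, zero_add,
    ← curve_lead (curve_T_hom _ _ (homogeneousComponent_isHomogeneous _ g)), curve_T_eval]
  · convert right_ne_zero_of_mul hx using 3
    ext i
    cases i using Fin.cases <;> simp
  · intro d hd
    refine (curve_T_hom _ _ (homogeneousComponent_isHomogeneous d g)).coeff_eq_zero ?_
    rw [Finsupp.degree_single]
    exact (mem_range.1 hd).ne'

lemma curve_fib {n δ : ℕ} {g : MvPolynomial (Fin (n + 1)) ℂ} (hd : g.totalDegree ≤ δ)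
    (hc : coeff (Finsupp.single 0 δ) g ≠ 0) (η : Fin n → ℂ) (Y : Finset ℂ)
    (hY : ∀ y ∈ Y, eval (Fin.cons y η : Fin (n + 1) → ℂ) g = 0) : Y.card ≤ δ := by
  have h0 : coeff 0 ((finSuccEquiv ℂ n g).coeff δ) ≠ 0 := by
    rw [finSuccEquiv_coeff_coeff]
    convert hc using 2
    ext i
    cases i using Fin.cases <;> simp
  have h1 := totalDegree_coeff_finSuccEquiv_add_le g δ (fun h => h0 (by simp [h]))
  have h2 := totalDegree_eq_zero_iff_eq_C.1
    (show ((finSuccEquiv ℂ n g).coeff δ).totalDegree = 0 by omega)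
  have h3 : Polynomial.map (eval η) (finSuccEquiv ℂ n g) ≠ 0 := fun h => h0 (by
    have := congrArg (fun p => Polynomial.coeff p δ) h
    simp only [Polynomial.coeff_map, Polynomial.coeff_zero] at this
    rwa [h2, eval_C] at this)
  refine (Polynomial.card_le_degree_of_subset_roots (p := Polynomial.map (eval η)
    (finSuccEquiv ℂ n g)) fun y hy => ?_).trans ?_
  · rw [Polynomial.mem_roots h3, Polynomial.IsRoot, ← eval_eq_eval_mv_eval']
    exact hY y hy
  · refine Polynomial.natDegree_map_le.trans ?_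
    rw [natDegree_finSuccEquiv]
    exact (degreeOf_le_totalDegree _ _).trans hd

lemma curve_b {n δ : ℕ} {g : MvPolynomial (Fin (n + 1)) ℂ} (hd : g.totalDegree ≤ δ)
    (hc : coeff (Finsupp.single 0 δ) g ≠ 0)
    (T T' : MvPolynomial (Fin (n + 1)) ℂ →ₐ[ℂ] MvPolynomial (Fin (n + 1)) ℂ)
    (hT : ∀ f, T (T' f) = f) (hT' : ∀ f, (T' f).totalDegree ≤ f.totalDegree)
    (I : Ideal (MvPolynomial (Fin (n + 1)) ℂ)) (J : Ideal (MvPolynomial (Fin n) ℂ))
    (hg : T g ∈ I) (hJ : ∀ f ∈ J, T (rename Fin.succ f) ∈ I) (m : ℕ) :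
    hf I m ≤ δ * hf J m := by
  classical
  obtain ⟨v, -, -, hv⟩ := exists_hf_span J m
  let u : Fin δ × Fin (hf J m) → MvPolynomial (Fin (n + 1)) ℂ := fun a =>
    T (X 0 ^ (a.1 : ℕ) * rename Fin.succ (v a.2))
  refine (hf_le I u fun f hf => ?_).trans (by simp only [Fintype.card_prod, Fintype.card_fin, Std.le_refl])
  rw [← hT f]
  refine curve_rw ((Submodule.span ℂ (Set.range fun i => Ideal.Quotient.mk I (u i))).comap
    ((Ideal.Quotient.mkₐ ℂ I).comp T).toLinearMap) (fun s => s 0) m (fun s hs => ?_) (T' f)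
    ((hT' f).trans hf)
  simp only [Submodule.mem_comap, AlgHom.toLinearMap_apply, AlgHom.comp_apply,
    Ideal.Quotient.mkₐ_eq_mk]
  by_cases h : s 0 < δ
  · left
    have h1 : (monomial s.tail (1 : ℂ)).totalDegree ≤ m := by
      refine (totalDegree_monomial_le _ _).trans (le_trans ?_ hs)
      rw [Finsupp.sum_fintype _ _ (by simp), Finsupp.degree_eq_sum, Fin.sum_univ_succ]
      exact Nat.le_add_left _ _
    obtain ⟨c, hc⟩ := (Submodule.mem_span_range_iff_exists_fun ℂ).1 (hv _ h1)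
    have h2 : monomial s.tail (1 : ℂ) - ∑ i, c i • v i ∈ J := by
      rw [← Ideal.Quotient.eq, ← hc, map_sum]
      rfl
    have h3 : monomial s (1 : ℂ) = X 0 ^ s 0 * rename Fin.succ (monomial s.tail (1 : ℂ)) := by
      rw [rename_monomial, X_pow_eq_monomial, monomial_mul, one_mul]
      congr 2
      ext i
      cases i using Fin.cases with
      | zero => simp only [Finsupp.coe_add, Pi.add_apply, Finsupp.single_eq_same, Fin.range_succ, Set.mem_compl_iff, Set.mem_singleton_iff, not_true_eq_false, not_false_eq_true, Finsupp.mapDomain_of_notMem_range, add_zero]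
      | succ i => simp only [Finsupp.coe_add, Pi.add_apply, ne_eq, Fin.succ_ne_zero, not_false_eq_true, Finsupp.single_eq_of_ne, Finsupp.mapDomain_apply (Fin.succ_injective _), Finsupp.tail_apply, zero_add]
    have h4 : Ideal.Quotient.mk I (T (monomial s 1)) =
        Ideal.Quotient.mk I (∑ i, c i • u (⟨_, h⟩, i)) := by
      rw [Ideal.Quotient.eq]
      convert I.mul_mem_left (T (X 0 ^ s 0)) (hJ _ h2) using 1
      simp only [h3, map_mul, map_pow, u, map_sub, map_sum, map_smul, mul_sub, mul_sum, Algebra.mul_smul_comm]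
    rw [h4, map_sum]
    exact Submodule.sum_mem _ fun i _ =>
      Submodule.smul_mem _ (c i) (Submodule.subset_span (Set.mem_range_self
        (f := fun i => Ideal.Quotient.mk I (u i)) (⟨_, h⟩, i)))
  · right
    obtain ⟨r, hr⟩ := curve_split s 0 (not_lt.1 h)
    refine ⟨r, _, g, hr, ?_, hc, fun t ht hne => ?_⟩
    · rw [map_mul, Ideal.Quotient.eq_zero_iff_mem.2 (I.mul_mem_left _ hg)]
      exact Submodule.zero_mem _
    · have h1 := (curve_deg ht).trans hd
      refine ⟨by simpa using h1, ?_⟩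
      rw [Finsupp.degree_eq_sum, Fin.sum_univ_succ] at h1
      have h2 : t 0 ≠ δ := fun h2 => hne (by
        have h3 : ∑ i : Fin n, t i.succ = 0 := by omega
        ext i
        cases i using Fin.cases <;> simp_all)
      rw [hr]
      simp only [Finsupp.add_apply, Finsupp.single_eq_same]
      omega

/-- Any large finite set of points of `ℂ^(w+1)` has more than `B e` points on the zero set of
`w` polynomials whose Hilbert function is at most `e (m+1)`. -/
theorem curve (w B : ℕ) : ∃ S : ℕ, ∀ Z : Finset (Fin (w + 1) → ℂ), S ≤ Z.card →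
    ∃ (G : Finset (MvPolynomial (Fin (w + 1)) ℂ)) (e : ℕ) (Z' : Finset (Fin (w + 1) → ℂ)),
      Z' ⊆ Z ∧ G.card ≤ w ∧ B * e < Z'.card ∧ (∀ g ∈ G, ∀ ξ ∈ Z', eval ξ g = 0) ∧
      ∀ m, hf (Ideal.span (G : Set (MvPolynomial (Fin (w + 1)) ℂ))) m ≤ e * (m + 1) := by
  classical
  induction w generalizing B with
  | zero =>
    refine ⟨B + 1, fun Z hZ => ⟨∅, 1, Z, Subset.rfl, by simp, by omega, by simp only [Nat.reduceAdd, notMem_empty, IsEmpty.forall_iff, implies_true], fun m => ?_⟩⟩
    simpa only [Nat.reduceAdd, coe_empty, Submodule.span_empty, one_mul, pow_zero] using curve_a 0 1 Fin.elim0 (fun j => j.elim0) _ (fun j => j.elim0) m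
  | succ w ih =>
    set E := B * (w + 2) ^ (w + 1) + 1 with hE
    obtain ⟨d, hd⟩ : ∃ d, (w + 2) * E = d + 1 := ⟨(w + 2) * E - 1, by
      have : 0 < (w + 2) * E := by positivity
      omega⟩
    obtain ⟨S, hS⟩ := ih (B * (d + 1))
    refine ⟨(d + 1) * S, fun Z hZ => ?_⟩
    let V := restrictTotalDegree (Fin (w + 2)) ℂ d
    by_cases hinj : ∀ v : V, (∀ ξ ∈ Z, eval ξ v.1 = 0) → v = 0
    · obtain ⟨Z', h1, h2, h3⟩ :=
        curve_sel (fun ξ => (aeval ξ).toLinearMap ∘ₗ V.subtype) Z hinj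
      choose g hg using fun j : Fin (w + 1) => h3 fun ξ => ξ j.succ ^ (d + 1)
      refine ⟨univ.image fun j => X j.succ ^ (d + 1) - (g j).1, (d + 1) ^ (w + 1), Z', h1,
        card_image_le.trans (by simp), ?_, ?_, fun m => ?_⟩
      · refine lt_of_lt_of_le ?_ ((curve_dim (w + 2) E d hd.le (by omega)).trans h2)
        rw [← hd, mul_pow, ← mul_assoc, pow_succ' E (w + 1)]
        exact Nat.mul_lt_mul_of_pos_right (Nat.lt_succ_self _) (pow_pos (Nat.succ_pos _) _)
      · intro f hf ξ hξ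
        obtain ⟨j, -, rfl⟩ := mem_image.1 hf
        have : eval ξ (g j).1 = _ := hg j ξ hξ
        simp [this]
      · exact curve_a (w + 1) (d + 1) (fun j => (g j).1)
          (fun j => Nat.lt_succ_of_le ((mem_restrictTotalDegree _ _ _).1 (g j).2)) _
          (fun j => Ideal.subset_span (by simp only [coe_image, coe_univ, Set.image_univ, Set.mem_range, exists_apply_eq_apply])) m
    · push Not at hinj
      obtain ⟨g, hg, hg0⟩ := hinj
      obtain ⟨a, c, ha, hc⟩ := curve_c (g := g.1) (by simpa using hg0)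
      have hδ : g.1.totalDegree ≤ d := (mem_restrictTotalDegree _ _ _).1 g.2
      have hT := curve_T_inv ha c
      let π : (Fin (w + 2) → ℂ) → Fin (w + 1) → ℂ := fun ξ l => ξ l.succ + -c l * a⁻¹ * ξ 0
      have hfib : ∀ η ∈ Z.image π, (Z.filter fun ξ => π ξ = η).card ≤ d + 1 := by
        intro η _
        rw [← card_image_of_injOn (f := fun ξ => a⁻¹ * ξ 0)]
        · refine (curve_fib (curve_T_deg a c g.1) hc η _ fun y hy => ?_).trans (by omega)
          obtain ⟨ξ, hξ, rfl⟩ := mem_image.1 hy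
          obtain ⟨h1, rfl⟩ := mem_filter.1 hξ
          rw [← hg ξ h1, ← curve_T_eval, hT]
        · intro ξ hξ ξ' hξ' h
          have h0 : ξ 0 = ξ' 0 := mul_left_cancel₀ (inv_ne_zero ha) h
          have h1 := (mem_filter.1 hξ).2.trans (mem_filter.1 hξ').2.symm
          ext i
          cases i using Fin.cases with
          | zero => exact h0
          | succ i => simpa only [π, neg_mul, h0, add_left_inj] using congrFun h1 i
      obtain ⟨G, e, Y, h1, h2, h3, h4, h5⟩ := hS (Z.image π)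
        (Nat.le_of_mul_le_mul_left (hZ.trans (card_le_mul_card_image Z _ hfib)) (by omega))
      refine ⟨insert g.1 (G.image fun f => curve_T a⁻¹ (fun l => -c l * a⁻¹) (rename Fin.succ f)),
        (d + 1) * e, Z.filter fun ξ => π ξ ∈ Y, filter_subset _ _,
        (card_insert_le _ _).trans (Nat.succ_le_succ (card_image_le.trans h2)), ?_, ?_,
        fun m => ?_⟩
      · rw [← mul_assoc]
        refine h3.trans_le ((card_le_card fun η hη => ?_).trans (card_image_le (f := π)))
        obtain ⟨ξ, hξ, rfl⟩ := mem_image.1 (h1 hη)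
        exact mem_image_of_mem _ (mem_filter.2 ⟨hξ, hη⟩)
      · intro f hf ξ hξ
        rcases mem_insert.1 hf with rfl | hf
        · exact hg ξ (mem_filter.1 hξ).1
        · obtain ⟨f', hf', rfl⟩ := mem_image.1 hf
          rw [curve_T_eval, eval_rename]
          exact h4 f' hf' _ (mem_filter.1 hξ).2
      · refine (curve_b (curve_T_deg a c g.1) hc _ _ hT (curve_T_deg a c) _
          (Ideal.span (G : Set (MvPolynomial (Fin (w + 1)) ℂ))) ?_ (fun f hf => ?_) m).trans ?_
        · rw [hT]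
          exact Ideal.subset_span (by simp only [neg_mul, coe_insert, coe_image, Set.mem_insert_iff, Set.mem_image, SetLike.mem_coe, true_or])
        · refine (Ideal.span_le (I := Ideal.comap ((curve_T a⁻¹ fun l => -c l * a⁻¹).comp
            (rename Fin.succ)) _)).2 (fun f' hf' => Ideal.mem_comap.2 (Ideal.subset_span ?_)) hf
          exact mem_coe.2 (mem_insert_of_mem (mem_image_of_mem _ hf'))
        · rw [mul_assoc]
          exact Nat.mul_le_mul (by omega) (h5 m)

end Pool.Agent.MP_d171e3_nt.H31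

end

-- part MP_d171e3_nt.H31.Good
section

/-! A point on the zero set of few polynomials is not isolated (Krull). -/

namespace Pool.Agent.MP_d171e3_nt.H31

open MvPolynomial Finset

/-- substitute `ξ l` for the variables `l < i` -/
noncomputable def goodSub {n : ℕ} (ξ : Fin n → ℂ) (i : ℕ) :
    MvPolynomial (Fin n) ℂ →ₐ[ℂ] MvPolynomial (Fin n) ℂ :=
  aeval fun l => if (l : ℕ) < i then C (ξ l) else X l

lemma good_comp {n : ℕ} (ξ : Fin n → ℂ) (i : ℕ) (f : MvPolynomial (Fin n) ℂ) :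
    goodSub ξ (i + 1) (goodSub ξ i f) = goodSub ξ (i + 1) f := by
  have : (goodSub ξ (i + 1)).comp (goodSub ξ i) = goodSub ξ (i + 1) := by
    apply MvPolynomial.algHom_ext
    intro l
    simp only [AlgHom.comp_apply, goodSub, aeval_X]
    by_cases h : (l : ℕ) < i
    · rw [if_pos h, if_pos (by omega), aeval_C, algebraMap_eq]
    · rw [if_neg h, aeval_X]
  exact DFunLike.congr_fun this f

lemma good_eval {n : ℕ} (ξ : Fin n → ℂ) (i : ℕ) (f : MvPolynomial (Fin n) ℂ) :
    eval ξ (goodSub ξ i f) = eval ξ f := by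
  have : (aeval ξ : MvPolynomial (Fin n) ℂ →ₐ[ℂ] ℂ).comp (goodSub ξ i) = aeval ξ := by
    apply MvPolynomial.algHom_ext
    intro l
    simp only [AlgHom.comp_apply, goodSub, aeval_X]
    by_cases h : (l : ℕ) < i
    · rw [if_pos h, aeval_C]
      rfl
    · rw [if_neg h, aeval_X]
  exact DFunLike.congr_fun this f

lemma good_prime {n : ℕ} (ξ : Fin n → ℂ) (i : ℕ) : (RingHom.ker (goodSub ξ i)).IsPrime :=
  RingHom.ker_isPrime _

lemma good_height {n : ℕ} (ξ : Fin n → ℂ) (i : ℕ) (hi : i ≤ n) :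
    (i : ℕ∞) ≤ (RingHom.ker (goodSub ξ i)).height := by
  induction i with
  | zero => simp
  | succ i ih =>
    have := good_prime ξ i
    have := good_prime ξ (i + 1)
    have lt : RingHom.ker (goodSub ξ i) < RingHom.ker (goodSub ξ (i + 1)) := by
      refine lt_of_le_of_ne (fun f hf => ?_) fun e => ?_
      · rw [RingHom.mem_ker] at hf ⊢
        rw [← good_comp, hf, map_zero]
      · have m : (X ⟨i, by omega⟩ - C (ξ ⟨i, by omega⟩) : MvPolynomial (Fin n) ℂ) ∈
            RingHom.ker (goodSub ξ (i + 1)) := by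
          rw [RingHom.mem_ker]
          simp [goodSub]
        rw [← e, RingHom.mem_ker] at m
        simp only [goodSub, map_sub, aeval_X, lt_irrefl, if_false, aeval_C, algebraMap_eq] at m
        have := congrArg (eval fun l => ξ l + 1) m
        simp at this
    have h1 := Ideal.height_add_one_le_of_lt_of_isPrime lt
    have h2 := ih (by omega)
    calc ((i + 1 : ℕ) : ℕ∞) = i + 1 := by push_cast; rfl
      _ ≤ _ + 1 := add_le_add_left h2 1
      _ ≤ _ := h1

/-- `mx ξ` has height `≥ w + 1`, a minimal prime over `span G` has height `≤ w`. -/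
theorem good_of_span {w : ℕ} (G : Finset (MvPolynomial (Fin (w + 1)) ℂ)) (hG : G.card ≤ w)
    (ξ : Fin (w + 1) → ℂ) (h : ∀ g ∈ G, eval ξ g = 0) :
    ∃ q : Ideal (MvPolynomial (Fin (w + 1)) ℂ), q.IsPrime ∧
      Ideal.span (G : Set (MvPolynomial (Fin (w + 1)) ℂ)) ≤ q ∧ q < mx ξ := by
  have hp : (mx ξ).IsPrime := RingHom.ker_isPrime _
  have hle : Ideal.span (G : Set (MvPolynomial (Fin (w + 1)) ℂ)) ≤ mx ξ :=
    Ideal.span_le.2 fun g hg => mem_mx.2 (h g hg)
  obtain ⟨q, hq, hqm⟩ := Ideal.exists_minimalPrimes_le hle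
  refine ⟨q, hq.1.1, hq.1.2, lt_of_le_of_ne hqm fun e => ?_⟩
  have h1 := Ideal.height_le_card_of_mem_minimalPrimes_span_finset hq
  have h2 := good_height ξ (w + 1) le_rfl
  have h3 : RingHom.ker (goodSub ξ (w + 1)) ≤ mx ξ := fun f hf => by
    rw [RingHom.mem_ker] at hf
    rw [mem_mx, ← good_eval ξ (w + 1), hf, map_zero]
  have h4 := (h2.trans (Ideal.height_mono h3)).trans (e ▸ h1)
  have h5 : w + 1 ≤ G.card := by exact_mod_cast h4
  omega

end Pool.Agent.MP_d171e3_nt.H31

end

-- part MP_d171e3_nt.H31.HfGe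
section

/-! Lower bound for the colength of fat points on a curve. -/

namespace Pool.Agent.MP_d171e3_nt.H31

open MvPolynomial Finset

variable {σ : Type*} [Fintype σ]

lemma hfge_nak {R : Type*} [CommRing R] [IsNoetherianRing R] (p n : Ideal R) [p.IsPrime]
    (h : p < n) (hn : n ≠ ⊤) (j : ℕ) : ∃ f ∈ n ^ j, f ∉ p ⊔ n ^ (j + 1) := by
  by_contra hc
  push Not at hc
  have h1 : n ^ j ≤ p ⊔ n ^ (j + 1) := hc
  have h2 : (n.map (Ideal.Quotient.mk p)) ^ j ≤
      n.map (Ideal.Quotient.mk p) • (n.map (Ideal.Quotient.mk p)) ^ j := by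
    have := Ideal.map_mono (f := Ideal.Quotient.mk p) h1
    rw [Ideal.map_sup, Ideal.map_quotient_self, bot_sup_eq, Ideal.map_pow, Ideal.map_pow,
      pow_succ'] at this
    exact this
  obtain ⟨r, hr, hr0⟩ := Submodule.exists_sub_one_mem_and_smul_eq_zero_of_fg_of_le_smul _ _
    (IsNoetherian.noetherian _) h2
  obtain ⟨g, hg, hgp⟩ := SetLike.exists_of_lt h
  have h3 := hr0 _ (Ideal.pow_mem_pow (Ideal.mem_map_of_mem (Ideal.Quotient.mk p) hg) j)
  have h4 : Ideal.Quotient.mk p g ≠ 0 := fun h => hgp (Ideal.Quotient.eq_zero_iff_mem.1 h)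
  have h5 : r = 0 := (mul_eq_zero.1 h3).resolve_right (pow_ne_zero _ h4)
  rw [h5, zero_sub, neg_mem_iff, ← map_one (Ideal.Quotient.mk p), Ideal.mem_quotient_iff_mem_sup,
    sup_eq_left.2 h.le] at hr
  exact hn ((Ideal.eq_top_iff_one _).2 hr)

lemma hfge_loc {R : Type*} [CommRing R] [Algebra ℂ R] (p n : Ideal R) (f : ℕ → R)
    (hf1 : ∀ j, f j ∈ n ^ j) (hf2 : ∀ j, f j ∉ p ⊔ n ^ (j + 1)) {s : R} (hs : s - 1 ∈ n) {o : ℕ}
    (c : Fin o → ℂ) (h : s * ∑ j, c j • f j ∈ p ⊔ n ^ o) (j : Fin o) : c j = 0 := by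
  induction j using WellFoundedLT.induction with
  | ind j ih =>
    by_contra hc
    have hsm : ∀ (I : Ideal R) (a : ℂ) (x : R), x ∈ I → a • x ∈ I := fun I a x hx => by
      rw [Algebra.smul_def]; exact I.mul_mem_left _ hx
    have h1 : ∑ i ∈ univ.erase j, c i • f i ∈ n ^ ((j : ℕ) + 1) := by
      refine Submodule.sum_mem _ fun i hi => ?_
      rcases lt_or_gt_of_ne (mem_erase.1 hi).1 with hl | hl
      · rw [ih i hl, zero_smul]; exact zero_mem _
      · exact hsm _ _ _ (Ideal.pow_le_pow_right (Nat.succ_le_of_lt hl) (hf1 i))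
    have h2 : ∑ i, c i • f i = c j • f j + ∑ i ∈ univ.erase j, c i • f i :=
      (add_sum_erase _ _ (mem_univ j)).symm
    have h3 : (s - 1) * (c j • f j) ∈ n ^ ((j : ℕ) + 1) := by
      rw [pow_succ']
      exact Ideal.mul_mem_mul hs (hsm _ _ _ (hf1 j))
    have h4 : s * ∑ j, c j • f j ∈ p ⊔ n ^ ((j : ℕ) + 1) :=
      sup_le_sup_left (Ideal.pow_le_pow_right (Nat.succ_le_of_lt j.2)) p h
    have h5 : c j • f j ∈ p ⊔ n ^ ((j : ℕ) + 1) := by
      have := sub_mem (sub_mem h4 (Ideal.mem_sup_right (Ideal.mul_mem_left _ s h1)))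
        (Ideal.mem_sup_right h3)
      rw [h2] at this
      convert this using 1
      ring
    have h6 := hsm _ (c j)⁻¹ _ h5
    rw [smul_smul, inv_mul_cancel₀ hc, one_smul] at h6
    exact hf2 j h6

omit [Fintype σ] in
lemma hfge_sep (Z : Finset (σ → ℂ)) (ξ : σ → ℂ) :
    ∃ s : MvPolynomial σ ℂ, eval ξ s = 1 ∧ ∀ ξ' ∈ Z, ξ' ≠ ξ → eval ξ' s = 0 := by
  classical
  have h : ∀ ξ' : σ → ℂ, ∃ t : MvPolynomial σ ℂ, eval ξ t = 1 ∧ (ξ' ≠ ξ → eval ξ' t = 0) := by
    intro ξ'
    by_cases e : ξ' = ξ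
    · exact ⟨1, map_one _, fun h => (h e).elim⟩
    · obtain ⟨l, hl⟩ := Function.ne_iff.1 e
      refine ⟨C (ξ l - ξ' l)⁻¹ * (X l - C (ξ' l)), ?_, fun _ => by simp⟩
      simp only [map_mul, eval_C, map_sub, eval_X]
      exact inv_mul_cancel₀ (sub_ne_zero.2 hl.symm)
  choose t ht1 ht2 using h
  refine ⟨∏ ξ' ∈ Z, t ξ', by simp [map_prod, ht1], fun ξ' h1 h2 => ?_⟩
  rw [map_prod]
  exact prod_eq_zero h1 (ht2 ξ' h2)

/-- Nakayama at each point, separation of the points. -/
theorem hf_ge (p : Ideal (MvPolynomial σ ℂ)) [p.IsPrime] (Z : Finset (σ → ℂ))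
    (hZ : ∀ ξ ∈ Z, p < mx ξ) (o : ℕ) :
    ∃ m0 : ℕ, ∀ I : Ideal (MvPolynomial σ ℂ), (∀ ξ ∈ Z, I ≤ p ⊔ mx ξ ^ o) →
      Z.card * o ≤ hf I m0 := by
  classical
  have hne : ∀ ξ : σ → ℂ, mx ξ ≠ ⊤ := fun ξ h => by
    have : (1 : MvPolynomial σ ℂ) ∈ mx ξ := h ▸ Submodule.mem_top
    simpa using mem_mx.1 this
  choose f hf1 hf2 using fun (ξ : Z) (j : ℕ) => hfge_nak p (mx ξ.1) (hZ ξ.1 ξ.2) (hne _) j
  choose s hs1 hs2 using hfge_sep Z
  let v : Z × Fin o → MvPolynomial σ ℂ := fun z => s z.1.1 ^ o * f z.1 z.2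
  refine ⟨univ.sup fun z => (v z).totalDegree, fun I hI => ?_⟩
  have hli : LinearIndependent ℂ fun z => Ideal.Quotient.mk I (v z) := by
    rw [Fintype.linearIndependent_iff]
    rintro c hc ⟨ξ, j⟩
    have h1 : ∑ z, c z • v z ∈ I := by
      rw [← Ideal.Quotient.eq_zero_iff_mem, ← hc, ← Ideal.Quotient.mkₐ_eq_mk ℂ, map_sum]
      simp only [map_smul]
    have h2 : ∑ z, c z • v z = ∑ ξ' : Z, s ξ'.1 ^ o * ∑ i : Fin o, c (ξ', i) • f ξ' i := by
      rw [Fintype.sum_prod_type]
      simp only [v, mul_sum, mul_smul_comm]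
    rw [h2, ← add_sum_erase _ _ (mem_univ ξ)] at h1
    have h3 : ∑ ξ' ∈ univ.erase ξ, s ξ'.1 ^ o * ∑ i : Fin o, c (ξ', i) • f ξ' i ∈ mx ξ.1 ^ o := by
      refine Submodule.sum_mem _ fun ξ' h => Ideal.mul_mem_right _ _ (Ideal.pow_mem_pow ?_ o)
      exact mem_mx.2 (hs2 ξ'.1 ξ.1 ξ.2 fun e => (mem_erase.1 h).1 (Subtype.ext e.symm))
    have h4 := sub_mem (hI ξ.1 ξ.2 h1) (Ideal.mem_sup_right h3)
    rw [add_sub_cancel_right] at h4
    refine hfge_loc p (mx ξ.1) (f ξ) (hf1 ξ) (hf2 ξ) ?_ (fun i => c (ξ, i)) h4 j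
    rw [mem_mx]
    simp [hs1]
  have := le_hf I v (fun z => le_sup (f := fun z => (v z).totalDegree) (mem_univ z)) hli
  simpa only [ge_iff_le, Fintype.card_prod, Fintype.card_coe, Fintype.card_fin] using this

end Pool.Agent.MP_d171e3_nt.H31

end

-- part MP_d171e3_nt.H31.Prime
section

/-! An irreducible curve carrying many points compared with its degree. -/

namespace Pool.Agent.MP_d171e3_nt.H31

open MvPolynomial Finset

open scoped Classical in
/-- the points of `Z` that are not isolated on the zero set of `I` -/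
noncomputable def prime_good {σ : Type*} (Z : Finset (σ → ℂ)) (I : Ideal (MvPolynomial σ ℂ)) :
    Finset (σ → ℂ) := Z.filter fun ξ => ∃ q : Ideal (MvPolynomial σ ℂ), q.IsPrime ∧ I ≤ q ∧ q < mx ξ

/-- the slope of the Hilbert function is at least `N / B` -/
def prime_big {σ : Type*} (B N : ℕ) (I : Ideal (MvPolynomial σ ℂ)) : Prop :=
  ∃ c, ∀ m, N * m ≤ B * hf I m + c

theorem prime_mem {σ : Type*} {Z : Finset (σ → ℂ)} {I : Ideal (MvPolynomial σ ℂ)} {ξ : σ → ℂ} :
    ξ ∈ prime_good Z I ↔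
      ξ ∈ Z ∧ ∃ q : Ideal (MvPolynomial σ ℂ), q.IsPrime ∧ I ≤ q ∧ q < mx ξ := by
  simp only [prime_good, mem_filter]

theorem prime_split {σ : Type*} [Fintype σ] {B N N₁ N₂ : ℕ} {p : Ideal (MvPolynomial σ ℂ)}
    {f : MvPolynomial σ ℂ} (hN : N ≤ N₁ + N₂) (h1 : prime_big B N₁ (p ⊔ Ideal.span {f}))
    (h2 : prime_big B N₂ (p.colon {f})) : prime_big B N p := by
  obtain ⟨c₁, h1⟩ := h1
  obtain ⟨c₂, h2⟩ := h2
  refine ⟨c₁ + c₂ + N₂ * f.totalDegree + N * f.totalDegree, fun m => ?_⟩
  rcases le_total f.totalDegree m with h | h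
  · obtain ⟨m', rfl⟩ := Nat.exists_eq_add_of_le' h
    have a1 := h1 (m' + f.totalDegree)
    have a2 := h2 m'
    have a3 := Nat.mul_le_mul_left B (hf_add p f le_rfl m')
    have a4 := Nat.mul_le_mul_right (m' + f.totalDegree) hN
    linarith only [Nat.zero_le (N * f.totalDegree), a1, a2, a3, a4]
  · exact (Nat.mul_le_mul_left N h).trans (by omega)

theorem prime_colon {R : Type*} [CommRing R] {p q : Ideal R} [hq : q.IsPrime] (h : p ≤ q) {f : R}
    (hf : f ∉ q) : p.colon {f} ≤ q := fun _ hg =>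
  (hq.mem_or_mem (h (Submodule.mem_colon_singleton.1 hg))).resolve_right hf

theorem prime_le_colon {R : Type*} [CommRing R] (p : Ideal R) (f : R) : p ≤ p.colon {f} :=
  fun _ hg => Submodule.mem_colon_singleton.2 (p.mul_mem_right _ hg)

theorem prime_deg {σ : Type*} [Fintype σ] {B o : ℕ} {p : Ideal (MvPolynomial σ ℂ)} [p.IsPrime]
    {Z : Finset (σ → ℂ)} (hZ : ∀ ξ ∈ Z, p < mx ξ) (hne : Z.Nonempty) {Δ : MvPolynomial σ ℂ}
    (hΔ : Δ ∉ p) (ho : 1 ≤ o) (h : ∀ ξ ∈ Z, Δ ∈ p ⊔ mx ξ ^ o) (hT : Δ.totalDegree ≤ B * o) :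
    prime_big B Z.card p := by
  obtain ⟨m0, hm0⟩ := hf_ge p Z hZ o
  have h1 := hm0 (p ⊔ Ideal.span {Δ}) fun ξ hξ =>
    sup_le le_sup_left ((Ideal.span_singleton_le_iff_mem _).2 (h ξ hξ))
  have hc : p.colon {Δ} = p := le_antisymm (prime_colon le_rfl hΔ) (prime_le_colon p Δ)
  have h2 : ∀ m, m0 ≤ m → hf p m + Z.card * o ≤ hf p (m + Δ.totalDegree) := fun m hm => by
    have a1 := hf_add p Δ le_rfl m
    have a2 := hf_mono (p ⊔ Ideal.span {Δ}) (hm.trans (Nat.le_add_right m Δ.totalDegree))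
    rw [hc] at a1
    omega
  set T := Δ.totalDegree
  have hT0 : 0 < T := Nat.pos_of_ne_zero fun h0 => by
    have a1 := h2 m0 le_rfl
    have a2 := Nat.mul_pos hne.card_pos ho
    rw [h0, add_zero] at a1
    omega
  have h3 : ∀ s, s * (Z.card * o) ≤ hf p (m0 + s * T) := fun s => by
    induction s with
    | zero => simp
    | succ s ih =>
      have := h2 (m0 + s * T) (Nat.le_add_right _ _)
      rw [Nat.succ_mul, Nat.succ_mul, ← add_assoc]
      omega
  refine ⟨Z.card * (m0 + T), fun m => ?_⟩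
  rcases le_total m0 m with hm | hm
  · obtain ⟨k, rfl⟩ := Nat.exists_eq_add_of_le hm
    have a1 := Nat.div_add_mod' k T
    have a2 := Nat.mod_lt k hT0
    have a3 := (h3 (k / T)).trans (hf_mono p (show m0 + k / T * T ≤ m0 + k by omega))
    calc Z.card * (m0 + k) ≤ Z.card * (k / T * (B * o) + (m0 + T)) :=
          Nat.mul_le_mul_left _ (by
            have := Nat.mul_le_mul_left (k / T) hT
            omega)
      _ = B * (k / T * (Z.card * o)) + Z.card * (m0 + T) := by ring
      _ ≤ _ := Nat.add_le_add_right (Nat.mul_le_mul_left _ a3) _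
  · exact (Nat.mul_le_mul_left _ (hm.trans (Nat.le_add_right _ _))).trans (Nat.le_add_left _ _)

theorem prime_gen {σ : Type*} {p : Ideal (MvPolynomial σ ℂ)} {ξ : σ → ℂ}
    (h : ∀ l, X l - C (ξ l) ∈ p) : mx ξ ≤ p := by
  have key : ∀ f : MvPolynomial σ ℂ, f - C (eval ξ f) ∈ p := fun f => by
    induction f using MvPolynomial.induction_on with
    | C a => simp
    | add f g hf hg =>
      have := p.add_mem hf hg
      rwa [map_add, map_add, add_sub_add_comm]
    | mul_X f l hf =>
      have := p.add_mem (p.mul_mem_right (X l) hf) (p.mul_mem_left (C (eval ξ f)) (h l))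
      rwa [map_mul, map_mul, eval_X, show f * X l - C (eval ξ f) * C (ξ l) =
        (f - C (eval ξ f)) * X l + C (eval ξ f) * (X l - C (ξ l)) by ring]
  intro f hf
  have := key f
  rwa [mem_mx.1 hf, map_zero, sub_zero] at this

theorem prime_growth {σ : Type*} [Fintype σ] {B N e : ℕ} (hB : 1 ≤ B)
    {p : Ideal (MvPolynomial σ ℂ)} (h : ∀ m, (m + 1) ^ 2 ≤ hf p (e * m)) : prime_big B N p := by
  rcases Nat.eq_zero_or_pos e with rfl | he
  · have := h (hf p 0)
    rw [zero_mul] at this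
    nlinarith only [this]
  refine ⟨(N * e) ^ 2, fun m => ?_⟩
  have a1 := (h (m / e)).trans (hf_mono p (Nat.mul_div_le m e))
  have a2 : m ≤ e * (m / e + 1) := (Nat.lt_mul_div_succ m he).le
  have a3 := Nat.mul_le_mul_left N a2
  have a4 := Nat.mul_le_mul_right (hf p m) hB
  nlinarith only [a1, a3, a4]

/-- Plan. Take `S, G, e, Z0` from `curve w B`. For an ideal `I` let `good I` be the set of
`ξ ∈ Z0` with a prime `q`, `I ≤ q < mx ξ`, and let `P I` say
`¬ ∃ c, ∀ m, (good I).card * m ≤ B * hf I m + c`. `P (span G)` holds (`good = Z0` by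
`good_of_span`, `B e < card`). Take `p` maximal with `P` (Noetherian: `set_has_maximal_iff_noetherian`
or `WellFounded.has_min`). `good p` is nonempty (else `c = 0` works), so `p ≠ ⊤`. `p` is prime:
if `f g ∈ p`, `f, g ∉ p`, then `I₁ = p ⊔ span {f}` and `I₂ = p.colon {f}` are larger, `I₁ I₂ ≤ p`
so `good p ⊆ good I₁ ∪ good I₂`, and `hf_add` with `hf_mono` adds the two bounds up to one for
`p`. Put `Z' = good p` (so `p < mx ξ` on `Z'`).
Degree bound: if `T = deg Δ ≤ B o`, `I = p ⊔ span {Δ}`, `p.colon {Δ} = p`, then `hf_ge`, `hf_add`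
give `hf p (m + T) ≥ hf p m + card * o` for `m ≥ m0`; `T = 0` is absurd and otherwise
`hf p (m0 + s T) ≥ s * card * o`, so `card * m ≤ B * hf p m + card * (m0 + T)`, against `P p`.
Two points: if `Z' = {ξ}`, some `X l - C (ξ l) ∉ p` (these generate `mx ξ`), take `o = 1`.
Growth: if `(m+1)^2 ≤ hf p (e m)` for all `m` (`e ≥ 1`; `e = 0` is easy) then with `m = m'/e`,
`card * m' ≤ card * e * (m+1) ≤ (m+1)^2 + (card * e)^2`, against `P p`. -/
theorem exists_prime (w B : ℕ) (hB : 1 ≤ B) : ∃ S : ℕ, ∀ Z : Finset (Fin (w + 1) → ℂ),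
    S ≤ Z.card → ∃ (p : Ideal (MvPolynomial (Fin (w + 1)) ℂ)) (Z' : Finset (Fin (w + 1) → ℂ)),
      p.IsPrime ∧ Z' ⊆ Z ∧ 2 ≤ Z'.card ∧ (∀ ξ ∈ Z', p ≤ mx ξ) ∧
      (∀ Δ, Δ ∉ p → ∀ o : ℕ, 1 ≤ o → (∀ ξ ∈ Z', Δ ∈ p ⊔ mx ξ ^ o) → B * o < Δ.totalDegree) ∧
      ∀ e : ℕ, ∃ m, hf p (e * m) < (m + 1) ^ 2 := by
  classical
  obtain ⟨S, hS⟩ := curve w B
  refine ⟨S, fun Z hZ => ?_⟩
  obtain ⟨G, e, Z0, hZ0, hG, he, hv, hh⟩ := hS Z hZ
  set I₀ := Ideal.span (G : Set (MvPolynomial (Fin (w + 1)) ℂ))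
  have h0 : ¬ prime_big B (prime_good Z0 I₀).card I₀ := by
    rintro ⟨c, hc⟩
    have a1 : Z0.card ≤ (prime_good Z0 I₀).card :=
      card_le_card fun ξ hξ => prime_mem.2 ⟨hξ, good_of_span G hG ξ fun g hg => hv g hg ξ hξ⟩
    have a2 := hc (B * e + c + 1)
    have a3 := Nat.mul_le_mul_left B (hh (B * e + c + 1))
    have a4 := Nat.mul_le_mul_right (B * e + c + 1) (he.trans_le a1)
    linarith only [a2, a3, a4]
  obtain ⟨p, hp, hmax⟩ := set_has_maximal_iff_noetherian.2
    (inferInstance : IsNoetherian (MvPolynomial (Fin (w + 1)) ℂ) (MvPolynomial (Fin (w + 1)) ℂ))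
    {I | ¬ prime_big B (prime_good Z0 I).card I} ⟨_, h0⟩
  have hp' : ¬ prime_big B (prime_good Z0 p).card p := hp
  have hmax' : ∀ I, p < I → prime_big B (prime_good Z0 I).card I := fun I hI =>
    by_contra fun h => hmax I h hI
  have hne : (prime_good Z0 p).Nonempty := by
    rw [nonempty_iff_ne_empty]
    intro h
    exact hp' ⟨0, fun m => by simp [h]⟩
  have hlt : ∀ ξ ∈ prime_good Z0 p, p < mx ξ := fun ξ hξ => by
    obtain ⟨-, q, -, h1, h2⟩ := prime_mem.1 hξ
    exact h1.trans_lt h2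
  have hprime : Ideal.IsPrime p := by
    refine ⟨fun h => ?_, fun {f g} hfg => by_contra fun hn => ?_⟩
    · obtain ⟨ξ, hξ⟩ := hne
      exact not_top_lt (h ▸ hlt ξ hξ)
    · rw [not_or] at hn
      refine hp' (prime_split (f := f) ?_ (hmax' _ ?_) (hmax' _ ?_))
      · refine (card_le_card fun ξ hξ => ?_).trans (card_union_le _ _)
        obtain ⟨hz, q, hq, h1, h2⟩ := prime_mem.1 hξ
        by_cases hfq : f ∈ q
        · exact mem_union_left _ (prime_mem.2 ⟨hz, q, hq,
            sup_le h1 ((Ideal.span_singleton_le_iff_mem _).2 hfq), h2⟩)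
        · exact mem_union_right _ (prime_mem.2 ⟨hz, q, hq, prime_colon h1 hfq, h2⟩)
      · exact left_lt_sup.2 fun h => hn.1 ((Ideal.span_singleton_le_iff_mem _).1 h)
      · exact (prime_le_colon p f).lt_of_not_ge fun h =>
          hn.2 (h (Submodule.mem_colon_singleton.2 (by rwa [smul_eq_mul, mul_comm])))
  have hdeg : ∀ Δ, Δ ∉ p → ∀ o : ℕ, 1 ≤ o → (∀ ξ ∈ prime_good Z0 p, Δ ∈ p ⊔ mx ξ ^ o) →
      B * o < Δ.totalDegree := fun Δ hΔ o ho h =>
    lt_of_not_ge fun hT => hp' (prime_deg hlt hne hΔ ho h hT)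
  refine ⟨p, prime_good Z0 p, hprime, fun ξ hξ => hZ0 (prime_mem.1 hξ).1, ?_,
    fun ξ hξ => (hlt ξ hξ).le, hdeg, fun e' => by_contra fun h => ?_⟩
  · by_contra h2
    obtain ⟨ξ, hξ⟩ := hne
    have hall : ∀ ξ' ∈ prime_good Z0 p, ξ' = ξ := fun ξ' h' =>
      card_le_one.1 (by omega) _ h' _ hξ
    obtain ⟨l, hl⟩ : ∃ l, X l - C (ξ l) ∉ p := by
      by_contra hc
      exact (hlt ξ hξ).not_ge (prime_gen fun l => by_contra fun h => hc ⟨l, h⟩)
    have a1 := hdeg _ hl 1 le_rfl fun ξ' h' => by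
      rw [hall ξ' h', pow_one]
      exact Ideal.mem_sup_right (mem_mx.2 (by simp))
    have a2 : (X l - C (ξ l) : MvPolynomial (Fin (w + 1)) ℂ).totalDegree ≤ 1 :=
      (totalDegree_sub _ _).trans (by simp)
    omega
  · exact hp' (prime_growth hB fun m => not_lt.1 fun h' => h ⟨m, h'⟩)

end Pool.Agent.MP_d171e3_nt.H31

end

-- part MP_d171e3_nt.H31.Dep
section

/-! Slow growth of the Hilbert function gives transcendence degree at most one. -/

namespace Pool.Agent.MP_d171e3_nt.H31

open MvPolynomial Finset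

/-- monomials in two independent elements are linearly independent -/
theorem dep_mono {F : Type*} [Field F] [Algebra ℂ F] {x y : F}
    (h : AlgebraicIndependent ℂ ![x, y]) (m : ℕ) :
    LinearIndependent ℂ fun z : Fin (m + 1) × Fin (m + 1) => x ^ (z.1 : ℕ) * y ^ (z.2 : ℕ) := by
  let e : Fin (m + 1) × Fin (m + 1) → (Fin 2 →₀ ℕ) := fun z =>
    Finsupp.single 0 (z.1 : ℕ) + Finsupp.single 1 (z.2 : ℕ)
  have he : Function.Injective e := by
    intro z w hzw
    have h0 := DFunLike.congr_fun hzw 0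
    have h1 := DFunLike.congr_fun hzw 1
    simp only [e, Fin.isValue, Finsupp.coe_add, Pi.add_apply, Finsupp.single_eq_same, ne_eq, zero_ne_one, not_false_eq_true, Finsupp.single_eq_of_ne, add_zero, one_ne_zero, zero_add] at h0 h1
    exact Prod.ext (Fin.ext h0) (Fin.ext h1)
  have h1 := ((basisMonomials (Fin 2) ℂ).linearIndependent.comp e he).map'
    (aeval (R := ℂ) ![x, y]).toLinearMap (LinearMap.ker_eq_bot.2 h)
  refine (congrArg (fun u => LinearIndependent ℂ u) (funext fun z => ?_)).mp h1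
  simp only [Nat.succ_eq_add_one, Nat.reduceAdd, AlgHom.coe_toLinearMap, coe_basisMonomials, e, Fin.isValue, Function.comp_apply, aeval_monomial, map_one, pow_zero, implies_true, pow_add, Finsupp.prod_add_index', Matrix.cons_val_zero, Finsupp.prod_single_index, Matrix.cons_val_one, Matrix.cons_val_fin_one, one_mul]

/-- two elements of the function field are dependent if the Hilbert function grows slowly -/
theorem dep_of_hf {σ F : Type*} [Fintype σ] [Field F] [Algebra ℂ F]
    (π : MvPolynomial σ ℂ →ₐ[ℂ] F) (hπ : ∀ z : F, ∃ f g, π g ≠ 0 ∧ z = π f / π g)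
    (h : ∀ e : ℕ, ∃ m, hf (RingHom.ker π) (e * m) < (m + 1) ^ 2) (x y : F) :
    ¬ AlgebraicIndependent ℂ ![x, y] := by
  intro hxy
  obtain ⟨f, g, hg, rfl⟩ := hπ x
  obtain ⟨f', g', hg', rfl⟩ := hπ y
  obtain ⟨m, hm⟩ := h (f.totalDegree + g.totalDegree + f'.totalDegree + g'.totalDegree)
  let v : Fin (m + 1) × Fin (m + 1) → MvPolynomial σ ℂ := fun z =>
    f ^ (z.1 : ℕ) * g ^ (m - z.1) * (f' ^ (z.2 : ℕ) * g' ^ (m - z.2))
  have hp : ∀ (u : MvPolynomial σ ℂ) (a : ℕ), a ≤ m → (u ^ a).totalDegree ≤ u.totalDegree * m :=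
    fun u a ha => (totalDegree_pow u a).trans
      (by rw [mul_comm]; exact Nat.mul_le_mul_left _ ha)
  have hv : ∀ z, (v z).totalDegree ≤
      (f.totalDegree + g.totalDegree + f'.totalDegree + g'.totalDegree) * m := by
    intro z
    have h1 := hp f z.1 (Nat.lt_succ_iff.1 z.1.2)
    have h2 := hp g (m - z.1) (Nat.sub_le _ _)
    have h3 := hp f' z.2 (Nat.lt_succ_iff.1 z.2.2)
    have h4 := hp g' (m - z.2) (Nat.sub_le _ _)
    have h5 := totalDegree_mul (f ^ (z.1 : ℕ) * g ^ (m - z.1)) (f' ^ (z.2 : ℕ) * g' ^ (m - z.2))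
    have h6 := totalDegree_mul (f ^ (z.1 : ℕ)) (g ^ (m - z.1))
    have h7 := totalDegree_mul (f' ^ (z.2 : ℕ)) (g' ^ (m - z.2))
    simp only [v, add_mul]
    omega
  have hc : π g ^ m * π g' ^ m ≠ 0 := mul_ne_zero (pow_ne_zero _ hg) (pow_ne_zero _ hg')
  have hli := (dep_mono hxy m).map' (LinearMap.mulLeft ℂ (π g ^ m * π g' ^ m))
    (LinearMap.ker_eq_bot.2 (mul_right_injective₀ hc))
  have hli2 : LinearIndependent ℂ fun z => Ideal.Quotient.mk (RingHom.ker π) (v z) := by
    apply LinearIndependent.of_comp (Ideal.kerLiftAlg π).toLinearMap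
    refine (congrArg (fun u => LinearIndependent ℂ u) (funext fun z => ?_)).mp hli
    have e1 : π g ^ m = π g ^ (m - z.1) * π g ^ (z.1 : ℕ) := by
      rw [← pow_add, Nat.sub_add_cancel (Nat.lt_succ_iff.1 z.1.2)]
    have e2 : π g' ^ m = π g' ^ (m - z.2) * π g' ^ (z.2 : ℕ) := by
      rw [← pow_add, Nat.sub_add_cancel (Nat.lt_succ_iff.1 z.2.2)]
    simp only [Function.comp, AlgHom.toLinearMap_apply, Ideal.kerLiftAlg_mk,
      LinearMap.mulLeft_apply, div_pow]
    simp only [v, map_mul, map_pow]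
    rw [e1, e2]
    field_simp
  have := le_hf _ v hv hli2
  simp only [Fintype.card_prod, Fintype.card_fin] at this
  rw [sq] at hm
  omega

/-- the function field of a prime ideal -/
theorem exists_field {σ : Type} (p : Ideal (MvPolynomial σ ℂ)) [p.IsPrime] :
    ∃ (F : Type) (_ : Field F) (_ : Algebra ℂ F) (π : MvPolynomial σ ℂ →ₐ[ℂ] F),
      RingHom.ker π = p ∧ ∀ z : F, ∃ f g, π g ≠ 0 ∧ z = π f / π g := by
  refine ⟨FractionRing (MvPolynomial σ ℂ ⧸ p), inferInstance, inferInstance,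
    (IsScalarTower.toAlgHom ℂ (MvPolynomial σ ℂ ⧸ p) _).comp (Ideal.Quotient.mkₐ ℂ p), ?_, ?_⟩
  · ext f
    simp only [RingHom.mem_ker, AlgHom.coe_comp, IsScalarTower.coe_toAlgHom', Ideal.Quotient.mkₐ_eq_mk, Function.comp_apply, FaithfulSMul.algebraMap_eq_zero_iff, Ideal.Quotient.eq_zero_iff_mem]
  · intro z
    obtain ⟨a, b, hb, rfl⟩ := IsFractionRing.div_surjective (A := MvPolynomial σ ℂ ⧸ p) z
    obtain ⟨f, rfl⟩ := Ideal.Quotient.mk_surjective a
    obtain ⟨g, rfl⟩ := Ideal.Quotient.mk_surjective b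
    refine ⟨f, g, ?_, rfl⟩
    simpa only [AlgHom.coe_comp, IsScalarTower.coe_toAlgHom', Ideal.Quotient.mkₐ_eq_mk, Function.comp_apply, ne_eq, FaithfulSMul.algebraMap_eq_zero_iff] using nonZeroDivisors.ne_zero hb

end Pool.Agent.MP_d171e3_nt.H31

end

-- part MP_d171e3_nt.H31.Der
section

/-! Derivations of function fields of one variable. -/

namespace Pool.Agent.MP_d171e3_nt.H31

open MvPolynomial Finset

theorem der_ess {σ F : Type*} [Finite σ] [Field F] [Algebra ℂ F]
    (π : MvPolynomial σ ℂ →ₐ[ℂ] F) (hπ : ∀ z : F, ∃ f g, π g ≠ 0 ∧ z = π f / π g) :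
    Algebra.EssFiniteType ℂ F := by
  have h : ∀ f, π f ∈ IntermediateField.adjoin ℂ (Set.range fun l => π (X l)) := fun f => by
    induction f using MvPolynomial.induction_on with
    | C a => exact (π.commutes a).symm ▸ IntermediateField.algebraMap_mem _ a
    | add f g hf hg => exact map_add π f g ▸ add_mem hf hg
    | mul_X f l hf => exact map_mul π f _ ▸ mul_mem hf (IntermediateField.subset_adjoin _ _ ⟨l, rfl⟩)
  have e : IntermediateField.adjoin ℂ (Set.range fun l => π (X l)) = ⊤ := eq_top_iff.2 fun z _ => by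
    obtain ⟨f, g, -, rfl⟩ := hπ z
    exact div_mem (h f) (h g)
  exact IntermediateField.fg_top_iff.1 (e ▸ IntermediateField.fg_adjoin_of_finite (Set.finite_range _))

theorem der_tr {F : Type*} [Field F] [Algebra ℂ F] {U : F} (hU : U ∉ (algebraMap ℂ F).range) :
    Transcendental ℂ U := fun h => hU (minpoly.mem_range_of_degree_eq_one ℂ U
  (IsAlgClosed.degree_eq_one_of_irreducible ℂ (minpoly.irreducible h.isIntegral)))

open IntermediateField in
/-- Plan: an element outside the range of `ℂ` is transcendental (`ℂ` algebraically closed: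
`IsAlgClosed.algebraMap_bijective_of_isIntegral` or `minpoly` of degree one). With `hdep`,
every `z` is algebraic over `ℂ⟮U⟯` (`AlgebraicIndependent.option_iff`-type lemmas, or directly).
`F` is generated over `ℂ⟮U⟯` as a field by the finitely many `π (X l)`, so it is finite
(`IntermediateField.finiteDimensional_adjoin`, or `Algebra.finite_of_essFiniteType_of_isAlgebraic`). -/
theorem finite_over {σ F : Type*} [Finite σ] [Field F] [Algebra ℂ F]
    (π : MvPolynomial σ ℂ →ₐ[ℂ] F) (hπ : ∀ z : F, ∃ f g, π g ≠ 0 ∧ z = π f / π g)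
    (hdep : ∀ x y : F, ¬ AlgebraicIndependent ℂ ![x, y]) (U : F)
    (hU : U ∉ (algebraMap ℂ F).range) : FiniteDimensional ℂ⟮U⟯ F := by
  have := der_ess π hπ
  have := Algebra.EssFiniteType.of_comp ℂ ℂ⟮U⟯ F
  have : Algebra.IsAlgebraic ℂ⟮U⟯ F := ⟨fun z => by_contra fun hz => hdep z U (by
    have h := (AlgebraicIndependent.option_iff (x := fun _ : Fin 1 => U) (a := z)).2
      ⟨algebraicIndependent_unique_type_iff.2 (der_tr hU), fun h => hz (by
        rw [Set.range_const] at h
        exact isAlgebraic_adjoin_iff.2 h)⟩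
    have e : ![z, U] = (fun o : Option (Fin 1) => o.elim z fun _ => U) ∘ finSuccEquiv 1 := by
      funext i
      fin_cases i <;> rfl
    exact e ▸ h.comp _ (finSuccEquiv 1).injective)⟩
  exact Algebra.finite_of_essFiniteType_of_isAlgebraic

open IntermediateField in
theorem der_zero {F : Type*} [Field F] [Algebra ℂ F] (d : Derivation ℂ F F) {U : F}
    [FiniteDimensional ℂ⟮U⟯ F] (hU : d U = 0) : d = 0 := by
  have h : ∀ k ∈ ℂ⟮U⟯, d k = 0 := fun k hk => by
    induction hk using adjoin_induction with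
    | mem x hx => exact hx ▸ hU
    | algebraMap x => exact d.map_algebraMap x
    | add x y _ _ hx hy => rw [map_add, hx, hy, add_zero]
    | inv x _ hx => rw [d.leibniz_inv, hx, smul_zero]
    | mul x y _ _ hx hy => rw [d.leibniz, hx, hy, smul_zero, smul_zero, add_zero]
  let d' : Derivation ℂ⟮U⟯ F F := Derivation.mk'
    { toFun := d
      map_add' := map_add d
      map_smul' := fun k z => by
        rw [RingHom.id_apply, IntermediateField.smul_def, IntermediateField.smul_def, smul_eq_mul,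
          d.leibniz, h k k.2, smul_zero, add_zero] }
    d.leibniz
  have := Algebra.FormallyUnramified.of_isSeparable ℂ⟮U⟯ F
  have := (KaehlerDifferential.linearMapEquivDerivation ℂ⟮U⟯ F (M := F)).symm.injective.subsingleton
  exact Derivation.ext fun z => DFunLike.congr_fun (Subsingleton.elim d' 0) z

/-- Plan: `F` is essentially of finite type and not algebraic over `ℂ`, so not formally unramified
(`Algebra.FormallyUnramified.iff_isSeparable`), `Ω[F⁄ℂ]` is nontrivial; a nonzero `F`-linear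
functional composed with `KaehlerDifferential.D` is a nonzero derivation `d`
(`KaehlerDifferential.span_range_derivation`). If `d U = 0` with `U` outside `ℂ`, then `d` kills
`ℂ⟮U⟯` and every `z` (apply `d` to the minimal polynomial of `z` over `ℂ⟮U⟯`, `finite_over`,
separability in characteristic zero), so `d = 0`. -/
theorem exists_der {σ F : Type*} [Finite σ] [Field F] [Algebra ℂ F]
    (π : MvPolynomial σ ℂ →ₐ[ℂ] F) (hπ : ∀ z : F, ∃ f g, π g ≠ 0 ∧ z = π f / π g)
    (hdep : ∀ x y : F, ¬ AlgebraicIndependent ℂ ![x, y])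
    (hne : ∃ x : F, x ∉ (algebraMap ℂ F).range) :
    ∃ d : Derivation ℂ F F, ∀ x, d x = 0 → x ∈ (algebraMap ℂ F).range := by
  have := der_ess π hπ
  obtain ⟨x, hx⟩ := hne
  have : Nontrivial Ω[F⁄ℂ] := not_subsingleton_iff_nontrivial.1 fun h =>
    der_tr hx (((Algebra.FormallyUnramified.iff_isSeparable ℂ F).1 ⟨h⟩).isSeparable' x).isIntegral.isAlgebraic
  obtain ⟨φ, hφ⟩ := exists_ne (0 : Module.Dual F Ω[F⁄ℂ])
  refine ⟨KaehlerDifferential.linearMapEquivDerivation ℂ F φ, fun U hU => by_contra fun h => hφ ?_⟩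
  have := finite_over π hπ hdep U h
  exact (LinearEquiv.map_eq_zero_iff _).1 (der_zero _ hU)

end Pool.Agent.MP_d171e3_nt.H31

end

-- part MP_d171e3_nt.H31.Trace
section

/-! Trace and norm commute with derivations. -/

namespace Pool.Agent.MP_d171e3_nt.H31

open MvPolynomial Finset

/-- Jacobi's formula, through the dual numbers. -/
theorem trace_jacobi {K n : Type*} [CommRing K] [Fintype n] [DecidableEq n] (d : K →+ K)
    (hd : ∀ a b, d (a * b) = a * d b + b * d a) (M N : Matrix n n K) (h : M * N = 1) :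
    d M.det = M.det * (N * M.map d).trace := by
  have h1 : d 1 = 0 := by simpa only [mul_one, one_mul, left_eq_add] using hd 1 1
  let φ : K →+* DualNumber K :=
    { toFun := fun a => TrivSqZeroExt.inl a + TrivSqZeroExt.inr (d a)
      map_one' := by simp [h1]
      map_mul' := fun a b => by ext <;> simp [hd, mul_comm]
      map_zero' := by simp
      map_add' := fun a b => by ext <;> simp only [TrivSqZeroExt.inl_add, map_add, DualNumber.inr_eq_smul_eps, TrivSqZeroExt.fst_add, TrivSqZeroExt.fst_inl, TrivSqZeroExt.fst_smul, DualNumber.fst_eps, smul_eq_mul, mul_zero, add_zero, TrivSqZeroExt.snd_add, TrivSqZeroExt.snd_inl, TrivSqZeroExt.snd_smul, DualNumber.snd_eps, mul_one, zero_add] }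
  let ι : K →+* DualNumber K := algebraMap K (DualNumber K)
  have h2 : φ.mapMatrix M =
      ι.mapMatrix M * (1 + (DualNumber.eps : DualNumber K) • ι.mapMatrix (N * M.map d)) := by
    rw [mul_add, mul_one, Matrix.mul_smul, ← map_mul, ← mul_assoc, h, one_mul]
    ext i j <;> simp [φ, ι, TrivSqZeroExt.algebraMap_eq_inl]
  have h3 := φ.map_det M
  rw [h2, Matrix.det_mul, Matrix.det_one_add_smul, ← ι.map_det, sq, DualNumber.eps_mul_eps,
    mul_zero, add_zero, RingHom.mapMatrix_apply, ← AddMonoidHom.map_trace] at h3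
  simpa only [φ, DualNumber.inr_eq_smul_eps, RingHom.coe_mk, MonoidHom.coe_mk, OneHom.coe_mk, TrivSqZeroExt.snd_add, TrivSqZeroExt.snd_inl, TrivSqZeroExt.snd_smul, DualNumber.snd_eps, smul_eq_mul, mul_one, zero_add, ι, TrivSqZeroExt.algebraMap_eq_inl, TrivSqZeroExt.snd_mul, TrivSqZeroExt.fst_inl, TrivSqZeroExt.snd_one, DualNumber.fst_eps, MulOpposite.op_zero, smul_zero, add_zero, TrivSqZeroExt.fst_add, TrivSqZeroExt.fst_one, TrivSqZeroExt.fst_mul, mul_zero, MulOpposite.op_one] using congrArg TrivSqZeroExt.snd h3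

theorem trace_aux {F : Type*} [Field F] [Algebra ℂ F] (K : IntermediateField ℂ F)
    {n : Type*} [Fintype n] [DecidableEq n] (e : Module.Basis n K F) (d : Derivation ℂ F F)
    (hK : ∀ x ∈ K, d x ∈ K) : ∃ (d0 : K →+ K) (G : Matrix n n K), (∀ a, (d0 a : F) = d a) ∧
      ∀ x, Algebra.leftMulMatrix e (d x) = (Algebra.leftMulMatrix e x).map d0 +
        G * Algebra.leftMulMatrix e x - Algebra.leftMulMatrix e x * G := by
  let d0 : K →+ K := AddMonoidHom.mk' (fun a => ⟨d a, hK a a.2⟩) fun a b => by ext; simp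
  let Γ : F →ₗ[K] F := e.constr K fun j => d (e j)
  have h1 : ∀ y k, e.repr (d y) k = d0 (e.repr y k) + e.repr (Γ y) k := fun y k => by
    have h : d y = ∑ i, d0 (e.repr y i) • e i + Γ y := by
      conv_lhs => rw [← e.sum_repr y]
      rw [map_sum, e.constr_apply_fintype K, ← sum_add_distrib]
      refine sum_congr rfl fun i _ => ?_
      simp only [IntermediateField.smul_def, smul_eq_mul, Derivation.leibniz,
        Module.Basis.equivFun_apply]
      rw [add_comm, mul_comm]
      rfl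
    rw [h, map_add, Finsupp.add_apply, e.repr_sum_self]
  refine ⟨d0, LinearMap.toMatrix e e Γ, fun a => rfl, fun x => ?_⟩
  simp only [Algebra.leftMulMatrix_apply, ← LinearMap.toMatrix_mul]
  ext k j : 2
  have h2 : d x * e j = d (x * e j) - x * Γ (e j) := by
    rw [Derivation.leibniz, e.constr_basis]
    simp only [smul_eq_mul, mul_comm, add_sub_cancel_left]
  simp only [Algebra.coe_lmul_eq_mul, LinearMap.toMatrix_apply, LinearMap.mul_apply_apply, h2, map_sub, Finsupp.coe_sub, Pi.sub_apply, h1, AddSubgroupClass.coe_sub, IntermediateField.coe_add, Matrix.sub_apply, Matrix.add_apply, Matrix.map_apply, Module.End.mul_apply]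

theorem trace_der {F : Type*} [Field F] [Algebra ℂ F] (K : IntermediateField ℂ F)
    [FiniteDimensional K F] (d : Derivation ℂ F F) (hK : ∀ x ∈ K, d x ∈ K) (x : F) :
    ((Algebra.trace K F (d x) : K) : F) = d ((Algebra.trace K F x : K) : F) := by
  obtain ⟨d0, G, h0, h⟩ := trace_aux K (Module.finBasis K F) d hK
  rw [← h0, Algebra.trace_eq_matrix_trace (Module.finBasis K F),
    Algebra.trace_eq_matrix_trace (Module.finBasis K F), h, Matrix.trace_sub, Matrix.trace_add,
    Matrix.trace_mul_comm G, add_sub_cancel_right, AddMonoidHom.map_trace]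

theorem trace_logDer {F : Type*} [Field F] [Algebra ℂ F] (K : IntermediateField ℂ F)
    [FiniteDimensional K F] (d : Derivation ℂ F F) (hK : ∀ x ∈ K, d x ∈ K) (x : F) (hx : x ≠ 0) :
    ((Algebra.trace K F (d x / x) : K) : F) =
      d ((Algebra.norm K x : K) : F) / ((Algebra.norm K x : K) : F) := by
  obtain ⟨d0, G, h0, h⟩ := trace_aux K (Module.finBasis K F) d hK
  set L := Algebra.leftMulMatrix (Module.finBasis K F)
  have h1 : L x * L x⁻¹ = 1 := by rw [← map_mul, mul_inv_cancel₀ hx, map_one]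
  have h2 := trace_jacobi d0 (fun a b => Subtype.ext (by
    push_cast
    simp only [h0, IntermediateField.coe_mul, Derivation.leibniz, smul_eq_mul])) _ _ h1
  have h3 : ((Algebra.norm K x : K) : F) ≠ 0 := by
    simpa using (Algebra.norm_ne_zero_iff (R := K)).2 hx
  have h4 : (L x⁻¹ * (G * L x)).trace = (L x⁻¹ * (L x * G)).trace := by
    rw [← mul_assoc, Matrix.trace_mul_comm, ← mul_assoc, h1, ← mul_assoc, ← map_mul,
      inv_mul_cancel₀ hx, map_one]
  rw [eq_div_iff h3, ← h0, Algebra.norm_eq_matrix_det (Module.finBasis K F), h2,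
    Algebra.trace_eq_matrix_trace (Module.finBasis K F), div_eq_inv_mul, map_mul, h, mul_sub,
    mul_add, Matrix.trace_sub, Matrix.trace_add, h4, add_sub_cancel_right]
  push_cast
  exact mul_comm _ _

end Pool.Agent.MP_d171e3_nt.H31

end

-- part MP_d171e3_nt.H31.Resid
section

/-! The residue at zero on a rational function field. -/

namespace Pool.Agent.MP_d171e3_nt.H31

open MvPolynomial Finset

/-- the local ring at zero -/
def resid_O {F : Type*} [Field F] [Algebra ℂ F] (U : F) : Subalgebra ℂ F where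
  carrier := {x | ∃ f g : Polynomial ℂ, g.eval 0 ≠ 0 ∧
    x * Polynomial.aeval U g = Polynomial.aeval U f}
  mul_mem' := by
    rintro x y ⟨f, g, hg, h⟩ ⟨f', g', hg', h'⟩
    refine ⟨f * f', g * g', by simp [hg, hg'], ?_⟩
    rw [map_mul, map_mul, ← h, ← h']; ring
  add_mem' := by
    rintro x y ⟨f, g, hg, h⟩ ⟨f', g', hg', h'⟩
    refine ⟨f * g' + f' * g, g * g', by simp [hg, hg'], ?_⟩
    rw [map_add, map_mul, map_mul, map_mul, ← h, ← h']; ring
  algebraMap_mem' := fun r => ⟨Polynomial.C r, 1, by simp, by simp⟩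

lemma resid_mem {F : Type*} [Field F] [Algebra ℂ F] {U x : F} : x ∈ resid_O U ↔
    ∃ f g : Polynomial ℂ, g.eval 0 ≠ 0 ∧ x * Polynomial.aeval U g = Polynomial.aeval U f :=
  Iff.rfl

lemma resid_U {F : Type*} [Field F] [Algebra ℂ F] (U : F) : U ∈ resid_O U :=
  ⟨Polynomial.X, 1, by simp, by simp⟩

lemma resid_der_aeval {F : Type*} [Field F] [Algebra ℂ F] (d : Derivation ℂ F F) (U : F)
    (hd : d U = 1) (f : Polynomial ℂ) :
    d (Polynomial.aeval U f) = Polynomial.aeval U (Polynomial.derivative f) := by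
  rw [Derivation.map_aeval, hd, smul_eq_mul, mul_one]

lemma resid_der {F : Type*} [Field F] [Algebra ℂ F] (d : Derivation ℂ F F) (U : F)
    (hd : d U = 1) {x : F} (hx : x ∈ resid_O U) : d x ∈ resid_O U := by
  obtain ⟨f, g, hg, h⟩ := hx
  refine ⟨Polynomial.derivative f * g - f * Polynomial.derivative g, g * g, by simp [hg], ?_⟩
  have h1 := congrArg d h
  rw [Derivation.leibniz, resid_der_aeval d U hd, resid_der_aeval d U hd, smul_eq_mul,
    smul_eq_mul] at h1
  rw [map_sub, map_mul, map_mul, map_mul, ← h1, ← h]; ring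

lemma resid_U_ne {F : Type*} [Field F] [Algebra ℂ F] {U : F} (hU : Transcendental ℂ U) :
    U ≠ 0 := by
  rintro rfl
  exact hU isAlgebraic_zero

lemma resid_inv {F : Type*} [Field F] [Algebra ℂ F] {U : F} (hU : Transcendental ℂ U) :
    U⁻¹ ∉ resid_O U := by
  rintro ⟨f, g, hg, h⟩
  have hinj := transcendental_iff_injective.1 hU
  have h2 : g = Polynomial.X * f := by
    apply hinj
    rw [map_mul, Polynomial.aeval_X, ← h, ← mul_assoc, mul_inv_cancel₀ (resid_U_ne hU), one_mul]
  apply hg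
  rw [h2]; simp

lemma resid_split {f : Polynomial ℂ} (hf : f ≠ 0) :
    ∃ (n : ℕ) (g : Polynomial ℂ), g.eval 0 ≠ 0 ∧ f = Polynomial.X ^ n * g := by
  obtain ⟨g, hg, hd⟩ := Polynomial.exists_eq_pow_rootMultiplicity_mul_and_not_dvd f hf 0
  refine ⟨f.rootMultiplicity 0, g, ?_, by simpa using hg⟩
  intro h
  exact hd (Polynomial.dvd_iff_isRoot.2 h)

open IntermediateField in
lemma resid_rep {F : Type*} [Field F] [Algebra ℂ F] {U : F} (hU : Transcendental ℂ U) {x : F}
    (hx : x ∈ ℂ⟮U⟯) (h0 : x ≠ 0) :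
    ∃ (n : ℤ) (b : F), b ≠ 0 ∧ b ∈ resid_O U ∧ b⁻¹ ∈ resid_O U ∧ x = U ^ n * b := by
  obtain ⟨r, s, rfl⟩ := (IntermediateField.mem_adjoin_simple_iff ℂ x).1 hx
  have hr : r ≠ 0 := by rintro rfl; simp at h0
  have hs : s ≠ 0 := by rintro rfl; simp at h0
  obtain ⟨n, f, hf, rfl⟩ := resid_split hr
  obtain ⟨m, g, hg, rfl⟩ := resid_split hs
  have hinj := transcendental_iff_injective.1 hU
  have hf' : Polynomial.aeval U f ≠ 0 := fun h => hf (by
    rw [hinj (h.trans (map_zero _).symm)]; simp)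
  have hg' : Polynomial.aeval U g ≠ 0 := fun h => hg (by
    rw [hinj (h.trans (map_zero _).symm)]; simp)
  refine ⟨(n : ℤ) - m, Polynomial.aeval U f / Polynomial.aeval U g, div_ne_zero hf' hg',
    ⟨f, g, hg, div_mul_cancel₀ _ hg'⟩, ⟨g, f, hf, by rw [inv_div, div_mul_cancel₀ _ hf']⟩, ?_⟩
  have hU0 := resid_U_ne hU
  rw [zpow_sub₀ hU0, zpow_natCast, zpow_natCast, map_mul, map_mul, map_pow, map_pow,
    Polynomial.aeval_X, div_mul_div_comm]

lemma resid_smul {F : Type*} [Field F] [Algebra ℂ F] {U : F} (hU : Transcendental ℂ U) {γ : ℂ}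
    (h : γ • U⁻¹ ∈ resid_O U) : γ = 0 := by
  by_contra hγ
  apply resid_inv hU
  have := (resid_O U).smul_mem h γ⁻¹
  rwa [smul_smul, inv_mul_cancel₀ hγ, one_smul] at this

lemma resid_logder {F : Type*} [Field F] [Algebra ℂ F] (d : Derivation ℂ F F) {U : F}
    (hU : U ≠ 0) (hd : d U = 1) (n : ℤ) {b : F} (hb : b ≠ 0) :
    d (U ^ n * b) / (U ^ n * b) = (n : ℂ) • U⁻¹ + d b * b⁻¹ := by
  rw [Derivation.leibniz, Derivation.leibniz_zpow, hd, Int.cast_smul_eq_zsmul]
  have h1 : U ^ n ≠ 0 := zpow_ne_zero n hU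
  simp only [smul_eq_mul, zsmul_eq_mul, mul_one, zpow_sub₀ hU, zpow_one]
  field_simp
  ring

open IntermediateField in
lemma resid_final {F : Type*} [Field F] [Algebra ℂ F] (d : Derivation ℂ F F) {U : F}
    (hU : Transcendental ℂ U) (hd : d U = 1) {γ : ℂ} {a : F} (ha : a ∈ ℂ⟮U⟯)
    (h : γ • U⁻¹ + d a ∈ resid_O U) : γ = 0 := by
  have hU0 := resid_U_ne hU
  have key : a ∈ resid_O U → γ = 0 := fun ha' => by
    have := (resid_O U).sub_mem h (resid_der d U hd ha')
    rw [add_sub_cancel_right] at this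
    exact resid_smul hU this
  by_cases h0 : a = 0
  · exact key (h0 ▸ (resid_O U).zero_mem)
  obtain ⟨n, b, hb, hbO, hbi, hab⟩ := resid_rep hU ha h0
  rcases n with n | m
  · apply key
    rw [hab, Int.ofNat_eq_natCast, zpow_natCast]
    exact (resid_O U).mul_mem ((resid_O U).pow_mem (resid_U U) n) hbO
  · exfalso
    have hl := resid_logder d hU0 hd (Int.negSucc m) hb
    rw [← hab, div_eq_iff h0] at hl
    have hai : a⁻¹ = U ^ (m + 1) * b⁻¹ := by
      rw [hab, zpow_negSucc, mul_inv, inv_inv]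
    have h1 : U⁻¹ * a⁻¹ ∈ resid_O U := by
      rw [hai, pow_succ', ← mul_assoc, ← mul_assoc, inv_mul_cancel₀ hU0, one_mul]
      exact (resid_O U).mul_mem ((resid_O U).pow_mem (resid_U U) m) hbi
    have h2 : a⁻¹ ∈ resid_O U := by
      rw [hai]
      exact (resid_O U).mul_mem ((resid_O U).pow_mem (resid_U U) _) hbi
    have h3 := (resid_O U).sub_mem ((resid_O U).sub_mem ((resid_O U).mul_mem h h2)
      ((resid_O U).smul_mem h1 γ)) ((resid_O U).mul_mem (resid_der d U hd hbO) hbi)
    have h4 : (γ • U⁻¹ + d a) * a⁻¹ - γ • (U⁻¹ * a⁻¹) - d b * b⁻¹ =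
        ((Int.negSucc m : ℤ) : ℂ) • U⁻¹ := by
      rw [hl, add_mul, mul_assoc, mul_inv_cancel₀ h0, smul_mul_assoc]; ring
    rw [h4] at h3
    have h5 := resid_smul hU h3
    exact Int.negSucc_ne_zero m (by exact_mod_cast h5)

open IntermediateField in
/-- the residue of a logarithmic differential vanishes -/
theorem residue {F : Type*} [Field F] [Algebra ℂ F] (d : Derivation ℂ F F) (U : F)
    (hU : Transcendental ℂ U) (hd : d U = 1) :
    ∃ ν : F → ℤ, ν U = 1 ∧ ∀ {κ : Type} [Fintype κ] (c : κ → ℂ) (N : κ → F) (a : F),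
      (∀ j, N j ∈ ℂ⟮U⟯) → (∀ j, N j ≠ 0) → a ∈ ℂ⟮U⟯ →
      ∑ j, c j • (d (N j) / N j) + d a = 0 → ∑ j, c j * (ν (N j) : ℂ) = 0 := by
  have hex : ∀ x : F, ∃ n : ℤ, (x = U → n = 1) ∧ (x ∈ ℂ⟮U⟯ → x ≠ 0 →
      ∃ b : F, b ≠ 0 ∧ b ∈ resid_O U ∧ b⁻¹ ∈ resid_O U ∧ x = U ^ n * b) := by
    intro x
    by_cases hxU : x = U
    · exact ⟨1, fun _ => rfl, fun _ _ => ⟨1, one_ne_zero, (resid_O U).one_mem,
        by rw [inv_one]; exact (resid_O U).one_mem, by simp [hxU]⟩⟩
    by_cases hx : x ∈ ℂ⟮U⟯ ∧ x ≠ 0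
    · obtain ⟨n, h⟩ := resid_rep hU hx.1 hx.2
      exact ⟨n, fun h => absurd h hxU, fun _ _ => h⟩
    · exact ⟨0, fun h => absurd h hxU, fun h1 h2 => absurd ⟨h1, h2⟩ hx⟩
  choose ν hν1 hν2 using hex
  refine ⟨ν, hν1 U rfl, ?_⟩
  intro κ _ c N a hN hN0 ha h
  choose b hb hbO hbi hNb using fun j => hν2 (N j) (hN j) (hN0 j)
  have hl : ∀ j, d (N j) / N j = (ν (N j) : ℂ) • U⁻¹ + d (b j) * (b j)⁻¹ := fun j => by
    have := resid_logder d (resid_U_ne hU) hd (ν (N j)) (hb j)
    rwa [← hNb j] at this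
  apply resid_final d hU hd ha
  have h2 : (∑ j, c j * (ν (N j) : ℂ)) • U⁻¹ + d a = -∑ j, c j • (d (b j) * (b j)⁻¹) := by
    simp only [hl, smul_add, Finset.sum_add_distrib, smul_smul] at h
    rw [Finset.sum_smul]
    linear_combination h
  rw [h2]
  exact (resid_O U).neg_mem ((resid_O U).sum_mem fun j _ => (resid_O U).smul_mem
    ((resid_O U).mul_mem (resid_der d U hd (hbO j)) (hbi j)) _)

open IntermediateField in
/-- the field generated by `U` is stable -/
theorem der_mem_adjoin {F : Type*} [Field F] [Algebra ℂ F] (d : Derivation ℂ F F) (U : F)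
    (hd : d U = 1) : ∀ x ∈ ℂ⟮U⟯, d x ∈ ℂ⟮U⟯ := by
  intro x hx
  obtain ⟨r, s, rfl⟩ := (IntermediateField.mem_adjoin_simple_iff ℂ x).1 hx
  have hm : ∀ f : Polynomial ℂ, Polynomial.aeval U f ∈ ℂ⟮U⟯ := fun f =>
    (IntermediateField.mem_adjoin_simple_iff ℂ _).2 ⟨f, 1, by simp⟩
  rw [Derivation.leibniz_div, resid_der_aeval d U hd, resid_der_aeval d U hd]
  simp only [smul_eq_mul]
  exact mul_mem (pow_mem (inv_mem (hm _)) _) (sub_mem (mul_mem (hm _) (hm _))
    (mul_mem (hm _) (hm _)))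

end Pool.Agent.MP_d171e3_nt.H31

end

-- part MP_d171e3_nt.H31.KO
section

/-! The theorem of Kolchin and Ostrowski for logarithms on a curve. -/

namespace Pool.Agent.MP_d171e3_nt.H31

open MvPolynomial Finset

lemma ko_log {F : Type*} [Field F] [Algebra ℂ F] (d : Derivation ℂ F F) {κ : Type}
    (u : κ → F) (hu0 : ∀ j, u j ≠ 0) (m : κ → ℤ) (s : Finset κ) :
    d (∏ j ∈ s, u j ^ m j) / ∏ j ∈ s, u j ^ m j = ∑ j ∈ s, (m j : ℂ) • (d (u j) / u j) := by
  classical
  induction s using Finset.induction_on with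
  | empty => simp
  | insert i s hi ih =>
    have h1 : ∏ j ∈ s, u j ^ m j ≠ 0 := prod_ne_zero_iff.2 fun j _ => zpow_ne_zero _ (hu0 j)
    have h2 := zpow_ne_zero (m i) (hu0 i)
    have h3 := hu0 i
    rw [prod_insert hi, sum_insert hi, ← ih, Derivation.leibniz, Derivation.leibniz_zpow,
      Int.cast_smul_eq_zsmul, zpow_sub_one₀ h3]
    simp only [smul_eq_mul, zsmul_eq_mul]
    field_simp
    ring

lemma ko_trace {F : Type*} [Field F] [Algebra ℂ F] (K : IntermediateField ℂ F)
    [FiniteDimensional K F] (d : Derivation ℂ F F) (hK : ∀ x ∈ K, d x ∈ K) :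
    ∃ (T : F →ₗ[ℂ] F) (N : F → F) (e : ℕ), e ≠ 0 ∧ (∀ x, T x ∈ K ∧ T (d x) = d (T x)) ∧
      (∀ x ∈ K, T x = (e : ℂ) • x) ∧
      ∀ x, x ≠ 0 → N x ∈ K ∧ N x ≠ 0 ∧ T (d x / x) = d (N x) / N x := by
  refine ⟨K.val.toLinearMap ∘ₗ (Algebra.trace K F).restrictScalars ℂ,
    fun x => (Algebra.norm K x : K), Module.finrank K F, Module.finrank_pos.ne',
    fun x => ⟨(Algebra.trace K F x).2, trace_der K d hK x⟩, fun x hx => ?_,
    fun x hx => ⟨(Algebra.norm K x).2, ?_, trace_logDer K d hK x hx⟩⟩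
  · have h := congrArg (fun z : K => (z : F)) (Algebra.trace_algebraMap (S := F) (⟨x, hx⟩ : K))
    rw [Nat.cast_smul_eq_nsmul]
    exact h
  · exact fun h => Algebra.norm_ne_zero_iff.2 hx (Subtype.ext h)

open IntermediateField in
/-- Plan: suppose `c j0 ≠ 0`. Take a `ℚ`-linear `ρ : ℂ → ℚ` with `ρ (c j0) ≠ 0`
(`Module.exists_dual_ne_zero` or similar) and integers `m j = den * ρ (c j)`, `den ≠ 0`
(`IsLocalization.exist_integer_multiples_of_finite`), `m ≠ 0`. `U = ∏ u j ^ m j` is not in `ℂ`,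
so it is transcendental, `d U ≠ 0`; `d' = (d U)⁻¹ • d` has `d' U = 1` and satisfies the same
relation. `K = ℂ⟮U⟯`, `N j = norm (u j) ≠ 0`, `e = finrank K F ≠ 0`. Traces
(`trace_der`, `trace_logDer`; the trace is `ℂ`-linear through `K`) turn the relation into
`∑ c j • d' N j / N j + d' (trace a) = 0`, so `∑ c j * ν (N j) = 0` and, applying `ρ`,
`∑ m j * ν (N j) = 0`. Also `d' U / U = ∑ m j • d' u j / u j`; its trace gives
`∑ m j • d' N j / N j - e • d' U / U + d' 0 = 0`; `residue` on `Option κ` gives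
`∑ m j * ν (N j) = e`, contradiction. -/
theorem ko {F : Type*} [Field F] [Algebra ℂ F] (d : Derivation ℂ F F)
    (hc : ∀ x, d x = 0 → x ∈ (algebraMap ℂ F).range)
    (hfin : ∀ U : F, U ∉ (algebraMap ℂ F).range → FiniteDimensional ℂ⟮U⟯ F)
    {κ : Type} [Fintype κ] (u : κ → F) (hu0 : ∀ j, u j ≠ 0)
    (hu : ∀ m : κ → ℤ, ∏ j, u j ^ m j ∈ (algebraMap ℂ F).range → m = 0)
    (c : κ → ℂ) (a : F) (h : ∑ j, c j • (d (u j) / u j) + d a = 0) : c = 0 := by
  by_contra hne
  obtain ⟨j0, hj0⟩ := Function.ne_iff.1 hne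
  obtain ⟨ρ, hρ⟩ := not_forall.1 fun h' =>
    hj0 ((Module.forall_dual_apply_eq_zero_iff ℚ (c j0)).1 h')
  obtain ⟨b, hb⟩ := IsLocalization.exist_integer_multiples_of_finite (nonZeroDivisors ℤ)
    fun j => ρ (c j)
  choose m hm using hb
  have hm' : ∀ j, (m j : ℚ) = (b : ℤ) * ρ (c j) := fun j => by simpa using hm j
  have hb0 : ((b : ℤ) : ℚ) ≠ 0 := Int.cast_ne_zero.2 (nonZeroDivisors.coe_ne_zero b)
  have hU : ∏ j, u j ^ m j ∉ (algebraMap ℂ F).range := fun h' => by
    have h1 := hm' j0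
    rw [hu m h'] at h1
    exact mul_ne_zero hb0 hρ (by simpa only [mul_eq_zero, Int.cast_eq_zero, nonZeroDivisors.coe_ne_zero, false_or, Pi.zero_apply, Int.cast_zero] using h1.symm)
  have hlog := fun D : Derivation ℂ F F => ko_log D u hu0 m univ
  generalize ∏ j, u j ^ m j = U at hU hlog
  have hT : Transcendental ℂ U := fun h' =>
    hU (minpoly.mem_range_of_degree_eq_one ℂ U
      (IsAlgClosed.degree_eq_one_of_irreducible ℂ (minpoly.irreducible h'.isIntegral)))
  have hU0 : U ≠ 0 := fun h' => hU (h' ▸ zero_mem _)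
  have hdU : d U ≠ 0 := fun h' => hU (hc U h')
  have := hfin U hU
  obtain ⟨D, hD1, hD⟩ : ∃ D : Derivation ℂ F F, D U = 1 ∧
      ∑ j, c j • (D (u j) / u j) + D a = 0 := by
    refine ⟨(d U)⁻¹ • d, inv_mul_cancel₀ hdU, ?_⟩
    have h1 := congrArg ((d U)⁻¹ * ·) h
    simp only [mul_add, mul_sum, mul_smul_comm, mul_zero, ← mul_div_assoc] at h1
    exact h1
  obtain ⟨T, N, e, e0, t1, t2, t3⟩ := ko_trace ℂ⟮U⟯ D (der_mem_adjoin D U hD1)
  obtain ⟨ν, hν, hres⟩ := residue D U hT hD1
  have hUK : U ∈ ℂ⟮U⟯ := mem_adjoin_simple_self ℂ U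
  have r1 := hres c (fun j => N (u j)) (T a) (fun j => (t3 _ (hu0 j)).1)
    (fun j => (t3 _ (hu0 j)).2.1) (t1 a).1 (by
      have h1 := congrArg T hD
      simpa only [map_add, map_sum, map_smul, map_zero, (t1 a).2, fun j => (t3 _ (hu0 j)).2.2]
        using h1)
  have r2 := hres (fun j : Option κ => j.elim (-(e : ℂ)) fun j => m j)
    (fun j => j.elim U fun j => N (u j)) 0
    (by rintro (_ | j); exacts [hUK, (t3 _ (hu0 j)).1])
    (by rintro (_ | j); exacts [hU0, (t3 _ (hu0 j)).2.1]) (zero_mem _) (by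
      have h1 := congrArg T (hlog D)
      rw [t2 _ (div_mem (hD1 ▸ one_mem _) hUK)] at h1
      simp only [map_sum, map_smul, fun j => (t3 _ (hu0 j)).2.2] at h1
      simp only [Fintype.sum_option, Option.elim, map_zero, add_zero, neg_smul, h1, neg_add_cancel])
  have r3 : ∑ j, (m j : ℚ) * ν (N (u j)) = 0 := by
    have h1 := congrArg (fun z => ((b : ℤ) : ℚ) * ρ z) r1
    simp only [map_sum, map_zero, mul_zero, mul_sum] at h1
    rw [← h1]
    refine sum_congr rfl fun j _ => ?_
    rw [mul_comm (c j), ← zsmul_eq_mul (c j), map_zsmul, zsmul_eq_mul, hm']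
    ring
  have r4 : ∑ j, (m j : ℂ) * ν (N (u j)) = 0 := by exact_mod_cast r3
  simp only [Fintype.sum_option, Option.elim, hν, r4] at r2
  exact e0 (by simpa using r2)

end Pool.Agent.MP_d171e3_nt.H31

end

-- part MP_d171e3_nt.H31.Stable
section

/-! Stable subspaces of polynomials in logarithms contain the constants. -/

namespace Pool.Agent.MP_d171e3_nt.H31

open MvPolynomial Finset

variable {κ F : Type*} [Fintype κ] [Field F] [Algebra ℂ F]

lemma stable_add (d : Derivation ℂ F F) (v : κ → F) (P Q : MvPolynomial κ F) :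
    DD d v (P + Q) = DD d v P + DD d v Q := by
  ext β
  simp only [coeff_DD, coeff_add, map_add, add_mul, mul_add, sum_add_distrib]
  ring

lemma stable_smul (d : Derivation ℂ F F) (v : κ → F) (a : F) (Q : MvPolynomial κ F) :
    DD d v (a • Q) = d a • Q + a • DD d v Q := by
  ext β
  simp only [coeff_DD, coeff_add, coeff_smul, smul_eq_mul, Derivation.leibniz, mul_add, mul_sum]
  rw [add_comm (a * _), mul_comm (coeff β Q), add_assoc]
  congr 2
  exact sum_congr rfl fun j _ => by ring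

lemma stable_top (d : Derivation ℂ F F) (v : κ → F) {Q : MvPolynomial κ F} {β : κ →₀ ℕ}
    (h : Q.totalDegree ≤ β.degree) : coeff β (DD d v Q) = d (coeff β Q) := by
  rw [coeff_DD, sum_eq_zero, add_zero]
  intro j _
  rw [coeff_eq_zero_of_totalDegree_lt, zero_mul, mul_zero]
  rw [← Finsupp.degree_apply, map_add, Finsupp.degree_single]
  omega

/-- Plan: among the nonzero `Q ∈ W` take the least total degree `m`, then the least number of
monomials of degree `m`; scale one such coefficient (at `α`) to `1`. By `coeff_DD`, `DD d v Q`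
has degree `≤ m` and its coefficients in degree `m` are the `d (coeff β Q)`, so it has fewer
monomials of degree `m`; by minimality it is `0`. Hence the top coefficients are constants, and if
`m ≥ 1`, the coefficient at `β = α - single j0 1` gives a relation
`∑ j, c j • v j + d (coeff β Q) = 0` with `c j0 ≠ 0`. So `m = 0` and `Q = 1`. -/
theorem stable_one (d : Derivation ℂ F F) (v : κ → F)
    (hc : ∀ x, d x = 0 → x ∈ (algebraMap ℂ F).range)
    (hv : ∀ (c : κ → ℂ) (a : F), ∑ j, c j • v j + d a = 0 → c = 0)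
    (W : Submodule F (MvPolynomial κ F)) (hW : ∀ Q ∈ W, DD d v Q ∈ W) (hne : W ≠ ⊥) :
    (1 : MvPolynomial κ F) ∈ W := by
  classical
  obtain ⟨Q₀, hQ₀, hQ₀0⟩ := W.ne_bot_iff.1 hne
  have h1 : ∃ m, ∃ Q ∈ W, Q ≠ 0 ∧ Q.totalDegree = m := ⟨_, Q₀, hQ₀, hQ₀0, rfl⟩
  set m := Nat.find h1 with hm
  have hmin : ∀ Q ∈ W, Q ≠ 0 → m ≤ Q.totalDegree := fun Q h h0 => Nat.find_min' h1 ⟨Q, h, h0, rfl⟩
  have h2 : ∃ n, ∃ Q ∈ W, Q ≠ 0 ∧ Q.totalDegree = m ∧
      #(Q.support.filter fun β => β.degree = m) = n := by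
    obtain ⟨Q, h, h0, h'⟩ := Nat.find_spec h1
    exact ⟨_, Q, h, h0, h', rfl⟩
  obtain ⟨P, hP, hP0, hPm, hPn⟩ := Nat.find_spec h2
  obtain ⟨α, hα, hαm⟩ := Finset.exists_mem_eq_sup P.support (support_nonempty.2 hP0)
    fun β : κ →₀ ℕ => β.sum fun _ e => e
  have hαd : α.degree = m := by
    rw [← hPm, totalDegree, hαm]
    rfl
  have hα0 : coeff α P ≠ 0 := mem_support_iff.1 hα
  set Q := (coeff α P)⁻¹ • P with hQ
  have hQW : Q ∈ W := W.smul_mem _ hP
  have hQs : Q.support = P.support := by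
    ext β
    simp [hQ, hα0]
  have hQm : Q.totalDegree = m := by rw [← hPm, totalDegree, totalDegree, hQs]
  have hQα : coeff α Q = 1 := by simp [hQ, hα0]
  have hR : DD d v Q = 0 := by
    by_contra h0
    have h3 : (DD d v Q).totalDegree ≤ m := by
      refine Finset.sup_le fun β hβ => ?_
      by_contra h
      push Not at h
      have h' : m < β.degree := h
      refine mem_support_iff.1 hβ ?_
      rw [stable_top d v (by omega), coeff_eq_zero_of_totalDegree_lt, map_zero]
      rw [← Finsupp.degree_apply]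
      omega
    have h4 := Nat.find_min' h2 ⟨_, hW Q hQW, h0, le_antisymm h3 (hmin _ (hW Q hQW) h0), rfl⟩
    rw [← hPn, ← hQs] at h4
    refine absurd h4 (not_le.2 (card_lt_card ⟨fun β hβ => ?_, fun h => ?_⟩))
    · rw [mem_filter, mem_support_iff] at hβ ⊢
      refine ⟨fun h => hβ.1 ?_, hβ.2⟩
      rw [stable_top d v (by omega), h, map_zero]
    · have := h (mem_filter.2 ⟨hQs ▸ hα, hαd⟩)
      rw [mem_filter, mem_support_iff, stable_top d v (by omega), hQα] at this
      exact this.1 d.map_one_eq_zero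
  have h5 : ∀ β : κ →₀ ℕ, β.degree = m → ∃ c : ℂ, algebraMap ℂ F c = coeff β Q := fun β hβ =>
    hc _ (by rw [← stable_top d v (by omega), hR, coeff_zero])
  have hα00 : α = 0 := by
    by_contra h
    obtain ⟨j₀, hj₀⟩ : ∃ j, α j ≠ 0 := by
      by_contra h'
      push Not at h'
      exact h (Finsupp.ext h')
    obtain ⟨β, hβ⟩ : ∃ β, α = β + Finsupp.single j₀ 1 :=
      ⟨α - Finsupp.single j₀ 1, (tsub_add_cancel_of_le
        (Finsupp.single_le_iff.2 (Nat.one_le_iff_ne_zero.2 hj₀))).symm⟩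
    have h6 : ∀ j, (β + Finsupp.single j 1).degree = m := fun j => by
      rw [← hαd, hβ, map_add, map_add, Finsupp.degree_single, Finsupp.degree_single]
    choose c hc' using fun j => h5 _ (h6 j)
    have h7 := hv (fun j => c j * (β j + 1)) (coeff β Q) (by
      have := coeff_DD d v Q β
      rw [hR, coeff_zero] at this
      rw [this, add_comm]
      congr 1
      refine sum_congr rfl fun j _ => ?_
      rw [← hc' j, Algebra.smul_def]
      simp [mul_comm])
    have h8 : c j₀ * (β j₀ + 1) = 0 := congrFun h7 j₀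
    have h9 : ((β j₀ : ℂ) + 1) ≠ 0 := Nat.cast_add_one_ne_zero _
    have h10 := hc' j₀
    rw [(mul_eq_zero.1 h8).resolve_right h9, map_zero, ← hβ, hQα] at h10
    exact zero_ne_one h10
  rw [hα00, map_zero] at hαd
  have h11 := totalDegree_eq_zero_iff_eq_C.1 (hQm.trans hαd.symm)
  rw [← hα00, hQα, C_1] at h11
  exact h11 ▸ hQW

/-- Plan: `DD` is additive, `DD (a • Q) = d a • Q + a • DD Q` (by `coeff_DD`), and keeps the
space `Bx` of polynomials with all exponents `< D`, of dimension `≤ M = D ^ card κ`. Let `W s` be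
the span of the iterates `< s`. If the iterate `s` were outside `W s` for all `s ≤ M`, the
dimension of `W (M+1) ≤ Bx` would be `M + 1`. So for some `s ≤ M` (`s ≥ 1` as `Q ≠ 0`) `W s` is
stable; `stable_one`. -/
theorem one_mem_span_iter (d : Derivation ℂ F F) (v : κ → F)
    (hc : ∀ x, d x = 0 → x ∈ (algebraMap ℂ F).range)
    (hv : ∀ (c : κ → ℂ) (a : F), ∑ j, c j • v j + d a = 0 → c = 0)
    (D : ℕ) (Q : MvPolynomial κ F) (hQ : Q ≠ 0) (hD : ∀ α ∈ Q.support, ∀ j, α j < D) :
    (1 : MvPolynomial κ F) ∈ Submodule.span F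
      (Set.range fun s : Fin (D ^ Fintype.card κ) => (DD d v)^[s] Q) := by
  classical
  set u : ℕ → MvPolynomial κ F := fun s => (DD d v)^[s] Q with hu
  have hsucc : ∀ s, u (s + 1) = DD d v (u s) := fun s => Function.iterate_succ_apply' _ _ _
  have hbox : ∀ s α j, D ≤ α j → coeff α (u s) = 0 := fun s => by
    induction s with
    | zero => exact fun α j h => notMem_support_iff.1 fun h' => absurd (hD α h' j) (not_lt.2 h)
    | succ s ih =>
      intro α j h
      rw [hsucc, coeff_DD, ih α j h, map_zero, zero_add]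
      refine sum_eq_zero fun i _ => ?_
      rw [ih _ j (h.trans (by simp)), zero_mul, mul_zero]
  let mon : (κ → Fin D) → MvPolynomial κ F := fun e =>
    monomial (Finsupp.equivFunOnFinite.symm fun j => (e j : ℕ)) 1
  have hspan : ∀ s, u s ∈ Submodule.span F (Set.range mon) := fun s => by
    rw [(u s).as_sum]
    refine Submodule.sum_mem _ fun α hα => ?_
    have h1 : ∀ j, α j < D := fun j => lt_of_not_ge fun h => mem_support_iff.1 hα (hbox s α j h)
    have h2 : monomial α (coeff α (u s)) = coeff α (u s) • mon fun j => ⟨α j, h1 j⟩ := by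
      simp only [mon, Finsupp.equivFunOnFinite_symm_coe, smul_monomial, smul_eq_mul, mul_one]
    rw [h2]
    exact Submodule.smul_mem _ _ (Submodule.subset_span ⟨_, rfl⟩)
  obtain ⟨s, hs, hmem⟩ : ∃ s ≤ D ^ Fintype.card κ,
      u s ∈ Submodule.span F (Set.range fun i : Fin s => u i) := by
    by_contra h
    push Not at h
    have h1 : ∀ n ≤ D ^ Fintype.card κ + 1, LinearIndependent F fun i : Fin n => u i := by
      intro n
      induction n with
      | zero => exact fun _ => linearIndependent_empty_type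
      | succ n ih =>
        intro hn
        exact linearIndependent_finSucc'.2 ⟨ih (by omega), h n (by omega)⟩
    have h2 := linearIndependent_le_span_aux' _ (h1 _ le_rfl) (Set.range mon)
      (by rintro _ ⟨i, rfl⟩; exact hspan i)
    have h3 := Fintype.card_range_le mon
    simp only [Fintype.card_fin, Fintype.card_fun] at h2 h3
    omega
  have hs0 : 0 < s := Nat.pos_of_ne_zero fun h => by
    subst h
    simp only [Set.range_eq_empty, Submodule.span_empty, Submodule.mem_bot] at hmem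
    exact hQ hmem
  refine Submodule.span_mono ?_ (stable_one d v hc hv
    (Submodule.span F (Set.range fun i : Fin s => u i)) (fun P hP => ?_) ?_)
  · rintro _ ⟨i, rfl⟩
    exact ⟨⟨i, i.2.trans_le hs⟩, rfl⟩
  · induction hP using Submodule.span_induction with
    | mem P hP =>
      obtain ⟨i, rfl⟩ := hP
      rw [← hsucc]
      rcases (Nat.succ_le_of_lt i.2).eq_or_lt with h | h
      · rw [show (i : ℕ) + 1 = s from h]
        exact hmem
      · exact Submodule.subset_span ⟨⟨_, h⟩, rfl⟩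
    | zero =>
      have := stable_smul d v 0 0
      simp only [zero_smul, smul_zero, add_zero] at this
      rw [this]
      exact Submodule.zero_mem _
    | add P P' _ _ h h' => rw [stable_add]; exact Submodule.add_mem _ h h'
    | smul a P h h' =>
      rw [stable_smul]
      exact Submodule.add_mem _ (Submodule.smul_mem _ _ h) (Submodule.smul_mem _ _ h')
  · exact (Submodule.ne_bot_iff _).2 ⟨Q, Submodule.subset_span ⟨⟨0, hs0⟩, rfl⟩, hQ⟩

end Pool.Agent.MP_d171e3_nt.H31

end

-- part MP_d171e3_nt.H31.Word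
section

/-! A short word of derivations moves a polynomial out of a prime ideal. -/

namespace Pool.Agent.MP_d171e3_nt.H31

open MvPolynomial Finset

/-- differential powers of an ideal -/
def word_J {σ : Type*} (p : Ideal (MvPolynomial σ ℂ)) : ℕ → MvPolynomial σ ℂ → Prop
  | 0, _ => True
  | o + 1, f => f ∈ p ∧ ∀ l, word_J p o (pderiv l f)

lemma word_mono {σ : Type*} (p : Ideal (MvPolynomial σ ℂ)) (o : ℕ) :
    ∀ f, word_J p (o + 1) f → word_J p o f := by
  induction o with
  | zero => intro f _; trivial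
  | succ o ih => intro f h; exact ⟨h.1, fun l => ih _ (h.2 l)⟩

lemma word_add {σ : Type*} (p : Ideal (MvPolynomial σ ℂ)) (o : ℕ) :
    ∀ f h, word_J p o f → word_J p o h → word_J p o (f + h) := by
  induction o with
  | zero => intro f h _ _; trivial
  | succ o ih =>
    intro f h hf hh
    refine ⟨p.add_mem hf.1 hh.1, fun l => ?_⟩
    rw [map_add]
    exact ih _ _ (hf.2 l) (hh.2 l)

lemma word_mul {σ : Type*} (p : Ideal (MvPolynomial σ ℂ)) (o : ℕ) :
    ∀ f h, word_J p o f → word_J p o (h * f) := by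
  induction o with
  | zero => intro f h _; trivial
  | succ o ih =>
    intro f h hf
    refine ⟨p.mul_mem_left h hf.1, fun l => ?_⟩
    rw [Derivation.leibniz, smul_eq_mul, smul_eq_mul, mul_comm f]
    exact word_add p o _ _ (ih _ _ (hf.2 l)) (ih _ _ (word_mono p o f hf))

lemma word_cancel {σ : Type*} (p : Ideal (MvPolynomial σ ℂ)) [hp : p.IsPrime]
    (g : MvPolynomial σ ℂ) (hg : g ∉ p) (o : ℕ) :
    ∀ h, word_J p o (g * h) → word_J p o h := by
  induction o with
  | zero => intro h _; trivial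
  | succ o ih =>
    intro h hh
    refine ⟨(hp.mem_or_mem hh.1).resolve_left hg, fun l => ih _ ?_⟩
    have h1 := hh.2 l
    have h2 := word_mul p o h (-pderiv l g) (ih h (word_mono p o _ hh))
    have h3 := word_add p o _ _ h1 h2
    rw [Derivation.leibniz, smul_eq_mul, smul_eq_mul] at h3
    convert h3 using 1
    ring

lemma word_deg {σ : Type*} (l : σ) (f : MvPolynomial σ ℂ) :
    (pderiv l f).totalDegree ≤ f.totalDegree - 1 := by
  classical
  refine Finset.sup_le fun m hm => ?_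
  rw [mem_support_iff, coeff_pderiv] at hm
  have h1 : m + Finsupp.single l 1 ∈ f.support := mem_support_iff.2 (left_ne_zero_of_mul hm)
  have h2 := le_totalDegree h1
  rw [Finsupp.sum_add_index' (fun _ => rfl) (fun _ _ _ => rfl), Finsupp.sum_single_index rfl] at h2
  omega

lemma word_const {σ : Type*} (f : MvPolynomial σ ℂ) (h : ∀ l, pderiv l f = 0) :
    f = C (coeff 0 f) := by
  classical
  ext d
  rw [coeff_C]
  split_ifs with hd
  · rw [hd]
  · obtain ⟨l, hl⟩ : ∃ l, d l ≠ 0 := by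
      by_contra hc
      push Not at hc
      exact hd (Finsupp.ext fun l => (hc l).symm)
    have h1 : d - Finsupp.single l 1 + Finsupp.single l 1 = d :=
      tsub_add_cancel_of_le (Finsupp.single_le_iff.2 (Nat.one_le_iff_ne_zero.2 hl))
    have h2 := congrArg (coeff (d - Finsupp.single l 1)) (h l)
    rw [coeff_pderiv, h1, coeff_zero] at h2
    exact (mul_eq_zero.1 h2).resolve_right (Nat.cast_add_one_ne_zero _)

lemma word_C {σ : Type*} (p : Ideal (MvPolynomial σ ℂ)) [hp : p.IsPrime] (c : ℂ)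
    (h : C c ∈ p) : c = 0 := by
  by_contra hc
  exact hp.ne_top (p.eq_top_of_isUnit_mem h ((IsUnit.mk0 c hc).map C))

lemma word_zero {σ : Type*} (p : Ideal (MvPolynomial σ ℂ)) [p.IsPrime] (o : ℕ) :
    ∀ f, word_J p (o + 1) f → f.totalDegree ≤ o → f = 0 := by
  induction o with
  | zero =>
    intro f hf hd
    have h := totalDegree_eq_zero_iff_eq_C.1 (Nat.le_zero.1 hd)
    have h1 := hf.1
    rw [h] at h1
    rw [h, word_C p _ h1, map_zero]
  | succ o ih =>
    intro f hf hd
    have h := word_const f fun l => ih _ (hf.2 l) ((word_deg l f).trans (by omega))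
    have h1 := hf.1
    rw [h] at h1
    rw [h, word_C p _ h1, map_zero]

lemma word_list {σ : Type*} (p : Ideal (MvPolynomial σ ℂ)) [p.IsPrime]
    (g : MvPolynomial σ ℂ) (hg : g ∉ p) (o : ℕ) : ∀ f, ¬ word_J p (o + 1) f →
    ∃ L : List σ, L.length ≤ o ∧ L.foldr (fun l h => g * pderiv l h) f ∉ p := by
  induction o with
  | zero => intro f hf; exact ⟨[], le_rfl, fun h => hf ⟨h, fun _ => trivial⟩⟩
  | succ o ih =>
    intro f hf
    by_cases h : f ∈ p
    · obtain ⟨l, hl⟩ : ∃ l, ¬ word_J p (o + 1) (pderiv l f) := by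
        by_contra hc
        push Not at hc
        exact hf ⟨h, hc⟩
      obtain ⟨L, h1, h2⟩ := ih (g * pderiv l f) fun hc => hl (word_cancel p g hg _ _ hc)
      refine ⟨L ++ [l], by simpa using h1, ?_⟩
      rw [List.foldr_append]
      exact h2
    · exact ⟨[], Nat.zero_le _, h⟩

/-- A word of length at most the degree moves `f` out of the prime `p`. -/
theorem exists_word {σ : Type*} [Fintype σ] (p : Ideal (MvPolynomial σ ℂ)) [p.IsPrime]
    (g : MvPolynomial σ ℂ) (hg : g ∉ p) (k : ℕ) (f : MvPolynomial σ ℂ) (hf : f ≠ 0)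
    (hk : f.totalDegree ≤ k) :
    ∃ L : List σ, L.length ≤ k ∧ L.foldr (fun l h => g * pderiv l h) f ∉ p :=
  word_list p g hg k f fun h => hf (word_zero p k f h hk)

theorem totalDegree_pderiv_le' {σ : Type*} (l : σ) (f : MvPolynomial σ ℂ) :
    (pderiv l f).totalDegree ≤ f.totalDegree :=
  (word_deg l f).trans (Nat.sub_le _ _)

end Pool.Agent.MP_d171e3_nt.H31

end

-- part MP_d171e3_nt.H31.Gauss
section

/-! Elimination with control of degrees. -/

namespace Pool.Agent.MP_d171e3_nt.H31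

open MvPolynomial Finset

/-- Plan: induction on `s` (for all `T, v, e`). `s = 0`: `Δ = 1`. Step: let `u = v (last)` (or
`v 0`). If `map π u = 0` drop it. Otherwise pick `μ` with `π (coeff μ u) ≠ 0` and replace
`v i` by `C (coeff μ u) * v i - C (coeff μ (v i)) * u` and `e` likewise (degrees `≤ 2 T`); the new
`e` is in the span of the new `v i` (same scalars); `Δ = Δ' * coeff μ u`. -/
theorem gauss {σ κ F : Type*} [Field F] (π : MvPolynomial σ ℂ →+* F) (s : ℕ) :
    ∀ (T : ℕ) (v : Fin s → MvPolynomial κ (MvPolynomial σ ℂ))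
      (e : MvPolynomial κ (MvPolynomial σ ℂ)),
      (∀ i α, (coeff α (v i)).totalDegree ≤ T) → (∀ α, (coeff α e).totalDegree ≤ T) →
      map π e ∈ Submodule.span F (Set.range fun i => map π (v i)) →
      ∃ (Δ : MvPolynomial σ ℂ) (b : Fin s → MvPolynomial σ ℂ), π Δ ≠ 0 ∧
        Δ.totalDegree + T ≤ 2 ^ s * T ∧ map π (C Δ * e) = map π (∑ i, C (b i) * v i) := by
  induction s with
  | zero =>
    intro T v e _ _ h
    obtain ⟨c, hc⟩ := (Submodule.mem_span_range_iff_exists_fun F).1 h
    exact ⟨1, 0, by simp, by simp, by simpa only [C_1, one_mul, univ_eq_empty, Pi.zero_apply, C_0, zero_mul, sum_const_zero, map_zero, sum_empty] using hc.symm⟩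
  | succ s ih =>
    intro T v e hv he h
    obtain ⟨c, hc⟩ := (Submodule.mem_span_range_iff_exists_fun F).1 h
    rw [Fin.sum_univ_succ] at hc
    by_cases h0 : map π (v 0) = 0
    · obtain ⟨Δ, b, h1, h2, h3⟩ := ih T (fun i => v i.succ) e (fun i => hv _) he
        ((Submodule.mem_span_range_iff_exists_fun F).2 ⟨fun i => c i.succ, by simpa only [h0, smul_zero, zero_add] using hc⟩)
      refine ⟨Δ, Fin.cons 0 b, h1, h2.trans (by rw [pow_succ]; linarith only [h2]), ?_⟩
      rw [h3, Fin.sum_univ_succ]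
      simp only [map_sum, map_mul, map_C, Fin.cons_zero, C_0, zero_mul, Fin.cons_succ, zero_add]
    · obtain ⟨μ, hμ⟩ := ne_zero_iff.1 h0
      rw [coeff_map] at hμ
      have hd : ∀ q : MvPolynomial κ (MvPolynomial σ ℂ), (∀ α, (coeff α q).totalDegree ≤ T) → ∀ α,
          (coeff α (C (coeff μ (v 0)) * q - C (coeff μ q) * v 0)).totalDegree ≤ 2 * T := fun q hq α => by
        rw [coeff_sub, coeff_C_mul, coeff_C_mul, two_mul]
        exact (totalDegree_sub _ _).trans (max_le
          ((totalDegree_mul _ _).trans (add_le_add (hv _ _) (hq _)))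
          ((totalDegree_mul _ _).trans (add_le_add (hq _) (hv _ _))))
      have hm : π (coeff μ e) = c 0 * π (coeff μ (v 0)) + ∑ i : Fin s, c i.succ * π (coeff μ (v i.succ)) := by
        have := congrArg (coeff μ) hc
        simpa only [coeff_map, coeff_add, coeff_smul, smul_eq_mul, coeff_sum] using this.symm
      obtain ⟨Δ, b, h1, h2, h3⟩ := ih (2 * T)
        (fun i => C (coeff μ (v 0)) * v i.succ - C (coeff μ (v i.succ)) * v 0)
        (C (coeff μ (v 0)) * e - C (coeff μ e) * v 0) (fun i => hd _ (hv _)) (hd _ he)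
        ((Submodule.mem_span_range_iff_exists_fun F).2 ⟨fun i => c i.succ, by
          simp only [map_sub, map_mul, map_C, ← hc, hm, smul_eq_C_mul, map_add, map_sum, mul_sub,
            Finset.sum_sub_distrib, mul_add, add_mul, Finset.mul_sum, Finset.sum_mul, mul_assoc,
            mul_left_comm (C (π (coeff μ (v 0))) : MvPolynomial κ F)]
          ring⟩)
      refine ⟨Δ * coeff μ (v 0), Fin.cons (Δ * coeff μ e - ∑ i, b i * coeff μ (v i.succ))
        fun i => b i * coeff μ (v 0), by rw [map_mul]; exact mul_ne_zero h1 hμ, ?_, ?_⟩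
      · have := totalDegree_mul Δ (coeff μ (v 0))
        have := hv 0 μ
        rw [pow_succ, mul_assoc]
        omega
      · rw [Fin.sum_univ_succ]
        simp only [Fin.cons_zero, Fin.cons_succ, map_sub, map_mul, map_add, map_sum, mul_sub,
          Finset.sum_sub_distrib, sub_mul, Finset.sum_mul, mul_assoc] at h3 ⊢
        linear_combination h3

end Pool.Agent.MP_d171e3_nt.H31

end

-- part MP_d171e3_nt.H31.Lower
section

/-! One derivation lowers the order of vanishing along a leaf by at most one. -/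

namespace Pool.Agent.MP_d171e3_nt.H31

open MvPolynomial Finset

variable {κ A : Type*} [Fintype κ] [CommRing A] [Algebra ℂ A]

/-- Plan: `Submodule.pow_induction_on_left'`-type induction or `Ideal.pow` with
`Submodule.mul_induction_on`, Leibniz. -/
theorem der_mem_pow (m : Ideal A) (δ : Derivation ℂ A A) (o : ℕ) {f : A} (hf : f ∈ m ^ (o + 1)) :
    δ f ∈ m ^ o := by
  induction o generalizing f with
  | zero => simp
  | succ o ih =>
    rw [pow_succ] at hf
    refine Submodule.mul_induction_on hf (fun a ha b hb => ?_) fun x y hx hy => ?_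
    · rw [Derivation.leibniz, smul_eq_mul, smul_eq_mul]
      refine Ideal.add_mem _ (Ideal.mul_mem_right _ _ ha) ?_
      rw [pow_succ']
      exact Ideal.mul_mem_mul hb (ih ha)
    · rw [map_add]; exact Ideal.add_mem _ hx hy

omit [Fintype κ] in
lemma lower_add (δ : Derivation ℂ A A) (P Q : MvPolynomial κ A) :
    cmap δ (P + Q) = cmap δ P + cmap δ Q := by
  ext α; simp [coeff_cmap]

omit [Fintype κ] in
lemma lower_X (δ : Derivation ℂ A A) (Q : MvPolynomial κ A) (j : κ) :
    cmap δ (Q * X j) = cmap δ Q * X j := by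
  classical
  ext α
  simp only [coeff_cmap, coeff_mul_X']
  split_ifs <;> simp

omit [Fintype κ] in
lemma lower_mulC (δ : Derivation ℂ A A) (Q : MvPolynomial κ A) (a : A) :
    cmap δ (Q * C a) = cmap δ Q * C a + Q * C (δ a) := by
  ext α
  simp only [mul_comm _ (C _), coeff_cmap, coeff_add, coeff_C_mul, Derivation.leibniz, smul_eq_mul]
  ring

omit [Fintype κ] in
lemma lower_C (δ : Derivation ℂ A A) (a : A) : cmap δ (C a : MvPolynomial κ A) = C (δ a) := by
  classical
  ext α
  simp only [coeff_cmap, coeff_C]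
  split_ifs <;> simp

lemma lower_chain (δ : Derivation ℂ A A) (L : κ → A) (Q : MvPolynomial κ A) :
    cmap δ (shift L Q) = shift L (cmap δ Q) + ∑ j, C (δ (L j)) * shift L (pderiv j Q) := by
  classical
  have hC : ∀ a : A, shift L (C a) = C a := fun a => by simp [shift]
  have hX : ∀ j, shift L (X j) = X j + C (L j) := fun j => by simp [shift]
  induction Q using MvPolynomial.induction_on with
  | C a => simp only [hC, lower_C, derivation_C, map_zero, mul_zero, sum_const_zero, add_zero]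
  | add P Q hP hQ =>
    simp only [map_add, lower_add, hP, hQ, mul_add, sum_add_distrib]
    ring
  | mul_X Q n hQ =>
    have h1 : ∀ j, C (δ (L j)) * shift L (pderiv j (Q * X n)) =
        C (δ (L j)) * shift L (pderiv j Q) * (X n + C (L n)) +
          if n = j then C (δ (L j)) * shift L Q else 0 := fun j => by
      rw [Derivation.leibniz, pderiv_X, smul_eq_mul, smul_eq_mul, map_add, map_mul, map_mul, hX,
        Pi.single_apply]
      split_ifs <;> simp only [map_one, mul_one, map_zero, mul_zero, zero_add, add_zero] <;> ring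
    rw [lower_X, map_mul, map_mul, hX, mul_add, lower_add, lower_X, lower_mulC, hQ,
      sum_congr rfl fun j _ => h1 j, sum_add_distrib, ← sum_mul, sum_ite_eq]
    simp only [mem_univ, if_true]
    ring

/-- chain rule. Plan: `cmap` is additive, `cmap δ (Q * X j) = cmap δ Q * X j`,
`cmap δ (Q * C a) = cmap δ Q * C a + Q * C (δ a)`, `cmap δ (C a) = C (δ a)` (all by `coeff_cmap`);
then `MvPolynomial.induction_on`. -/
theorem shift_DD (δ : Derivation ℂ A A) (v L : κ → A) (Q : MvPolynomial κ A) :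
    shift L (DD δ v Q) =
      cmap δ (shift L Q) + ∑ j, C (v j - δ (L j)) * shift L (pderiv j Q) := by
  have hC : ∀ a : A, shift L (C a) = C a := fun a => by simp [shift]
  rw [lower_chain, DD, map_add, map_sum, add_assoc, ← sum_add_distrib]
  congr 1
  refine sum_congr rfl fun j _ => ?_
  rw [map_mul, hC, map_sub]
  ring

/-- Plan: `ctr` is additive, `ctr (C a * Q) = a * ctr Q`, `ctr (cmap δ Q) = δ (ctr Q)`;
`shift_DD`, `der_mem_pow`, `Ideal.pow_le_pow_right`. -/
theorem ctr_DD (m : Ideal A) (δ : Derivation ℂ A A) (v L : κ → A) {T o : ℕ} (hoT : o ≤ T)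
    (hv : ∀ j, v j - δ (L j) ∈ m ^ T) (I : Finset (κ →₀ ℕ)) (φ : (κ →₀ ℕ) → ℂ)
    (Q : MvPolynomial κ A) (hQ : ctr I φ (shift L Q) ∈ m ^ (o + 1)) :
    ctr I φ (shift L (DD δ v Q)) ∈ m ^ o := by
  have h : ctr I φ (shift L (DD δ v Q)) = δ (ctr I φ (shift L Q)) +
      ∑ j, (v j - δ (L j)) * ctr I φ (shift L (pderiv j Q)) := by
    simp only [shift_DD, ctr, coeff_add, coeff_sum, coeff_C_mul, coeff_cmap, smul_add, sum_add_distrib,
      map_sum, Derivation.map_smul, smul_sum, mul_sum, mul_smul_comm]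
    rw [sum_comm]
  rw [h]
  exact Ideal.add_mem _ (der_mem_pow m δ o hQ) (Ideal.sum_mem _ fun j _ =>
    Ideal.mul_mem_right _ _ (Ideal.pow_le_pow_right hoT (hv j)))

end Pool.Agent.MP_d171e3_nt.H31

end

-- part MP_d171e3_nt.H31.EvPoly
section

/-! The polynomial with coefficient table p in the iterated polynomial ring. -/

namespace Pool.Agent.MP_d171e3_nt.H31

open MvPolynomial Finset

variable {ι κ : Type*} [Fintype ι] [DecidableEq ι] [Fintype κ] [DecidableEq κ]

lemma evpoly_prod {σ A : Type*} [Fintype σ] [CommRing A] (e : σ → ℕ) :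
    (∏ l, X l ^ e l : MvPolynomial σ A) = monomial (Finsupp.equivFunOnFinite.symm e) 1 := by
  rw [monomial_eq, C_1, one_mul, Finsupp.prod_fintype _ _ (by simp)]
  rfl

lemma evpoly_coeff {k D : ℕ} (p : (ι → Fin k) × (κ → Fin D) → ℤ) (α : κ →₀ ℕ) :
    coeff α (ev p (fun l => C (X l)) X : MvPolynomial κ (MvPolynomial ι ℂ)) =
      ∑ z, if Finsupp.equivFunOnFinite.symm (fun j => (z.2 j : ℕ)) = α then
        monomial (Finsupp.equivFunOnFinite.symm fun l => (z.1 l : ℕ)) (p z : ℂ) else 0 := by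
  rw [ev, coeff_sum]
  refine sum_congr rfl fun z _ => ?_
  simp_rw [← map_pow]
  rw [← map_prod, evpoly_prod, evpoly_prod, ← map_intCast (C : MvPolynomial ι ℂ →+* _),
    ← map_intCast (C : ℂ →+* MvPolynomial ι ℂ), ← mul_assoc, ← map_mul, C_mul_monomial,
    C_mul_monomial, mul_one, mul_one, coeff_monomial]

theorem ev_ne_zero {k D : ℕ} {p : (ι → Fin k) × (κ → Fin D) → ℤ} (hp : p ≠ 0) :
    (ev p (fun l => C (X l)) X : MvPolynomial κ (MvPolynomial ι ℂ)) ≠ 0 := fun h => hp <| by
  funext z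
  have h1 := congrArg (coeff (Finsupp.equivFunOnFinite.symm fun l => (z.1 l : ℕ)))
    (evpoly_coeff p (Finsupp.equivFunOnFinite.symm fun j => (z.2 j : ℕ)))
  rw [h, coeff_zero, coeff_zero, coeff_sum, sum_eq_single z (fun w _ hw => ?_) (by simp only [mem_univ, not_true_eq_false, ↓ reduceIte, coeff_monomial, Int.cast_eq_zero, IsEmpty.forall_iff])] at h1
  · simpa using h1.symm
  · split_ifs with h2
    · rw [coeff_monomial, if_neg fun h3 => hw ?_]
      rw [Equiv.apply_eq_iff_eq] at h2 h3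
      exact Prod.ext (funext fun l => Fin.ext (congrFun h3 l))
        (funext fun l => Fin.ext (congrFun h2 l))
    · rfl

theorem ev_totalDegree {k D : ℕ} (p : (ι → Fin k) × (κ → Fin D) → ℤ) (α : κ →₀ ℕ) :
    (coeff α (ev p (fun l => C (X l)) X : MvPolynomial κ (MvPolynomial ι ℂ))).totalDegree ≤
      Fintype.card ι * k := by
  rw [evpoly_coeff]
  refine totalDegree_finsetSum_le fun z _ => ?_
  split_ifs
  · refine (totalDegree_monomial_le _ _).trans ?_
    rw [Finsupp.sum_fintype _ _ (by simp)]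
    simpa only [Finsupp.equivFunOnFinite_symm_apply_apply, id_eq, sum_const, card_univ, smul_eq_mul] using sum_le_sum (s := univ) fun l _ => (z.1 l).2.le
  · simp only [totalDegree_zero, zero_le]

theorem ev_support {A : Type*} [CommRing A] {k D : ℕ} (p : (ι → Fin k) × (κ → Fin D) → ℤ)
    (x : ι → A) (L : κ → A) (α : κ →₀ ℕ)
    (hα : α ∈ (ev p (fun l => C (x l)) (fun j => X j + C (L j)) : MvPolynomial κ A).support)
    (j : κ) : α j < D := by
  obtain ⟨z, -, hz⟩ := mem_biUnion.1 (support_sum hα)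
  refine (monomial_le_degreeOf j hz).trans_lt (lt_of_le_of_lt ?_ (z.2 j).2)
  simp_rw [← map_pow]
  rw [← map_prod, ← map_intCast (C : A →+* _), ← mul_assoc, ← map_mul]
  refine (degreeOf_C_mul_le _ _ _).trans ((degreeOf_prod_le _ _ _).trans ?_)
  refine (sum_le_sum (g := fun i => if j = i then (z.2 i : ℕ) else 0) fun i _ => ?_).trans (by simp only [sum_ite_eq, mem_univ, ↓ reduceIte, Std.le_refl])
  refine (degreeOf_pow_le _ _ _).trans ?_
  have h1 : degreeOf j (X i + C (L i) : MvPolynomial κ A) ≤ if j = i then 1 else 0 := by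
    refine (degreeOf_add_le _ _ _).trans (max_le ?_ (by simp [degreeOf_C]))
    rcases subsingleton_or_nontrivial A with h | h
    · simp [Subsingleton.elim (X i : MvPolynomial κ A) 0]
    · rw [degreeOf_X]
  refine (Nat.mul_le_mul_left _ h1).trans ?_
  split_ifs <;> simp

theorem coeff_eval_C (lam : κ → ℂ) (Q : MvPolynomial κ (MvPolynomial ι ℂ))
    (I : Finset (κ →₀ ℕ)) (hI : Q.support ⊆ I) (τ : ι →₀ ℕ) :
    coeff τ (eval (fun j => C (lam j)) Q) =
      ∑ γ ∈ I, coeff τ (coeff γ Q) * ∏ j, lam j ^ γ j := by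
  rw [eval_eq', sum_subset hI fun γ _ h => by rw [notMem_support_iff.1 h, zero_mul], coeff_sum]
  refine sum_congr rfl fun γ _ => ?_
  simp_rw [← map_pow]
  rw [← map_prod, mul_comm, coeff_C_mul, mul_comm]

end Pool.Agent.MP_d171e3_nt.H31

end
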