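import Pool.Agent.MP_d171e3_nt.Mg.H48_Core

/-! Linear independence of monomials in `log (1 + a_i / N)`. -/

namespace Pool.Agent.MP_d171e3_nt.H48

open Finset Metric

/-- auxiliary exponent -/
def AA (m M : ℕ) : ℕ := M * (2 * m + 1) + 2

/-- auxiliary exponent -/
def kap' (m M D : ℕ) : ℕ := (8 * D + 3) * AA m M ^ 2 + 16 * D * AA m M + 5 * AA m M + 2 * m

/-- the exponent -/
def kap (m M D : ℕ) : ℕ := kap' m M D + 4

lemma numeric {x : ℝ} (hx : 2 ≤ x) {m D A s n t d : ℕ} (hν : n + t + 1 ≤ A * s)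
    (hd : d ≤ 256 ^ (n + t + 1)) :
    (d : ℝ) ^ D * (d : ℝ) ^ D * 2 ^ (m * (2 * s)) *
      ((n + 1) ^ 2 * ((n + 1) * (((d ^ D : ℕ) : ℝ) * (2 * x) ^ (n + t))) ^ A) *
      (4 * x) ^ (n + t + 1) ≤ x ^ (((8 * D + 3) * A ^ 2 + 16 * D * A + 5 * A + 2 * m) * s) := by
  set ν := n + t + 1 with hνdef
  have hx1 : 1 ≤ x := by linarith
  have h1 : (d : ℝ) ≤ x ^ (8 * ν) := by
    calc (d : ℝ) ≤ 256 ^ ν := by exact_mod_cast hd
      _ = 2 ^ (8 * ν) := by rw [pow_mul]; norm_num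
      _ ≤ x ^ (8 * ν) := by gcongr
  have h2 : (n : ℝ) + 1 ≤ x ^ ν := by
    calc (n : ℝ) + 1 ≤ (ν : ℝ) := by exact_mod_cast (by omega : n + 1 ≤ ν)
      _ ≤ 2 ^ ν := by exact_mod_cast (Nat.lt_two_pow_self).le
      _ ≤ x ^ ν := by gcongr
  have h3 : (2 * x) ^ (n + t) ≤ x ^ (2 * ν) := by
    calc (2 * x) ^ (n + t) ≤ (x ^ 2) ^ (n + t) := by gcongr; nlinarith
      _ ≤ (x ^ 2) ^ ν := pow_le_pow_right₀ (one_le_pow₀ hx1) (by omega)
      _ = _ := by rw [← pow_mul]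
  have h4 : (4 * x) ^ ν ≤ x ^ (3 * ν) := by
    rw [pow_mul]; gcongr; nlinarith [mul_le_mul hx hx (by norm_num) (by linarith)]
  have h5 : (2 : ℝ) ^ (m * (2 * s)) ≤ x ^ (m * (2 * s)) := by gcongr
  calc _ ≤ (x ^ (8 * ν)) ^ D * (x ^ (8 * ν)) ^ D * x ^ (m * (2 * s)) *
        ((x ^ ν) ^ 2 * (x ^ ν * ((x ^ (8 * ν)) ^ D * x ^ (2 * ν))) ^ A) * x ^ (3 * ν) := by
        push_cast
        gcongr
    _ = x ^ ((16 * D + 5 + (8 * D + 3) * A) * ν + 2 * m * s) := by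
        simp only [← pow_mul, ← pow_add]
        congr 1; ring
    _ ≤ _ := by
        apply pow_le_pow_right₀ hx1
        calc (16 * D + 5 + (8 * D + 3) * A) * ν + 2 * m * s
            ≤ (16 * D + 5 + (8 * D + 3) * A) * (A * s) + 2 * m * s := by gcongr
          _ = _ := by ring

variable {σ : Type*} [Fintype σ] [DecidableEq σ]

lemma core_ineq {I : Finset (σ →₀ ℕ)} (hI : Down I) (h0 : (0 : σ →₀ ℕ) ∈ I) (hM : 2 ≤ I.card)
    {D : ℕ} (hD : ∀ α ∈ I, ∑ i, α i ≤ D) {L N : ℕ} (hL : 2 ≤ L) (hN : 8 * L ≤ N)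
    (a : σ → ℕ) (ha : Function.Injective a) (ha1 : ∀ i, 1 ≤ a i) (haL : ∀ i, a i ≤ L)
    (lam : (σ →₀ ℕ) → ℂ) (hlam : ∀ α ∈ I, lam α ∈ ZZ)
    (hrel : ∑ α ∈ I, lam α * MvPowerSeries.coeff α
      (expS fun i => Complex.log (1 + (a i : ℂ) * (N : ℂ)⁻¹)) = 0)
    {α0 : σ →₀ ℕ} (hα0 : α0 ∈ I) (hlam0 : lam α0 ≠ 0) {s : ℕ}
    (hs : I.card ^ 2 + I.card ^ 2 * Fintype.card σ ≤ s) :
    (N : ℝ) ^ s ≤ (2 * ((∏ α ∈ I, fac α : ℕ) : ℝ) ^ 2 * (∑ α ∈ I, ‖lam α‖) * I.card * 2 ^ D) *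
      (L : ℝ) ^ (kap' (Fintype.card σ) I.card D * s) := by
  set m := Fintype.card σ with hm
  obtain ⟨M', hM'⟩ : ∃ M', I.card = M' + 1 := ⟨I.card - 1, by omega⟩
  have hM'1 : 1 ≤ M' := by omega
  have hs1 : 1 ≤ s := by nlinarith
  set t := (2 * m + 1) * s with ht
  set n := M' * t + s with hn
  set K := s + (I.card ^ 2 + I.card ^ 2 * m) with hK
  set A := AA m I.card with hA
  set d := Nat.lcmUpto (n + t + 1) with hd
  set Φ := ∏ α ∈ I, fac α with hΦ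
  have hts : s ≤ t := by rw [ht]; nlinarith
  have hK2 : K ≤ 2 * s := by omega
  have hKν : K ≤ n + t + 1 := by omega
  have hνA : n + t + 1 ≤ A * s := by
    rw [hA, AA, hM', hn, ht]; nlinarith
  have hΦd : ∀ α ∈ I, fac α ∣ Φ := fun α hα => Finset.dvd_prod_of_mem _ hα
  have hL0 : (0 : ℝ) < L := by positivity
  have hN0 : (0 : ℝ) < N := by exact_mod_cast (by omega : 0 < N)
  have hNL : 8 * (L : ℝ) ≤ N := by exact_mod_cast hN
  have hNc : (N : ℂ) ≠ 0 := by exact_mod_cast (by omega : N ≠ 0)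
  set ρ : ℝ := (L : ℝ)⁻¹ with hρ
  have hρ0 : 0 < ρ := by positivity
  have haρ : ∀ i, ‖(a i : ℂ)‖ * ρ ≤ 1 := by
    intro i
    rw [Complex.norm_natCast, hρ, ← div_eq_mul_inv, div_le_one hL0]
    exact_mod_cast haL i
  have hz0 : (0 : ℂ) ∈ ball (0 : ℂ) ρ := mem_ball_self hρ0
  set ξ : ℂ := (N : ℂ)⁻¹ with hξ
  have hξn : ‖ξ‖ = (N : ℝ)⁻¹ := by rw [hξ, norm_inv, Complex.norm_natCast]
  have hηρ : 8 * (N : ℝ)⁻¹ ≤ ρ := by
    rw [hρ, ← div_eq_mul_inv, div_le_iff₀ hN0, inv_mul_eq_div, le_div_iff₀ hL0]; linarith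
  have hη0 : 0 < (N : ℝ)⁻¹ := by positivity
  have hzξ : ξ ∈ ball (0 : ℂ) ρ := by
    rw [mem_ball, dist_zero_right, hξn]; linarith
  let lg : σ → Hol ρ := fun i => logH ρ (a i) (haρ i)
  let l : σ → PowerSeries ℂ := fun i => tayH hz0 (lg i)
  have hlode : ∀ i, tau 0 (1 + Polynomial.C (a i : ℂ) * Polynomial.X) *
      PowerSeries.derivative ℂ (l i) = PowerSeries.C (a i : ℂ) := fun i => logH_ode (haρ i) hz0
  have hlint : ∀ i, PowerSeries.C (d : ℂ) * PowerSeries.rescale 1 (l i) ∈ IntK (n + t) := by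
    intro i
    refine log_int (a := a i) (b := 1) (q := a i) one_ne_zero ?_ ?_ (by simp)
      (fun j h1 h2 => dvd_lcmUpto h1 (by omega))
    · change PowerSeries.coeff 0 (tay 0 _) = 0
      rw [coeff_tay]; simp [lg, logH]
    · have := hlode i
      rwa [tau_lin, mul_zero, add_zero] at this
  have hr0 : 0 < ρ / 2 := by positivity
  have hR : (1 : ℝ) ≤ 2 * L := by
    have : (2 : ℝ) ≤ L := by exact_mod_cast hL
    linarith
  have hrR : ρ / 2 = (2 * (L : ℝ))⁻¹ := by rw [hρ]; field_simp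
  have hlb : ∀ α ∈ I, ∀ j, ‖PowerSeries.coeff j (mon l α)‖ ≤ (2 * (L : ℝ)) ^ j := by
    intro α hα j
    have h1 : mon l α = tay 0 (mon lg α).1 := by
      rw [← tayH_apply hz0, map_mon]
    rw [h1]
    have h2 := cauchy_est (mon lg α) (c := 0) (B := 1) hr0 (by simp; linarith) (fun z hz => by
      rw [← evH_apply, map_mon]
      have := norm_mon_le (w := fun i => evH ρ z (lg i)) le_rfl
        (fun i => norm_logH_le (haρ i) (by simpa using hz.le)) (hD α hα)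
      simpa using this) j
    rwa [hrR, inv_pow, one_div, inv_inv] at h2
  have hcard : Fintype.card (I.erase 0) = M' := by
    rw [Fintype.card_coe, card_erase_of_mem h0]; omega
  have hd1 : 1 ≤ d ^ D := Nat.one_le_pow _ _ (Nat.lcmUpto_pos _)
  obtain ⟨Q, hQ0, hQn, hQint, hQb, hQv⟩ := siegel_series (fun α : I.erase 0 => mon l α.1) n t s A
    (by rw [hcard]) (by rw [hcard]; positivity)
    (by rw [hcard, hA, AA, hM', ht]; nlinarith) (d ^ D) hd1 (2 * L) hR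
    (fun α => by
      have := mon_int hlint (hD α.1 (mem_of_mem_erase α.2))
      rw [PowerSeries.rescale_one, RingHom.id_apply] at this
      push_cast; exact this)
    (fun α j => hlb α.1 (mem_of_mem_erase α.2) j)
  set H : ℝ := ((n + 1) * (((d ^ D : ℕ) : ℝ) * (2 * L) ^ (n + t))) ^ A with hH
  set P := PP n Q l with hP
  have happ := PP_approx (I := I) (t := t) hQn (l := l)
    (fun α hα h j h1 h2 => hQv ⟨α, mem_erase.2 ⟨h, hα⟩⟩ j h1 h2)
  let u : σ → ℂ := fun i => Complex.log (1 + (a i : ℂ) * ξ)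
  let w : σ → Hol ρ := fun i => lg i - algebraMap ℂ _ (u i)
  let g : Hol ρ := gg ρ I lam w P
  have hg0 : PowerSeries.X ^ (n + t + 1) ∣ tay 0 g.1 := by
    rw [← tayH_apply hz0, map_gg (tayH hz0) (tau 0) (tayH_polyH hz0)]
    have : (fun i => tayH hz0 (w i)) = fun i => l i - PowerSeries.C (u i) := by
      funext i; simp [w, l]
    rw [this]
    exact gg_order_zero hI lam u hrel l Q _ happ
  set B : ℝ := (∑ α ∈ I, ‖lam α‖) * (I.card * (2 ^ D * ((n + 1) ^ 2 * H))) with hB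
  have hgB : ∀ z, ‖z‖ = ρ / 2 → ‖g.1 z‖ ≤ B := by
    intro z hz
    refine gg_norm_le hI hD lam w P z (fun i => ?_) (fun α hα => ?_)
    · have h1 := norm_logH_le (haρ i) hz.le
      have h2 := norm_logH_le (haρ i) (z := ξ) (by rw [hξn]; linarith)
      have h3 : (w i).1 z = (logH ρ (a i) (haρ i)).1 z - (logH ρ (a i) (haρ i)).1 ξ := rfl
      rw [h3]
      linarith [norm_sub_le ((logH ρ (a i) (haρ i)).1 z) ((logH ρ (a i) (haρ i)).1 ξ)]
    · exact PP_eval_le hR hQb (hlb α hα) (by rw [hz, hrR])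
  let v : σ → PowerSeries ℂ := fun i => tayH hzξ (w i)
  have hvode : ∀ i, tau ξ (1 + Polynomial.C (a i : ℂ) * Polynomial.X) *
      PowerSeries.derivative ℂ (v i) = PowerSeries.C (a i : ℂ) := by
    intro i
    have h1 : v i = tayH hzξ (lg i) - PowerSeries.C (u i) := by simp [v, w]
    rw [h1, map_sub, PowerSeries.derivative_C, sub_zero]
    exact logH_ode (haρ i) hzξ
  set Pi : ℕ := ∏ i, (N + a i) with hPi
  have hvint : ∀ i, PowerSeries.C (d : ℂ) * PowerSeries.rescale ((Pi : ℂ) / N) (v i) ∈ IntK K := by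
    intro i
    have hb : (1 + (a i : ℂ) * ξ) = ((N + a i : ℕ) : ℂ) / N := by
      rw [hξ]; push_cast; field_simp
    refine log_int (a := a i) (b := 1 + (a i : ℂ) * ξ)
      (q := (a i * ∏ j ∈ univ.erase i, (N + a j) : ℕ)) ?_ ?_ ?_ ?_
      (fun j h1 h2 => dvd_lcmUpto h1 (by omega))
    · rw [hb]
      exact div_ne_zero (by exact_mod_cast (by omega : N + a i ≠ 0)) hNc
    · change PowerSeries.coeff 0 (tay ξ _) = 0
      rw [coeff_tay]
      have : (w i).1 ξ = 0 := sub_self _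
      simp [this]
    · have := hvode i
      rwa [tau_lin] at this
    · rw [hb, hPi, ← Finset.mul_prod_erase _ _ (mem_univ i)]
      push_cast; ring
  have hG : tayH hzξ g = ∑ α ∈ I, lam α • MvPowerSeries.coeff α (expS (-v) *
      MvPowerSeries.map (tau ξ : Polynomial ℂ →+* PowerSeries ℂ) P) :=
    map_gg (tayH hzξ) (tau ξ) (tayH_polyH hzξ) I lam w P
  have hGint := gg_int hI hD hlam hΦd hvint
    (Y := MvPowerSeries.map (tau ξ : Polynomial ℂ →+* PowerSeries ℂ) P)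
    (δ := ((Φ : ℂ) * (d : ℂ) ^ D) * (N : ℂ) ^ n) (fun α hα => by
      rw [MvPowerSeries.coeff_map]
      exact tau_int _ (PP_deg n Q l α)
        (PP_int (K := n + t) (by omega) hQint hlint (hD α hα) (hΦd α hα)) (by omega) Pi K)
  rw [← hG] at hGint
  obtain ⟨k, hkK, hk⟩ : ∃ k ≤ K, PowerSeries.coeff k (tayH hzξ g) ≠ 0 := by
    by_contra hc
    push Not at hc
    have h1 : PowerSeries.X ^ (K + 1) ∣ tayH hzξ g := by
      rw [PowerSeries.X_pow_dvd_iff]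
      intro j hj; exact hc j (by omega)
    rw [hG] at h1
    have h2 := zero_est (fun i => (a i : ℂ)) (fun i j h => ha (Nat.cast_injective (R := ℂ) h))
      (fun i => by exact_mod_cast (by have := ha1 i; omega : a i ≠ 0)) hI h0 P
      (by rw [hP, PP_zero hQn]; exact hQ0) n (PP_deg n Q l) ξ (inv_ne_zero hNc) l v hlode hvode
      (n + t + 1) (K + 1) (rows_order_zero hI l Q _ happ) lam α0 hα0 hlam0 h1
    rw [hM', Nat.add_sub_cancel, ← hm] at h2
    rw [hM'] at hK hs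
    obtain ⟨e1, he1⟩ : ∃ e, n + t + 1 = M' + e := ⟨n + t + 1 - M', by
      have : M' ≤ M' * t := Nat.le_mul_of_pos_right _ (by omega)
      omega⟩
    obtain ⟨e2, he2⟩ : ∃ e, K + 1 = M' + e := ⟨K + 1 - M', by
      have : M' ≤ K := by nlinarith
      omega⟩
    rw [he1, he2, Nat.add_sub_cancel_left, Nat.add_sub_cancel_left] at h2
    have h3 : M' * (n + t + 1) = M' * (M' + e1) := by rw [he1]
    nlinarith
  have hZ := hGint k hkK
  rw [PowerSeries.coeff_C_mul, PowerSeries.coeff_rescale] at hZ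
  have hΦ0 : Φ ≠ 0 := Finset.prod_ne_zero_iff.2 fun α _ => fac_ne_zero α
  have hd0 : d ≠ 0 := Nat.lcmUpto_ne_zero _
  have hPi0 : Pi ≠ 0 := Finset.prod_ne_zero_iff.2 fun i _ => by omega
  have hlow : 1 ≤ ‖(Φ : ℂ) * (d : ℂ) ^ D * ((Φ : ℂ) * (d : ℂ) ^ D * (N : ℂ) ^ n) *
      (((Pi : ℂ) / N) ^ k * PowerSeries.coeff k (tayH hzξ g))‖ := by
    by_contra hc
    push Not at hc
    have := ZZ.eq_zero hZ hc
    simp [hΦ0, hd0, hPi0, hk, hNc] at this
  have hup := two_point_est g hr0 (by linarith) hη0 (by linarith) hgB hg0 hξn.le k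
  rw [← tayH_apply hzξ] at hup
  have hPiN : (Pi : ℝ) ≤ (2 * N) ^ m := by
    rw [hPi, hm, ← Finset.card_univ, ← Finset.prod_const]
    push_cast
    refine Finset.prod_le_prod (fun _ _ => by positivity) fun i _ => ?_
    have : (a i : ℝ) ≤ L := by exact_mod_cast haL i
    linarith
  have hN1 : (1 : ℝ) ≤ 2 * N := by linarith
  have hPik : (Pi : ℝ) ^ k ≤ (2 * N) ^ (m * (2 * s)) := by
    calc (Pi : ℝ) ^ k ≤ ((2 * N) ^ m) ^ k := by gcongr
      _ ≤ ((2 * N) ^ m) ^ (2 * s) := pow_le_pow_right₀ (one_le_pow₀ hN1) (by omega)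
      _ = _ := by rw [← pow_mul]
  have hB0 : 0 ≤ B := by positivity
  simp only [norm_mul, norm_pow, norm_div, Complex.norm_natCast] at hlow
  have e1 : 2 * (N : ℝ)⁻¹ / (ρ / 2) = 4 * L / N := by rw [hρ]; field_simp; norm_num
  rw [e1] at hup
  have h1 : (1 : ℝ) ≤ Φ * d ^ D * (Φ * d ^ D * N ^ n) * ((2 * N) ^ (m * (2 * s)) *
      (2 * B * (4 * L / N) ^ (n + t + 1))) := by
    calc (1 : ℝ) ≤ _ := hlow
      _ ≤ Φ * d ^ D * (Φ * d ^ D * N ^ n) * ((Pi / N) ^ k *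
          (2 * B * (4 * L / N) ^ (n + t + 1) / (N : ℝ)⁻¹ ^ k)) := by gcongr
      _ = Φ * d ^ D * (Φ * d ^ D * N ^ n) * (Pi ^ k *
          (2 * B * (4 * L / N) ^ (n + t + 1))) := by
          rw [div_pow, inv_pow]; field_simp
      _ ≤ _ := by gcongr
  have h2 : (N : ℝ) ^ (n + t + 1) = N ^ n * N ^ (m * (2 * s)) * N ^ s * N := by
    rw [← pow_add, ← pow_add, ← pow_succ]; congr 1; rw [ht]; ring
  have h3 : (N : ℝ) ^ s * N ≤ Φ * d ^ D * (Φ * d ^ D) * (2 ^ (m * (2 * s)) *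
      (2 * B * (4 * L) ^ (n + t + 1))) := by
    have h4 := mul_le_mul_of_nonneg_left h1 (show (0 : ℝ) ≤ N ^ s * N by positivity)
    rw [mul_one, div_pow, h2, mul_pow] at h4
    refine h4.trans (le_of_eq ?_)
    field_simp
  have hnum := numeric (x := L) (by exact_mod_cast hL) (m := m) (D := D) hνA
    (hd ▸ lcmUpto_le _ : d ≤ 256 ^ (n + t + 1))
  rw [← hH] at hnum
  calc (N : ℝ) ^ s ≤ N ^ s * N := le_mul_of_one_le_right (by positivity) (by linarith)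
    _ ≤ _ := h3
    _ = (2 * (Φ : ℝ) ^ 2 * (∑ α ∈ I, ‖lam α‖) * I.card * 2 ^ D) *
        ((d : ℝ) ^ D * (d : ℝ) ^ D * 2 ^ (m * (2 * s)) * ((n + 1) ^ 2 * H) *
          (4 * L) ^ (n + t + 1)) := by rw [hB]; ring
    _ ≤ _ := by
        have : kap' m I.card D = (8 * D + 3) * A ^ 2 + 16 * D * A + 5 * A + 2 * m := rfl
        rw [this]
        gcongr

theorem gfun_int {I : Finset (σ →₀ ℕ)} (hI : Down I) (h0 : (0 : σ →₀ ℕ) ∈ I)
    {D : ℕ} (hD : ∀ α ∈ I, ∑ i, α i ≤ D) {L N : ℕ} (hL : 2 ≤ L)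
    (hN : L ^ kap (Fintype.card σ) I.card D ≤ N)
    (a : σ → ℕ) (ha : Function.Injective a) (ha1 : ∀ i, 1 ≤ a i) (haL : ∀ i, a i ≤ L)
    (lam : (σ →₀ ℕ) → ℂ) (hlam : ∀ α ∈ I, lam α ∈ ZZ)
    (hrel : ∑ α ∈ I, lam α * MvPowerSeries.coeff α
      (expS fun i => Complex.log (1 + (a i : ℂ) * (N : ℂ)⁻¹)) = 0) :
    ∀ α ∈ I, lam α = 0 := by
  intro α0 hα0
  by_contra hlam0
  rcases lt_or_ge I.card 2 with hM | hM
  · have hI0 : I = {0} := by
      rw [Finset.eq_singleton_iff_unique_mem]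
      exact ⟨h0, fun x hx => Finset.card_le_one.1 (by omega) x hx 0 h0⟩
    subst hI0
    rw [mem_singleton] at hα0
    subst hα0
    simp [coeff_zero_expS, hlam0] at hrel
  have h8 : 8 * L ≤ N := by
    refine le_trans ?_ hN
    calc 8 * L = 2 ^ 3 * L := by norm_num
      _ ≤ L ^ 3 * L := by gcongr
      _ = L ^ 4 := by ring
      _ ≤ _ := Nat.pow_le_pow_right (by omega) (by rw [kap]; omega)
  set Cst : ℝ := 2 * ((∏ α ∈ I, fac α : ℕ) : ℝ) ^ 2 * (∑ α ∈ I, ‖lam α‖) * I.card * 2 ^ D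
    with hC
  obtain ⟨s0, hs0⟩ := pow_unbounded_of_one_lt Cst (show (1 : ℝ) < 2 by norm_num)
  set s := max s0 (I.card ^ 2 + I.card ^ 2 * Fintype.card σ) with hs
  have h1 := core_ineq hI h0 hM hD hL h8 a ha ha1 haL lam hlam hrel hα0 hlam0
    (s := s) (le_max_right _ _)
  rw [← hC] at h1
  have hL' : (2 : ℝ) ≤ L := by exact_mod_cast hL
  have h2 : Cst < (L : ℝ) ^ (4 * s) := by
    calc Cst < 2 ^ s0 := hs0
      _ ≤ 2 ^ (4 * s) := pow_le_pow_right₀ (by norm_num) (by omega)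
      _ ≤ _ := by gcongr
  have h3 : (L : ℝ) ^ (4 * s) * (L : ℝ) ^ (kap' (Fintype.card σ) I.card D * s) ≤ N ^ s := by
    rw [← pow_add, show 4 * s + kap' (Fintype.card σ) I.card D * s =
      kap (Fintype.card σ) I.card D * s by rw [kap]; ring, pow_mul]
    gcongr
    exact_mod_cast hN
  have h4 : (0 : ℝ) < (L : ℝ) ^ (kap' (Fintype.card σ) I.card D * s) := by positivity
  nlinarith

end Pool.Agent.MP_d171e3_nt.H48
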