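import Mathlib
import Pool.Agent.MP_d171e3_nt.Mg.H48_Gfun

-- part MP_d171e3_nt.H48.Grow
section

/-! Growth of the powers of a finite dimensional space of complex numbers. -/

namespace Pool.Agent.MP_d171e3_nt.H48

open Finset Submodule

/-- `W ^ D` is spanned by at most `c (D+1)^p` elements -/
def Grow (W : Submodule ℚ ℂ) (c p : ℕ) : Prop :=
  (1 : ℂ) ∈ W ∧ ∀ D : ℕ, ∃ S : Finset ℂ, S.card ≤ c * (D + 1) ^ p ∧ W ^ D ≤ span ℚ (S : Set ℂ)

/-- `y` is a root of a nonzero polynomial of degree at most `d` with coefficients in `W ^ d` -/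
def Dep (d : ℕ) (W : Submodule ℚ ℂ) (y : ℂ) : Prop :=
  ∃ p : Polynomial ℂ, p ≠ 0 ∧ p.natDegree ≤ d ∧ (∀ j, p.coeff j ∈ W ^ d) ∧ p.eval y = 0

lemma pow_mono_exp {W : Submodule ℚ ℂ} (h : (1 : ℂ) ∈ W) {a b : ℕ} (hab : a ≤ b) :
    W ^ a ≤ W ^ b := by
  induction b, hab using Nat.le_induction with
  | base => exact le_rfl
  | succ b _ ih =>
    intro x hx
    rw [pow_succ]
    simpa using Submodule.mul_mem_mul (ih hx) h

lemma pow_mono_base {W W' : Submodule ℚ ℂ} (h : W ≤ W') (a : ℕ) : W ^ a ≤ W' ^ a := by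
  induction a with
  | zero => simp
  | succ a ih => rw [pow_succ, pow_succ]; exact mul_le_mul' ih h

lemma mul_mem_pow_add {W : Submodule ℚ ℂ} {a b : ℕ} {x y : ℂ} (hx : x ∈ W ^ a) (hy : y ∈ W ^ b) :
    x * y ∈ W ^ (a + b) := by
  rw [pow_add]; exact Submodule.mul_mem_mul hx hy

lemma Dep.mono {d : ℕ} {W W' : Submodule ℚ ℂ} {y : ℂ} (h : Dep d W y) (hW : W ≤ W') :
    Dep d W' y := by
  obtain ⟨p, h1, h2, h3, h4⟩ := h
  exact ⟨p, h1, h2, fun j => pow_mono_base hW d (h3 j), h4⟩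

lemma Grow.mono {W : Submodule ℚ ℂ} {c c' p : ℕ} (h : Grow W c p) (hc : c ≤ c') :
    Grow W c' p := by
  refine ⟨h.1, fun D => ?_⟩
  obtain ⟨S, h1, h2⟩ := h.2 D
  exact ⟨S, h1.trans (by gcongr), h2⟩

lemma Grow.of_le {W W' : Submodule ℚ ℂ} {c p : ℕ} (h : Grow W c p) (hW : W' ≤ W)
    (h1 : (1 : ℂ) ∈ W') : Grow W' c p := by
  refine ⟨h1, fun D => ?_⟩
  obtain ⟨S, h1, h2⟩ := h.2 D
  exact ⟨S, h1, (pow_mono_base hW D).trans h2⟩

lemma grow_one : Grow (1 : Submodule ℚ ℂ) 1 0 := by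
  refine ⟨by simp [Submodule.one_eq_span], fun D => ⟨{1}, by simp, ?_⟩⟩
  rw [one_pow]; simp [Submodule.one_eq_span]

/-- span of the products `w y^j` -/
noncomputable def YY (V : Submodule ℚ ℂ) (y : ℂ) (r : ℕ) : Submodule ℚ ℂ :=
  span ℚ {x | ∃ w ∈ V, ∃ j < r, x = w * y ^ j}

lemma mem_YY {V : Submodule ℚ ℂ} {y w : ℂ} {r j : ℕ} (hw : w ∈ V) (hj : j < r) :
    w * y ^ j ∈ YY V y r := subset_span ⟨w, hw, j, hj, rfl⟩

lemma one_mem_YY (W : Submodule ℚ ℂ) (y : ℂ) {r : ℕ} (hr : 0 < r) :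
    (1 : ℂ) ∈ YY (W ^ 0) y r := by
  have h : (1 : ℂ) ∈ W ^ 0 := by
    rw [pow_zero, Submodule.one_eq_span]; exact mem_span_singleton_self _
  have := mem_YY (y := y) h hr
  rwa [pow_zero y, mul_one] at this

lemma YY_cover {V : Submodule ℚ ℂ} {S : Finset ℂ} (hS : V ≤ span ℚ (S : Set ℂ)) (y β : ℂ)
    (r : ℕ) : ∃ S' : Finset ℂ, S'.card ≤ S.card * r ∧
      ∀ x ∈ YY V y r, β * x ∈ span ℚ (S' : Set ℂ) := by
  classical
  refine ⟨(S ×ˢ range r).image fun q => β * (q.1 * y ^ q.2), card_image_le.trans (by simp), ?_⟩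
  intro x hx
  induction hx using span_induction with
  | mem x hx =>
    obtain ⟨w, hw, j, hj, rfl⟩ := hx
    have hw' := hS hw
    clear hw
    induction hw' using span_induction with
    | mem s hs =>
      apply subset_span
      simp only [coe_image, coe_product, coe_range, Set.mem_image, Set.mem_prod, Set.mem_Iio]
      exact ⟨(s, j), ⟨hs, hj⟩, rfl⟩
    | zero => simp
    | add a b _ _ ha hb => rw [add_mul, mul_add]; exact add_mem ha hb
    | smul c a _ ha => rw [smul_mul_assoc, mul_smul_comm]; exact smul_mem _ _ ha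
  | zero => simp
  | add a b _ _ ha hb => rw [mul_add]; exact add_mem ha hb
  | smul c a _ ha => rw [mul_smul_comm]; exact smul_mem _ _ ha

lemma YY_mul {V V' : Submodule ℚ ℂ} {y β : ℂ} {r r' : ℕ}
    (h : ∀ w ∈ V, ∀ j < r, β * (w * y ^ j) ∈ YY V' y r') :
    ∀ x ∈ YY V y r, β * x ∈ YY V' y r' := by
  intro x hx
  induction hx using span_induction with
  | mem x hx =>
    obtain ⟨w, hw, j, hj, rfl⟩ := hx
    exact h w hw j hj
  | zero => simp
  | add a b _ _ ha hb => rw [mul_add]; exact add_mem ha hb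
  | smul c a _ ha => rw [mul_smul_comm]; exact smul_mem _ _ ha

lemma pow_sup_induction {W : Submodule ℚ ℂ} {y β : ℂ} (T : ℕ → Submodule ℚ ℂ)
    (h0 : (1 : ℂ) ∈ T 0) (h1 : ∀ D, ∀ w ∈ W, ∀ x ∈ T D, (β * w) * x ∈ T (D + 1))
    (h2 : ∀ D, ∀ x ∈ T D, (β * y) * x ∈ T (D + 1)) (D : ℕ) :
    ∀ x ∈ (W ⊔ span ℚ {y}) ^ D, β ^ D * x ∈ T D := by
  induction D with
  | zero =>
    intro x hx
    rw [pow_zero, Submodule.one_eq_span, mem_span_singleton] at hx
    obtain ⟨c, rfl⟩ := hx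
    rw [pow_zero, one_mul]
    exact smul_mem _ _ h0
  | succ D ih =>
    intro x hx
    rw [pow_succ] at hx
    refine Submodule.mul_induction_on hx ?_ ?_
    · intro a ha b hb
      obtain ⟨w, hw, z, hz, rfl⟩ := mem_sup.1 hb
      obtain ⟨c, rfl⟩ := mem_span_singleton.1 hz
      have : β ^ (D + 1) * (a * (w + c • y)) =
          (β * w) * (β ^ D * a) + c • ((β * y) * (β ^ D * a)) := by
        simp only [Rat.smul_def]; ring
      rw [this]
      exact add_mem (h1 D w hw _ (ih a ha)) (smul_mem _ _ (h2 D _ (ih a ha)))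
    · intro a b ha hb
      rw [mul_add]; exact add_mem ha hb

lemma Grow.free {W : Submodule ℚ ℂ} {c p : ℕ} (h : Grow W c p) (y : ℂ) :
    Grow (W ⊔ span ℚ {y}) c (p + 1) := by
  refine ⟨mem_sup_left h.1, fun D => ?_⟩
  obtain ⟨S, hS1, hS2⟩ := h.2 D
  obtain ⟨S', h1, h2⟩ := YY_cover hS2 y 1 (D + 1)
  refine ⟨S', h1.trans (by rw [pow_succ, ← mul_assoc]; gcongr), fun x hx => ?_⟩
  have := pow_sup_induction (W := W) (y := y) (β := 1) (fun D => YY (W ^ D) y (D + 1))
    (one_mem_YY W y (by omega))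
    (fun D w hw => YY_mul fun w' hw' j hj => by
      rw [one_mul, ← mul_assoc]
      exact mem_YY (by rw [pow_succ']; exact Submodule.mul_mem_mul hw hw') (by omega))
    (fun D => YY_mul fun w' hw' j hj => by
      rw [one_mul, mul_left_comm, ← pow_succ']
      exact mem_YY (pow_mono_exp h.1 (Nat.le_succ D) hw') (by omega)) D x hx
  have h3 := h2 _ this
  rwa [one_pow, one_mul, one_mul] at h3

lemma Grow.dep {W : Submodule ℚ ℂ} {c p d : ℕ} (h : Grow W c p) {y : ℂ} (hy : Dep d W y) :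
    Grow (W ⊔ span ℚ {y}) (c * (d * (d + 1) ^ p)) p := by
  refine ⟨mem_sup_left h.1, fun D => ?_⟩
  obtain ⟨q, hq0, hqd, hqW, hqy⟩ := hy
  set r := q.natDegree with hr
  set b := q.leadingCoeff with hb
  have hb0 : b ≠ 0 := Polynomial.leadingCoeff_ne_zero.2 hq0
  have hbW : b ∈ W ^ d := hqW _
  have hrel : b * y ^ r = - ∑ i ∈ range r, q.coeff i * y ^ i := by
    rw [Polynomial.eval_eq_sum_range, Finset.sum_range_succ] at hqy
    rw [hb, Polynomial.leadingCoeff]
    linear_combination hqy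
  have hr1 : 0 < r := by
    rcases Nat.eq_zero_or_pos r with h0 | h0
    · rw [h0] at hrel; simp [hb0] at hrel
    · exact h0
  obtain ⟨S, hS1, hS2⟩ := h.2 ((d + 1) * D)
  obtain ⟨S', h1, h2⟩ := YY_cover hS2 y (b ^ D)⁻¹ r
  refine ⟨S', h1.trans ?_, fun x hx => ?_⟩
  · calc S.card * r ≤ c * ((d + 1) * D + 1) ^ p * d := by gcongr
      _ ≤ c * ((d + 1) * (D + 1)) ^ p * d := by gcongr c * ?_ ^ p * d; nlinarith
      _ = _ := by rw [mul_pow]; ring
  have := pow_sup_induction (W := W) (y := y) (β := b) (fun D => YY (W ^ ((d + 1) * D)) y r)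
    (one_mem_YY W y hr1)
    (fun D w hw => YY_mul fun w' hw' j hj => by
      rw [← mul_assoc]
      refine mem_YY ?_ hj
      have := mul_mem_pow_add (mul_mem_pow_add hbW (show w ∈ W ^ 1 by simpa using hw)) hw'
      rwa [show d + 1 + (d + 1) * D = (d + 1) * (D + 1) by ring] at this)
    (fun D => YY_mul fun w' hw' j hj => by
      have hle : W ^ (d + (d + 1) * D) ≤ W ^ ((d + 1) * (D + 1)) :=
        pow_mono_exp h.1 (by nlinarith)
      rcases Nat.lt_or_ge (j + 1) r with hlt | hge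
      · rw [show b * y * (w' * y ^ j) = (b * w') * y ^ (j + 1) by ring]
        exact mem_YY (hle (mul_mem_pow_add hbW hw')) hlt
      · have : j + 1 = r := by omega
        rw [show b * y * (w' * y ^ j) = w' * (b * y ^ (j + 1)) by ring, this, hrel, mul_neg,
          Finset.mul_sum]
        refine neg_mem (sum_mem fun i hi => ?_)
        rw [← mul_assoc, mul_comm w']
        exact mem_YY (hle (mul_mem_pow_add (hqW i) hw')) (mem_range.1 hi)) D x hx
  have h3 := h2 _ this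
  rwa [← mul_assoc, inv_mul_cancel₀ (pow_ne_zero _ hb0), one_mul] at h3

lemma Grow.free_finset {ι : Type*} [DecidableEq ι] {W : Submodule ℚ ℂ} {c p : ℕ} (h : Grow W c p)
    (x : ι → ℂ) (U : Finset ι) : Grow (W ⊔ span ℚ (x '' U)) c (p + U.card) := by
  induction U using Finset.induction_on with
  | empty => simpa using h
  | insert a U ha ih =>
    rw [card_insert_of_notMem ha, coe_insert, Set.image_insert_eq, span_insert, sup_comm (span _ _),
      ← sup_assoc, ← add_assoc]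
    exact ih.free _

lemma Grow.card_le {W : Submodule ℚ ℂ} {c p : ℕ} (h : Grow W c p) {ι : Type*} [Fintype ι]
    {v : ι → ℂ} (hv : LinearIndependent ℚ v) {D : ℕ} (hvD : ∀ i, v i ∈ W ^ D) :
    Fintype.card ι ≤ c * (D + 1) ^ p := by
  obtain ⟨S, h1, h2⟩ := h.2 D
  refine le_trans ?_ h1
  have := linearIndependent_le_span_aux' v hv (S : Set ℂ) (by
    rintro _ ⟨i, rfl⟩; exact h2 (hvD i))
  simpa using this

end Pool.Agent.MP_d171e3_nt.H48

end

-- part MP_d171e3_nt.H48.Cluster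
section

/-! Logarithms of integers in a short interval. -/

namespace Pool.Agent.MP_d171e3_nt.H48

open Finset Submodule

section
variable {σ : Type*} [Fintype σ] [DecidableEq σ]

theorem gfun_li {I : Finset (σ →₀ ℕ)} (hI : Down I) (h0 : (0 : σ →₀ ℕ) ∈ I)
    {D : ℕ} (hD : ∀ α ∈ I, ∑ i, α i ≤ D) {L N : ℕ} (hL : 2 ≤ L)
    (hN : L ^ kap (Fintype.card σ) I.card D ≤ N)
    (a : σ → ℕ) (ha : Function.Injective a) (ha1 : ∀ i, 1 ≤ a i) (haL : ∀ i, a i ≤ L) :
    LinearIndependent ℚ fun α : I =>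
      mon (fun i => Complex.log (1 + (a i : ℂ) * (N : ℂ)⁻¹)) α.1 := by
  rw [← LinearIndependent.iff_fractionRing ℤ ℚ, Fintype.linearIndependent_iff]
  intro g hg α
  let lam : (σ →₀ ℕ) → ℂ := fun β => if h : β ∈ I then (g ⟨β, h⟩ : ℂ) * fac β else 0
  have hlam : ∀ β : I, lam β.1 = (g β : ℂ) * fac β.1 := fun β => by simp [lam, β.2]
  have h1 := gfun_int hI h0 hD hL hN a ha ha1 haL lam
    (fun β hβ => by
      rw [hlam ⟨β, hβ⟩]
      exact ZZ.mul_mem (intCast_mem _ _) (natCast_mem _ _))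
    (by
      rw [← hg, ← Finset.sum_coe_sort I]
      refine Finset.sum_congr rfl fun β _ => ?_
      have : (fac β.1 : ℂ) ≠ 0 := by exact_mod_cast fac_ne_zero β.1
      rw [hlam, coeff_expS, smul_eq_mul, zsmul_eq_mul]
      field_simp) α.1 α.2
  rw [hlam] at h1
  have : (fac α.1 : ℂ) ≠ 0 := by exact_mod_cast fac_ne_zero α.1
  simpa [this] using h1

variable (σ) in
/-- the box of multi-indices -/
noncomputable def box (D : ℕ) : Finset (σ →₀ ℕ) :=
  (Fintype.piFinset fun _ : σ => range (D + 1)).map Finsupp.equivFunOnFinite.symm.toEmbedding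

lemma mem_box {D : ℕ} {α : σ →₀ ℕ} : α ∈ box σ D ↔ ∀ i, α i ≤ D := by
  rw [box, Finset.mem_map_equiv]
  simp

lemma card_box (D : ℕ) : (box σ D).card = (D + 1) ^ Fintype.card σ := by
  simp [box]

lemma down_box (D : ℕ) : Down (box σ D) := by
  intro α hα β hβ
  rw [mem_box] at hα ⊢
  exact fun i => (hβ i).trans (hα i)

omit [DecidableEq σ] in
lemma mon_mem_pow {W : Submodule ℚ ℂ} {u : σ → ℂ} (hu : ∀ i, u i ∈ W) (α : σ →₀ ℕ) :
    mon u α ∈ W ^ ∑ i, α i := by
  classical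
  rw [mon]
  induction (univ : Finset σ) using Finset.induction_on with
  | empty => simp [Submodule.one_eq_span]
  | insert a s ha ih =>
    rw [Finset.prod_insert ha, Finset.sum_insert ha]
    exact mul_mem_pow_add (Submodule.pow_mem_pow _ (hu a) _) ih

end

/-- logarithm of a natural number, as a complex number -/
noncomputable def lg (n : ℕ) : ℂ := (Real.log n : ℝ)

/-- exponent for a given growth constant -/
def kapc (c p : ℕ) : ℕ :=
  kap (p + 1) ((c * (p + 1) ^ p + 1) ^ (p + 1)) ((p + 1) * (c * (p + 1) ^ p))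

lemma no_grow {W : Submodule ℚ ℂ} {c p : ℕ} (hW : Grow W c p) {U : Finset ℕ}
    (hU : U.card = p + 2) {L N : ℕ} (hL : 2 ≤ L) (hN : L ^ kapc c p ≤ N)
    (hUN : ∀ n ∈ U, N ≤ n ∧ n ≤ N + L) (hUW : ∀ n ∈ U, lg n ∈ W) : False := by
  have hne : U.Nonempty := card_pos.1 (by omega)
  set n0 := U.min' hne with hn0
  have hn0U : n0 ∈ U := min'_mem _ _
  have hlt : ∀ i : U.erase n0, n0 < i.1 := fun i =>
    lt_of_le_of_ne (min'_le _ _ (mem_of_mem_erase i.2)) (mem_erase.1 i.2).1.symm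
  have hcard : Fintype.card (U.erase n0) = p + 1 := by
    rw [Fintype.card_coe, card_erase_of_mem hn0U]; omega
  set D0 := c * (p + 1) ^ p with hD0
  have hN1 : 1 ≤ N := le_trans (Nat.one_le_pow _ _ (by omega)) hN
  have hn0N := (hUN n0 hn0U).1
  have hsum : ∀ α ∈ box (U.erase n0) D0, ∑ i, α i ≤ (p + 1) * D0 := by
    intro α hα
    refine (Finset.sum_le_card_nsmul _ _ D0 fun i _ => mem_box.1 hα i).trans ?_
    rw [card_univ, hcard, smul_eq_mul]
  have hli := gfun_li (down_box (σ := U.erase n0) D0) (mem_box.2 fun i => by simp) hsum hL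
    (N := n0) (by rw [card_box, hcard]; exact hN.trans hn0N) (fun i => i.1 - n0)
    (fun i j h => by
      have h1 := hlt i
      have h2 := hlt j
      simp only at h
      exact Subtype.ext (by omega))
    (fun i => by have := hlt i; omega)
    (fun i => by have := hUN i.1 (mem_of_mem_erase i.2); omega)
  have hu : ∀ i : U.erase n0,
      Complex.log (1 + ((i.1 - n0 : ℕ) : ℂ) * (n0 : ℂ)⁻¹) ∈ W := by
    intro i
    have h1 := hlt i
    have h2 : (n0 : ℝ) ≠ 0 := by exact_mod_cast (by omega : n0 ≠ 0)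
    have h3 : (i.1 : ℝ) ≠ 0 := by exact_mod_cast (by omega : i.1 ≠ 0)
    have h4 : (1 + ((i.1 - n0 : ℕ) : ℂ) * (n0 : ℂ)⁻¹) = (((i.1 : ℝ) / n0 : ℝ) : ℂ) := by
      have : (n0 : ℂ) ≠ 0 := by exact_mod_cast (by omega : n0 ≠ 0)
      rw [Nat.cast_sub h1.le]; push_cast; field_simp; ring
    rw [h4, ← Complex.ofReal_log (by positivity), Real.log_div h3 h2, Complex.ofReal_sub]
    exact sub_mem (hUW _ (mem_of_mem_erase i.2)) (hUW _ hn0U)
  have h1 := hW.card_le hli (D := (p + 1) * D0)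
    (fun α => pow_mono_exp hW.1 (hsum α.1 α.2) (mon_mem_pow hu α.1))
  rw [Fintype.card_coe, card_box, hcard] at h1
  have h2 : c * ((p + 1) * D0 + 1) ^ p ≤ D0 * (D0 + 1) ^ p := by
    calc c * ((p + 1) * D0 + 1) ^ p ≤ c * ((p + 1) * (D0 + 1)) ^ p := by
          gcongr c * ?_ ^ p; nlinarith
      _ = _ := by rw [mul_pow, hD0]; ring
  have h3 : 0 < (D0 + 1) ^ p := by positivity
  rw [pow_succ] at h1
  nlinarith

/-- the final exponent -/
def kapM (k m d : ℕ) : ℕ := ∑ p ∈ range ((k + 2) * m + 1), kapc ((d * (d + 1) ^ p) ^ (k + 2)) p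

theorem cluster_main (k m d : ℕ) {W0 : Submodule ℚ ℂ} (hW0 : Grow W0 1 k) {L N : ℕ}
    (hL : 2 ≤ L) (hN : L ^ kapM k m d ≤ N) :
    ∃ E : Finset ℕ, E.card ≤ k + 1 ∧ ∀ S : Finset ℕ, S.card ≤ m →
      (∀ n ∈ S, N ≤ n ∧ n ≤ N + L) → Disjoint S E →
        ∀ e ∈ S, ¬ Dep d (W0 ⊔ span ℚ (lg '' (S.erase e))) (lg e) := by
  by_contra hc
  push Not at hc
  have key : ∀ j ≤ k + 2, ∃ U E : Finset ℕ, E ⊆ U ∧ E.card = j ∧ U.card ≤ j * m ∧
      (∀ n ∈ U, N ≤ n ∧ n ≤ N + L) ∧ ∀ (W : Submodule ℚ ℂ) (c p : ℕ), Grow W c p → W0 ≤ W →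
        (∀ n ∈ U \ E, lg n ∈ W) →
          Grow (W ⊔ span ℚ (lg '' E)) (c * (d * (d + 1) ^ p) ^ j) p := by
    intro j
    induction j with
    | zero =>
      intro _
      exact ⟨∅, ∅, Subset.refl _, rfl, by simp, by simp, fun W c p h _ _ => by simpa using h⟩
    | succ j ih =>
      intro hj
      obtain ⟨U, E, hEU, hE, hU, hUN, hG⟩ := ih (by omega)
      obtain ⟨S, hS, hSN, hSE, e, he, hdep⟩ := hc E (by omega)
      have heE : e ∉ E := Finset.disjoint_left.1 hSE he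
      refine ⟨U ∪ S, insert e E, ?_, ?_, ?_, ?_, ?_⟩
      · exact insert_subset (mem_union_right _ he) (hEU.trans subset_union_left)
      · rw [card_insert_of_notMem heE, hE]
      · refine (card_union_le _ _).trans ?_
        rw [add_mul]; omega
      · intro n hn
        rcases mem_union.1 hn with h | h
        · exact hUN n h
        · exact hSN n h
      · intro W c p hW hW0W hlg
        have h1 : Dep d W (lg e) := by
          refine hdep.mono (sup_le hW0W ?_)
          rw [span_le]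
          rintro _ ⟨n, hn, rfl⟩
          have hn' := mem_erase.1 (mem_coe.1 hn)
          refine hlg n (mem_sdiff.2 ⟨mem_union_right _ hn'.2, ?_⟩)
          rw [mem_insert]
          rintro (h | h)
          · exact hn'.1 h
          · exact Finset.disjoint_left.1 hSE hn'.2 h
        have h2 := hG _ _ p (hW.dep h1) (hW0W.trans le_sup_left) (fun n hn => by
          by_cases hne : n = e
          · rw [hne]; exact mem_sup_right (mem_span_singleton_self _)
          · refine mem_sup_left (hlg n ?_)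
            rw [mem_sdiff] at hn ⊢
            refine ⟨mem_union_left _ hn.1, ?_⟩
            rw [mem_insert]
            tauto)
        rw [coe_insert, Set.image_insert_eq, span_insert, ← sup_assoc, pow_succ', ← mul_assoc]
        exact h2
  obtain ⟨U, E, hEU, hE, hU, hUN, hG⟩ := key (k + 2) le_rfl
  have h1 := hW0.free_finset lg (U \ E)
  have h2 := hG _ _ _ h1 le_sup_left (fun n hn =>
    mem_sup_right (subset_span ⟨n, mem_coe.2 hn, rfl⟩))
  have hcard : (U \ E).card + (k + 2) = U.card := by rw [← hE]; exact card_sdiff_add_card_eq_card hEU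
  rw [one_mul] at h2
  refine no_grow h2 (U := U) (by omega) hL (le_trans (Nat.pow_le_pow_right (by omega) ?_) hN) hUN ?_
  · exact Finset.single_le_sum (f := fun p => kapc ((d * (d + 1) ^ p) ^ (k + 2)) p)
      (fun _ _ => Nat.zero_le _) (mem_range.2 (by omega))
  · intro n hn
    by_cases h : n ∈ E
    · exact mem_sup_right (subset_span ⟨n, mem_coe.2 h, rfl⟩)
    · exact mem_sup_left (mem_sup_right (subset_span ⟨n, mem_coe.2 (mem_sdiff.2 ⟨hn, h⟩), rfl⟩))

/-- polynomially bounded functions -/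
def PB (f : ℕ → ℕ) : Prop := ∃ C : ℕ, ∀ d, 2 ≤ d → f d ≤ d ^ C

lemma PB.const (c : ℕ) : PB fun _ => c :=
  ⟨c, fun _ hd => (Nat.lt_two_pow_self).le.trans (Nat.pow_le_pow_left hd _)⟩

lemma PB.id : PB fun d => d := ⟨1, fun _ _ => by simp⟩

lemma PB.mul {f g : ℕ → ℕ} (hf : PB f) (hg : PB g) : PB fun d => f d * g d := by
  obtain ⟨a, ha⟩ := hf
  obtain ⟨b, hb⟩ := hg
  exact ⟨a + b, fun d hd => by rw [pow_add]; exact Nat.mul_le_mul (ha d hd) (hb d hd)⟩

lemma PB.add {f g : ℕ → ℕ} (hf : PB f) (hg : PB g) : PB fun d => f d + g d := by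
  obtain ⟨a, ha⟩ := hf
  obtain ⟨b, hb⟩ := hg
  refine ⟨a + b + 1, fun d hd => ?_⟩
  have h1 : d ^ a ≤ d ^ (a + b) := Nat.pow_le_pow_right (by omega) (by omega)
  have h2 : d ^ b ≤ d ^ (a + b) := Nat.pow_le_pow_right (by omega) (by omega)
  have h3 := ha d hd
  have h4 := hb d hd
  rw [pow_succ]
  nlinarith

lemma PB.pow {f : ℕ → ℕ} (hf : PB f) (n : ℕ) : PB fun d => f d ^ n := by
  obtain ⟨a, ha⟩ := hf
  exact ⟨a * n, fun d hd => by rw [pow_mul]; exact Nat.pow_le_pow_left (ha d hd) _⟩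

lemma PB.sum {ι : Type*} (s : Finset ι) {f : ι → ℕ → ℕ} (hf : ∀ i, PB (f i)) :
    PB fun d => ∑ i ∈ s, f i d := by
  classical
  induction s using Finset.induction_on with
  | empty => simpa using PB.const 0
  | insert a s ha ih => simpa [Finset.sum_insert ha] using (hf a).add ih

lemma PB.kap (m : ℕ) {M D : ℕ → ℕ} (hM : PB M) (hD : PB D) : PB fun d => kap m (M d) (D d) := by
  have hA : PB fun d => AA m (M d) := (hM.mul (PB.const _)).add (PB.const _)
  exact ((((((((PB.const 8).mul hD).add (PB.const 3)).mul (hA.pow 2)).add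
    (((PB.const 16).mul hD).mul hA)).add ((PB.const 5).mul hA)).add (PB.const _)).add (PB.const 4))

lemma PB.kapM (k m : ℕ) {f : ℕ → ℕ} (hf : PB f) : PB fun d => kapM k m (f d) := by
  refine PB.sum _ fun p => ?_
  have hc : PB fun d => (f d * (f d + 1) ^ p) ^ (k + 2) * (p + 1) ^ p :=
    ((hf.mul ((hf.add (PB.const 1)).pow p)).pow _).mul (PB.const _)
  exact PB.kap _ ((hc.add (PB.const 1)).pow _) ((PB.const _).mul hc)

end Pool.Agent.MP_d171e3_nt.H48

end

-- part MP_d171e3_nt.H48.Final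
section

/-! Polynomial relations among logarithms of integers: short intervals and counting. -/

namespace Pool.Agent.MP_d171e3_nt.H48

open Finset Submodule MvPolynomial

lemma eval_mem_pow {ι : Type*} {W : Submodule ℚ ℂ} (h1 : (1 : ℂ) ∈ W) {y : ι → ℂ}
    (hy : ∀ i, y i ∈ W) {H : MvPolynomial ι ℂ} {a b : ℕ} (hc : ∀ α, H.coeff α ∈ W ^ a)
    (hb : H.totalDegree ≤ b) : eval y H ∈ W ^ (a + b) := by
  classical
  rw [eval_eq]
  refine sum_mem fun α hα => mul_mem_pow_add (hc α) ?_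
  have h2 : ∀ s : Finset ι, ∏ i ∈ s, y i ^ α i ∈ W ^ ∑ i ∈ s, α i := by
    intro s
    induction s using Finset.induction_on with
    | empty => simp [Submodule.one_eq_span]
    | insert a s ha ih =>
      rw [Finset.prod_insert ha, Finset.sum_insert ha]
      exact mul_mem_pow_add (Submodule.pow_mem_pow _ (hy a) _) ih
  exact pow_mono_exp h1 ((le_totalDegree hα).trans hb) (h2 _)

lemma totalDegree_map_le {ι : Type*} (P : MvPolynomial ι ℚ) (f : ℚ →+* ℂ) :
    (map f P).totalDegree ≤ P.totalDegree :=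
  Finset.sup_mono (support_map_subset f P)

/-- a polynomial relation of degree at most `d` with coefficients in `W ^ d` -/
def Rel (d : ℕ) (W : Submodule ℚ ℂ) {m : ℕ} (x : Fin m → ℂ) : Prop :=
  ∃ G : MvPolynomial (Fin m) ℂ, G ≠ 0 ∧ G.totalDegree ≤ d ∧ (∀ α, G.coeff α ∈ W ^ d) ∧
    eval x G = 0

lemma not_rel_zero (d : ℕ) (W : Submodule ℚ ℂ) (x : Fin 0 → ℂ) : ¬ Rel d W x := by
  rintro ⟨G, h0, -, -, h⟩
  rw [eq_C_of_isEmpty G] at h h0
  rw [eval_C] at h
  rw [h] at h0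
  simp at h0

lemma rel_succ {d : ℕ} {W : Submodule ℚ ℂ} (h1 : (1 : ℂ) ∈ W) {m : ℕ} {x : Fin (m + 1) → ℂ}
    (h : Rel d W x) :
    Rel d W (Fin.tail x) ∨ Dep (2 * d) (W ⊔ span ℚ (Set.range (Fin.tail x))) (x 0) := by
  obtain ⟨G, h0, hd, hc, hx⟩ := h
  rw [← Fin.cons_self_tail x, eval_eq_eval_mv_eval'] at hx
  have hdeg : ∀ j, ((finSuccEquiv ℂ m G).coeff j).totalDegree ≤ d := by
    intro j
    by_cases h : (finSuccEquiv ℂ m G).coeff j = 0
    · simp [h]
    · have := totalDegree_coeff_finSuccEquiv_add_le G j h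
      omega
  have hco : ∀ j α, ((finSuccEquiv ℂ m G).coeff j).coeff α ∈ W ^ d := by
    intro j α
    rw [finSuccEquiv_coeff_coeff]; exact hc _
  by_cases hp : Polynomial.map (eval (Fin.tail x)) (finSuccEquiv ℂ m G) = 0
  · left
    refine ⟨(finSuccEquiv ℂ m G).leadingCoeff, ?_, hdeg _, hco _, ?_⟩
    · rw [Polynomial.leadingCoeff_ne_zero]
      simpa using h0
    · have := congrArg (fun p => Polynomial.coeff p (finSuccEquiv ℂ m G).natDegree) hp
      simpa using this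
  · right
    refine ⟨_, hp, ?_, fun j => ?_, hx⟩
    · refine Polynomial.natDegree_map_le.trans ?_
      rw [natDegree_finSuccEquiv]
      have := degreeOf_le_totalDegree G 0
      omega
    · rw [Polynomial.coeff_map, two_mul]
      exact eval_mem_pow (mem_sup_left h1)
        (fun i => mem_sup_right (subset_span (Set.mem_range_self i)))
        (fun α => pow_mono_base le_sup_left d (hco j α)) (hdeg j)

lemma rel_dep {d : ℕ} {W : Submodule ℚ ℂ} (h1 : (1 : ℂ) ∈ W) {m : ℕ} {x : Fin m → ℂ}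
    (h : Rel d W x) : ∃ j, Dep (2 * d) (W ⊔ span ℚ (x '' {i | i ≠ j})) (x j) := by
  induction m with
  | zero => exact absurd h (not_rel_zero _ _ _)
  | succ m ih =>
    rcases rel_succ h1 h with h | h
    · obtain ⟨j, hj⟩ := ih h
      refine ⟨j.succ, hj.mono (sup_le_sup_left (span_mono ?_) _)⟩
      rintro _ ⟨i, hi, rfl⟩
      exact ⟨i.succ, fun h => hi (Fin.succ_injective _ h), rfl⟩
    · refine ⟨0, h.mono (sup_le_sup_left (span_mono ?_) _)⟩
      rintro _ ⟨i, rfl⟩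
      exact ⟨i.succ, Fin.succ_ne_zero i, rfl⟩

lemma grow_range {k : ℕ} (θ : Fin k → ℂ) : Grow (1 ⊔ span ℚ (Set.range θ)) 1 k := by
  have := grow_one.free_finset θ univ
  simpa using this

lemma one_mem_one : (1 : ℂ) ∈ (1 : Submodule ℚ ℂ) := grow_one.1

lemma rat_mem_pow_zero (W : Submodule ℚ ℂ) (q : ℚ) : algebraMap ℚ ℂ q ∈ W ^ 0 := by
  rw [pow_zero]; exact Submodule.algebraMap_mem q

theorem short_interval (k m : ℕ) : ∃ C : ℕ, ∀ d : ℕ, 2 ≤ d → ∀ (θ : Fin k → ℂ) (N L : ℕ),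
    2 ≤ L → L ^ d ^ C ≤ N → ∃ E : Finset ℕ, E.card ≤ k + 1 ∧ ∀ n : Fin m → ℕ,
      Function.Injective n → (∀ i, N ≤ n i ∧ n i ≤ N + L ∧ n i ∉ E) →
      ∀ G : MvPolynomial (Fin m) ℂ, G ≠ 0 → G.totalDegree ≤ d →
        (∀ α, ∃ P : MvPolynomial (Fin k) ℚ, P.totalDegree ≤ d ∧ aeval θ P = G.coeff α) →
        eval (fun i => ((Real.log (n i) : ℝ) : ℂ)) G ≠ 0 := by
  obtain ⟨C, hC⟩ := PB.kapM k m ((PB.const 2).mul PB.id)
  refine ⟨C, fun d hd θ N L hL hN => ?_⟩
  have hW := grow_range θ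
  obtain ⟨E, hE, H⟩ := cluster_main k m (2 * d) hW hL
    (le_trans (Nat.pow_le_pow_right (by omega) (hC d hd)) hN)
  refine ⟨E, hE, fun n hn hN G h0 hG hc hx => ?_⟩
  have hrel : Rel d (1 ⊔ span ℚ (Set.range θ)) (fun i => lg (n i)) := by
    refine ⟨G, h0, hG, fun α => ?_, hx⟩
    obtain ⟨P, hP, hPc⟩ := hc α
    rw [← hPc, aeval_def, eval₂_eq_eval_map]
    have := eval_mem_pow hW.1 (y := θ) (fun i => mem_sup_right (subset_span ⟨i, rfl⟩))
      (H := map (algebraMap ℚ ℂ) P) (a := 0) (b := d)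
      (fun β => by rw [coeff_map]; exact rat_mem_pow_zero _ _)
      ((totalDegree_map_le _ _).trans hP)
    rwa [zero_add] at this
  obtain ⟨j, hj⟩ := rel_dep hW.1 hrel
  refine H (univ.image n) (card_image_le.trans (by simp)) ?_ ?_ (n j)
    (mem_image_of_mem _ (mem_univ _)) (hj.mono (sup_le_sup_left (span_mono ?_) _))
  · intro x hx
    obtain ⟨i, -, rfl⟩ := mem_image.1 hx
    exact ⟨(hN i).1, (hN i).2.1⟩
  · rw [Finset.disjoint_left]
    intro x hx
    obtain ⟨i, -, rfl⟩ := mem_image.1 hx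
    exact (hN i).2.2
  · rintro _ ⟨i, hi, rfl⟩
    exact ⟨n i, mem_coe.2 (mem_erase.2 ⟨fun h => hi (hn h), mem_image_of_mem _ (mem_univ _)⟩), rfl⟩

open Classical in
lemma dep_count (k : ℕ) : ∃ C : ℕ, ∀ d : ℕ, 2 ≤ d → ∀ W : Submodule ℚ ℂ, Grow W 1 k →
    ∀ X : ℕ, 1 ≤ X → (((Icc 1 X).filter fun n => Dep (2 * d) W (lg n)).card : ℝ) ≤
      (3 * k + 4) * (X : ℝ) ^ (1 - 1 / (d : ℝ) ^ C) := by
  obtain ⟨C, hC⟩ := PB.kapM k 1 ((PB.const 2).mul PB.id)
  refine ⟨C + 1, fun d hd W hW X hX => ?_⟩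
  set κ := d ^ C with hκ
  have hκ1 : 1 ≤ κ := Nat.one_le_pow _ _ (by omega)
  have hκ1' : (1 : ℝ) ≤ κ := by exact_mod_cast hκ1
  have hX1 : (1 : ℝ) ≤ X := by exact_mod_cast hX
  have hX0 : (0 : ℝ) < X := by linarith
  set c : ℝ := 1 / (2 * κ) with hc
  have hc0 : 0 < c := by positivity
  have hc2 : c ≤ 1 / 2 := by
    rw [hc]; apply one_div_le_one_div_of_le (by norm_num); linarith
  have hcd : 1 / (d : ℝ) ^ (C + 1) ≤ c := by
    rw [hc]; apply one_div_le_one_div_of_le (by positivity)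
    have : (2 : ℝ) ≤ d := by exact_mod_cast hd
    rw [pow_succ, hκ]; push_cast
    have : (0 : ℝ) < (d : ℝ) ^ C := by positivity
    nlinarith
  set Z : ℝ := (X : ℝ) ^ (1 - c) with hZ
  have hZ1 : 1 ≤ Z := Real.one_le_rpow hX1 (by linarith)
  have hZle : Z ≤ (X : ℝ) ^ (1 - 1 / (d : ℝ) ^ (C + 1)) :=
    Real.rpow_le_rpow_of_exponent_le hX1 (by linarith)
  refine le_trans ?_ (mul_le_mul_of_nonneg_left hZle (by positivity))
  set y : ℝ := (X : ℝ) ^ c with hy
  have hyZ : Z * y = X := by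
    rw [hZ, hy, ← Real.rpow_add hX0]; simp
  have hy0 : 0 < y := by positivity
  set L := ⌊y⌋₊ with hL
  have hLy : (L : ℝ) ≤ y := Nat.floor_le hy0.le
  have hyL : y < L + 1 := Nat.lt_floor_add_one y
  have hk0 : (0 : ℝ) ≤ k := Nat.cast_nonneg k
  rcases lt_or_ge L 2 with h2 | h2
  · have h3 : (L : ℝ) ≤ 1 := by exact_mod_cast (by omega : L ≤ 1)
    have h4 : (((Icc 1 X).filter fun n => Dep (2 * d) W (lg n)).card : ℝ) ≤ X := by
      have := card_filter_le (Icc 1 X) fun n => Dep (2 * d) W (lg n)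
      rw [Nat.card_Icc] at this
      exact_mod_cast (by omega)
    nlinarith
  · set N0 := L ^ κ with hN0
    have hN0Z : (N0 : ℝ) ≤ Z := by
      rw [hN0]; push_cast
      calc (L : ℝ) ^ κ ≤ y ^ κ := by gcongr
        _ = (X : ℝ) ^ (1 / 2 : ℝ) := by
            rw [hy, ← Real.rpow_natCast, ← Real.rpow_mul hX0.le, hc]
            congr 1; field_simp
        _ ≤ Z := Real.rpow_le_rpow_of_exponent_le hX1 (by linarith)
    have hex := fun j : ℕ => cluster_main k 1 (2 * d) hW h2 (N := N0 + j * L)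
      (le_trans (Nat.pow_le_pow_right (by omega) (hC d hd)) (Nat.le_add_right _ _))
    choose E hE H using hex
    have hsub : ((Icc 1 X).filter fun n => Dep (2 * d) W (lg n)) ⊆
        range N0 ∪ (range (X / L + 1)).biUnion E := by
      intro n hn
      rw [mem_filter, mem_Icc] at hn
      rw [mem_union, mem_range, mem_biUnion]
      rcases lt_or_ge n N0 with h | h
      · exact Or.inl h
      · right
        refine ⟨(n - N0) / L, mem_range.2 (Nat.lt_succ_of_le (Nat.div_le_div_right (by omega))), ?_⟩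
        by_contra hne
        have h5 := Nat.div_add_mod' (n - N0) L
        have h6 := Nat.mod_lt (n - N0) (show L > 0 by omega)
        refine H ((n - N0) / L) {n} (by simp) (fun x hx => ?_) (by simpa using hne) n
          (mem_singleton_self _) (hn.2.mono le_sup_left)
        rw [mem_singleton.1 hx]; omega
    have h3 : ((Icc 1 X).filter fun n => Dep (2 * d) W (lg n)).card ≤
        N0 + (X / L + 1) * (k + 1) := by
      refine (card_le_card hsub).trans ((card_union_le _ _).trans ?_)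
      rw [card_range]
      gcongr
      refine card_biUnion_le.trans ?_
      refine (Finset.sum_le_card_nsmul _ _ (k + 1) fun j _ => hE j).trans ?_
      simp
    have h4 : ((X / L : ℕ) : ℝ) ≤ 2 * Z := by
      have hL2 : (2 : ℝ) ≤ L := by exact_mod_cast h2
      refine Nat.cast_div_le.trans ?_
      rw [div_le_iff₀ (by linarith), ← hyZ]
      nlinarith
    have h5 : (((Icc 1 X).filter fun n => Dep (2 * d) W (lg n)).card : ℝ) ≤
        N0 + (((X / L : ℕ) : ℝ) + 1) * (k + 1) := by exact_mod_cast h3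
    nlinarith

open Classical in
lemma rel_count (m : ℕ) : ∃ C : ℕ, ∀ d : ℕ, 2 ≤ d → ∀ X : ℕ, 1 ≤ X →
    (((Fintype.piFinset fun _ : Fin m => Icc 1 X).filter
      fun n => Rel d 1 fun i => lg (n i)).card : ℝ) ≤ C * (X : ℝ) ^ ((m : ℝ) - 1 / (d : ℝ) ^ C) := by
  induction m with
  | zero =>
    refine ⟨0, fun d _ X _ => ?_⟩
    rw [Finset.filter_false_of_mem (fun n _ => not_rel_zero _ _ _)]
    simp
  | succ m ih =>
    obtain ⟨C1, h1⟩ := ih
    obtain ⟨C2, h2⟩ := dep_count m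
    refine ⟨C1 + C2 + (3 * m + 4), fun d hd X hX => ?_⟩
    set T := Fintype.piFinset fun _ : Fin m => Icc 1 X with hT
    have hX1 : (1 : ℝ) ≤ X := by exact_mod_cast hX
    have hX0 : (0 : ℝ) < X := by linarith
    have hd1 : (1 : ℝ) ≤ d := by exact_mod_cast (by omega : 1 ≤ d)
    have hsub : ((Fintype.piFinset fun _ : Fin (m + 1) => Icc 1 X).filter
        fun n => Rel d 1 fun i => lg (n i)).card ≤
        (Icc 1 X ×ˢ T.filter fun n => Rel d 1 fun i => lg (n i)).card +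
        (T.sigma fun n => (Icc 1 X).filter
          fun q => Dep (2 * d) (1 ⊔ span ℚ (Set.range fun i => lg (n i))) (lg q)).card := by
      rw [← card_disjSum]
      refine card_le_card_of_injOn (fun n => if Rel d 1 (fun i => lg (Fin.tail n i)) then
        Sum.inl (n 0, Fin.tail n) else Sum.inr ⟨Fin.tail n, n 0⟩) ?_ ?_
      · intro n hn
        rw [mem_coe, mem_filter, Fintype.mem_piFinset] at hn
        have ht : Fin.tail n ∈ T := Fintype.mem_piFinset.2 fun i => hn.1 _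
        rw [mem_coe]
        beta_reduce
        split_ifs with h
        · rw [inl_mem_disjSum, mem_product, mem_filter]
          exact ⟨hn.1 0, ht, h⟩
        · rw [inr_mem_disjSum, mem_sigma, mem_filter]
          exact ⟨ht, hn.1 0, (rel_succ one_mem_one hn.2).resolve_left h⟩
      · intro n _ n' _ h
        beta_reduce at h
        have : n 0 = n' 0 ∧ Fin.tail n = Fin.tail n' := by
          split_ifs at h
          · simpa using h
          · simp only [Sum.inr.injEq, Sigma.mk.injEq, heq_eq_eq] at h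
            exact ⟨h.2, h.1⟩
        rw [← Fin.cons_self_tail n, ← Fin.cons_self_tail n', this.1, this.2]
    have hTc : T.card = X ^ m := by simp [hT]
    set ε : ℝ := 1 / (d : ℝ) ^ (C1 + C2 + (3 * m + 4)) with hε
    have hε1 : ε ≤ 1 / (d : ℝ) ^ C1 :=
      one_div_le_one_div_of_le (by positivity) (pow_le_pow_right₀ hd1 (by omega))
    have hε2 : ε ≤ 1 / (d : ℝ) ^ C2 :=
      one_div_le_one_div_of_le (by positivity) (pow_le_pow_right₀ hd1 (by omega))
    set Z : ℝ := (X : ℝ) ^ (((m + 1 : ℕ) : ℝ) - ε) with hZ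
    have hZ0 : 0 < Z := by positivity
    have e1 : ((Icc 1 X ×ˢ T.filter fun n => Rel d 1 fun i => lg (n i)).card : ℝ) ≤ C1 * Z := by
      rw [card_product, Nat.card_Icc, add_tsub_cancel_right]
      push_cast
      have := h1 d hd X hX
      calc _ ≤ (X : ℝ) * (C1 * (X : ℝ) ^ ((m : ℝ) - 1 / (d : ℝ) ^ C1)) := by gcongr
        _ = C1 * (X : ℝ) ^ (1 + ((m : ℝ) - 1 / (d : ℝ) ^ C1)) := by
            rw [Real.rpow_add hX0, Real.rpow_one]; ring
        _ ≤ C1 * Z := by
            gcongr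
            apply Real.rpow_le_rpow_of_exponent_le hX1
            push_cast; linarith
    have e2 : ((T.sigma fun n => (Icc 1 X).filter
          fun q => Dep (2 * d) (1 ⊔ span ℚ (Set.range fun i => lg (n i))) (lg q)).card : ℝ) ≤
        (3 * m + 4) * Z := by
      rw [card_sigma]
      push_cast
      refine (Finset.sum_le_card_nsmul _ _ _ fun n _ => h2 d hd _ (grow_range _) X hX).trans ?_
      rw [hTc, nsmul_eq_mul]
      push_cast
      calc (X : ℝ) ^ m * ((3 * m + 4) * (X : ℝ) ^ (1 - 1 / (d : ℝ) ^ C2))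
          = (3 * m + 4) * (X : ℝ) ^ ((m : ℝ) + (1 - 1 / (d : ℝ) ^ C2)) := by
            rw [Real.rpow_add hX0, Real.rpow_natCast]; ring
        _ ≤ _ := by
            gcongr
            apply Real.rpow_le_rpow_of_exponent_le hX1
            push_cast; linarith
    have e3 : (((Fintype.piFinset fun _ : Fin (m + 1) => Icc 1 X).filter
        fun n => Rel d 1 fun i => lg (n i)).card : ℝ) ≤ _ := Nat.cast_le.2 hsub
    push_cast at e3 ⊢
    have : (0 : ℝ) ≤ C2 * Z := by positivity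
    push_cast at hZ
    nlinarith

theorem almost_all (m : ℕ) : ∃ C : ℕ, ∀ d X : ℕ, 2 ≤ d →
    (({n : Fin m → ℕ | (∀ i, 1 ≤ n i ∧ n i ≤ X) ∧ ∃ F : MvPolynomial (Fin m) ℚ, F ≠ 0 ∧
      F.totalDegree ≤ d ∧ aeval (fun i => Real.log (n i)) F = 0}.ncard : ℕ) : ℝ) ≤
      C * (X : ℝ) ^ ((m : ℝ) - 1 / (d : ℝ) ^ C) := by
  classical
  obtain ⟨C, hC⟩ := rel_count m
  refine ⟨C, fun d X hd => ?_⟩
  have hsub : {n : Fin m → ℕ | (∀ i, 1 ≤ n i ∧ n i ≤ X) ∧ ∃ F : MvPolynomial (Fin m) ℚ, F ≠ 0 ∧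
      F.totalDegree ≤ d ∧ aeval (fun i => Real.log (n i)) F = 0} ⊆
      ((Fintype.piFinset fun _ : Fin m => Icc 1 X).filter
        fun n => Rel d 1 fun i => lg (n i) : Finset _) := by
    rintro n ⟨h1, F, h0, hF, hx⟩
    rw [mem_coe, mem_filter, Fintype.mem_piFinset]
    refine ⟨fun i => mem_Icc.2 (h1 i), map (algebraMap ℚ ℂ) F, ?_,
      (totalDegree_map_le _ _).trans hF, fun α => ?_, ?_⟩
    · exact fun h => h0 (map_injective _ (algebraMap ℚ ℂ).injective (by simpa using h))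
    · rw [coeff_map]
      exact pow_mono_exp one_mem_one (Nat.zero_le d) (rat_mem_pow_zero _ _)
    · have := congrArg (IsScalarTower.toAlgHom ℚ ℝ ℂ) hx
      rw [map_zero, ← AlgHom.comp_apply, comp_aeval] at this
      rw [← eval₂_eq_eval_map, ← aeval_def]
      exact this
  rcases Nat.eq_zero_or_pos X with rfl | hX
  · have : {n : Fin m → ℕ | (∀ i, 1 ≤ n i ∧ n i ≤ 0) ∧ ∃ F : MvPolynomial (Fin m) ℚ, F ≠ 0 ∧
        F.totalDegree ≤ d ∧ aeval (fun i => Real.log (n i)) F = 0} = ∅ := by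
      rw [Set.eq_empty_iff_forall_notMem]
      intro n hn
      have h2 := hsub hn
      rw [mem_coe, mem_filter] at h2
      cases m with
      | zero => exact not_rel_zero _ _ _ h2.2
      | succ m => have := hn.1 0; omega
    rw [this]
    simp only [Set.ncard_empty, Nat.cast_zero]
    positivity
  · refine le_trans ?_ (hC d hd X hX)
    have := Set.ncard_le_ncard hsub (Finset.finite_toSet _)
    rw [Set.ncard_coe_finset] at this
    exact_mod_cast this

lemma le_pi_mul_log {X : ℕ} (hX : 2 ≤ X) :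
    (X : ℝ) ≤ 16 * Real.log X * Nat.primeCounting X := by
  have h1 := Chebyshev.pi_ge X
  have hX2 : (2 : ℝ) ≤ X := by exact_mod_cast hX
  have hlog : 0 < Real.log X := Real.log_pos (by linarith)
  rw [div_le_iff₀ hlog] at h1
  have h2 : Real.log (X + 1) ≤ Real.log 2 + 1 / 2 + (X - 2) / 3 := by
    have e : (X : ℝ) + 1 = 2 * (3 / 2) * ((X + 1) / 3) := by ring
    rw [e, Real.log_mul (by norm_num) (by positivity), Real.log_mul (by norm_num) (by norm_num)]
    have h3 := Real.log_le_sub_one_of_pos (show (0 : ℝ) < 3 / 2 by norm_num)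
    have h4 := Real.log_le_sub_one_of_pos (show (0 : ℝ) < (X + 1) / 3 by positivity)
    linarith
  have h5 := Real.log_two_gt_d9
  nlinarith

theorem almost_all_primes (m : ℕ) : ∃ C : ℕ, ∀ d X : ℕ, 2 ≤ d → 2 ≤ X →
    (({p : Fin m → ℕ | (∀ i, (p i).Prime ∧ p i ≤ X) ∧ ∃ F : MvPolynomial (Fin m) ℚ, F ≠ 0 ∧
      F.totalDegree ≤ d ∧ aeval (fun i => Real.log (p i)) F = 0}.ncard : ℕ) : ℝ) ≤
      C * Real.log X ^ m * (X : ℝ) ^ (-(1 / (d : ℝ) ^ C)) * (Nat.primeCounting X : ℝ) ^ m := by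
  obtain ⟨C, hC⟩ := almost_all m
  refine ⟨16 ^ m * C, fun d X hd hX => ?_⟩
  have hX1 : (1 : ℝ) ≤ X := by exact_mod_cast (by omega : 1 ≤ X)
  have hX0 : (0 : ℝ) < X := by linarith
  have hd1 : (1 : ℝ) ≤ d := by exact_mod_cast (by omega : 1 ≤ d)
  have hfin : {n : Fin m → ℕ | (∀ i, 1 ≤ n i ∧ n i ≤ X) ∧ ∃ F : MvPolynomial (Fin m) ℚ, F ≠ 0 ∧
      F.totalDegree ≤ d ∧ aeval (fun i => Real.log (n i)) F = 0}.Finite := by
    refine (Finset.finite_toSet (Fintype.piFinset fun _ : Fin m => Icc 1 X)).subset ?_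
    intro n hn
    rw [mem_coe, Fintype.mem_piFinset]
    exact fun i => mem_Icc.2 (hn.1 i)
  have h1 := Set.ncard_le_ncard (s := {p : Fin m → ℕ | (∀ i, (p i).Prime ∧ p i ≤ X) ∧
      ∃ F : MvPolynomial (Fin m) ℚ, F ≠ 0 ∧
      F.totalDegree ≤ d ∧ aeval (fun i => Real.log (p i)) F = 0})
    (fun p hp => by exact ⟨fun i => ⟨(hp.1 i).1.one_le, (hp.1 i).2⟩, hp.2⟩) hfin
  refine le_trans (Nat.cast_le.2 h1) ((hC d X hd).trans ?_)
  have h2 : (X : ℝ) ^ (-(1 / (d : ℝ) ^ C)) ≤ (X : ℝ) ^ (-(1 / (d : ℝ) ^ (16 ^ m * C))) := by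
    apply Real.rpow_le_rpow_of_exponent_le hX1
    rw [neg_le_neg_iff]
    exact one_div_le_one_div_of_le (by positivity)
      (pow_le_pow_right₀ hd1 (Nat.le_mul_of_pos_left _ (by positivity)))
  have hlog : 0 ≤ Real.log X := Real.log_nonneg hX1
  have h3 := le_pi_mul_log hX
  rw [sub_eq_add_neg, Real.rpow_add hX0, Real.rpow_natCast]
  calc (C : ℝ) * ((X : ℝ) ^ m * (X : ℝ) ^ (-(1 / (d : ℝ) ^ C)))
      ≤ C * ((16 * Real.log X * Nat.primeCounting X) ^ m *
        (X : ℝ) ^ (-(1 / (d : ℝ) ^ (16 ^ m * C)))) := by gcongr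
    _ = _ := by push_cast; ring

end Pool.Agent.MP_d171e3_nt.H48

end
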