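import Pool.Agent.MP_d171e3_nt.Mg.H31_EvPoly
import Pool.Agent.MP_d171e3_nt.Mg.H48_Final

attribute [-instance] Algebra.Generators.instRing ContinuousSemilinearMapClass.toSemilinearMapClass
  instCoeHTCOfCoeHeadOfCoeOTC RKHS.instFunLike CoalgHomClass.toSemilinearMapClass
  AddQuantale.instAddLeftMono IdemSemiring.toCanonicallyOrderedAdd
  instNonUnitalAlgHomClassOfNonUnitalAlgEquivClass MonTypeEquivalenceMon.monMonoid
  RingHomClass.toLinearMapClassNNRat SemilinearIsometryClass.toSemilinearMapClass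
  Module.IsNoetherian.finite
  NonUnitalAlgHomClass.instSemilinearMapClassOfNonUnitalAlgSemiHomClassToMonoidHomRingHom
  RingHomClass.toLinearMapClassRat ContinuousMonoidHom.instCoeOutOfMonoidHomClassOfContinuousMapClass
  littleWedderburn CommMonTypeEquivalenceCommMon.commMonCommMonoid RightPreLieAlgebra.toModule
  invertibleTwo LeftPreLieAlgebra.toModule BialgHomClass.toAlgHomClass AddQuantale.instAddRightMono
  IdemSemiring.toMulLeftMono instCoeHTCTOfCoeTailOfCoeHTC instCoeTCOfCoe AlgHomClass.linearMapClass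
  SeminormClass.toAddGroupSeminormClass IsOrderedMonoid.toMulLeftMono NumberField.to_charZero
  Fintype.decidableForallFintype Quantale.instMulRightMono
  Module.FaithfullyFlat.of_isIntegral_of_isDomain CompletePartialOrder.toPartialOrder
  Complex.instModule SubfieldClass.toSubringClass instCoeOutOfCoeFun instCharZeroOfIsSemireal
  Quantale.instMulLeftMono IdemSemiring.toMulRightMono instCoeTOfCoeDep
  GrpTypeEquivalenceGrp.grpGroup Nontrivial.to_nonempty BialgHomClass.toMonoidHomClass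
  NormedField.toField MulSemiringActionSemiHomClass.toDistribMulActionSemiHomClass
  NonUnitalAlgHomClass.toNonUnitalRingHomClass SetLike.GradeZero.instRing
  TestFunctionClass.toDFunLike ContDiffMapSupportedInClass.toDFunLike
  Complex.instDistribMulActionOfReal NeZero.of_gt' MulRingSeminormClass.toMonoidWithZeroHomClass
  SetLike.GradeZero.instCommRing Fintype.decidableExistsFintype Prod.instSemiring
  AlgEquivClass.toAlgHomClass LieAdmissibleRing.toNonUnitalNonAssocRing Zero.instNonempty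
  NonarchimedeanAddGroup.toIsTopologicalAddGroup MulRingSeminormClass.toAddGroupSeminormClass
  Finsupp.instNonUnitalNonAssocSemiring LieAlgebra.toModule
  ContinuousAddMonoidHom.instCoeOutOfAddMonoidHomClassOfContinuousMapClass
  MonoidHomClass.toMulHomClass SetLike.GradeZero.instSemiring bot_nonempty
  SetLike.GradeZero.instCommSemiring NonarchimedeanRing.toIsTopologicalRing Invertible.toNeZero
  ValuationClass.toMonoidWithZeroHomClass CentroidHomClass.toAddMonoidHomClass Module.Finite.quotient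
  CanonicallyOrderedAdd.toMulLeftMono One.instNonempty NonUnitalRingHomClass.toAddMonoidHomClass
  NormedRing.toRing NormedCommRing.toCommRing KleeneAlgebra.toIdemSemiring

-- part MP_d171e3_nt.H31.ZE
section

/-! The zero estimate over many points. -/

namespace Pool.Agent.MP_d171e3_nt.H31

open MvPolynomial Finset

section
variable {κ A : Type*} [Fintype κ] [CommRing A] [Algebra ℂ A]

lemma DD_box (δ : Derivation ℂ A A) (v : κ → A) {D : ℕ} {Q : MvPolynomial κ A}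
    (hQ : ∀ α ∈ Q.support, ∀ j, α j < D) : ∀ α ∈ (DD δ v Q).support, ∀ j, α j < D := by
  intro α hα j
  by_contra hj
  rw [mem_support_iff, coeff_DD] at hα
  apply hα
  have h1 : coeff α Q = 0 := by
    by_contra h; exact hj (hQ α (mem_support_iff.2 h) j)
  have h2 : ∀ i, coeff (α + Finsupp.single i 1) Q = 0 := by
    intro i
    by_contra h
    have := hQ _ (mem_support_iff.2 h) j
    rw [Finsupp.add_apply] at this
    omega
  simp only [h1, map_zero, h2, zero_mul, mul_zero, sum_const_zero, add_zero]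

lemma DD_top (δ : Derivation ℂ A A) (v : κ → A) {m : ℕ} {Q : MvPolynomial κ A}
    (hQ : ∀ α ∈ Q.support, α.degree ≤ m) : (∀ α ∈ (DD δ v Q).support, α.degree ≤ m) ∧
      ∀ α : κ →₀ ℕ, α.degree = m → coeff α (DD δ v Q) = δ (coeff α Q) := by
  have h2 : ∀ α : κ →₀ ℕ, m ≤ α.degree → ∀ i, coeff (α + Finsupp.single i 1) Q = 0 := by
    intro α hα i
    by_contra h
    have := hQ _ (mem_support_iff.2 h)
    rw [map_add, Finsupp.degree_single] at this
    omega
  constructor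
  · intro α hα
    by_contra hj
    rw [mem_support_iff, coeff_DD] at hα
    apply hα
    have h1 : coeff α Q = 0 := by
      by_contra h; exact hj (hQ α (mem_support_iff.2 h))
    simp only [h1, map_zero, h2 α (by omega), zero_mul, mul_zero, sum_const_zero, add_zero]
  · intro α hα
    simp only [coeff_DD, h2 α hα.ge, zero_mul, mul_zero, sum_const_zero, add_zero]

lemma map_DD {B : Type*} [CommRing B] [Algebra ℂ B] (π : A →+* B) (δ : Derivation ℂ A A)
    (δ' : Derivation ℂ B B) (h : ∀ f, π (δ f) = δ' (π f)) (v : κ → A) (Q : MvPolynomial κ A) :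
    map π (DD δ v Q) = DD δ' (fun j => π (v j)) (map π Q) := by
  ext β
  simp only [coeff_map, coeff_DD, map_add, h, map_sum, map_mul, map_natCast, map_one]

omit [Fintype κ] in
lemma ctr_sum (I : Finset (κ →₀ ℕ)) (φ : (κ →₀ ℕ) → ℂ) {α : Type*} (s : Finset α)
    (f : α → MvPolynomial κ A) : ctr I φ (∑ i ∈ s, f i) = ∑ i ∈ s, ctr I φ (f i) := by
  simp only [ctr, coeff_sum, Finset.smul_sum]
  exact Finset.sum_comm

omit [Fintype κ] in
lemma ctr_shift_comb (I : Finset (κ →₀ ℕ)) (φ : (κ →₀ ℕ) → ℂ) (L : κ → A) (h0 : 0 ∈ I)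
    (hφ : φ 0 = 1) (p m : Ideal A) (Δ : A) {s : ℕ} (b : Fin s → A) (v : Fin s → MvPolynomial κ A)
    (hv : ∀ i, ctr I φ (shift L (v i)) ∈ m)
    (h : ∀ α, coeff α (C Δ - ∑ i, C (b i) * v i) ∈ p) : Δ ∈ p ⊔ m := by
  classical
  have hC : ∀ (c : A) (Q : MvPolynomial κ A), ctr I φ (C c * Q) = c * ctr I φ Q := by
    intro c Q
    simp [ctr, Finset.mul_sum]
  have hadd : ∀ Q Q' : MvPolynomial κ A, ctr I φ (Q + Q') = ctr I φ Q + ctr I φ Q' := by
    intro Q Q'
    simp [ctr, Finset.sum_add_distrib]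
  have hone : ctr I φ (1 : MvPolynomial κ A) = 1 := by
    rw [ctr, Finset.sum_eq_single 0]
    · simp [hφ]
    · intro γ _ hγ
      simp [coeff_one, hγ.symm]
    · intro h; exact absurd h0 h
  have hsh : ∀ c : A, shift L (C c : MvPolynomial κ A) = C c := fun c => by simp [shift]
  set G := C Δ - ∑ i, C (b i) * v i with hG
  have h1 : ctr I φ (shift L G) ∈ p := by
    rw [G.as_sum, map_sum, ctr_sum]
    refine Ideal.sum_mem _ fun α _ => ?_
    rw [show monomial α (coeff α G) = C (coeff α G) * monomial α 1 by simp only [C_mul_monomial, mul_one],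
      map_mul, hsh, hC]
    exact Ideal.mul_mem_right _ _ (h α)
  have h2 : ctr I φ (shift L (∑ i, C (b i) * v i)) ∈ m := by
    rw [map_sum, ctr_sum]
    refine Ideal.sum_mem _ fun i _ => ?_
    rw [map_mul, hsh, hC]
    exact Ideal.mul_mem_left _ _ (hv i)
  have h3 : Δ = ctr I φ (shift L G) + ctr I φ (shift L (∑ i, C (b i) * v i)) := by
    rw [← hadd, ← map_add, hG, sub_add_cancel, hsh, ← mul_one (C Δ), hC, hone, mul_one]
  rw [h3]
  exact Submodule.add_mem_sup h1 h2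

end

section
variable {ι κ : Type} [Fintype ι] [DecidableEq ι] [Fintype κ] [DecidableEq κ]

/-- the arguments of the logarithms -/
noncomputable def uu (a : κ → ι → ℤ) (j : κ) : MvPolynomial ι ℂ := 1 + lin a X j

/-- the lift of `g δ` along the leaves -/
noncomputable def DR (a : κ → ι → ℤ) (δ : Derivation ℂ (MvPolynomial ι ℂ) (MvPolynomial ι ℂ)) :
    MvPolynomial κ (MvPolynomial ι ℂ) → MvPolynomial κ (MvPolynomial ι ℂ) :=
  DD ((∏ j, uu a j) • δ) fun j => (∏ j' ∈ univ.erase j, uu a j') * δ (uu a j)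

/-- the truncated logarithms centred at `ξ` -/
noncomputable def LL (a : κ → ι → ℤ) (ξ : ι → ℂ) (T : ℕ) (j : κ) : MvPolynomial ι ℂ :=
  logT T (C (1 + lin a ξ j)⁻¹ * (uu a j - C (1 + lin a ξ j)))

omit [DecidableEq ι] [Fintype κ] [DecidableEq κ] in
lemma eval_uu (a : κ → ι → ℤ) (ξ : ι → ℂ) (j : κ) : eval ξ (uu a j) = 1 + lin a ξ j := by
  simp [uu, map_lin]

omit [DecidableEq ι] [Fintype κ] [DecidableEq κ] in
lemma uu_deg (a : κ → ι → ℤ) (j : κ) : (uu a j).totalDegree ≤ 1 := by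
  refine (totalDegree_add _ _).trans (max_le (by simp) ?_)
  refine totalDegree_finsetSum_le fun l _ => (totalDegree_mul _ _).trans ?_
  rw [← map_intCast (C : ℂ →+* MvPolynomial ι ℂ), totalDegree_C, totalDegree_X]

omit [DecidableEq ι] [DecidableEq κ] in
lemma prod_uu_deg (a : κ → ι → ℤ) (s : Finset κ) :
    (∏ j ∈ s, uu a j).totalDegree ≤ Fintype.card κ := by
  refine (totalDegree_finsetProd _ _).trans ((Finset.sum_le_card_nsmul _ _ 1
    fun j _ => uu_deg a j).trans ?_)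
  simpa only [smul_eq_mul, mul_one] using Finset.card_le_univ s

omit [DecidableEq ι] in
lemma DR_deg (a : κ → ι → ℤ) (δ : Derivation ℂ (MvPolynomial ι ℂ) (MvPolynomial ι ℂ)) {c T : ℕ}
    (hδ : ∀ f, (δ f).totalDegree ≤ f.totalDegree + c) {Q : MvPolynomial κ (MvPolynomial ι ℂ)}
    (hQ : ∀ α, (coeff α Q).totalDegree ≤ T) (α : κ →₀ ℕ) :
    (coeff α (DR a δ Q)).totalDegree ≤ T + (Fintype.card κ + 1 + c) := by
  rw [DR, coeff_DD]
  refine (totalDegree_add _ _).trans (max_le ?_ (totalDegree_finsetSum_le fun j _ => ?_))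
  · rw [Derivation.smul_apply, smul_eq_mul]
    have h1 := prod_uu_deg a univ
    have h2 := hδ (coeff α Q)
    have h3 := hQ α
    exact (totalDegree_mul _ _).trans (by omega)
  · have h1 := prod_uu_deg a (univ.erase j)
    have h2 := hδ (uu a j)
    have h3 := hQ (α + Finsupp.single j 1)
    have h4 := uu_deg a j
    have h5 : ((α j : MvPolynomial ι ℂ) + 1).totalDegree = 0 := by
      rw [← totalDegree_C (σ := ι) ((α j : ℂ) + 1)]; simp
    have h6 := totalDegree_mul (∏ j' ∈ univ.erase j, uu a j') (δ (uu a j))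
    have h7 := totalDegree_mul (coeff (α + Finsupp.single j 1) Q) ((α j : MvPolynomial ι ℂ) + 1)
    exact (totalDegree_mul _ _).trans (by omega)

omit [DecidableEq ι] in
lemma DR_lower (a : κ → ι → ℤ) (δ : Derivation ℂ (MvPolynomial ι ℂ) (MvPolynomial ι ℂ))
    (ξ : ι → ℂ) (hξ : ∀ j, 1 + lin a ξ j ≠ 0) {T o : ℕ} (hoT : o ≤ T) (I : Finset (κ →₀ ℕ))
    (φ : (κ →₀ ℕ) → ℂ) (Q : MvPolynomial κ (MvPolynomial ι ℂ))
    (hQ : ctr I φ (shift (LL a ξ T) Q) ∈ mx ξ ^ (o + 1)) :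
    ctr I φ (shift (LL a ξ T) (DR a δ Q)) ∈ mx ξ ^ o := by
  refine ctr_DD _ _ _ _ hoT (fun j => ?_) I φ Q hQ
  set u0 := 1 + lin a ξ j with hu0
  set v : MvPolynomial ι ℂ := C u0⁻¹ * (uu a j - C u0) with hv
  have hC : ∀ c : ℂ, δ (C c) = 0 := fun c => δ.map_algebraMap c
  have hinv : (C u0 : MvPolynomial ι ℂ) * C u0⁻¹ = 1 := by
    rw [← C_mul, mul_inv_cancel₀ (hξ j), C_1]
  have h1 := logT_der δ T v
  have h2 : δ v = C u0⁻¹ * δ (uu a j) := by
    rw [hv, Derivation.leibniz, map_sub, hC, hC]; simp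
  have h3 : uu a j * δ (LL a ξ T j) = (1 - (-v) ^ T) * δ (uu a j) := by
    have h4 : uu a j = C u0 * (1 + v) := by
      rw [hv]; linear_combination (-(uu a j - C u0)) * hinv
    change uu a j * δ (logT T v) = _
    rw [h2] at h1
    conv_lhs => rw [h4]
    rw [mul_assoc, h1]
    linear_combination ((1 - (-v) ^ T) * δ (uu a j)) * hinv
  have hvm : -v ∈ mx ξ := by
    rw [mem_mx, hv]; simp [eval_uu, hu0]
  rw [Derivation.smul_apply, smul_eq_mul, ← Finset.mul_prod_erase _ _ (mem_univ j)]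
  have : (∏ j' ∈ univ.erase j, uu a j') * δ (uu a j) -
      (uu a j * ∏ j' ∈ univ.erase j, uu a j') * δ (LL a ξ T j) =
      ((∏ j' ∈ univ.erase j, uu a j') * δ (uu a j)) * (-v) ^ T := by
    linear_combination (-(∏ j' ∈ univ.erase j, uu a j')) * h3
  rw [this]
  exact Ideal.mul_mem_left _ _ (Ideal.pow_mem_pow hvm T)

lemma jet_link (a : κ → ι → ℤ) {k D : ℕ} (p : (ι → Fin k) × (κ → Fin D) → ℤ) (ξ : ι → ℂ)
    (t : ℕ) (I : Finset (κ →₀ ℕ)) (φ : (κ →₀ ℕ) → ℂ)
    (h : ∀ τ : ι →₀ ℕ, τ.degree < t → ∑ γ ∈ I, φ γ * coeff τ (coeff γ (jet a p ξ t)) = 0) :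
    ctr I φ (shift (LL a ξ t) (ev p (fun l => C (X l)) X)) ∈ mx ξ ^ t := by
  set tr : MvPolynomial ι ℂ →ₐ[ℂ] MvPolynomial ι ℂ := aeval fun l => C (ξ l) + X l with htr
  set tb : MvPolynomial ι ℂ →ₐ[ℂ] MvPolynomial ι ℂ := aeval fun l => X l - C (ξ l) with htb
  have hcomp : ∀ f, tb (tr f) = f := by
    intro f
    have : tb.comp tr = AlgHom.id ℂ _ := by
      ext l : 1
      simp [htr, htb]
    exact DFunLike.congr_fun this f
  have hjet : map (tr : MvPolynomial ι ℂ →+* MvPolynomial ι ℂ)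
      (shift (LL a ξ t) (ev p (fun l => C (X l)) X)) = jet a p ξ t := by
    rw [map_ev, map_ev, jet]
    congr 1
    · funext l
      simp only [htr, aeval_eq_bind₁, shift, algHom_C, algebraMap_eq, map_C, RingHom.coe_coe, bind₁_X_right, C_add]
    · funext j
      have : tr (uu a j - C (1 + lin a ξ j)) = lin a X j := by
        simp only [htr, aeval_eq_bind₁, uu, lin, C_add, C_1, map_sum, C_mul, map_intCast, add_sub_add_left_eq_sub, map_sub, map_mul, bind₁_X_right, mul_add, sum_add_distrib, algHom_C, algebraMap_eq, add_sub_cancel_left]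
      have h2 : tr (LL a ξ t j) = logT t (C (1 + lin a ξ j)⁻¹ * lin a X j) := by
        rw [LL, map_logT, map_mul, this, htr, aeval_C, algebraMap_eq]
      simp only [shift, aeval_X, map_add, map_X, map_C, RingHom.coe_coe, h2]
  set f := ctr I φ (shift (LL a ξ t) (ev p (fun l => C (X l)) X)) with hf
  have h1 : tr f ∈ idealOfVars ι ℂ ^ t := by
    rw [mem_pow_idealOfVars_iff']
    intro τ hτ
    rw [← h τ hτ, ← hjet, hf, ctr, map_sum, coeff_sum]
    refine Finset.sum_congr rfl fun γ _ => ?_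
    rw [map_smul, coeff_smul, coeff_map, smul_eq_mul, RingHom.coe_coe]
  have h2 : Ideal.map tb (idealOfVars ι ℂ) ≤ mx ξ := by
    rw [idealOfVars, Ideal.map_span, Ideal.span_le]
    rintro _ ⟨_, ⟨l, rfl⟩, rfl⟩
    simp [mem_mx, htb]
  rw [← hcomp f]
  have h3 := Ideal.mem_map_of_mem tb h1
  rw [Ideal.map_pow] at h3
  exact Ideal.pow_right_mono h2 t h3

omit [DecidableEq ι] in
lemma words_spec (a : κ → ι → ℤ) (P : MvPolynomial κ (MvPolynomial ι ℂ)) {D T m : ℕ}
    (hbox : ∀ α ∈ P.support, ∀ j, α j < D) (hdeg : ∀ α, (coeff α P).totalDegree ≤ T)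
    (hm : ∀ α ∈ P.support, α.degree ≤ m) (L : List ι) :
    (∀ α ∈ (L.foldr (fun l Q => DR a (pderiv l) Q) P).support, ∀ j, α j < D) ∧
    (∀ α, (coeff α (L.foldr (fun l Q => DR a (pderiv l) Q) P)).totalDegree ≤
      T + L.length * (Fintype.card κ + 1)) ∧
    (∀ α ∈ (L.foldr (fun l Q => DR a (pderiv l) Q) P).support, α.degree ≤ m) ∧
    (∀ α : κ →₀ ℕ, α.degree = m → coeff α (L.foldr (fun l Q => DR a (pderiv l) Q) P) =
      L.foldr (fun l h => (∏ j, uu a j) * pderiv l h) (coeff α P)) := by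
  induction L with
  | nil => exact ⟨hbox, by simpa only [List.foldr_nil, List.length_nil, zero_mul, add_zero] using hdeg, hm, fun _ _ => rfl⟩
  | cons l L ih =>
    obtain ⟨h1, h2, h3, h4⟩ := ih
    refine ⟨DD_box _ _ h1, fun α => ?_, (DD_top _ _ h3).1, fun α hα => ?_⟩
    · have := DR_deg a (pderiv l) (c := 0) (fun f => totalDegree_pderiv_le' l f) h2 α
      rw [List.foldr_cons, List.length_cons]
      exact this.trans (le_of_eq (by ring))
    · rw [List.foldr_cons, List.foldr_cons, ← h4 α hα]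
      exact (DD_top _ _ h3).2 α hα

omit [DecidableEq ι] in
lemma words_lower (a : κ → ι → ℤ) (ξ : ι → ℂ) (hξ : ∀ j, 1 + lin a ξ j ≠ 0) {t : ℕ}
    (I : Finset (κ →₀ ℕ)) (φ : (κ →₀ ℕ) → ℂ) (P : MvPolynomial κ (MvPolynomial ι ℂ))
    (hP : ctr I φ (shift (LL a ξ t) P) ∈ mx ξ ^ t)
    (L : List (Derivation ℂ (MvPolynomial ι ℂ) (MvPolynomial ι ℂ))) :
    ctr I φ (shift (LL a ξ t) (L.foldr (fun δ Q => DR a δ Q) P)) ∈ mx ξ ^ (t - L.length) := by
  induction L with
  | nil => simpa using hP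
  | cons δ L ih =>
    rw [List.foldr_cons, List.length_cons]
    rcases Nat.lt_or_ge L.length t with h | h
    · refine DR_lower a δ ξ hξ (by omega) I φ _ ?_
      rwa [show t - (L.length + 1) + 1 = t - L.length by omega]
    · rw [show t - (L.length + 1) = 0 by omega]; simp

omit [DecidableEq κ] in
lemma prod_zpow_split {K : Type*} [Field K] (m : κ → ℤ) (x : κ → K) (hx : ∀ j, x j ≠ 0) :
    (∏ j, x j ^ m j) * ∏ j, x j ^ (-m j).toNat = ∏ j, x j ^ (m j).toNat := by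
  rw [← Finset.prod_mul_distrib]
  refine Finset.prod_congr rfl fun j _ => ?_
  rw [← zpow_natCast, ← zpow_natCast, ← zpow_add₀ (hx j)]
  congr 1
  omega

omit [DecidableEq ι] [DecidableEq κ] in
lemma indep_of_points {F : Type*} [Field F] [Algebra ℂ F] (π : MvPolynomial ι ℂ →ₐ[ℂ] F)
    (a : κ → ι → ℤ) (ξ : ι → ℂ) (hξ : ∀ j, 1 + lin a ξ j ≠ 0) (hp : RingHom.ker π ≤ mx ξ)
    (m : κ → ℤ) (c : ℂ) (h : algebraMap ℂ F c = ∏ j, π (uu a j) ^ m j) :
    ∏ j, (1 + lin a ξ j) ^ m j = c := by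
  have hu : ∀ j, π (uu a j) ≠ 0 := fun j h0 => hξ j (by
    rw [← eval_uu]; exact mem_mx.1 (hp h0))
  have h1 : C c * ∏ j, uu a j ^ (-m j).toNat - ∏ j, uu a j ^ (m j).toNat ∈ RingHom.ker π := by
    rw [RingHom.mem_ker, map_sub, map_mul, map_prod, map_prod, ← algebraMap_eq, AlgHom.commutes, h]
    simp only [map_pow]
    rw [prod_zpow_split m _ hu, sub_self]
  have h2 := mem_mx.1 (hp h1)
  simp only [map_sub, map_mul, map_prod, map_pow, eval_C, eval_uu] at h2
  rw [← prod_zpow_split m _ hξ, ← sub_mul] at h2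
  have h3 : ∏ j, (1 + lin a ξ j) ^ (-m j).toNat ≠ 0 :=
    Finset.prod_ne_zero_iff.2 fun j _ => pow_ne_zero _ (hξ j)
  exact (sub_eq_zero.1 ((mul_eq_zero.1 h2).resolve_right h3)).symm

end

theorem zero_estimate (w : ℕ) {κ : Type} [Fintype κ] [DecidableEq κ] (a : κ → Fin (w + 1) → ℤ)
    (D : ℕ) : ∃ S : ℕ, ∀ ξ : Fin S → Fin (w + 1) → ℂ, Function.Injective ξ →
    (∀ i j, 1 + lin a (ξ i) j ≠ 0) →
    (∀ i i', i ≠ i' → ∀ m : κ → ℤ,
      ∏ j, (1 + lin a (ξ i) j) ^ m j = ∏ j, (1 + lin a (ξ i') j) ^ m j → m = 0) →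
    ∃ c : ℕ, ∀ (k : ℕ) (p : (Fin (w + 1) → Fin k) × (κ → Fin D) → ℤ), p ≠ 0 →
      ∀ t, 2 * (w + 1) * k + c ≤ t → ∀ (I : Finset (κ →₀ ℕ)) (φ : Fin S → (κ →₀ ℕ) → ℂ),
        0 ∈ I → (∀ i, φ i 0 = 1) → ∃ (i : Fin S) (τ : Fin (w + 1) →₀ ℕ), τ.degree < t ∧
          ∑ γ ∈ I, φ i γ * coeff τ (coeff γ (jet a p (ξ i) t)) ≠ 0 := by
  classical
  set n := Fintype.card κ with hn
  set M := D ^ n with hM
  obtain ⟨S, hS⟩ := exists_prime w (2 ^ M * (n + 2)) (Nat.succ_le_of_lt (by positivity))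
  refine ⟨S, fun ξ hinj hne hind => ?_⟩
  obtain ⟨q, Z, hq, hZ, hZ2, hqZ, hΔ, hgrow⟩ := hS (univ.image ξ)
    (by rw [card_image_of_injective _ hinj]; simp only [card_univ, Fintype.card_fin, Std.le_refl])
  obtain ⟨F, _, _, π, hker, hπ⟩ := exists_field q
  have hdep := dep_of_hf π hπ (hker ▸ hgrow)
  obtain ⟨x1, hx1, x2, hx2, hx12⟩ := one_lt_card.1 hZ2
  obtain ⟨i1, -, rfl⟩ := mem_image.1 (hZ hx1)
  obtain ⟨i2, -, rfl⟩ := mem_image.1 (hZ hx2)
  have hq1 : RingHom.ker π ≤ mx (ξ i1) := hker ▸ hqZ _ hx1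
  have hq2 : RingHom.ker π ≤ mx (ξ i2) := hker ▸ hqZ _ hx2
  have hne' : ∃ x : F, x ∉ (algebraMap ℂ F).range := by
    by_contra hcon
    push Not at hcon
    apply hx12
    funext l
    obtain ⟨c, hc⟩ := hcon (π (X l))
    have h0 : X l - C c ∈ RingHom.ker π := by
      rw [RingHom.mem_ker, map_sub, ← hc, ← algebraMap_eq, AlgHom.commutes, sub_self]
    have e1 := mem_mx.1 (hq1 h0)
    have e2 := mem_mx.1 (hq2 h0)
    simp only [map_sub, eval_X, eval_C] at e1 e2
    linear_combination e1 - e2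
  obtain ⟨d, hd⟩ := exists_der π hπ hdep hne'
  have hu0 : ∀ j, π (uu a j) ≠ 0 := fun j h0 => hne i1 j (by
    rw [← eval_uu]; exact mem_mx.1 (hq1 h0))
  have hu : ∀ m : κ → ℤ, ∏ j, π (uu a j) ^ m j ∈ (algebraMap ℂ F).range → m = 0 := by
    rintro m ⟨c, hc⟩
    refine hind i1 i2 (fun h => hx12 (h ▸ rfl)) m ?_
    rw [indep_of_points π a _ (hne i1) hq1 m c hc, indep_of_points π a _ (hne i2) hq2 m c hc]
  -- lift a multiple of `d` to the polynomial ring
  choose f g hg hfg using fun l => hπ (d (π (X l)))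
  set b : F := ∏ l, π (g l) with hb
  have hb0 : b ≠ 0 := Finset.prod_ne_zero_iff.2 fun l _ => hg l
  set A : Fin (w + 1) → MvPolynomial (Fin (w + 1)) ℂ :=
    fun l => f l * ∏ l' ∈ univ.erase l, g l' with hA
  have hAd : ∀ l, π (A l) = b * d (π (X l)) := by
    intro l
    have := hg l
    rw [hfg l, hA, hb, ← Finset.mul_prod_erase _ _ (mem_univ l)]
    simp only [map_mul, map_prod]
    field_simp
  set δ : Derivation ℂ (MvPolynomial (Fin (w + 1)) ℂ) (MvPolynomial (Fin (w + 1)) ℂ) :=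
    ∑ l, A l • pderiv l with hδ
  have hδa : ∀ h, δ h = ∑ l, A l * pderiv l h := by
    intro h
    rw [hδ]
    induction (univ : Finset (Fin (w + 1))) using Finset.induction_on with
    | empty => simp only [sum_empty, Derivation.coe_zero, Pi.zero_apply]
    | insert x s hx ih => simp only [Finset.sum_insert hx, Derivation.coe_add, Derivation.coe_smul, Pi.add_apply, Pi.smul_apply, smul_eq_mul, ih]
  have hδπ : ∀ h, π (δ h) = b * d (π h) := by
    intro h
    induction h using MvPolynomial.induction_on with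
    | C c =>
      rw [← algebraMap_eq, δ.map_algebraMap, AlgHom.commutes, d.map_algebraMap]; simp
    | add p q hp hq => simp only [map_add, hp, hq, mul_add]
    | mul_X p l hp =>
      have : δ (X l) = A l := by
        rw [hδa]; simp [pderiv_X, Pi.single_apply]
      simp only [Derivation.leibniz, map_add, map_mul, smul_eq_mul, hp, this, hAd]
      ring
  set cγ := ∑ l, (A l).totalDegree with hcγ
  have hδdeg : ∀ h, (δ h).totalDegree ≤ h.totalDegree + cγ := by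
    intro h
    rw [hδa]
    refine totalDegree_finsetSum_le fun l _ => (totalDegree_mul _ _).trans ?_
    have e1 := totalDegree_pderiv_le' l h
    have e2 : (A l).totalDegree ≤ cγ :=
      Finset.single_le_sum (f := fun l => (A l).totalDegree) (fun _ _ => Nat.zero_le _) (mem_univ l)
    omega
  set G : F := ∏ j, π (uu a j) with hG
  have hG0 : G ≠ 0 := Finset.prod_ne_zero_iff.2 fun j _ => hu0 j
  set d' : Derivation ℂ F F := (G * b) • d with hd'
  have hd'c : ∀ x, d' x = 0 → x ∈ (algebraMap ℂ F).range := by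
    intro x hx
    rw [hd', Derivation.smul_apply, smul_eq_mul] at hx
    exact hd x ((mul_eq_zero.1 hx).resolve_left (mul_ne_zero hG0 hb0))
  set v' : κ → F := fun j => d' (π (uu a j)) / π (uu a j) with hv'
  have hmap : ∀ Q, map (π : MvPolynomial (Fin (w + 1)) ℂ →+* F) (DR a δ Q) =
      DD d' v' (map (π : MvPolynomial (Fin (w + 1)) ℂ →+* F) Q) := by
    intro Q
    rw [DR, map_DD _ _ d']
    · congr 1
      funext j
      have := hu0 j
      simp only [hv', hd', hG, RingHom.coe_coe, map_mul, map_prod, hδπ, Derivation.smul_apply,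
        smul_eq_mul]
      rw [← Finset.mul_prod_erase _ _ (mem_univ j)]
      field_simp
    · intro h
      simp only [hd', hG, RingHom.coe_coe, map_mul, map_prod, hδπ, Derivation.smul_apply,
        smul_eq_mul]
      ring
  have hko := ko d' hd'c (finite_over π hπ hdep) (fun j => π (uu a j)) hu0 hu
  refine ⟨M + M * (n + 1 + cγ) + 1, fun k p hp t ht I φ h0 hφ => ?_⟩
  by_contra hcon
  push Not at hcon
  have hlink := fun i => jet_link a p (ξ i) t I (φ i) (hcon i)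
  have hP0 := ev_ne_zero hp
  have hPdeg := ev_totalDegree p
  have hPbox := ev_support p (X : Fin (w + 1) → MvPolynomial (Fin (w + 1)) ℂ) (fun _ => 0)
  rw [show (fun j : κ => (X j + C 0 : MvPolynomial κ (MvPolynomial (Fin (w + 1)) ℂ))) = X from
    funext fun j => by rw [map_zero, add_zero]] at hPbox
  rw [Fintype.card_fin] at hPdeg
  generalize (ev p (fun l => C (X l)) X : MvPolynomial κ (MvPolynomial (Fin (w + 1)) ℂ)) = P
    at hlink hP0 hPdeg hPbox
  obtain ⟨κ0, hκ0⟩ : ∃ κ0, κ0 = (w + 1) * k := ⟨_, rfl⟩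
  rw [← hκ0] at hPdeg
  obtain ⟨α0, hα0, hmax⟩ := Finset.exists_max_image P.support (fun α => α.degree)
    (support_nonempty.2 hP0)
  have hgq : (∏ j, uu a j) ∉ q := by
    rw [← hker, RingHom.mem_ker, map_prod]; exact hG0
  obtain ⟨L, hL, hLq⟩ := exists_word q _ hgq κ0 _ (mem_support_iff.1 hα0) (hPdeg α0)
  obtain ⟨w1, w2, -, w4⟩ := words_spec a P hPbox hPdeg hmax L
  set P' := L.foldr (fun l Q => DR a (pderiv l) Q) P with hP'
  have hP'0 : map (π : MvPolynomial (Fin (w + 1)) ℂ →+* F) P' ≠ 0 := by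
    intro h
    apply hLq
    rw [← w4 α0 rfl, ← hker, RingHom.mem_ker]
    simpa [coeff_map] using congrArg (coeff α0) h
  have hone := one_mem_span_iter d' v' hd'c hko D _ hP'0
    (fun α hα => w1 α (support_map_subset _ _ hα))
  have hiter : ∀ s : ℕ, map (π : MvPolynomial (Fin (w + 1)) ℂ →+* F) ((DR a δ)^[s] P') =
      (DD d' v')^[s] (map (π : MvPolynomial (Fin (w + 1)) ℂ →+* F) P') := by
    intro s
    induction s with
    | zero => rfl
    | succ s ih => rw [Function.iterate_succ_apply', Function.iterate_succ_apply', hmap, ih]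
  have hitdeg : ∀ (s : ℕ) α, (coeff α ((DR a δ)^[s] P')).totalDegree ≤
      (n + 2) * κ0 + s * (n + 1 + cγ) := by
    intro s
    induction s with
    | zero =>
      intro α
      have := Nat.mul_le_mul_right (n + 1) hL
      exact (w2 α).trans (by rw [← hn]; linarith only [this])
    | succ s ih =>
      intro α
      rw [Function.iterate_succ_apply']
      exact (DR_deg a δ hδdeg ih α).trans (le_of_eq (by rw [← hn]; ring))
  obtain ⟨Δ, bb, hΔ0, hΔdeg, hΔeq⟩ := gauss (π : MvPolynomial (Fin (w + 1)) ℂ →+* F) M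
    ((n + 2) * κ0 + M * (n + 1 + cγ)) (fun s => (DR a δ)^[s] P') 1
    (fun s α => (hitdeg s α).trans (by gcongr; exact s.2.le))
    (fun α => by
      rw [coeff_one]; split_ifs <;> simp)
    (by simpa only [hiter, map_one] using hone)
  have hmem : ∀ x ∈ Z, Δ ∈ q ⊔ mx x ^ (t - κ0 - M) := by
    intro x hx
    obtain ⟨i, -, rfl⟩ := mem_image.1 (hZ hx)
    refine ctr_shift_comb I (φ i) (LL a (ξ i) t) h0 (hφ i) _ _ Δ bb
      (fun s => (DR a δ)^[s] P') (fun s => ?_) (fun α => ?_)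
    · have e1 := words_lower a (ξ i) (hne i) I (φ i) P (hlink i)
        (List.replicate s δ ++ L.map pderiv)
      have e2 : (List.replicate s δ ++ L.map pderiv).foldr (fun δ Q => DR a δ Q) P =
          (DR a δ)^[s] P' := by
        rw [List.foldr_append, List.foldr_map, ← hP']
        induction (s : ℕ) with
        | zero => rfl
        | succ s ih => rw [List.replicate_succ, List.foldr_cons, ih, Function.iterate_succ_apply']
      rw [e2] at e1
      refine Ideal.pow_le_pow_right ?_ e1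
      have := s.2
      simp only [List.length_append, List.length_replicate, List.length_map]
      omega
    · rw [← hker, RingHom.mem_ker]
      rw [mul_one, ← sub_eq_zero, ← map_sub] at hΔeq
      have := congrArg (coeff α) hΔeq
      rwa [coeff_map, coeff_zero] at this
  have hk2 : 2 * (w + 1) * k = 2 * κ0 := by rw [hκ0]; ring
  have hfin := hΔ Δ (by rw [← hker]; exact hΔ0) (t - κ0 - M) (by omega) hmem
  have e1 : κ0 + M * (n + 1 + cγ) ≤ t - κ0 - M := by omega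
  have e2 : (n + 2) * κ0 + M * (n + 1 + cγ) ≤ (n + 2) * (t - κ0 - M) := by
    refine le_trans ?_ (Nat.mul_le_mul_left _ e1)
    rw [mul_add (n + 2) κ0]
    exact Nat.add_le_add_left (Nat.le_mul_of_pos_left _ (by omega)) _
  have e3 := Nat.mul_le_mul_left (2 ^ M) e2
  rw [← mul_assoc] at e3
  omega

end Pool.Agent.MP_d171e3_nt.H31

end

-- part MP_d171e3_nt.H31.Wn
section

/-! Weighted `ℓ¹` seminorms on polynomial rings. -/

namespace Pool.Agent.MP_d171e3_nt.H31

open MvPolynomial Finset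
open scoped NNReal

section
variable {A : Type*} [CommRing A]

lemma sn_sum_le (ν : RingSeminorm A) {α : Type*} (s : Finset α) (f : α → A) :
    ν (∑ i ∈ s, f i) ≤ ∑ i ∈ s, ν (f i) := by
  classical
  induction s using Finset.induction_on with
  | empty => simp
  | insert a s ha ih =>
    rw [Finset.sum_insert ha, Finset.sum_insert ha]
    exact (map_add_le_add ν _ _).trans (by gcongr)

lemma sn_mul_le (ν : RingSeminorm A) {x y : A} {a b : ℝ} (hx : ν x ≤ a) (hy : ν y ≤ b) :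
    ν (x * y) ≤ a * b :=
  (map_mul_le_mul ν x y).trans
    (mul_le_mul hx hy (apply_nonneg ν y) ((apply_nonneg ν x).trans hx))

lemma sn_prod_le (ν : RingSeminorm A) (h1 : ν 1 ≤ 1) {α : Type*} (s : Finset α) (f : α → A)
    (b : α → ℝ) (h : ∀ i ∈ s, ν (f i) ≤ b i) : ν (∏ i ∈ s, f i) ≤ ∏ i ∈ s, b i := by
  classical
  induction s using Finset.induction_on with
  | empty => simpa only [prod_empty] using h1
  | insert a s ha ih =>
    rw [Finset.prod_insert ha, Finset.prod_insert ha]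
    exact sn_mul_le ν (h a (mem_insert_self _ _)) (ih fun i hi => h i (mem_insert_of_mem hi))

lemma sn_pow_le (ν : RingSeminorm A) (h1 : ν 1 ≤ 1) {x : A} {b : ℝ} (h : ν x ≤ b) (n : ℕ) :
    ν (x ^ n) ≤ b ^ n := by
  simpa only [prod_const, card_range] using sn_prod_le ν h1 (range n) (fun _ => x) (fun _ => b) fun _ _ => h

lemma sn_nat_le (ν : RingSeminorm A) (h1 : ν 1 ≤ 1) (n : ℕ) : ν (n : A) ≤ n := by
  induction n with
  | zero => simp
  | succ n ih => push_cast; exact (map_add_le_add ν _ _).trans (by gcongr)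

lemma sn_int_le (ν : RingSeminorm A) (h1 : ν 1 ≤ 1) (z : ℤ) : ν (z : A) ≤ |(z : ℝ)| := by
  obtain ⟨n, rfl | rfl⟩ := z.eq_nat_or_neg
  · simpa only [Int.cast_natCast, Nat.abs_cast] using sn_nat_le ν h1 n
  · simpa only [Int.cast_neg, Int.cast_natCast, map_neg_eq_map, abs_neg, Nat.abs_cast] using sn_nat_le ν h1 n

lemma sn_lin_le (ν : RingSeminorm A) (h1 : ν 1 ≤ 1) {ι κ : Type*} [Fintype ι] (a : κ → ι → ℤ)
    {x : ι → A} {b : ℝ} (hx : ∀ l, ν (x l) ≤ b) (j : κ) :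
    ν (lin a x j) ≤ (∑ l, |(a j l : ℝ)|) * b := by
  rw [lin, Finset.sum_mul]
  exact (sn_sum_le ν _ _).trans
    (Finset.sum_le_sum fun l _ => sn_mul_le ν (sn_int_le ν h1 _) (hx l))

lemma sn_ev_le (ν : RingSeminorm A) (h1 : ν 1 ≤ 1) {ι κ : Type*} [Fintype ι] [DecidableEq ι]
    [Fintype κ] [DecidableEq κ] {k D : ℕ} (p : (ι → Fin k) × (κ → Fin D) → ℤ) {x : ι → A}
    {y : κ → A} {b : ℝ} (hb : 1 ≤ b) (hx : ∀ l, ν (x l) ≤ 1) (hy : ∀ j, ν (y j) ≤ b) :
    ν (ev p x y) ≤ (∑ z, |(p z : ℝ)|) * b ^ (Fintype.card κ * D) := by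
  rw [ev, Finset.sum_mul]
  refine (sn_sum_le ν _ _).trans (Finset.sum_le_sum fun z _ => sn_mul_le ν (sn_int_le ν h1 _) ?_)
  have e1 := sn_prod_le ν h1 univ (fun l => x l ^ (z.1 l : ℕ)) (fun _ => 1)
    fun l _ => by simpa only [one_pow] using sn_pow_le ν h1 (hx l) (z.1 l : ℕ)
  have e2 := sn_prod_le ν h1 univ (fun j => y j ^ (z.2 j : ℕ)) (fun _ => b ^ D)
    fun j _ => (sn_pow_le ν h1 (hy j) (z.2 j : ℕ)).trans (pow_le_pow_right₀ hb (z.2 j).2.le)
  have := sn_mul_le ν e1 e2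
  simpa only [ge_iff_le, prod_const_one, prod_const, card_univ, ← pow_mul, mul_comm D, one_mul] using this

lemma sn_logT_le [Algebra ℂ A] (ν : RingSeminorm A) (h1 : ν 1 ≤ 1)
    (hs : ∀ (c : ℂ) (x : A), ν (c • x) ≤ ‖c‖ * ν x) {v : A} (hv : ν v ≤ 1 / 2) (T : ℕ) :
    ν (logT T v) ≤ 1 := by
  have h : ∀ s : ℕ, ν (((-1) ^ s / (s + 1) : ℂ) • v ^ (s + 1)) ≤ (1 / 2) ^ (s + 1) := by
    intro s
    refine (hs _ _).trans ?_
    have e1 : ‖((-1) ^ s / (s + 1) : ℂ)‖ ≤ 1 := by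
      rw [norm_div, norm_pow, norm_neg, norm_one, one_pow]
      have : ((s : ℂ) + 1) = ((s + 1 : ℕ) : ℂ) := by push_cast; ring
      rw [this, Complex.norm_natCast]
      apply div_le_one_of_le₀ _ (by positivity)
      exact_mod_cast Nat.succ_le_succ (Nat.zero_le s)
    calc _ ≤ 1 * (1 / 2) ^ (s + 1) :=
          mul_le_mul e1 (sn_pow_le ν h1 hv _) (apply_nonneg ν _) zero_le_one
      _ = _ := one_mul _
  refine (sn_sum_le ν _ _).trans ((Finset.sum_le_sum fun s _ => h s).trans ?_)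
  have : ∀ T : ℕ, ∑ s ∈ range T, (1 / 2 : ℝ) ^ (s + 1) = 1 - (1 / 2) ^ T := by
    intro T
    induction T with
    | zero => simp
    | succ T ih => rw [Finset.sum_range_succ, ih]; ring
  rw [this]
  have : (0 : ℝ) ≤ (1 / 2) ^ T := by positivity
  linarith only [this]

variable {σ : Type*}

/-- the weighted sum of the seminorms of the coefficients -/
noncomputable def wf (ν : RingSeminorm A) (ρ : ℝ≥0) (f : MvPolynomial σ A) : ℝ :=
  ∑ τ ∈ f.support, ν (coeff τ f) * (ρ : ℝ) ^ τ.degree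

lemma sum_le_wf (ν : RingSeminorm A) (ρ : ℝ≥0) (f : MvPolynomial σ A) (I : Finset (σ →₀ ℕ)) :
    ∑ τ ∈ I, ν (coeff τ f) * (ρ : ℝ) ^ τ.degree ≤ wf ν ρ f := by
  classical
  rw [wf, ← Finset.sum_filter_of_ne (p := fun τ => τ ∈ f.support)]
  · exact Finset.sum_le_sum_of_subset_of_nonneg (fun τ h => (mem_filter.1 h).2)
      fun τ _ _ => by have := apply_nonneg ν (coeff τ f); positivity
  · intro τ _ h
    rw [mem_support_iff]
    intro h0
    simp [h0] at h

lemma wf_eq (ν : RingSeminorm A) (ρ : ℝ≥0) (f : MvPolynomial σ A) {I : Finset (σ →₀ ℕ)}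
    (h : f.support ⊆ I) : wf ν ρ f = ∑ τ ∈ I, ν (coeff τ f) * (ρ : ℝ) ^ τ.degree := by
  refine Finset.sum_subset h fun τ _ hτ => ?_
  simp [notMem_support_iff.1 hτ]

lemma wf_add_le (ν : RingSeminorm A) (ρ : ℝ≥0) (f g : MvPolynomial σ A) :
    wf ν ρ (f + g) ≤ wf ν ρ f + wf ν ρ g := by
  refine le_trans ?_ (add_le_add (sum_le_wf ν ρ f (f + g).support) (sum_le_wf ν ρ g (f + g).support))
  rw [wf, ← Finset.sum_add_distrib]
  refine Finset.sum_le_sum fun τ _ => ?_
  rw [← add_mul, coeff_add]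
  exact mul_le_mul_of_nonneg_right (map_add_le_add ν _ _) (by positivity)

lemma wf_monomial (ν : RingSeminorm A) (ρ : ℝ≥0) (τ : σ →₀ ℕ) (c : A) :
    wf ν ρ (monomial τ c) = ν c * (ρ : ℝ) ^ τ.degree := by
  classical
  rw [wf_eq ν ρ _ support_monomial_subset]
  simp

lemma wf_sum_le (ν : RingSeminorm A) (ρ : ℝ≥0) {α : Type*} (s : Finset α)
    (f : α → MvPolynomial σ A) : wf ν ρ (∑ i ∈ s, f i) ≤ ∑ i ∈ s, wf ν ρ (f i) := by
  classical
  induction s using Finset.induction_on with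
  | empty => simp [wf]
  | insert a s ha ih =>
    rw [Finset.sum_insert ha, Finset.sum_insert ha]
    exact (wf_add_le ν ρ _ _).trans (by gcongr)

lemma wf_mul_le (ν : RingSeminorm A) (ρ : ℝ≥0) (f g : MvPolynomial σ A) :
    wf ν ρ (f * g) ≤ wf ν ρ f * wf ν ρ g := by
  conv_lhs => rw [f.as_sum, g.as_sum, Finset.sum_mul_sum]
  refine (wf_sum_le ν ρ _ _).trans ?_
  rw [wf, wf, Finset.sum_mul_sum]
  refine Finset.sum_le_sum fun τ _ => (wf_sum_le ν ρ _ _).trans (Finset.sum_le_sum fun τ' _ => ?_)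
  rw [monomial_mul, wf_monomial, map_add, pow_add, mul_mul_mul_comm]
  exact mul_le_mul_of_nonneg_right (map_mul_le_mul ν _ _) (by positivity)

/-- the weighted `ℓ¹` seminorm -/
noncomputable def wn (ν : RingSeminorm A) (ρ : ℝ≥0) : RingSeminorm (MvPolynomial σ A) where
  toFun := wf ν ρ
  map_zero' := by simp [wf]
  add_le' := wf_add_le ν ρ
  neg' f := by simp [wf]
  mul_le' := wf_mul_le ν ρ

lemma wn_apply (ν : RingSeminorm A) (ρ : ℝ≥0) (f : MvPolynomial σ A) :
    wn ν ρ f = ∑ τ ∈ f.support, ν (coeff τ f) * (ρ : ℝ) ^ τ.degree := rfl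

lemma sum_le_wn (ν : RingSeminorm A) (ρ : ℝ≥0) (f : MvPolynomial σ A) (I : Finset (σ →₀ ℕ)) :
    ∑ τ ∈ I, ν (coeff τ f) * (ρ : ℝ) ^ τ.degree ≤ wn ν ρ f := sum_le_wf ν ρ f I

lemma coeff_le_wn (ν : RingSeminorm A) (ρ : ℝ≥0) (f : MvPolynomial σ A) (τ : σ →₀ ℕ) :
    ν (coeff τ f) * (ρ : ℝ) ^ τ.degree ≤ wn ν ρ f := by
  simpa only [sum_singleton] using sum_le_wn ν ρ f {τ}

lemma wn_monomial (ν : RingSeminorm A) (ρ : ℝ≥0) (τ : σ →₀ ℕ) (c : A) :
    wn ν ρ (monomial τ c) = ν c * (ρ : ℝ) ^ τ.degree := wf_monomial ν ρ τ c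

lemma wn_C (ν : RingSeminorm A) (ρ : ℝ≥0) (c : A) : wn ν ρ (C c : MvPolynomial σ A) = ν c := by
  rw [C_apply, wn_monomial]; simp

lemma wn_one (ν : RingSeminorm A) (ρ : ℝ≥0) : wn ν ρ (1 : MvPolynomial σ A) = ν 1 := by
  rw [← C_1, wn_C]

lemma wn_X (ν : RingSeminorm A) (ρ : ℝ≥0) (i : σ) :
    wn ν ρ (X i : MvPolynomial σ A) = ν 1 * ρ := by
  rw [X, wn_monomial]; simp only [Finsupp.degree_single, pow_one]

end

/-- weighted `ℓ¹` norm on complex polynomials -/
noncomputable def N1 {σ : Type*} (ρ : ℝ≥0) : RingSeminorm (MvPolynomial σ ℂ) :=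
  wn (normRingSeminorm ℂ) ρ

section
variable {σ : Type*} (ρ : ℝ≥0)

lemma N1_apply (f : MvPolynomial σ ℂ) :
    N1 ρ f = ∑ τ ∈ f.support, ‖coeff τ f‖ * (ρ : ℝ) ^ τ.degree := rfl

lemma coeff_le_N1 (f : MvPolynomial σ ℂ) (τ : σ →₀ ℕ) :
    ‖coeff τ f‖ * (ρ : ℝ) ^ τ.degree ≤ N1 ρ f := coeff_le_wn (normRingSeminorm ℂ) ρ f τ

lemma N1_C (c : ℂ) : N1 ρ (C c : MvPolynomial σ ℂ) = ‖c‖ := wn_C _ ρ c

lemma N1_one : N1 ρ (1 : MvPolynomial σ ℂ) = 1 := by rw [← C_1, N1_C, norm_one]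

lemma N1_X (i : σ) : N1 ρ (X i : MvPolynomial σ ℂ) = ρ := by
  rw [N1, wn_X]
  change ‖(1 : ℂ)‖ * _ = _
  simp

lemma N1_smul (c : ℂ) (f : MvPolynomial σ ℂ) : N1 ρ (c • f) ≤ ‖c‖ * N1 ρ f := by
  rw [smul_eq_C_mul, ← N1_C (σ := σ) ρ c]
  exact map_mul_le_mul _ _ _

lemma N1_logT_le {v : MvPolynomial σ ℂ} (hv : N1 ρ v ≤ 1 / 2) (T : ℕ) : N1 ρ (logT T v) ≤ 1 :=
  sn_logT_le _ (N1_one ρ).le (N1_smul ρ) hv T

end

end Pool.Agent.MP_d171e3_nt.H31

end

-- part MP_d171e3_nt.H31.Integral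
section

/-! Denominators. -/

namespace Pool.Agent.MP_d171e3_nt.H31

open MvPolynomial Finset

variable {ι κ : Type*} [Fintype ι] [DecidableEq ι] [Fintype κ] [DecidableEq κ]

/-- polynomials whose coefficients lie in `S` after multiplication by `Q ^ degree` -/
def integral_ZS {σ A : Type*} [CommRing A] (S : Subring A) (Q : A) :
    Subring (MvPolynomial σ A) where
  carrier := {f | ∀ τ : σ →₀ ℕ, Q ^ τ.degree * coeff τ f ∈ S}
  mul_mem' := by
    classical
    intro f g hf hg τ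
    rw [coeff_mul, Finset.mul_sum]
    refine S.sum_mem fun x hx => ?_
    have e : x.1 + x.2 = τ := Finset.HasAntidiagonal.mem_antidiagonal.1 hx
    have e2 : Q ^ τ.degree * (coeff x.1 f * coeff x.2 g) =
        (Q ^ x.1.degree * coeff x.1 f) * (Q ^ x.2.degree * coeff x.2 g) := by
      rw [← e, map_add, pow_add]
      ring
    rw [e2]
    exact S.mul_mem (hf _) (hg _)
  one_mem' := by
    classical
    intro τ
    rw [coeff_one]
    split_ifs with h
    · rw [← h, map_zero, pow_zero, one_mul]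
      exact S.one_mem
    · rw [mul_zero]
      exact S.zero_mem
  add_mem' := by
    intro f g hf hg τ
    rw [coeff_add, mul_add]
    exact S.add_mem (hf _) (hg _)
  zero_mem' := by
    intro τ
    rw [coeff_zero, mul_zero]
    exact S.zero_mem
  neg_mem' := by
    intro f hf τ
    rw [coeff_neg, mul_neg]
    exact S.neg_mem (hf _)

lemma integral_C_mem {σ A : Type*} [CommRing A] {S : Subring A} (Q : A) {c : A} (hc : c ∈ S) :
    (C c : MvPolynomial σ A) ∈ integral_ZS S Q := by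
  classical
  intro τ
  rw [coeff_C]
  split_ifs with h
  · rw [← h, map_zero, pow_zero, one_mul]
    exact hc
  · rw [mul_zero]
    exact S.zero_mem

lemma integral_CX_mem {σ A : Type*} [CommRing A] {S : Subring A} {Q c : A} (hc : Q * c ∈ S)
    (l : σ) : (C c * X l : MvPolynomial σ A) ∈ integral_ZS S Q := by
  classical
  intro τ
  rw [coeff_C_mul, coeff_X]
  split_ifs with h
  · rw [← h, Finsupp.degree_single, pow_one, mul_one]
    exact hc
  · rw [mul_zero, mul_zero]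
    exact S.zero_mem

lemma integral_logT_mem {A : Type*} [CommRing A] [Algebra ℂ A] {S : Subring A} (T : ℕ) {v : A}
    (hv : v ∈ S) : (Nat.lcmUpto T : A) * logT T v ∈ S := by
  rw [logT, Finset.mul_sum]
  refine S.sum_mem fun s hs => ?_
  have hd : s + 1 ∣ Nat.lcmUpto T := by
    refine Finset.dvd_lcm (f := id) (b := s + 1) ?_
    have := Finset.mem_range.1 hs
    exact Finset.mem_Icc.2 ⟨by omega, by omega⟩
  obtain ⟨m, hm⟩ := hd
  have h0 : ((s : ℂ) + 1) ≠ 0 := by exact_mod_cast Nat.succ_ne_zero s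
  have e : (Nat.lcmUpto T : A) * (((-1) ^ s / (s + 1) : ℂ) • v ^ (s + 1)) =
      ((-1) ^ s * (m : A)) * v ^ (s + 1) := by
    have e1 : (Nat.lcmUpto T : ℂ) * ((-1) ^ s / (s + 1)) = (-1) ^ s * (m : ℂ) := by
      rw [hm]
      push_cast
      field_simp
    rw [Algebra.smul_def, ← mul_assoc, ← map_natCast (algebraMap ℂ A), ← map_mul, e1]
    simp only [map_mul, map_pow, map_neg, map_one, map_natCast]
  rw [e]
  exact S.mul_mem (S.mul_mem (S.pow_mem (S.neg_mem S.one_mem) _) (natCast_mem S m))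
    (S.pow_mem hv _)

lemma integral_prod_mem {σ A : Type*} [Fintype σ] [CommRing A] {S : Subring A} (u : ℕ)
    {x : σ → A} (hx : ∀ l, (u : A) * x l ∈ S) {k : ℕ} {e : σ → ℕ} (he : ∀ l, e l ≤ k) :
    (u : A) ^ (Fintype.card σ * k) * ∏ l, x l ^ e l ∈ S := by
  have e1 : (u : A) ^ (Fintype.card σ * k) * ∏ l, x l ^ e l =
      ∏ l, ((u : A) ^ (k - e l) * ((u : A) * x l) ^ e l) := by
    rw [mul_comm (Fintype.card σ), pow_mul, ← Finset.card_univ, ← Finset.prod_const,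
      ← Finset.prod_mul_distrib]
    refine Finset.prod_congr rfl fun l _ => ?_
    rw [mul_pow, ← mul_assoc, ← pow_add, Nat.sub_add_cancel (he l)]
  rw [e1]
  exact S.prod_mem fun l _ => S.mul_mem (S.pow_mem (natCast_mem S u) _) (S.pow_mem (hx l) _)

lemma integral_ev_mem {A : Type*} [CommRing A] {S : Subring A} {k D : ℕ}
    (p : (ι → Fin k) × (κ → Fin D) → ℤ) (u w : ℕ) {x : ι → A} {y : κ → A}
    (hx : ∀ l, (u : A) * x l ∈ S) (hy : ∀ j, (w : A) * y j ∈ S) :
    (u : A) ^ (Fintype.card ι * k) * (w : A) ^ (Fintype.card κ * D) * ev p x y ∈ S := by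
  rw [ev, Finset.mul_sum]
  refine S.sum_mem fun z _ => ?_
  have h1 := integral_prod_mem u hx (k := k) (e := fun l => (z.1 l : ℕ)) fun l => (z.1 l).2.le
  have h2 := integral_prod_mem w hy (k := D) (e := fun j => (z.2 j : ℕ)) fun j => (z.2 j).2.le
  have h3 := S.mul_mem (intCast_mem S (p z)) (S.mul_mem h1 h2)
  convert h3 using 1
  ring

omit [DecidableEq ι] [Fintype κ] [DecidableEq κ] in
lemma integral_lin_mem {S : Subring ℂ} {Q c : ℂ} (hc : Q * c ∈ S) (a : κ → ι → ℤ) (j : κ) :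
    (C c * lin a X j : MvPolynomial ι ℂ) ∈ integral_ZS S Q := by
  rw [lin, Finset.mul_sum]
  refine Subring.sum_mem _ fun l _ => ?_
  rw [mul_left_comm]
  exact Subring.mul_mem _ (intCast_mem _ _) (integral_CX_mem hc l)

/-- Plan: for `Q : ℂ` the polynomials `f` with `Q ^ τ.degree * coeff τ f ∈ ℤ` for all `τ` form a
subring `Z1 Q` of `MvPolynomial ι ℂ` (`coeff_mul`); for a subring `S` of `A` the polynomials with
all coefficients in `S` form a subring of `MvPolynomial κ A`. With `Q = ∏ q j`: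
`q0 * (C (b l / q0) + X l) = b l + q0 * X l ∈ Z1 Q`; `1 + lin a ξ j = q j / q0`, so
`v j = C (q0 / q j) * lin a X j ∈ Z1 Q` (`C (Q⁻¹) * X l ∈ Z1 Q`, `Q / q j` is an integer);
`lcmUpto T * logT T v ∈ Z1 Q` (`s + 1 ∣ lcmUpto T`, `Finset.dvd_lcm`). Distribute the powers over
the products in `ev` (exponents `< k`, `< D`; the missing powers are integers). -/
theorem jet_integral (a : κ → ι → ℤ) {k D : ℕ} (p : (ι → Fin k) × (κ → Fin D) → ℤ) (q0 : ℕ)
    (q : κ → ℕ) (b : ι → ℤ) (hq0 : q0 ≠ 0) (hq : ∀ j, q j ≠ 0)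
    (h : ∀ j, (q j : ℤ) = q0 + lin a b j) (T : ℕ) (τ : ι →₀ ℕ) (γ : κ →₀ ℕ) :
    ∃ z : ℤ, (z : ℂ) = (q0 : ℂ) ^ (Fintype.card ι * k) *
      (Nat.lcmUpto T : ℂ) ^ (Fintype.card κ * D) * (∏ j, (q j : ℂ)) ^ τ.degree *
        coeff τ (coeff γ (jet a p (fun l => (b l : ℂ) / q0) T)) := by
  set Q : ℂ := ∏ j, (q j : ℂ) with hQ
  have hq0' : (q0 : ℂ) ≠ 0 := by exact_mod_cast hq0
  have hQm : Q ∈ (Int.castRingHom ℂ).range :=
    Subring.prod_mem _ fun j _ => natCast_mem _ _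
  have hx : ∀ l, ((q0 : ℕ) : MvPolynomial κ (MvPolynomial ι ℂ)) *
      C (C ((b l : ℂ) / q0) + X l) ∈
        integral_ZS (integral_ZS (Int.castRingHom ℂ).range Q) 1 := by
    intro l
    rw [← map_natCast (C : MvPolynomial ι ℂ →+* _), ← map_mul]
    refine integral_C_mem _ ?_
    rw [← map_natCast (C : ℂ →+* MvPolynomial ι ℂ), mul_add, ← map_mul, mul_div_cancel₀ _ hq0']
    exact Subring.add_mem _ (integral_C_mem _ (intCast_mem _ _))
      (integral_CX_mem (Subring.mul_mem _ hQm (natCast_mem _ _)) l)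
  have hy : ∀ j, ((Nat.lcmUpto T : ℕ) : MvPolynomial κ (MvPolynomial ι ℂ)) *
      (X j + C (logT T (C (1 + lin a (fun l => (b l : ℂ) / q0) j)⁻¹ * lin a X j))) ∈
        integral_ZS (integral_ZS (Int.castRingHom ℂ).range Q) 1 := by
    intro j
    rw [← map_natCast (C : MvPolynomial ι ℂ →+* _), mul_add, ← map_mul]
    refine Subring.add_mem _ (integral_CX_mem ?_ j)
      (integral_C_mem _ (integral_logT_mem T (integral_lin_mem ?_ a j)))
    · rw [one_mul]
      exact natCast_mem _ _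
    · have hj : (q j : ℂ) ≠ 0 := by exact_mod_cast hq j
      have h1 : (q j : ℂ) = q0 + ∑ l, (a j l : ℂ) * b l := by
        have := congrArg (Int.cast : ℤ → ℂ) (h j)
        simpa only [Int.cast_natCast, lin, Int.cast_eq, Int.cast_add, Int.cast_sum, Int.cast_mul] using this
      have h2 : 1 + lin a (fun l => (b l : ℂ) / q0) j = (q j : ℂ) / q0 := by
        rw [h1, lin, add_div, div_self hq0', Finset.sum_div]
        simp only [mul_div_assoc]
      rw [h2, inv_div, hQ, ← Finset.mul_prod_erase _ _ (Finset.mem_univ j), mul_right_comm,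
        mul_div_cancel₀ _ hj]
      exact Subring.mul_mem _ (natCast_mem _ _) (Subring.prod_mem _ fun i _ => natCast_mem _ _)
  have h3 := integral_ev_mem p q0 (Nat.lcmUpto T) hx hy γ
  rw [one_pow, one_mul, ← Nat.cast_pow, ← Nat.cast_pow, ← Nat.cast_mul,
    ← map_natCast (C : MvPolynomial ι ℂ →+* _), coeff_C_mul] at h3
  have h4 := h3 τ
  rw [← map_natCast (C : ℂ →+* MvPolynomial ι ℂ), coeff_C_mul] at h4
  obtain ⟨z, hz⟩ := h4
  refine ⟨z, ?_⟩
  rw [eq_intCast] at hz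
  rw [hz, jet]
  push_cast
  ring

/-- the same at the origin, for one monomial (reuse `Z1 1`). -/
theorem mono_integral (a : κ → ι → ℤ) {D : ℕ} (β : ι → ℕ) (α : κ → ℕ) (hα : ∀ j, α j ≤ D)
    (T : ℕ) (τ : ι →₀ ℕ) :
    ∃ z : ℤ, (z : ℂ) = (Nat.lcmUpto T : ℂ) ^ (Fintype.card κ * D) *
      coeff τ ((∏ l, (X l : MvPolynomial ι ℂ) ^ β l) * ∏ j, logT T (lin a X j) ^ α j) := by
  have hX : ∀ l, ((1 : ℕ) : MvPolynomial ι ℂ) * X l ∈
      integral_ZS (Int.castRingHom ℂ).range 1 := by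
    intro l
    rw [← map_natCast (C : ℂ →+* MvPolynomial ι ℂ)]
    exact integral_CX_mem (Subring.mul_mem _ (Subring.one_mem _) (natCast_mem _ _)) l
  have h1 : (∏ l, (X l : MvPolynomial ι ℂ) ^ β l) ∈ integral_ZS (Int.castRingHom ℂ).range 1 :=
    Subring.prod_mem _ fun l _ => Subring.pow_mem _ (by simpa using hX l) _
  have h2 : ∀ j, ((Nat.lcmUpto T : ℕ) : MvPolynomial ι ℂ) * logT T (lin a X j) ∈
      integral_ZS (Int.castRingHom ℂ).range 1 := by
    intro j
    refine integral_logT_mem T ?_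
    have := integral_lin_mem (S := (Int.castRingHom ℂ).range) (Q := 1) (c := 1)
      (Subring.mul_mem _ (Subring.one_mem _) (Subring.one_mem _)) a j
    rwa [map_one, one_mul] at this
  have h3 := Subring.mul_mem _ h1 (integral_prod_mem (Nat.lcmUpto T) h2 hα) τ
  rw [one_pow, one_mul, mul_left_comm, ← Nat.cast_pow,
    ← map_natCast (C : ℂ →+* MvPolynomial ι ℂ), coeff_C_mul] at h3
  obtain ⟨z, hz⟩ := h3
  refine ⟨z, ?_⟩
  rw [eq_intCast] at hz
  rw [hz]
  push_cast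
  ring

end Pool.Agent.MP_d171e3_nt.H31

end

-- part MP_d171e3_nt.H31.Siegel
section

/-! The auxiliary polynomial. -/

namespace Pool.Agent.MP_d171e3_nt.H31

open MvPolynomial Finset

variable {ι κ : Type*} [Fintype ι] [DecidableEq ι] [Fintype κ] [DecidableEq κ]

theorem lcm_le (n : ℕ) : Nat.lcmUpto n ≤ 256 ^ n := by
  have h1 := Chebyshev.psi_le_const_mul_self (x := n) (Nat.cast_nonneg n)
  rw [Chebyshev.psi_eq_log_lcmUpto] at h1
  have h2 : Real.log 4 + 4 ≤ Real.log 256 := by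
    have h3 : Real.log 256 = Real.log 4 + 6 * Real.log 2 := by
      rw [show (256 : ℝ) = 4 * 2 ^ 6 by norm_num, Real.log_mul (by norm_num) (by norm_num),
        Real.log_pow]; norm_num
    have := Real.log_two_gt_d9
    rw [h3]; linarith only [this]
  have h4 : Real.log (Nat.lcmUpto n) ≤ Real.log (256 ^ n) := by
    rw [Real.log_pow]
    have : (0 : ℝ) ≤ n := Nat.cast_nonneg n
    nlinarith only [h1, h2]
  have h5 : (0 : ℝ) < Nat.lcmUpto n := by exact_mod_cast Nat.lcmUpto_pos n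
  have := (Real.log_le_log_iff h5 (by positivity)).1 h4
  exact_mod_cast this

omit [DecidableEq ι] [DecidableEq κ] in
/-- size of the coefficients of one monomial -/
lemma siegel_coeff (a : κ → ι → ℤ) (β : ι → ℕ) (α : κ → ℕ) (T : ℕ) (τ : ι →₀ ℕ) :
    ‖coeff τ ((∏ l, (X l : MvPolynomial ι ℂ) ^ β l) * ∏ j, logT T (lin a X j) ^ α j)‖ ≤
      (2 * ((∑ j, ∑ l, |(a j l : ℝ)|) + 1)) ^ τ.degree := by
  set H : ℝ := ∑ j, ∑ l, |(a j l : ℝ)| with hH
  have H0 : 0 ≤ H := by positivity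
  let ρ : NNReal := ⟨(2 * (H + 1))⁻¹, by positivity⟩
  have hρ : (ρ : ℝ) = (2 * (H + 1))⁻¹ := rfl
  have h1 : N1 ρ (1 : MvPolynomial ι ℂ) ≤ 1 := (N1_one ρ).le
  have hX : ∀ l, N1 ρ (X l : MvPolynomial ι ℂ) ≤ 1 := fun l => by
    rw [N1_X, hρ]; exact inv_le_one_of_one_le₀ (by linarith only [H0])
  have hv : ∀ j, N1 ρ (lin a X j : MvPolynomial ι ℂ) ≤ 1 / 2 := fun j => by
    refine (sn_lin_le (N1 ρ) h1 a (fun l => (N1_X ρ l).le) j).trans ?_
    have : ∑ l, |(a j l : ℝ)| ≤ H :=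
      Finset.single_le_sum (f := fun j => ∑ l, |(a j l : ℝ)|) (fun _ _ => by positivity)
        (mem_univ j)
    rw [hρ, ← div_eq_mul_inv, div_le_iff₀ (by positivity)]
    linarith only [this]
  have e1 := sn_prod_le (N1 ρ) h1 univ (fun l => (X l : MvPolynomial ι ℂ) ^ β l) (fun _ => 1)
    fun l _ => by simpa only [one_pow] using sn_pow_le (N1 ρ) h1 (hX l) (β l)
  have e2 := sn_prod_le (N1 ρ) h1 univ
    (fun j => logT T (lin a X j : MvPolynomial ι ℂ) ^ α j) (fun _ => 1)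
    fun j _ => by simpa only [one_pow] using sn_pow_le (N1 ρ) h1 (N1_logT_le ρ (hv j) T) (α j)
  have e3 := (coeff_le_N1 ρ _ τ).trans (sn_mul_le (N1 ρ) e1 e2)
  rw [hρ, inv_pow, ← div_eq_mul_inv, div_le_iff₀ (by positivity)] at e3
  simpa only [ge_iff_le, prod_const_one, mul_one, one_mul] using e3

omit [Fintype ι] [DecidableEq ι] in
lemma siegel_tail {v : MvPolynomial ι ℂ} (hv : v ∈ idealOfVars ι ℂ) {J T : ℕ} (h : J ≤ T) :
    logT T v - logT J v ∈ idealOfVars ι ℂ ^ J := by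
  obtain ⟨d, rfl⟩ := Nat.exists_eq_add_of_le h
  rw [logT, logT, Finset.sum_range_add, add_sub_cancel_left]
  refine Ideal.sum_mem _ fun s _ => ?_
  rw [smul_eq_C_mul]
  exact Ideal.mul_mem_left _ _
    (Ideal.pow_le_pow_right (by omega) (Ideal.pow_mem_pow hv (J + s + 1)))

open scoped Matrix.Norms.Elementwise in
theorem exists_aux (a : κ → ι → ℤ) (D E : ℕ) (hE : 1 ≤ E)
    (h : 2 * E ^ Fintype.card ι ≤ D ^ Fintype.card κ) :
    ∃ c : ℝ, 1 ≤ c ∧ ∀ k : ℕ, 1 ≤ k → ∃ p : (ι → Fin k) × (κ → Fin D) → ℤ, p ≠ 0 ∧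
      ∑ z, |(p z : ℝ)| ≤ c ^ k ∧ ∀ T, E * k ≤ T →
        ev p X (fun j => logT T (lin a X j)) ∈ idealOfVars ι ℂ ^ (E * k) := by
  set w := Fintype.card ι with hw
  set n := Fintype.card κ with hn
  set H : ℝ := 2 * ((∑ j, ∑ l, |(a j l : ℝ)|) + 1) with hH
  have H1 : 1 ≤ H := by
    have : (0 : ℝ) ≤ ∑ j, ∑ l, |(a j l : ℝ)| := by positivity
    linarith only [this]
  have hD : 1 ≤ D ^ n := le_trans (by have := Nat.one_le_pow w E hE; omega) h
  have hD' : (1 : ℝ) ≤ (D : ℝ) ^ n := by exact_mod_cast hD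
  have hR1 : (1 : ℝ) ≤ 256 ^ (n * D) * H ^ w :=
    one_le_mul_of_one_le_of_one_le (one_le_pow₀ (by norm_num)) (one_le_pow₀ H1)
  have hN1 : (1 : ℝ) ≤ 2 ^ w * (D : ℝ) ^ n :=
    one_le_mul_of_one_le_of_one_le (one_le_pow₀ (by norm_num)) hD'
  refine ⟨(2 ^ w * (D : ℝ) ^ n) ^ 2 * (256 ^ (n * D) * H ^ w) ^ E,
    one_le_mul_of_one_le_of_one_le (one_le_pow₀ hN1) (one_le_pow₀ hR1), fun k hk => ?_⟩
  set J := E * k with hJ
  have hJ1 : 1 ≤ J := Nat.mul_pos hE hk
  let τ : (ι → Fin J) → (ι →₀ ℕ) := fun s => Finsupp.equivFunOnFinite.symm fun l => (s l : ℕ)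
  have hτ : ∀ s, (τ s).degree ≤ w * J := fun s => by
    rw [Finsupp.degree_eq_sum]
    calc ∑ l, τ s l ≤ ∑ _l : ι, J := Finset.sum_le_sum fun l _ => (s l).2.le
      _ = w * J := by simp only [sum_const, card_univ, smul_eq_mul, hw]
  choose A hA using fun (s : ι → Fin J) (z : (ι → Fin k) × (κ → Fin D)) =>
    mono_integral a (D := D) (fun l => (z.1 l : ℕ)) (fun j => (z.2 j : ℕ))
      (fun j => (z.2 j).2.le) J (τ s)
  have c1 : Fintype.card (ι → Fin J) = J ^ w := by simp only [Fintype.card_pi, Fintype.card_fin, prod_const, card_univ, hw]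
  have c2 : Fintype.card ((ι → Fin k) × (κ → Fin D)) = k ^ w * D ^ n := by simp only [Fintype.card_prod, Fintype.card_pi, Fintype.card_fin, prod_const, card_univ, hw, hn]
  have c3 : 2 * J ^ w ≤ k ^ w * D ^ n := by
    rw [hJ, mul_pow]
    calc 2 * (E ^ w * k ^ w) = k ^ w * (2 * E ^ w) := by ring
      _ ≤ _ := Nat.mul_le_mul_left _ h
  have c4 : 0 < J ^ w := Nat.pow_pos hJ1
  obtain ⟨p, hp0, hp1, hp2⟩ := Int.Matrix.exists_ne_zero_int_vec_norm_le (Matrix.of A)
    (by rw [c1, c2]; omega) (by rw [c1]; exact c4)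
  set R : ℝ := (256 ^ (n * D) * H ^ w) ^ J with hR
  have R1 : 1 ≤ R := one_le_pow₀ hR1
  have hAR : ‖Matrix.of A‖ ≤ R := by
    rw [Matrix.norm_le_iff (by linarith only [R1])]
    intro s z
    have e : ‖Matrix.of A s z‖ = ‖((A s z : ℤ) : ℂ)‖ := by simp [Int.norm_eq_abs]
    rw [e, hA, norm_mul, norm_pow, Complex.norm_natCast, hR, mul_pow, ← pow_mul, ← pow_mul,
      mul_comm (n * D) J, pow_mul (256 : ℝ) J, mul_comm w J, mul_comm J w]
    have e1 : (Nat.lcmUpto J : ℝ) ≤ 256 ^ J := by exact_mod_cast lcm_le J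
    have e2 := (siegel_coeff a (fun l => (z.1 l : ℕ)) (fun j => (z.2 j : ℕ)) J (τ s)).trans
      (pow_le_pow_right₀ H1 (hτ s))
    exact mul_le_mul (pow_le_pow_left₀ (Nat.cast_nonneg _) e1 _) e2 (norm_nonneg _)
      (by positivity)
  set N : ℝ := ((k ^ w * D ^ n : ℕ) : ℝ) with hN
  have c3' : 2 * ((J ^ w : ℕ) : ℝ) ≤ N := by rw [hN]; exact_mod_cast c3
  have c4' : (1 : ℝ) ≤ ((J ^ w : ℕ) : ℝ) := by exact_mod_cast c4
  have hNk : N ≤ (2 ^ w * (D : ℝ) ^ n) ^ k := by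
    rw [hN, mul_pow, ← pow_mul, mul_comm w k, pow_mul]
    push_cast
    refine mul_le_mul (pow_le_pow_left₀ (by positivity) ?_ _)
      (le_self_pow₀ hD' (by omega)) (by positivity) (by positivity)
    exact_mod_cast (Nat.lt_two_pow_self).le
  have hp3 : ‖p‖ ≤ N * R := by
    rw [c1, c2] at hp2
    refine hp2.trans ?_
    have b1 : 1 ≤ N * max 1 ‖Matrix.of A‖ :=
      one_le_mul_of_one_le_of_one_le (by linarith only [c3', c4']) (le_max_left _ _)
    refine (Real.rpow_le_rpow_of_exponent_le b1 (z := 1) ?_).trans ?_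
    · rw [div_le_one (by linarith only [c3', c4'])]; linarith only [c3']
    · rw [Real.rpow_one]
      exact mul_le_mul_of_nonneg_left (max_le R1 hAR) (by linarith only [c3', c4'])
  refine ⟨p, hp0, ?_, fun T hT => ?_⟩
  · calc ∑ z, |(p z : ℝ)| ≤ ∑ _z : (ι → Fin k) × (κ → Fin D), N * R :=
          Finset.sum_le_sum fun z _ => by
            rw [← Int.norm_eq_abs]; exact (norm_le_pi_norm p z).trans hp3
      _ = N ^ 2 * R := by rw [Finset.sum_const, card_univ, c2, nsmul_eq_mul, ← hN]; ring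
      _ ≤ ((2 ^ w * (D : ℝ) ^ n) ^ k) ^ 2 * R := by gcongr
      _ = _ := by rw [hR, hJ, pow_mul _ E k, ← pow_mul _ k 2, mul_comm k 2, pow_mul _ 2 k, ← mul_pow]
  · have hJ0 : ev p X (fun j => logT J (lin a X j)) ∈ idealOfVars ι ℂ ^ J := by
      rw [mem_pow_idealOfVars_iff']
      intro x hx
      let s : ι → Fin J := fun l => ⟨x l, lt_of_le_of_lt (Finsupp.le_degree l x) hx⟩
      have hs : τ s = x := by ext l; rfl
      have hL : (Nat.lcmUpto J : ℂ) ^ (n * D) ≠ 0 :=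
        pow_ne_zero _ (by exact_mod_cast (Nat.lcmUpto_pos J).ne')
      have e := congrArg (Int.cast : ℤ → ℂ) (congrFun hp1 s)
      simp only [Matrix.mulVec, dotProduct, Matrix.of_apply, Int.cast_sum, Int.cast_mul,
        Pi.zero_apply, Int.cast_zero, hA, hs] at e
      refine (mul_eq_zero.1 (Eq.trans ?_ e)).resolve_left hL
      rw [ev, coeff_sum, Finset.mul_sum]
      refine Finset.sum_congr rfl fun z _ => ?_
      rw [← map_intCast (C : ℂ →+* MvPolynomial ι ℂ), coeff_C_mul]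
      ring
    rw [← Ideal.Quotient.eq_zero_iff_mem, map_ev] at hJ0 ⊢
    rw [← hJ0]
    congr 1
    funext j
    rw [Ideal.Quotient.eq]
    refine siegel_tail (Ideal.sum_mem _ fun l _ => Ideal.mul_mem_left _ _ ?_) hT
    exact Ideal.subset_span ⟨l, rfl⟩

end Pool.Agent.MP_d171e3_nt.H31

end

-- part MP_d171e3_nt.H31.Conv
section

/-! Convergence of the re-expanded logarithmic series. -/

namespace Pool.Agent.MP_d171e3_nt.H31

open MvPolynomial Finset

open Filter Topology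

lemma conv_pow {ι : Type*} (β : ℂ) (u : MvPolynomial ι ℂ) (hu : u ∈ idealOfVars ι ℂ) (T : ℕ)
    (τ : ι →₀ ℕ) (hτ : τ.degree ≤ T) (m : ℕ) :
    coeff τ ((C β + u) ^ m) =
      ∑ i ∈ range (T + 1), (m.choose i * β ^ (m - i)) * coeff τ (u ^ i) := by
  have h1 : coeff τ ((C β + u) ^ m) =
      ∑ i ∈ range (m + 1), (m.choose i * β ^ (m - i)) * coeff τ (u ^ i) := by
    rw [add_comm, add_pow, coeff_sum]
    refine Finset.sum_congr rfl fun i _ => ?_
    have : u ^ i * C β ^ (m - i) * (m.choose i : MvPolynomial ι ℂ) =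
        C (m.choose i * β ^ (m - i)) * u ^ i := by
      simp only [map_mul, map_natCast, map_pow]; ring
    rw [this, coeff_C_mul]
  rw [h1]
  have h2 : ∀ i, T < i → coeff τ (u ^ i) = 0 := fun i hi =>
    (mem_pow_idealOfVars_iff' i _).1 (Ideal.pow_mem_pow hu i) τ (by omega)
  rw [Finset.sum_subset (s₂ := range (m + T + 1)) (Finset.range_subset_range.2 (by omega)),
    Finset.sum_subset (s₁ := range (T + 1)) (s₂ := range (m + T + 1))
      (Finset.range_subset_range.2 (by omega))]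
  · intro i _ hi
    rw [h2 i (by simpa using hi), mul_zero]
  · intro i _ hi
    rw [Nat.choose_eq_zero_of_lt (by simpa using hi)]
    simp

lemma conv_zero (β : ℂ) (hβ : ‖β‖ < 1) :
    HasSum (fun s : ℕ => ((-1) ^ s / (s + 1) : ℂ) * (((s + 1).choose 0 : ℕ) * β ^ (s + 1 - 0)))
      (Complex.log (1 + β)) := by
  have h := (hasSum_nat_add_iff' 1).2 (Complex.hasSum_taylorSeries_log hβ)
  simp only [range_one, sum_singleton, Nat.cast_zero, div_zero, sub_zero] at h
  convert! h using 2 with s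
  simp only [Nat.choose_zero_right, Nat.cast_one, one_mul, Nat.sub_zero]
  push_cast
  ring

lemma conv_succ (β : ℂ) (hβ : ‖β‖ < 1) (i : ℕ) :
    HasSum (fun s : ℕ => ((-1) ^ s / (s + 1) : ℂ) *
        (((s + 1).choose (i + 1) : ℕ) * β ^ (s + 1 - (i + 1))))
      ((-1) ^ i / (i + 1) * ((1 + β)⁻¹) ^ (i + 1)) := by
  have h := (hasSum_choose_mul_geometric_of_norm_lt_one i (r := -β) (by simpa only [norm_neg] using hβ)).mul_left
    ((-1) ^ i / (i + 1) : ℂ)
  rw [← hasSum_nat_add_iff' i]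
  have h0 : ∑ s ∈ range i, ((-1) ^ s / (s + 1) : ℂ) *
      (((s + 1).choose (i + 1) : ℕ) * β ^ (s + 1 - (i + 1))) = 0 := by
    refine Finset.sum_eq_zero fun s hs => ?_
    rw [Nat.choose_eq_zero_of_lt (by simpa using hs)]
    simp only [CharP.cast_eq_zero, Nat.reduceSubDiff, zero_mul, mul_zero]
  rw [h0, sub_zero]
  convert! h using 1
  · funext s
    have h1 : (((s + i : ℕ) : ℂ) + 1) * ((s + i).choose i : ℕ) =
        ((s + i + 1).choose (i + 1) : ℕ) * ((i : ℂ) + 1) := by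
      exact_mod_cast Nat.add_one_mul_choose_eq (s + i) i
    have h2 : (((s + i : ℕ) : ℂ) + 1) ≠ 0 := by exact_mod_cast Nat.succ_ne_zero (s + i)
    have h3 : ((i : ℂ) + 1) ≠ 0 := by exact_mod_cast Nat.succ_ne_zero i
    have h4 : s + i + 1 - (i + 1) = s := by omega
    have h5 : (((s + i + 1).choose (i + 1) : ℕ) : ℂ) =
        (((s + i : ℕ) : ℂ) + 1) * ((s + i).choose i : ℕ) / ((i : ℂ) + 1) := by
      rw [h1]; field_simp
    rw [h4, h5, neg_pow β, pow_add]
    field_simp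
  · rw [sub_neg_eq_add, one_div, inv_pow]

/-- binomial re-expansion of the truncated logarithm at `β` -/
theorem tendsto_logT {ι : Type*} (β : ℂ) (hβ : ‖β‖ < 1) (u : MvPolynomial ι ℂ)
    (hu : u ∈ idealOfVars ι ℂ) (T : ℕ) (τ : ι →₀ ℕ) (hτ : τ.degree ≤ T) :
    Tendsto (fun n => coeff τ (logT n (C β + u))) atTop
      (𝓝 (coeff τ (C (Complex.log (1 + β)) + logT T (C (1 + β)⁻¹ * u)))) := by
  have h1 : ∀ n, coeff τ (logT n (C β + u)) = ∑ i ∈ range (T + 1),
      (∑ s ∈ range n, ((-1) ^ s / (s + 1) : ℂ) * (((s + 1).choose i : ℕ) * β ^ (s + 1 - i))) *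
        coeff τ (u ^ i) := by
    intro n
    simp only [logT, coeff_sum, coeff_smul, smul_eq_mul, conv_pow β u hu T τ hτ, Finset.mul_sum,
      Finset.sum_mul]
    rw [Finset.sum_comm]
    exact Finset.sum_congr rfl fun i _ => Finset.sum_congr rfl fun s _ => by ring
  have h2 : coeff τ (C (Complex.log (1 + β)) + logT T (C (1 + β)⁻¹ * u)) =
      ∑ i ∈ range T, ((-1) ^ i / (i + 1) * ((1 + β)⁻¹) ^ (i + 1)) * coeff τ (u ^ (i + 1)) +
        Complex.log (1 + β) * coeff τ (u ^ 0) := by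
    rw [coeff_add, add_comm, pow_zero, ← coeff_C_mul, mul_one]
    congr 1
    simp only [logT, coeff_sum, coeff_smul, smul_eq_mul, mul_pow, ← map_pow, coeff_C_mul,
      mul_assoc]
  simp only [h1, h2, Finset.sum_range_succ' _ T]
  refine Tendsto.add (tendsto_finsetSum _ fun i _ => ?_) ?_
  · exact (conv_succ β hβ i).tendsto_sum_nat.mul_const _
  · exact (conv_zero β hβ).tendsto_sum_nat.mul_const _

/-- coefficientwise convergence up to degree `T` -/
def conv_R {ι : Type*} (T : ℕ) (f : ℕ → MvPolynomial ι ℂ) (g : MvPolynomial ι ℂ) : Prop :=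
  ∀ τ : ι →₀ ℕ, τ.degree ≤ T → Tendsto (fun n => coeff τ (f n)) atTop (𝓝 (coeff τ g))

lemma conv_const {ι : Type*} (T : ℕ) (g : MvPolynomial ι ℂ) : conv_R T (fun _ => g) g :=
  fun _ _ => tendsto_const_nhds

lemma conv_mul {ι : Type*} {T : ℕ} {f f' : ℕ → MvPolynomial ι ℂ} {g g' : MvPolynomial ι ℂ}
    (h : conv_R T f g) (h' : conv_R T f' g') : conv_R T (fun n => f n * f' n) (g * g') := by
  classical
  intro τ hτ
  simp only [coeff_mul]
  refine tendsto_finsetSum _ fun x hx => ?_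
  have : x.1.degree + x.2.degree = τ.degree := by
    rw [← map_add, mem_antidiagonal.1 hx]
  exact (h _ (by omega)).mul (h' _ (by omega))

lemma conv_npow {ι : Type*} {T : ℕ} {f : ℕ → MvPolynomial ι ℂ} {g : MvPolynomial ι ℂ}
    (h : conv_R T f g) (m : ℕ) : conv_R T (fun n => f n ^ m) (g ^ m) := by
  induction m with
  | zero => simpa using conv_const T (1 : MvPolynomial ι ℂ)
  | succ m ih => simpa only [pow_succ] using conv_mul ih h

lemma conv_prod {ι κ : Type*} {T : ℕ} (s : Finset κ) {f : ℕ → κ → MvPolynomial ι ℂ}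
    {g : κ → MvPolynomial ι ℂ} (h : ∀ j, conv_R T (fun n => f n j) (g j)) :
    conv_R T (fun n => ∏ j ∈ s, f n j) (∏ j ∈ s, g j) := by
  classical
  induction s using Finset.induction_on with
  | empty => simpa using conv_const T (1 : MvPolynomial ι ℂ)
  | insert a s ha ih => simpa only [Finset.prod_insert ha] using conv_mul (h a) ih

/-- coefficientwise convergence up to degree `T` passes to `ev`. -/
theorem tendsto_ev {ι κ : Type*} [Fintype ι] [DecidableEq ι] [Fintype κ] [DecidableEq κ]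
    {k D : ℕ} (p : (ι → Fin k) × (κ → Fin D) → ℤ) (x : ι → MvPolynomial ι ℂ)
    (y : ℕ → κ → MvPolynomial ι ℂ) (y' : κ → MvPolynomial ι ℂ) (T : ℕ)
    (h : ∀ j τ, τ.degree ≤ T → Tendsto (fun n => coeff τ (y n j)) atTop (𝓝 (coeff τ (y' j))))
    (τ : ι →₀ ℕ) (hτ : τ.degree ≤ T) :
    Tendsto (fun n => coeff τ (ev p x (y n))) atTop (𝓝 (coeff τ (ev p x y'))) := by
  simp only [ev, coeff_sum]
  refine tendsto_finsetSum _ fun z _ => ?_
  exact conv_mul (conv_const T _) (conv_mul (conv_const T _)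
    (conv_prod _ fun j => conv_npow (h j) _)) τ hτ

end Pool.Agent.MP_d171e3_nt.H31

end

-- part MP_d171e3_nt.H31.Small
section

/-! Size of the forms and of their values. -/

namespace Pool.Agent.MP_d171e3_nt.H31

open MvPolynomial Finset

open scoped NNReal

variable {ι κ : Type*} [Fintype ι] [DecidableEq ι] [Fintype κ] [DecidableEq κ]

/-- Schwarz lemma for `ℓ¹` norms. Plan: `f = ∑ monomials` (`aeval_def`, `eval₂_eq`), each
`N1 η (C (ξ l) + X l) ≤ 2 η`, and `(2η)^d = ρ^d (2η/ρ)^d ≤ ρ^d (2η/ρ)^J` for `d ≥ J`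
(`mem_pow_idealOfVars_iff`). -/
theorem N1_translate {σ : Type*} (f : MvPolynomial σ ℂ) {J : ℕ} (hf : f ∈ idealOfVars σ ℂ ^ J)
    (ξ : σ → ℂ) (η ρ : ℝ≥0) (hρ : 0 < ρ) (hξ : ∀ l, ‖ξ l‖ ≤ η) (h : 2 * η ≤ ρ) :
    N1 η (aeval (fun l => C (ξ l) + X l) f : MvPolynomial σ ℂ) ≤
      (2 * η / ρ : ℝ) ^ J * N1 ρ f := by
  have hρ' : (0 : ℝ) < ρ := hρ
  have h' : 2 * (η : ℝ) ≤ ρ := by exact_mod_cast h
  rw [aeval_def, eval₂_eq, N1_apply ρ, Finset.mul_sum]
  refine (sn_sum_le _ _ _).trans (Finset.sum_le_sum fun τ hτ => ?_)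
  have e1 := sn_prod_le (N1 η) (N1_one η).le τ.support (fun l => (C (ξ l) + X l : MvPolynomial σ ℂ) ^ τ l)
    (fun l => (2 * η : ℝ) ^ τ l) fun l _ => sn_pow_le _ (N1_one η).le
      ((map_add_le_add _ _ _).trans (by rw [N1_C, N1_X]; linarith [hξ l])) _
  rw [Finset.prod_pow_eq_pow_sum, ← Finsupp.degree_apply] at e1
  refine (sn_mul_le _ (N1_C η _).le e1).trans ?_
  have e2 : (2 * η / ρ : ℝ) ^ τ.degree ≤ (2 * η / ρ : ℝ) ^ J :=
    pow_le_pow_of_le_one (by positivity) ((div_le_one hρ').2 h')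
      ((mem_pow_idealOfVars_iff J f).1 hf τ hτ)
  calc _ = (2 * η / ρ : ℝ) ^ τ.degree * (‖coeff τ f‖ * (ρ : ℝ) ^ τ.degree) := by
        rw [div_pow]
        field_simp
    _ ≤ _ := mul_le_mul_of_nonneg_right e2 (by positivity)

omit [DecidableEq ι] [DecidableEq κ] in
lemma small_lin {A : Type*} [CommRing A] (ν : RingSeminorm A) (h1 : ν 1 ≤ 1) (a : κ → ι → ℤ)
    {x : ι → A} {b t : ℝ} (hb : 0 ≤ b) (hx : ∀ l, ν (x l) ≤ b)
    (ht : b * (∑ j, ∑ l, |(a j l : ℝ)| + 1) ≤ t) (j : κ) : ν (lin a x j) ≤ t := by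
  have h2 := Finset.single_le_sum (f := fun j => ∑ l, |(a j l : ℝ)|)
    (fun j _ => Finset.sum_nonneg fun l _ => abs_nonneg _) (mem_univ j)
  have h3 := mul_le_mul_of_nonneg_right h2 hb
  linarith [sn_lin_le ν h1 a hx j]

omit [DecidableEq ι] [DecidableEq κ] in
lemma small_linC (a : κ → ι → ℤ) {x : ι → ℂ} {b t : ℝ} (hb : 0 ≤ b) (hx : ∀ l, ‖x l‖ ≤ b)
    (ht : b * (∑ j, ∑ l, |(a j l : ℝ)| + 1) ≤ t) (j : κ) : ‖lin a x j‖ ≤ t :=
  small_lin (normRingSeminorm ℂ) (norm_one (α := ℂ)).le a hb hx ht j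

/-- Plan: `H = ∑ j l, |a j l|`, `ρ = 1 / (2 (H+1))`, `c = 4 (H + 1)`, `η = 1 / L`.
`Φ n = ev p X (logT n ..)` has `N1 ρ (Φ n) ≤ ∑ |p z|` (`sn_ev_le`, `sn_lin_le`, `N1_logT_le`), so by
`N1_translate` and `coeff_le_N1` the bound holds for the translate of `Φ n`, `n ≥ J`, which is
`ev p (C ξ + X) (logT n (C (lin a ξ j) + lin a X j))` (`map_ev`, `map_logT`, `map_lin`). Let
`n → ∞` (`tendsto_logT`, `tendsto_ev`, `le_of_tendsto`); `‖lin a ξ j‖ ≤ 1/4`. The left side is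
`ev p (C ξ + X) (C log + logT T ..)` by `map_ev`. -/
theorem jet_small (a : κ → ι → ℤ) : ∃ c : ℝ, 1 ≤ c ∧ ∀ {k D : ℕ}
    (p : (ι → Fin k) × (κ → Fin D) → ℤ) (J : ℕ),
    (∀ T, J ≤ T → ev p X (fun j => logT T (lin a X j)) ∈ idealOfVars ι ℂ ^ J) →
    ∀ (L : ℝ) (ξ : ι → ℂ), c ≤ L → (∀ l, ‖ξ l‖ ≤ 1 / L) → ∀ (T : ℕ) (τ : ι →₀ ℕ), τ.degree ≤ T →
      ‖coeff τ (eval (fun j => C (Complex.log (1 + lin a ξ j))) (jet a p ξ T))‖ ≤
        (∑ z, |(p z : ℝ)|) * L ^ τ.degree * (c / L) ^ J := by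
  have H0 : (0 : ℝ) ≤ ∑ j, ∑ l, |(a j l : ℝ)| := by positivity
  refine ⟨4 * (∑ j, ∑ l, |(a j l : ℝ)| + 1), by linarith, ?_⟩
  intro k D p J hJ L ξ hL hξ T τ hτ
  set H : ℝ := ∑ j, ∑ l, |(a j l : ℝ)| + 1 with hH
  have H1 : 1 ≤ H := by linarith only [H0]
  have L0 : 0 < L := by linarith only [H0, hL]
  obtain ⟨ρ, hρ⟩ : ∃ ρ : ℝ≥0, (ρ : ℝ) = 1 / (2 * H) := ⟨⟨_, by positivity⟩, rfl⟩
  obtain ⟨η, hη⟩ : ∃ η : ℝ≥0, (η : ℝ) = 1 / L := ⟨⟨_, by positivity⟩, rfl⟩
  have ρ0 : (0 : ℝ) < ρ := by rw [hρ]; positivity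
  have ρ1 : (ρ : ℝ) * H = 1 / 2 := by rw [hρ]; field_simp
  have η1 : 1 / L * H ≤ 1 / 4 := by
    rw [div_mul_eq_mul_div, div_le_iff₀ L0]
    linarith only [hL]
  have e0 : ∀ j, lin a (fun l => (C (ξ l) + X l : MvPolynomial ι ℂ)) j = C (lin a ξ j) + lin a X j :=
    fun j => by simp only [lin, mul_add, sum_add_distrib, map_sum, C_mul, map_intCast]
  have key : ∀ n, J ≤ n → ‖coeff τ (ev p (fun l => (C (ξ l) + X l : MvPolynomial ι ℂ))
      fun j => logT n (C (lin a ξ j) + lin a X j))‖ ≤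
        (∑ z, |(p z : ℝ)|) * L ^ τ.degree * (4 * H / L) ^ J := by
    intro n hn
    have e1 := N1_translate _ (hJ n hn) ξ η ρ ρ0 (fun l => hη ▸ hξ l) (by
      rw [← NNReal.coe_le_coe, NNReal.coe_mul, hη, NNReal.coe_ofNat]
      nlinarith only [ρ1, η1])
    have e2 := sn_ev_le (N1 ρ) (N1_one ρ).le p (x := (X : ι → MvPolynomial ι ℂ))
      (y := fun j => logT n (lin a X j)) le_rfl (fun l => by rw [N1_X]; nlinarith only [H0, ρ1])
      fun j => N1_logT_le ρ (small_lin _ (N1_one ρ).le a ρ0.le (fun l => (N1_X ρ l).le) ρ1.le j) n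
    rw [one_pow, mul_one] at e2
    simp only [map_ev, map_logT, map_lin, aeval_X] at e1
    simp only [e0] at e1
    have e3 := (coeff_le_N1 η _ τ).trans (e1.trans (mul_le_mul_of_nonneg_left e2 (by positivity)))
    rw [show (2 * η / ρ : ℝ) = 4 * H / L by rw [hη, hρ]; field_simp; ring, hη, one_div, inv_pow,
      ← div_eq_mul_inv, div_le_iff₀ (by positivity)] at e3
    exact e3.trans (le_of_eq (by ring))
  have hu : ∀ j, lin a (X : ι → MvPolynomial ι ℂ) j ∈ idealOfVars ι ℂ := fun j =>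
    Ideal.sum_mem _ fun l _ => Ideal.mul_mem_left _ _ (Ideal.subset_span ⟨l, rfl⟩)
  have hβ : ∀ j, ‖lin a ξ j‖ < 1 := fun j =>
    (small_linC a (one_div_pos.2 L0).le hξ η1 j).trans_lt (by norm_num)
  have lim := tendsto_ev p (fun l => (C (ξ l) + X l : MvPolynomial ι ℂ))
    (fun n j => logT n (C (lin a ξ j) + lin a X j))
    (fun j => C (Complex.log (1 + lin a ξ j)) + logT T (C (1 + lin a ξ j)⁻¹ * lin a X j)) T
    (fun j τ' hτ' => tendsto_logT _ (hβ j) _ (hu j) T τ' hτ') τ hτ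
  simp only [jet, map_ev, map_add, eval_C, eval_X]
  exact le_of_tendsto lim.norm (Filter.eventually_atTop.2 ⟨J, key⟩)

/-- Plan: `c = 4 (H + 1)`, `ρ = 1 / c`, seminorm `ν = wn (N1 ρ) 1` on the iterated ring.
`ν (C (C ξ + X)) ≤ 1`, `‖(1 + lin a ξ j)⁻¹‖ ≤ 2`, `ν (X j + C (logT ..)) ≤ 2`, `sn_ev_le`; then
`sum_le_wn` and `coeff_le_N1`. -/
theorem jet_height (a : κ → ι → ℤ) : ∃ c : ℝ, 1 ≤ c ∧ ∀ {k D : ℕ}
    (p : (ι → Fin k) × (κ → Fin D) → ℤ) (ξ : ι → ℂ), (∀ l, ‖ξ l‖ ≤ 1 / c) →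
    ∀ (T : ℕ) (τ : ι →₀ ℕ) (I : Finset (κ →₀ ℕ)),
      ∑ γ ∈ I, ‖coeff τ (coeff γ (jet a p ξ T))‖ ≤
        (∑ z, |(p z : ℝ)|) * 2 ^ (Fintype.card κ * D) * c ^ τ.degree := by
  have H0 : (0 : ℝ) ≤ ∑ j, ∑ l, |(a j l : ℝ)| := by positivity
  refine ⟨4 * (∑ j, ∑ l, |(a j l : ℝ)| + 1), by linarith, ?_⟩
  intro k D p ξ hξ T τ I
  set H : ℝ := ∑ j, ∑ l, |(a j l : ℝ)| + 1 with hH
  have H1 : 1 ≤ H := by linarith
  obtain ⟨ρ, hρ⟩ : ∃ ρ : ℝ≥0, (ρ : ℝ) = 1 / (4 * H) := ⟨⟨_, by positivity⟩, rfl⟩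
  rw [← hρ] at hξ
  have ρ0 : (0 : ℝ) < ρ := by rw [hρ]; positivity
  have ρ1 : (ρ : ℝ) * H = 1 / 4 := by rw [hρ]; field_simp
  have e1 : wn (N1 ρ) 1 (jet a p ξ T) ≤ (∑ z, |(p z : ℝ)|) * 2 ^ (Fintype.card κ * D) := by
    refine sn_ev_le _ (by rw [wn_one, N1_one]) p one_le_two (fun l => ?_) fun j => ?_
    · rw [wn_C]
      refine (map_add_le_add _ _ _).trans ?_
      rw [N1_C, N1_X]
      nlinarith only [hξ l, H0, ρ1]
    · have e2 : ‖lin a ξ j‖ ≤ 1 / 4 := small_linC a ρ0.le hξ ρ1.le j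
      have e3 : ‖(1 + lin a ξ j)⁻¹‖ ≤ 2 := by
        have := norm_sub_le (1 + lin a ξ j) (lin a ξ j)
        rw [add_sub_cancel_right, norm_one] at this
        rw [norm_inv]
        exact inv_le_of_inv_le₀ two_pos (by linarith only [e2, this])
      have e4 := sn_mul_le (N1 ρ) ((N1_C (σ := ι) ρ _).le.trans e3)
        (small_lin _ (N1_one ρ).le a ρ0.le (fun l => (N1_X ρ l).le) ρ1.le j)
      refine (map_add_le_add _ _ _).trans ?_
      rw [wn_X, wn_C, N1_one]
      have := N1_logT_le ρ (e4.trans (by norm_num)) T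
      simp only [NNReal.coe_one]
      linarith only [this]
  have e2 : (∑ γ ∈ I, ‖coeff τ (coeff γ (jet a p ξ T))‖) * (ρ : ℝ) ^ τ.degree ≤
      (∑ z, |(p z : ℝ)|) * 2 ^ (Fintype.card κ * D) := by
    rw [Finset.sum_mul]
    refine le_trans (Finset.sum_le_sum fun γ _ => ?_) ((sum_le_wn (N1 ρ) 1 _ I).trans e1)
    simpa only [NNReal.coe_one, one_pow, mul_one] using coeff_le_N1 ρ _ τ
  rwa [hρ, one_div, inv_pow, ← div_eq_mul_inv, div_le_iff₀ (by positivity)] at e2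

end Pool.Agent.MP_d171e3_nt.H31

end

-- part MP_d171e3_nt.H31.FinalLA
section

/-! Cramer's rule in a fixed finite dimensional space. -/

namespace Pool.Agent.MP_d171e3_nt.H31

open MvPolynomial Finset

/-- an integer vector in the rational span of bounded integer vectors has a nonzero multiple
which is a short integer combination of them -/
lemma finalla_cramer {T : Type} {r : ℕ} (w : T → Fin r → ℤ) (c : Fin r → ℤ) (B : ℝ) (hB : 1 ≤ B)
    (hw : ∀ τ i, |(w τ i : ℝ)| ≤ B) (hc : ∀ i, |(c i : ℝ)| ≤ B)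
    (h : (fun i => (c i : ℚ)) ∈ Submodule.span ℚ (Set.range fun τ i => (w τ i : ℚ))) :
    ∃ (d : ℤ) (u : Fin r → ℤ) (t : Fin r → Option T), d ≠ 0 ∧
      (∀ j, |(u j : ℝ)| ≤ r.factorial * B ^ r) ∧
      ∀ i, d * c i = ∑ j, u j * (t j).elim 0 (fun τ => w τ i) := by
  classical
  let vz : T ⊕ Fin r → Fin r → ℤ := Sum.elim w fun j => Pi.single j 1
  let v : T ⊕ Fin r → Fin r → ℚ := fun x i => (vz x i : ℚ)
  obtain ⟨s, hs1, -, hs2, hs3⟩ := exists_linearIndepOn_extension (K := ℚ) (v := v)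
    (linearIndepOn_empty ℚ v) (Set.empty_subset (Set.range Sum.inl))
  obtain ⟨b, -, hb1, hb2, hb3⟩ := exists_linearIndepOn_extension hs3 (Set.subset_univ s)
  have hsp : ⊤ ≤ Submodule.span ℚ (Set.range fun x : b => v x) := by
    rw [← (Pi.basisFun ℚ (Fin r)).span_eq, Submodule.span_le]
    rintro _ ⟨j, rfl⟩
    rw [← Set.image_eq_range]
    refine hb2 ⟨Sum.inr j, trivial, ?_⟩
    funext i
    simp [v, vz, Pi.single_apply]
  let bs : Module.Basis b ℚ (Fin r → ℚ) := Module.Basis.mk hb3 hsp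
  let e : Fin r ≃ b := (Pi.basisFun ℚ (Fin r)).indexEquiv bs
  let M : Matrix (Fin r) (Fin r) ℤ := Matrix.of fun i j => vz (e j) i
  have hli : LinearIndependent ℚ fun j => v (e j) := hb3.comp e e.injective
  have hdet : M.det ≠ 0 := by
    intro h0
    have h1 : IsUnit (M.map (Int.castRingHom ℚ)) :=
      Matrix.linearIndependent_cols_iff_isUnit.1 hli
    rw [Matrix.isUnit_iff_isUnit_det, ← RingHom.mapMatrix_apply, ← RingHom.map_det, h0] at h1
    simp at h1
  have hvz : ∀ x i, |(vz x i : ℝ)| ≤ B := by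
    rintro (τ | j) i
    · exact hw τ i
    · simp only [vz, Sum.elim_inr, Pi.single_apply]
      split_ifs
      · simpa using hB
      · simp; linarith only [hB]
  have hcr : ∀ i, M.det * c i = ∑ j, M.cramer c j * vz (e j) i := fun i => by
    have := congrFun (Matrix.mulVec_cramer M c) i
    simp only [Matrix.mulVec, dotProduct, Pi.smul_apply, smul_eq_mul] at this
    rw [← this]
    exact Finset.sum_congr rfl fun j _ => mul_comm _ _
  have hz : ∀ j, (e j).1 ∉ s → M.cramer c j = 0 := fun j hj => by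
    have h1 : (fun i => (c i : ℚ)) ∈ Submodule.span ℚ (v '' s) := by
      refine Submodule.span_le.2 ?_ h
      rintro _ ⟨τ, rfl⟩
      exact hs2 ⟨Sum.inl τ, ⟨τ, rfl⟩, rfl⟩
    have h2 : bs.coord (e j) (fun i => (c i : ℚ)) = 0 := by
      refine (Submodule.span_le (p := LinearMap.ker (bs.coord (e j)))).2 ?_ h1
      rintro _ ⟨x, hx, rfl⟩
      have : v x = bs ⟨x, hb1 hx⟩ := by simp [bs]
      rw [SetLike.mem_coe, LinearMap.mem_ker, this, Module.Basis.coord_apply, bs.repr_self,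
        Finsupp.single_eq_of_ne]
      intro h3
      exact hj (h3 ▸ hx)
    have h3 : (M.det : ℚ) • (fun i => (c i : ℚ)) = ∑ j, (M.cramer c j : ℚ) • bs (e j) := by
      funext i
      simp only [Pi.smul_apply, smul_eq_mul, Finset.sum_apply, bs, Module.Basis.mk_apply, v]
      exact_mod_cast hcr i
    have h4 := congrArg (bs.coord (e j)) h3
    rw [map_smul, h2, smul_zero, map_sum, Finset.sum_eq_single j] at h4
    · simpa using h4.symm
    · intro j' _ hj'
      rw [map_smul, Module.Basis.coord_apply, bs.repr_self, Finsupp.single_eq_of_ne, smul_zero]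
      exact fun h5 => hj' (e.injective h5).symm
    · simp only [mem_univ, not_true_eq_false, map_smul, Module.Basis.coord_apply, Module.Basis.repr_self, Finsupp.single_eq_same, smul_eq_mul, mul_one, Int.cast_eq_zero, IsEmpty.forall_iff]
  refine ⟨M.det, M.cramer c, fun j => (e j).1.getLeft?, hdet, fun j => ?_, fun i => ?_⟩
  · rw [Matrix.cramer_apply]
    have h1 := Matrix.det_le (A := (M.updateCol j c).map (Int.castRingHom ℝ))
      (abv := AbsoluteValue.abs) (x := B) fun i i' => by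
        simp only [Matrix.map_apply, Matrix.updateCol_apply, AbsoluteValue.abs_apply,
          eq_intCast]
        split_ifs
        · exact hc i
        · exact hvz _ _
    rw [← RingHom.mapMatrix_apply, ← RingHom.map_det] at h1
    simpa only [ge_iff_le, eq_intCast, AbsoluteValue.abs_apply, Fintype.card_fin, nsmul_eq_mul] using h1
  · rw [hcr]
    refine Finset.sum_congr rfl fun j _ => ?_
    by_cases hj : (e j).1 ∈ s
    · obtain ⟨τ, hτ⟩ := hs1 hj
      simp only [← hτ]; rfl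
    · rw [hz j hj, zero_mul, zero_mul]

theorem final_la {I : Type*} [Fintype I] (lam : I → ℂ) (M : ℕ) (S : Finset ℂ) (hS : S.card ≤ M)
    (hlam : ∀ γ, lam γ ∈ Submodule.span ℚ (S : Set ℂ)) :
    ∃ K : ℝ, 0 < K ∧ ∀ {T : Type} (A : T → I → ℤ) (H η : ℝ), 1 ≤ H → 0 ≤ η →
      (∀ τ, ∑ γ, |(A τ γ : ℝ)| ≤ H) → (∀ τ, ‖∑ γ, (A τ γ : ℂ) * lam γ‖ ≤ η) →
      (1 : ℂ) ∈ Submodule.span ℚ (Set.range fun τ => ∑ γ, (A τ γ : ℂ) * lam γ) →
      1 ≤ K * H ^ M * η := by
  classical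
  set V := Submodule.span ℚ (S : Set ℂ) with hV
  have hAV : ∀ {T : Type} (A : T → I → ℤ) τ, ∑ γ, (A τ γ : ℂ) * lam γ ∈ V := fun A τ =>
    Submodule.sum_mem _ fun γ _ => by
      rw [← zsmul_eq_mul]; exact V.toAddSubgroup.zsmul_mem (hlam γ) _
  by_cases h1 : (1 : ℂ) ∈ V
  swap
  · refine ⟨1, one_pos, fun A H η _ _ _ _ h => (h1 (Submodule.span_le.2 ?_ h)).elim⟩
    rintro _ ⟨τ, rfl⟩
    exact hAV A τ
  have : FiniteDimensional ℚ V := FiniteDimensional.span_of_finite ℚ S.finite_toSet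
  set r := Module.finrank ℚ V with hr
  have hrM : r ≤ M := (finrank_span_finset_le_card S).trans hS
  let e : V ≃ₗ[ℚ] (Fin r → ℚ) := (Module.finBasis ℚ V).equivFun
  let x : Option I → V := fun o => o.elim ⟨1, h1⟩ fun γ => ⟨lam γ, hlam γ⟩
  obtain ⟨d0, hd0⟩ := IsLocalization.exist_integer_multiples_of_finite (nonZeroDivisors ℤ)
    (fun p : Option I × Fin r => e (x p.1) p.2)
  choose c hc using hd0
  have hd : ((d0 : ℤ) : ℚ) ≠ 0 := by exact_mod_cast nonZeroDivisors.coe_ne_zero d0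
  have hc' : ∀ o i, (c (o, i) : ℚ) = (d0 : ℤ) * e (x o) i := fun o i => by
    simpa using hc (o, i)
  set K1 : ℝ := 1 + ∑ p, |(c p : ℝ)| with hK1
  have k0 : (0 : ℝ) ≤ ∑ p, |(c p : ℝ)| := by positivity
  have k1 : ∀ p, |(c p : ℝ)| ≤ K1 := fun p => by
    have := Finset.single_le_sum (f := fun p => |(c p : ℝ)|) (fun _ _ => abs_nonneg _)
      (mem_univ p)
    linarith only [this]
  have k2 : 1 ≤ K1 := by linarith only [k0]
  refine ⟨(r + 1) * (r.factorial * K1 ^ r), by positivity, fun {T} A H η hH hη hA hv h => ?_⟩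
  let y : T → V := fun τ => ⟨_, hAV A τ⟩
  have hy : ∀ τ i, ((∑ γ, A τ γ * c (some γ, i) : ℤ) : ℚ) = (d0 : ℤ) * e (y τ) i := fun τ i => by
    have : y τ = ∑ γ, (A τ γ : ℚ) • x (some γ) := by
      ext; simp only [x, Option.elim_some, SetLike.mk_smul_mk, Rat.smul_def, Rat.cast_intCast, AddSubmonoidClass.coe_finsetSum, y]
    rw [this, map_sum, Finset.sum_apply, Finset.mul_sum]
    push_cast
    refine Finset.sum_congr rfl fun γ _ => ?_
    rw [hc', map_smul, Pi.smul_apply, smul_eq_mul]; ring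
  have hKH : K1 ≤ K1 * H := le_mul_of_one_le_right (by linarith only [k0]) hH
  obtain ⟨d, u, t, hd1, hu, hdu⟩ := finalla_cramer (fun τ i => ∑ γ, A τ γ * c (some γ, i))
    (fun i => c (none, i)) (K1 * H) (k2.trans hKH)
    (fun τ i => by
      push_cast
      refine (Finset.abs_sum_le_sum_abs _ _).trans ?_
      calc ∑ γ, |(A τ γ : ℝ) * c (some γ, i)| ≤ ∑ γ, K1 * |(A τ γ : ℝ)| :=
            Finset.sum_le_sum fun γ _ => by
              rw [abs_mul, mul_comm]; exact mul_le_mul_of_nonneg_right (k1 _) (abs_nonneg _)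
        _ ≤ K1 * H := by rw [← Finset.mul_sum]; exact mul_le_mul_of_nonneg_left (hA τ) (by linarith only [k0]))
    (fun i => (k1 _).trans hKH)
    (by
      have h2 : x none ∈ Submodule.span ℚ (Set.range y) := by
        rw [← Submodule.apply_mem_span_image_iff_mem_span (f := V.subtype) V.injective_subtype,
          ← Set.range_comp]
        exact h
      have h3 := Submodule.apply_mem_span_image_of_mem_span (((d0 : ℤ) : ℚ) • e.toLinearMap) h2
      rw [← Set.range_comp] at h3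
      convert h3 using 3
      · funext τ i; exact hy τ i
      · simp [hc'])
  have h2 : (d : ℚ) • x none = ∑ j, (u j : ℚ) • (t j).elim 0 y := by
    apply e.injective
    funext i
    apply mul_left_cancel₀ hd
    have h3 := congrArg (Int.cast : ℤ → ℚ) (hdu i)
    rw [Int.cast_mul, hc', Int.cast_sum] at h3
    rw [map_smul, Pi.smul_apply, smul_eq_mul, mul_left_comm, h3, map_sum, Finset.sum_apply,
      Finset.mul_sum]
    refine Finset.sum_congr rfl fun j _ => ?_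
    rw [map_smul, Pi.smul_apply, smul_eq_mul, mul_left_comm, Int.cast_mul]
    congr 1
    cases t j with
    | none => simp
    | some τ => exact hy τ i
  have h3 : (d : ℂ) = ∑ j, (u j : ℂ) * (((t j).elim 0 y : V) : ℂ) := by
    have := congrArg Subtype.val h2
    simpa only [x, Option.elim_none, SetLike.mk_smul_mk, Rat.smul_def, Rat.cast_intCast, mul_one, AddSubmonoidClass.coe_finsetSum, SetLike.val_smul] using this
  have h4 : (1 : ℝ) ≤ ‖(d : ℂ)‖ := by
    rw [Complex.norm_intCast]; exact_mod_cast Int.one_le_abs hd1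
  have h5 : ∀ j, ‖(u j : ℂ) * (((t j).elim 0 y : V) : ℂ)‖ ≤ r.factorial * (K1 * H) ^ r * η :=
    fun j => by
      rw [norm_mul, Complex.norm_intCast]
      refine mul_le_mul (hu j) ?_ (norm_nonneg _) (by positivity)
      cases t j with
      | none => simpa only [Option.elim_none, ZeroMemClass.coe_zero, norm_zero] using hη
      | some τ => exact hv τ
  have h6 : H ^ r ≤ H ^ M := pow_le_pow_right₀ hH hrM
  calc (1 : ℝ) ≤ ∑ _j : Fin r, r.factorial * (K1 * H) ^ r * η :=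
        h4.trans (h3 ▸ (norm_sum_le _ _).trans (Finset.sum_le_sum fun j _ => h5 j))
    _ = r * (r.factorial * K1 ^ r) * H ^ r * η := by simp only [mul_pow, sum_const, card_univ, Fintype.card_fin, nsmul_eq_mul]; ring
    _ ≤ _ := by gcongr; linarith only []

end Pool.Agent.MP_d171e3_nt.H31

end

-- part MP_d171e3_nt.H31.Core
section

/-! The core theorem: many points on a linear pattern cannot all have logarithms of low rank. -/

namespace Pool.Agent.MP_d171e3_nt.H31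

open MvPolynomial Finset
open Pool.Agent.MP_d171e3_nt.H48 (Grow lg box mem_box mon mon_mem_pow pow_mono_exp)

lemma exists_functional (V : Submodule ℚ ℂ) (h : (1 : ℂ) ∉ V) :
    ∃ ψ : ℂ →ₗ[ℚ] ℚ, ψ 1 = 1 ∧ ∀ x ∈ V, ψ x = 0 := by
  obtain ⟨f, h1, h2⟩ := V.exists_dual_map_eq_bot_of_notMem h inferInstance
  refine ⟨(f 1)⁻¹ • f, by simp only [LinearMap.smul_apply, smul_eq_mul, ne_eq, h1, not_false_eq_true, inv_mul_cancel₀], fun x hx => ?_⟩
  have : f x ∈ V.map f := Submodule.mem_map_of_mem hx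
  rw [h2, Submodule.mem_bot] at this
  simp only [LinearMap.smul_apply, this, smul_eq_mul, mul_zero]

lemma den_le {κ : Type} [Fintype κ] {q0 L A W D s k m : ℕ} {q : κ → ℕ} (hL : 1 ≤ L)
    (h0 : q0 ≤ L ^ A) (hq : ∀ j, q j ≤ L ^ A) (hm : m ≤ s * k) :
    q0 ^ (W * k) * Nat.lcmUpto (s * k) ^ (Fintype.card κ * D) * (∏ j, q j) ^ m ≤
      (256 ^ (s * Fintype.card κ * D) * L ^ (A * W + A * Fintype.card κ * s)) ^ k := by
  have h1 : ∏ j, q j ≤ (L ^ A) ^ Fintype.card κ := by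
    simpa only [card_univ] using Finset.prod_le_pow_card univ q (L ^ A) fun j _ => hq j
  have h2 := lcm_le (s * k)
  have h3 : 1 ≤ (L ^ A) ^ Fintype.card κ := Nat.one_le_pow _ _ (by positivity)
  calc _ ≤ (L ^ A) ^ (W * k) * (256 ^ (s * k)) ^ (Fintype.card κ * D) *
        ((L ^ A) ^ Fintype.card κ) ^ (s * k) := by
        refine Nat.mul_le_mul (by gcongr) ?_
        exact (Nat.pow_le_pow_left h1 m).trans (Nat.pow_le_pow_right h3 hm)
    _ = _ := by simp only [← pow_mul, mul_pow, pow_add]; ring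

lemma core_params {W n r e : ℕ} (he : 1 ≤ e) (hn : r * W < n) :
    2 * (e * (2 * e ^ W) ^ r) ^ W ≤ (2 * e ^ W) ^ n := by
  have h : 0 < 2 * e ^ W := by positivity
  calc _ = (2 * e ^ W) ^ (r * W + 1) := by rw [mul_pow e, ← pow_mul, pow_succ]; ring
    _ ≤ _ := Nat.pow_le_pow_right h hn

theorem core (w : ℕ) {κ : Type} [Fintype κ] [DecidableEq κ] (a : κ → Fin (w + 1) → ℤ)
    (r c A : ℕ) (hn : r * (w + 1) < Fintype.card κ) :
    ∃ S L0 : ℕ, ∀ L : ℕ, L0 ≤ L → ∀ (q0 : ℕ) (q : Fin S → κ → ℕ) (b : Fin S → Fin (w + 1) → ℤ),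
      0 < q0 → q0 ≤ L ^ A → (∀ i j, 0 < q i j ∧ q i j ≤ L ^ A) → (∀ i l, |b i l| * L ≤ q0) →
      (∀ i j, (q i j : ℤ) = q0 + lin a (b i) j) →
      (∀ i i', i ≠ i' → ∀ m : κ → ℤ,
        ∏ j, (q i j : ℂ) ^ m j = ∏ j, (q i' j : ℂ) ^ m j → m = 0) →
      (∀ i, ∃ W, Grow W c r ∧ ∀ j, lg (q i j) - lg q0 ∈ W) → False := by
  classical
  obtain ⟨n, hn'⟩ : ∃ n, n = Fintype.card κ := ⟨_, rfl⟩
  obtain ⟨s, hs⟩ : ∃ s, s = 2 * (w + 1) + 1 := ⟨_, rfl⟩
  obtain ⟨e1, he1⟩ : ∃ e1, e1 = A * (w + 1) + A * n * s := ⟨_, rfl⟩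
  obtain ⟨e2, he2⟩ : ∃ e2, e2 = e1 * (c * (n + 1) ^ r) + e1 + s + 1 := ⟨_, rfl⟩
  obtain ⟨D, hD⟩ : ∃ D, D = 2 * e2 ^ (w + 1) := ⟨_, rfl⟩
  obtain ⟨E, hE⟩ : ∃ E, E = e2 * D ^ r := ⟨_, rfl⟩
  obtain ⟨M, hM⟩ : ∃ M, M = c * (n * D + 1) ^ r := ⟨_, rfl⟩
  have he2' : 1 ≤ e2 := by omega
  have hD1 : 1 ≤ D := by rw [hD]; exact Nat.succ_le_of_lt (by positivity)
  have hDr : 1 ≤ D ^ r := Nat.one_le_pow _ _ hD1
  have hE1 : 1 ≤ E := by rw [hE]; exact Nat.succ_le_of_lt (by positivity)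
  have hEM : e1 * M + e1 + s + 1 ≤ E := by
    have h1 : M ≤ c * (n + 1) ^ r * D ^ r := by
      rw [hM, mul_assoc, ← mul_pow]; gcongr; linarith only [hD1]
    have h2 := Nat.mul_le_mul_left e1 h1
    have h3 := Nat.mul_le_mul_left (e1 + s + 1) hDr
    rw [hE, he2]; linarith only [h2, h3]
  obtain ⟨S, hS⟩ := zero_estimate w a D
  obtain ⟨c1, hc1, haux⟩ := exists_aux a D E hE1 (by
    rw [Fintype.card_fin, hE, hD]; exact core_params he2' hn)
  obtain ⟨c2, hc2, hsmall⟩ := jet_small a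
  obtain ⟨c3, hc3, hheight⟩ := jet_height a
  obtain ⟨U, hU⟩ : ∃ U : ℝ, U = 256 ^ (s * n * D) * c1 * 2 ^ (n * D) * c3 ^ s := ⟨_, rfl⟩
  obtain ⟨U', hU'⟩ : ∃ U' : ℝ, U' = 256 ^ (s * n * D) * c1 * c2 ^ E := ⟨_, rfl⟩
  refine ⟨S, ⌈c2 + c3 + U ^ M * U'⌉₊ + 1, fun L hL q0 q b hq0 hq0L hq hb hlin hind hgrow => ?_⟩
  have hU1 : 1 ≤ U := by
    rw [hU]
    exact one_le_mul_of_one_le_of_one_le (one_le_mul_of_one_le_of_one_le
      (one_le_mul_of_one_le_of_one_le (one_le_pow₀ (by norm_num)) hc1) (one_le_pow₀ (by norm_num)))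
      (one_le_pow₀ hc3)
  have hU'0 : 0 < U' := by rw [hU']; positivity
  have hL1 : 1 ≤ L := by omega
  have hL1' : (1 : ℝ) ≤ L := by exact_mod_cast hL1
  have hLc : c2 + c3 + U ^ M * U' < L := by
    have h1 := Nat.le_ceil (c2 + c3 + U ^ M * U')
    have h2 : ((⌈c2 + c3 + U ^ M * U'⌉₊ + 1 : ℕ) : ℝ) ≤ L := by exact_mod_cast hL
    push_cast at h2
    linarith only [h1, h2]
  have hUU : 0 < U ^ M * U' := by positivity
  have hq0c : (q0 : ℂ) ≠ 0 := by exact_mod_cast hq0.ne'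
  have hqc : ∀ i j, (q i j : ℂ) ≠ 0 := fun i j => by exact_mod_cast (hq i j).1.ne'
  obtain ⟨ξ, hξ⟩ : ∃ ξ : Fin S → Fin (w + 1) → ℂ, ξ = fun i l => (b i l : ℂ) / q0 := ⟨_, rfl⟩
  have hu : ∀ i j, 1 + lin a (ξ i) j = (q i j : ℂ) / q0 := by
    intro i j
    have h1 : (q i j : ℂ) = q0 + lin a (fun l => (b i l : ℂ)) j := by
      have := congrArg (Int.castRingHom ℂ) (hlin i j)
      rw [map_add, map_lin] at this
      simpa using this
    rw [h1, hξ]
    simp only [lin, add_div, div_self hq0c, Finset.sum_div, mul_div_assoc]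
  have hξL : ∀ i l, ‖ξ i l‖ ≤ 1 / L := by
    intro i l
    have h1 : |(b i l : ℝ)| * L ≤ q0 := by exact_mod_cast hb i l
    have h2 : (0 : ℝ) < q0 := by exact_mod_cast hq0
    rw [hξ]
    simp only [norm_div, Complex.norm_intCast, Complex.norm_natCast]
    rw [div_le_div_iff₀ h2 (by linarith only [hc2, hc3, hLc, hUU])]
    linarith only [h1]
  have hind' : ∀ i i', i ≠ i' → ∀ m : κ → ℤ,
      ∏ j, (1 + lin a (ξ i) j) ^ m j = ∏ j, (1 + lin a (ξ i') j) ^ m j → m = 0 := by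
    intro i i' hii m hm
    refine hind i i' hii m ?_
    simp only [hu, div_zpow, Finset.prod_div_distrib] at hm
    exact (div_left_inj' (Finset.prod_ne_zero_iff.2 fun j _ => zpow_ne_zero _ hq0c)).1 hm
  have hinj : Function.Injective ξ := by
    intro i i' h
    by_contra hii
    obtain ⟨j⟩ : Nonempty κ := Fintype.card_pos_iff.1 (by omega)
    have := congrFun (hind' i i' hii (fun _ => 1) (by rw [h])) j
    simp at this
  obtain ⟨c0, hZE⟩ := hS ξ hinj (fun i j => by rw [hu]; exact div_ne_zero (hqc i j) hq0c) hind'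
  obtain ⟨lam, hlam⟩ : ∃ lam : Fin S → κ → ℂ,
    lam = fun i j => Complex.log (1 + lin a (ξ i) j) := ⟨_, rfl⟩
  have hlam' : ∀ i j, lam i j = lg (q i j) - lg q0 := by
    intro i j
    have h2 : (0 : ℝ) < q0 := by exact_mod_cast hq0
    have h3 : (0 : ℝ) < q i j := by exact_mod_cast (hq i j).1
    rw [hlam]
    simp only [hu]
    rw [show (q i j : ℂ) / q0 = (((q i j : ℝ) / q0 : ℝ) : ℂ) by push_cast; rfl,
      ← Complex.ofReal_log (by positivity), Real.log_div h3.ne' h2.ne', Complex.ofReal_sub]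
    rfl
  have hK : ∀ i, ∃ K : ℝ, 0 < K ∧ ∀ {T : Type} (B : T → box κ D → ℤ) (H η : ℝ), 1 ≤ H → 0 ≤ η →
      (∀ τ, ∑ γ, |(B τ γ : ℝ)| ≤ H) → (∀ τ, ‖∑ γ, (B τ γ : ℂ) * mon (lam i) γ.1‖ ≤ η) →
      (1 : ℂ) ∈ Submodule.span ℚ (Set.range fun τ => ∑ γ, (B τ γ : ℂ) * mon (lam i) γ.1) →
      1 ≤ K * H ^ M * η := by
    intro i
    obtain ⟨W, hW, hWl⟩ := hgrow i
    obtain ⟨S0, hS0, hS1⟩ := hW.2 (n * D)
    refine final_la (fun γ : box κ D => mon (lam i) γ.1) M S0 (hM ▸ hS0) fun γ => hS1 ?_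
    refine pow_mono_exp hW.1 ?_ (mon_mem_pow (fun j => by rw [hlam']; exact hWl j) γ.1)
    refine (Finset.sum_le_card_nsmul _ _ D fun j _ => mem_box.1 γ.2 j).trans ?_
    rw [card_univ, ← hn', smul_eq_mul]
  choose K hK0 hK using hK
  have hρ : U ^ M * U' / L < 1 := by rw [div_lt_one (by linarith only [hc2, hc3, hLc, hUU])]; linarith only [hc2, hc3, hLc]
  have hρ0 : 0 ≤ U ^ M * U' / L := by positivity
  obtain ⟨k, hk1, hkc, hkK⟩ : ∃ k : ℕ, 1 ≤ k ∧ c0 ≤ k ∧ (∑ i, K i) * (U ^ M * U' / L) ^ k < 1 := by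
    have h1 := (tendsto_pow_atTop_nhds_zero_of_lt_one hρ0 hρ).const_mul (∑ i, K i)
    rw [mul_zero] at h1
    obtain ⟨k, hk⟩ := ((h1.eventually (gt_mem_nhds zero_lt_one)).and
      ((Filter.eventually_ge_atTop 1).and (Filter.eventually_ge_atTop c0))).exists
    exact ⟨k, hk.2.1, hk.2.2, hk.1⟩
  obtain ⟨p, hp0, hpc, hpJ⟩ := haux k hk1
  have hz := fun i (τ : Fin (w + 1) →₀ ℕ) (γ : κ →₀ ℕ) => jet_integral a p q0 (q i) (b i) hq0.ne'
    (fun j => (hq i j).1.ne') (hlin i) (s * k) τ γ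
  choose z hz using hz
  obtain ⟨den, hden⟩ : ∃ den : Fin S → (Fin (w + 1) →₀ ℕ) → ℕ, den = fun i τ =>
    q0 ^ ((w + 1) * k) * Nat.lcmUpto (s * k) ^ (Fintype.card κ * D) * (∏ j, q i j) ^ τ.degree :=
    ⟨_, rfl⟩
  have hz' : ∀ i τ γ, (z i τ γ : ℂ) = den i τ * coeff τ (coeff γ (jet a p (ξ i) (s * k))) := by
    intro i τ γ
    rw [hz, hden, hξ, Fintype.card_fin]
    push_cast
    rfl
  have hden0 : ∀ i τ, (den i τ : ℂ) ≠ 0 := by
    intro i τ
    have h1 := Nat.lcmUpto_pos (s * k)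
    have h2 : 0 < ∏ j, q i j := Finset.prod_pos fun j _ => (hq i j).1
    rw [hden]
    exact Nat.cast_ne_zero.2 (by positivity)
  have hdenle : ∀ i (τ : Fin (w + 1) →₀ ℕ), τ.degree < s * k →
      (den i τ : ℝ) ≤ (256 ^ (s * n * D) * (L : ℝ) ^ e1) ^ k := by
    intro i τ hτ
    have := den_le (W := w + 1) (D := D) hL1 hq0L (fun j => (hq i j).2) hτ.le
    rw [hden, he1, hn']
    exact_mod_cast this
  obtain ⟨i, hi⟩ : ∃ i, (1 : ℂ) ∈ Submodule.span ℚ (Set.range
      fun τ : {τ : Fin (w + 1) →₀ ℕ // τ.degree < s * k} =>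
        ∑ γ : box κ D, (z i τ.1 γ.1 : ℂ) * mon (lam i) γ.1) := by
    by_contra hcon
    push Not at hcon
    choose ψ hψ1 hψ using fun i => exists_functional _ (hcon i)
    obtain ⟨i, τ, hτ, hne⟩ := hZE k p hp0 (s * k) (by rw [hs]; linarith only [hkc]) (box κ D)
      (fun i γ => (ψ i (mon (lam i) γ) : ℂ)) (mem_box.2 fun j => by simp)
      (fun i => by simp only [mon, Finsupp.coe_zero, Pi.zero_apply, pow_zero, prod_const_one, hψ1, Rat.cast_one])
    apply hne
    apply mul_left_cancel₀ (hden0 i τ)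
    have h1 := hψ i _ (Submodule.subset_span ⟨⟨τ, hτ⟩, rfl⟩)
    simp only [map_sum, ← zsmul_eq_mul, map_zsmul] at h1
    have h2 := congrArg (fun x : ℚ => (x : ℂ)) h1
    simp only [zsmul_eq_mul, Rat.cast_sum, Rat.cast_mul, Rat.cast_intCast, Rat.cast_zero] at h2
    rw [mul_zero, ← h2, Finset.mul_sum, ← Finset.sum_coe_sort]
    refine Finset.sum_congr rfl fun γ _ => ?_
    rw [hz']; ring
  have hp1 : (0 : ℝ) ≤ ∑ z, |(p z : ℝ)| := by positivity
  have hfin := hK i (fun (τ : {τ : Fin (w + 1) →₀ ℕ // τ.degree < s * k}) γ => z i τ.1 γ.1)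
    ((U * (L : ℝ) ^ e1) ^ k) ((U' * (L : ℝ) ^ (e1 + s) / (L : ℝ) ^ E) ^ k)
    (one_le_pow₀ (one_le_mul_of_one_le_of_one_le hU1 (one_le_pow₀ hL1'))) (by positivity)
    (fun τ => ?_) (fun τ => ?_) hi
  · have h1 : (U * (L : ℝ) ^ e1) ^ M * (U' * (L : ℝ) ^ (e1 + s) / (L : ℝ) ^ E) ≤
        U ^ M * U' / L := by
      have h2 : (L : ℝ) ^ (e1 * M + e1 + s + 1) ≤ (L : ℝ) ^ E := pow_le_pow_right₀ hL1' hEM
      rw [← mul_div_assoc, div_le_div_iff₀ (by positivity) (by positivity)]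
      calc _ = U ^ M * U' * (L : ℝ) ^ (e1 * M + e1 + s + 1) := by ring
        _ ≤ _ := by gcongr
    have h3 : K i ≤ ∑ i, K i :=
      Finset.single_le_sum (f := K) (fun j _ => (hK0 j).le) (mem_univ i)
    have h4 : K i * ((U * (L : ℝ) ^ e1) ^ k) ^ M * (U' * (L : ℝ) ^ (e1 + s) / (L : ℝ) ^ E) ^ k ≤
        (∑ i, K i) * (U ^ M * U' / L) ^ k := by
      have h5 := (hK0 i).le
      have h6 : 0 ≤ ∑ i, K i := h5.trans h3
      rw [← pow_mul, mul_comm k M, pow_mul, mul_assoc, ← mul_pow]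
      gcongr
    linarith only [hkK, hfin, h4]
  · have h1 := hheight p (ξ i) (fun l => (hξL i l).trans
      (one_div_le_one_div_of_le (by linarith only [hc3]) (by linarith only [hc2, hLc, hUU]))) (s * k) τ.1 (box κ D)
    have h2 : ∀ γ, |(z i τ.1 γ : ℝ)| = den i τ.1 * ‖coeff τ.1 (coeff γ (jet a p (ξ i) (s * k)))‖ := by
      intro γ
      rw [← Complex.norm_intCast, hz', norm_mul, Complex.norm_natCast]
    simp only [h2]
    rw [← Finset.mul_sum, Finset.sum_coe_sort (box κ D)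
      fun γ => ‖coeff τ.1 (coeff γ (jet a p (ξ i) (s * k)))‖]
    have h3 : (2 : ℝ) ^ (n * D) ≤ (2 ^ (n * D)) ^ k :=
      le_self_pow₀ (one_le_pow₀ (by norm_num)) (by omega)
    have h4 : c3 ^ τ.1.degree ≤ (c3 ^ s) ^ k := by
      rw [← pow_mul]; exact pow_le_pow_right₀ hc3 τ.2.le
    rw [← hn'] at h1
    calc _ ≤ (256 ^ (s * n * D) * (L : ℝ) ^ e1) ^ k * (c1 ^ k * (2 ^ (n * D)) ^ k * (c3 ^ s) ^ k) := by
          refine mul_le_mul (hdenle i τ.1 τ.2) (h1.trans ?_) (by positivity) (by positivity)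
          gcongr
      _ = _ := by rw [hU]; simp only [mul_pow]; ring
  · have h1 := hsmall p (E * k) hpJ L (ξ i) (by linarith only [hc3, hLc, hUU]) (hξL i) (s * k) τ.1 τ.2.le
    rw [coeff_eval_C _ (jet a p (ξ i) (s * k)) (box κ D)
      (fun α hα => mem_box.2 fun j => (ev_support p _ _ α hα j).le)] at h1
    have h2 : ∑ γ : box κ D, (z i τ.1 γ.1 : ℂ) * mon (lam i) γ.1 = den i τ.1 *
        ∑ γ ∈ box κ D, coeff τ.1 (coeff γ (jet a p (ξ i) (s * k))) *
          ∏ j, Complex.log (1 + lin a (ξ i) j) ^ γ j := by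
      rw [Finset.mul_sum, ← Finset.sum_coe_sort (box κ D)]
      refine Finset.sum_congr rfl fun γ _ => ?_
      rw [hz', hlam, mon]; ring
    rw [h2, norm_mul, Complex.norm_natCast]
    have h4 : (L : ℝ) ^ τ.1.degree ≤ ((L : ℝ) ^ s) ^ k := by
      rw [← pow_mul]; exact pow_le_pow_right₀ hL1' τ.2.le
    calc _ ≤ (256 ^ (s * n * D) * (L : ℝ) ^ e1) ^ k *
          (c1 ^ k * ((L : ℝ) ^ s) ^ k * (c2 / L) ^ (E * k)) := by
          refine mul_le_mul (hdenle i τ.1 τ.2) (h1.trans ?_) (by positivity) (by positivity)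
          gcongr
      _ = _ := by rw [hU', pow_mul]; simp only [mul_pow, div_pow, pow_add]; ring

end Pool.Agent.MP_d171e3_nt.H31

end

-- part MP_d171e3_nt.H31.Sun
section

/-! A sunflower lemma for sets with equal sums. -/

namespace Pool.Agent.MP_d171e3_nt.H31

open MvPolynomial Finset

/-- Plan: induction on `h`. For `h ≤ 1` the family has at most one member. Otherwise take a
pairwise disjoint subfamily of maximal size. If it has `≥ K` members we are done with `j = h`.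
If not, its union `U` has `≤ h K` elements and meets every member, so some `x ∈ U` lies in more
than `(h K)^(h-1)` members; erase `x` and use the induction hypothesis with sum `s - x`. -/
theorem sunflower (K : ℕ) (hK : 2 ≤ K) (C : Finset ℕ) (h : ℕ) : ∀ (s : ℕ) (F : Finset (Finset ℕ)),
    (∀ B ∈ F, B ⊆ C ∧ B.card = h ∧ ∑ x ∈ B, x = s) → (h * K) ^ h < F.card →
    ∃ j s', 2 ≤ j ∧ j ≤ h ∧ ∃ G : Fin K → Finset ℕ,
      (∀ i, G i ⊆ C ∧ (G i).card = j ∧ ∑ x ∈ G i, x = s') ∧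
      ∀ i i', i ≠ i' → Disjoint (G i) (G i') := by
  classical
  induction h with
  | zero =>
    intro s F hF hc
    have : F.card ≤ 1 := card_le_one.2 fun a ha b hb => by
      rw [card_eq_zero.1 (hF a ha).2.1, card_eq_zero.1 (hF b hb).2.1]
    simp only [pow_zero] at hc
    omega
  | succ h ih =>
    intro s F hF hc
    rcases Nat.eq_zero_or_pos h with rfl | hpos
    · have key : ∀ a ∈ F, a = {s} := fun a ha => by
        obtain ⟨x, rfl⟩ := card_eq_one.1 (hF a ha).2.1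
        have := (hF _ ha).2.2
        rw [sum_singleton] at this
        rw [this]
      have : F.card ≤ 1 := card_le_one.2 fun a ha b hb => by rw [key a ha, key b hb]
      simp only [zero_add, one_mul, pow_one] at hc
      omega
    obtain ⟨M, hM, hmax⟩ := exists_max_image
      (F.powerset.filter fun M => ∀ a ∈ M, ∀ b ∈ M, a ≠ b → Disjoint a b) card
      ⟨∅, by simp only [ne_eq, mem_filter, mem_powerset, empty_subset, notMem_empty, IsEmpty.forall_iff, implies_true, and_self]⟩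
    obtain ⟨hM1, hM2⟩ := mem_filter.1 hM
    have hM1 := mem_powerset.1 hM1
    rcases le_or_gt K M.card with hle | hlt
    · obtain ⟨G, hG⟩ := Function.Embedding.exists_of_card_le_finset (α := Fin K) (s := M)
        (by simpa only [Fintype.card_fin] using hle)
      have hG' : ∀ i, G i ∈ M := fun i => hG ⟨i, rfl⟩
      exact ⟨h + 1, s, by omega, le_rfl, G, fun i => hF _ (hM1 (hG' i)),
        fun i i' e => hM2 _ (hG' i) _ (hG' i') (G.injective.ne e)⟩
    have hU : (M.biUnion id).card ≤ (h + 1) * K := by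
      refine (card_biUnion_le_card_mul M id (h + 1) fun a ha => (hF a (hM1 ha)).2.1.le).trans ?_
      rw [mul_comm]
      exact Nat.mul_le_mul_left _ hlt.le
    have hcov : F ⊆ (M.biUnion id).biUnion fun x => F.filter (x ∈ ·) := by
      intro B hB
      by_contra hn
      have hd : ∀ a ∈ M, Disjoint B a := fun a ha => disjoint_left.2 fun x hx hx' =>
        hn (mem_biUnion.2 ⟨x, mem_biUnion.2 ⟨a, ha, hx'⟩, mem_filter.2 ⟨hB, hx⟩⟩)
      have hBM : B ∉ M := fun hBM => by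
        have h1 := disjoint_self.1 (hd B hBM)
        have h2 := (hF B hB).2.1
        rw [h1] at h2
        simp at h2
      have := hmax (insert B M) (mem_filter.2 ⟨mem_powerset.2 (insert_subset hB hM1), ?_⟩)
      · rw [card_insert_of_notMem hBM] at this
        omega
      · intro a ha b hb hab
        rcases mem_insert.1 ha with rfl | ha' <;> rcases mem_insert.1 hb with rfl | hb'
        · exact absurd rfl hab
        · exact hd b hb'
        · exact (hd a ha').symm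
        · exact hM2 a ha' b hb' hab
    obtain ⟨x, hx⟩ : ∃ x, ((h + 1) * K) ^ h < (F.filter (x ∈ ·)).card := by
      by_contra hn
      push Not at hn
      have h1 := (card_le_card hcov).trans (card_biUnion_le_card_mul _ _ _ fun x _ => hn x)
      have h2 := Nat.mul_le_mul_right (((h + 1) * K) ^ h) hU
      rw [pow_succ'] at hc
      omega
    obtain ⟨j, s', h1, h2, h3⟩ := ih (s - x) ((F.filter (x ∈ ·)).image (·.erase x)) (by
      intro B hB
      obtain ⟨A, hA, rfl⟩ := mem_image.1 hB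
      obtain ⟨hA1, hA2⟩ := mem_filter.1 hA
      obtain ⟨k1, k2, k3⟩ := hF A hA1
      refine ⟨(erase_subset _ _).trans k1, by rw [card_erase_of_mem hA2, k2]; rfl, ?_⟩
      have := add_sum_erase A (fun y => y) hA2
      omega) (by
      rw [card_image_of_injOn]
      · exact lt_of_le_of_lt (Nat.pow_le_pow_left (Nat.mul_le_mul_right _ (Nat.le_succ h)) _) hx
      · intro A hA B hB e
        have hA2 := (mem_filter.1 hA).2
        have hB2 := (mem_filter.1 hB).2
        rw [← insert_erase hA2, ← insert_erase hB2]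
        exact congrArg _ e)
    exact ⟨j, s', h1, by omega, h3⟩

/-- Plan: pigeonhole (`Finset.exists_lt_card_fiber_of_mul_lt_card_of_maps_to`) for the sum map on
`C.powersetCard h`, with values in `Icc (h N) (h N + h Λ)`; `Nat.pow_le_choose` or
`Nat.pow_sub_le_descFactorial`; `n ≤ 2 (n + 1 - h)` when `n ≥ 2 h`. A possible constant is
`K' = (2h)^h * (h! * (h+1) * (h K)^h + 1)`. If `h = 0` the hypothesis fails for `K' ≥ 1`. -/
theorem equal_sums (K : ℕ) (hK : 2 ≤ K) (h : ℕ) : ∃ K' : ℕ, ∀ (N Λ : ℕ) (C : Finset ℕ),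
    (∀ q ∈ C, N ≤ q ∧ q ≤ N + Λ) → K' * (Λ + 1) < C.card ^ h →
    ∃ j s', 2 ≤ j ∧ j ≤ h ∧ ∃ G : Fin K → Finset ℕ,
      (∀ i, G i ⊆ C ∧ (G i).card = j ∧ ∑ x ∈ G i, x = s') ∧
      ∀ i i', i ≠ i' → Disjoint (G i) (G i') := by
  classical
  refine ⟨(2 * h) ^ h + 2 ^ h * h.factorial * ((h + 1) * (h * K) ^ h), fun N Λ C hC hc => ?_⟩
  have h1 : 2 * h ≤ C.card := by
    by_contra hn
    have := Nat.pow_le_pow_left (not_le.1 hn).le h
    linarith only [Nat.zero_le (2 ^ h * h.factorial * ((h + 1) * (h * K) ^ h)), Nat.zero_le (((2 * h) ^ h + 2 ^ h * h.factorial * ((h + 1) * (h * K) ^ h)) * Λ), hc, this]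
  have h2 : C.card ^ h ≤ 2 ^ h * h.factorial * C.card.choose h := by
    calc C.card ^ h ≤ (2 * (C.card + 1 - h)) ^ h := Nat.pow_le_pow_left (by omega) h
      _ = 2 ^ h * (C.card + 1 - h) ^ h := mul_pow _ _ _
      _ ≤ 2 ^ h * C.card.descFactorial h :=
          Nat.mul_le_mul_left _ (Nat.pow_sub_le_descFactorial _ _)
      _ = _ := by rw [Nat.descFactorial_eq_factorial_mul_choose, mul_assoc]
  have h3 : (h + 1) * (h * K) ^ h * (Λ + 1) < C.card.choose h := by
    refine lt_of_mul_lt_mul_left (a := 2 ^ h * h.factorial) ?_ (Nat.zero_le _)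
    refine lt_of_le_of_lt ?_ (hc.trans_le h2)
    rw [← mul_assoc]
    exact Nat.mul_le_mul_right _ (Nat.le_add_left _ _)
  obtain ⟨s, -, hs⟩ := exists_lt_card_fiber_of_mul_lt_card_of_maps_to (s := C.powersetCard h)
    (t := Icc (h * N) (h * N + h * Λ)) (f := fun B => ∑ x ∈ B, x) (n := (h * K) ^ h) (by
      intro B hB
      obtain ⟨k1, k2⟩ := mem_powersetCard.1 hB
      have k3 := card_nsmul_le_sum B (fun x => x) N fun x hx => (hC x (k1 hx)).1
      have k4 := sum_le_card_nsmul B (fun x => x) (N + Λ) fun x hx => (hC x (k1 hx)).2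
      rw [k2, smul_eq_mul] at k3 k4
      rw [mul_add] at k4
      exact mem_Icc.2 ⟨k3, k4⟩) (by
      rw [card_powersetCard, Nat.card_Icc]
      refine lt_of_le_of_lt ?_ h3
      rw [mul_right_comm]
      refine Nat.mul_le_mul_right _ ?_
      have : (h + 1) * (Λ + 1) = h * Λ + h + Λ + 1 := by ring
      omega)
  refine sunflower K hK C h s _ (fun B hB => ?_) hs
  obtain ⟨k1, k2⟩ := mem_filter.1 hB
  exact ⟨(mem_powersetCard.1 k1).1, (mem_powersetCard.1 k1).2, k2⟩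

/-- common shifts. Plan: `m = C.card / (r+1)`, an injection `f : Fin (r+1) × Fin m → ℕ` into `C`;
pigeonhole on `v : Fin (r+1) → Fin m` with the invariant `fun i : Fin r => f (i.succ, v i.succ) - f (0, v 0)`
in `[-Λ, Λ]^r` (`Finset.exists_le_card_fiber_of_mul_le_card_of_maps_to` or
`card_le_mul_card_image`): a largest fibre, `C'` = its image under `v ↦ f (0, v 0)` (injective on
the fibre), `t 0 = 0`. If `m = 0` take `C' = ∅`. -/
theorem shifts (r : ℕ) (N Λ : ℕ) (C : Finset ℕ) (hC : ∀ q ∈ C, N ≤ q ∧ q ≤ N + Λ) :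
    ∃ (C' : Finset ℕ) (t : Fin (r + 1) → ℤ) (g : Fin (r + 1) → ℕ → ℕ), C' ⊆ C ∧
      (C.card / (r + 1)) ^ (r + 1) ≤ C'.card * (2 * Λ + 1) ^ r ∧ (∀ i, |t i| ≤ Λ) ∧
      (∀ i, ∀ q ∈ C', g i q ∈ C ∧ (g i q : ℤ) = q + t i) ∧
      ∀ i i', ∀ q ∈ C', ∀ q' ∈ C', g i q = g i' q' → i = i' ∧ q = q' := by
  classical
  obtain ⟨f, hf⟩ := Function.Embedding.exists_of_card_le_finset
    (α := Fin (r + 1) × Fin (C.card / (r + 1))) (s := C)
    (by simpa only [Fintype.card_prod, Fintype.card_fin] using Nat.mul_div_le C.card (r + 1))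
  have hf' : ∀ z, f z ∈ C := fun z => hf ⟨z, rfl⟩
  set φ : (Fin (r + 1) → Fin (C.card / (r + 1))) → Fin r → ℤ :=
    fun v i => (f (i.succ, v i.succ) : ℤ) - f (0, v 0) with hφ
  set T : Finset (Fin r → ℤ) := Fintype.piFinset fun _ => Icc (-(Λ : ℤ)) Λ with hT
  have hTc : T.card = (2 * Λ + 1) ^ r := by
    rw [hT, Fintype.card_piFinset_const, Int.card_Icc]
    congr 1
    omega
  obtain ⟨τ, hτ, hmax⟩ := exists_max_image T (fun τ => (univ.filter (φ · = τ)).card)
    ⟨fun _ => 0, Fintype.mem_piFinset.2 fun _ => mem_Icc.2 ⟨by omega, by omega⟩⟩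
  have hsum : (C.card / (r + 1)) ^ (r + 1) ≤ T.card * (univ.filter (φ · = τ)).card := by
    have h1 := card_eq_sum_card_fiberwise (s := univ) (t := T) (f := φ) fun v _ =>
      Fintype.mem_piFinset.2 fun i => by
        have k1 := hC _ (hf' (i.succ, v i.succ))
        have k2 := hC _ (hf' (0, v 0))
        simp only [hφ, mem_Icc]
        omega
    have h2 := sum_le_card_nsmul T _ _ hmax
    rw [← h1, smul_eq_mul] at h2
    simpa only [ge_iff_le, card_univ, Fintype.card_pi, Fintype.card_fin, prod_const] using h2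
  have key : ∀ v ∈ univ.filter (φ · = τ), ∀ i,
      (f (0, v 0) : ℤ) + (Fin.cons 0 τ : Fin (r + 1) → ℤ) i = f (i, v i) := by
    intro v hv i
    have h1 := (mem_filter.1 hv).2
    refine Fin.cases ?_ (fun i => ?_) i
    · simp
    · rw [Fin.cons_succ, ← h1]
      simp [hφ]
  refine ⟨(univ.filter (φ · = τ)).image fun v => f (0, v 0), Fin.cons 0 τ,
    fun i q => ((q : ℤ) + (Fin.cons 0 τ : Fin (r + 1) → ℤ) i).toNat, ?_, ?_, ?_, ?_, ?_⟩
  · intro q hq
    obtain ⟨v, -, rfl⟩ := mem_image.1 hq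
    exact hf' _
  · rw [card_image_of_injOn, ← hTc, mul_comm]
    · exact hsum
    · intro v hv v' hv' e
      funext i
      have k1 := key v hv i
      have k2 := key v' hv' i
      simp only at e
      rw [e, k2] at k1
      exact (Prod.mk.inj (f.injective (Int.natCast_inj.1 k1))).2.symm
  · intro i
    refine Fin.cases ?_ (fun i => ?_) i
    · simp
    · rw [Fin.cons_succ]
      exact abs_le.2 (mem_Icc.1 (Fintype.mem_piFinset.1 hτ i))
  · intro i q hq
    obtain ⟨v, hv, rfl⟩ := mem_image.1 hq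
    simp only [key v hv i, Int.toNat_natCast]
    exact ⟨hf' _, trivial⟩
  · intro i i' q hq q' hq' e
    obtain ⟨v, hv, rfl⟩ := mem_image.1 hq
    obtain ⟨v', hv', rfl⟩ := mem_image.1 hq'
    simp only [key v hv i, key v' hv' i', Int.toNat_natCast] at e
    obtain rfl : i = i' := (Prod.mk.inj (f.injective e)).1
    have k1 := key v hv i
    have k2 := key v' hv' i
    exact ⟨rfl, by omega⟩

end Pool.Agent.MP_d171e3_nt.H31

end

-- part MP_d171e3_nt.H31.Pattern
section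

/-! Additive patterns with many elements and few parameters. -/

namespace Pool.Agent.MP_d171e3_nt.H31

open MvPolynomial Finset

/-- the matrix of the forms -/
def patternA (r m : ℕ) (j : Fin (r + 3) × Option (Fin m) × Fin (r + 1)) :
    Fin (r + 1) ⊕ (Fin (r + 3) × Fin m) ⊕ Unit → ℤ :=
  Sum.elim (fun i => if i = j.2.2 then 1 else 0) (Sum.elim
    (fun z => if z.1 = j.1 then j.2.1.elim (-1) (fun v => if z.2 = v then 1 else 0) else 0)
    fun _ => j.2.1.elim 1 fun _ => 0)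

lemma pattern_some {r m : ℕ} (x : Fin (r + 1) ⊕ (Fin (r + 3) × Fin m) ⊕ Unit → ℤ) (g : Fin (r + 3))
    (v : Fin m) (i : Fin (r + 1)) :
    lin (patternA r m) x (g, some v, i) = x (.inl i) + x (.inr (.inl (g, v))) := by
  simp only [lin, patternA, Int.reduceNeg, Option.elim_some, Int.cast_eq, Fintype.sum_sum_type, Sum.elim_inl, ite_mul, one_mul, zero_mul, sum_ite_eq', mem_univ, ↓ reduceIte, Sum.elim_inr, Fintype.sum_prod_type, sum_ite_irrel, sum_const_zero, univ_unique, PUnit.default_eq_unit, add_zero]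

lemma pattern_none {r m : ℕ} (x : Fin (r + 1) ⊕ (Fin (r + 3) × Fin m) ⊕ Unit → ℤ) (g : Fin (r + 3))
    (i : Fin (r + 1)) : lin (patternA r m) x (g, none, i) =
      x (.inl i) + (-∑ v, x (.inr (.inl (g, v))) + x (.inr (.inr ()))) := by
  simp only [lin, patternA, Int.reduceNeg, Option.elim_none, Int.cast_eq, Fintype.sum_sum_type, Sum.elim_inl, ite_mul, one_mul, zero_mul, sum_ite_eq', mem_univ, ↓ reduceIte, Sum.elim_inr, neg_mul, Fintype.sum_prod_type_right, sum_neg_distrib, univ_unique, PUnit.default_eq_unit, sum_singleton]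

lemma pattern_count {r h K Λ c c' : ℕ} (h1 : (c / (r + 1)) ^ (r + 1) ≤ c' * (2 * Λ + 1) ^ r)
    (h2 : (2 * (r + 1)) ^ ((r + 1) * h) * (2 ^ (r * h) * (K + 1)) * (Λ + 1) ^ (r * h + 1) <
      c ^ ((r + 1) * h)) : K * (Λ + 1) < c' ^ h := by
  by_contra hn
  refine absurd h2 (not_lt.2 ?_)
  rcases Nat.eq_zero_or_pos (c / (r + 1)) with h0 | h0
  · have : c ≤ 2 * (r + 1) := by
      have := (Nat.div_eq_zero_iff.1 h0).resolve_left (by omega)
      omega
    exact (Nat.pow_le_pow_left this _).trans ((Nat.le_mul_of_pos_right _ (by positivity)).trans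
      (Nat.le_mul_of_pos_right _ (by positivity)))
  · have h3 : c ≤ 2 * (r + 1) * (c / (r + 1)) := by
      have := Nat.lt_mul_div_succ c (Nat.succ_pos r)
      nlinarith only [h0, this]
    calc c ^ ((r + 1) * h) ≤ (2 * (r + 1) * (c / (r + 1))) ^ ((r + 1) * h) := by gcongr
      _ = (2 * (r + 1)) ^ ((r + 1) * h) * ((c / (r + 1)) ^ (r + 1)) ^ h := by
        rw [mul_pow _ (c / (r + 1)), ← pow_mul]
      _ ≤ (2 * (r + 1)) ^ ((r + 1) * h) * (c' * (2 * (Λ + 1)) ^ r) ^ h := by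
        gcongr
        exact h1.trans (by gcongr; omega)
      _ = (2 * (r + 1)) ^ ((r + 1) * h) * (c' ^ h * (2 ^ (r * h) * (Λ + 1) ^ (r * h))) := by
        rw [mul_pow c', ← pow_mul, mul_pow 2 (Λ + 1)]
      _ ≤ (2 * (r + 1)) ^ ((r + 1) * h) *
          ((K + 1) * (Λ + 1) * (2 ^ (r * h) * (Λ + 1) ^ (r * h))) := by
        gcongr
        exact (not_lt.1 hn).trans (by gcongr; omega)
      _ = _ := by ring

lemma pattern_aux (r h S : ℕ) : ∃ K : ℕ, ∀ (N Λ : ℕ) (C : Finset ℕ),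
    (∀ q ∈ C, N ≤ q ∧ q ≤ N + Λ) → K * (Λ + 1) ^ (r * h + 1) < C.card ^ ((r + 1) * h) →
    ∃ m, m < h ∧ ∃ (q0 : ℕ) (q : Fin S → Fin (r + 3) × Option (Fin m) × Fin (r + 1) → ℕ)
      (b : Fin S → Fin (r + 1) ⊕ (Fin (r + 3) × Fin m) ⊕ Unit → ℤ),
      q0 ∈ C ∧ (∀ i j, q i j ∈ C) ∧ (∀ i j i' j', q i j = q i' j' → i = i' ∧ j = j') ∧
      (∀ i l, |b i l| ≤ h * Λ) ∧ ∀ i j, (q i j : ℤ) = q0 + lin (patternA r m) (b i) j := by
  obtain ⟨K, hK⟩ := equal_sums (S * (r + 3) + 2) (by omega) h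
  refine ⟨(2 * (r + 1)) ^ ((r + 1) * h) * (2 ^ (r * h) * (K + 1)), fun N Λ C hC hlt => ?_⟩
  obtain ⟨C', t, g, hsub, hcard, ht, hg, hinj⟩ := shifts r N Λ C hC
  obtain ⟨j, s', hj2, hjh, G, hG, hdis⟩ := hK N Λ C' (fun q hq => hC q (hsub hq))
    (pattern_count hcard hlt)
  obtain ⟨m, rfl⟩ : ∃ m, j = m + 1 := ⟨j - 1, by omega⟩
  have hen : ∀ k, ∃ f : Option (Fin m) → ℕ, (∀ o, f o ∈ G k) ∧ Function.Injective f ∧
      ∑ o, f o = s' := fun k => by
    let e : Option (Fin m) ≃ G k := Fintype.equivOfCardEq (by simp only [Fintype.card_option, Fintype.card_fin, Fintype.card_coe, (hG k).2.1, Nat.add_left_cancel_iff])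
    refine ⟨fun o => e o, fun o => (e o).2, Subtype.val_injective.comp e.injective, ?_⟩
    rw [e.sum_comp fun x => (x : ℕ), ← (hG k).2.2]
    exact sum_coe_sort (G k) fun x => x
  choose f hf1 hf2 hf3 using hen
  obtain ⟨ix, hix⟩ : ∃ ix : Fin S × Fin (r + 3) → Fin (S * (r + 3) + 2), Function.Injective ix :=
    ⟨_, (Fin.castLE_injective (Nat.le_add_right _ 2)).comp finProdFinEquiv.injective⟩
  have hfC : ∀ k o, f k o ∈ C' := fun k o => (hG k).1 (hf1 k o)
  have hq0 := hsub (hfC ⟨0, by omega⟩ none)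
  generalize f ⟨0, by omega⟩ none = q0 at hq0
  have hd : ∀ k o, |(f k o : ℤ) - q0| ≤ Λ := fun k o => by
    have h1 := hC _ (hsub (hfC k o))
    have h2 := hC _ hq0
    rw [abs_le]
    omega
  have hs : ∀ k, (s' : ℤ) - (m + 1) * q0 = ∑ o, ((f k o : ℤ) - q0) := fun k => by
    rw [sum_sub_distrib, ← hf3 k]
    simp only [Fintype.sum_option, Nat.cast_add, Nat.cast_sum, sum_const, card_univ, Fintype.card_option, Fintype.card_fin, Int.nsmul_eq_mul, Nat.cast_one]
  have hΛ : (Λ : ℤ) ≤ h * Λ := le_mul_of_one_le_left (by positivity) (by exact_mod_cast (by omega))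
  refine ⟨m, hjh, q0, fun i j => g j.2.2 (f (ix (i, j.1)) j.2.1),
    fun i => Sum.elim t (Sum.elim (fun z => f (ix (i, z.1)) (some z.2) - q0)
      fun _ => s' - (m + 1) * q0), hq0, fun i j => (hg _ _ (hfC _ _)).1, ?_, ?_, ?_⟩
  · rintro i ⟨a, o, b⟩ i' ⟨a', o', b'⟩ he
    obtain ⟨h1, h2⟩ := hinj _ _ _ (hfC _ _) _ (hfC _ _) he
    have h3 : ix (i, a) = ix (i', a') := by
      by_contra hne
      exact disjoint_left.1 (hdis _ _ hne) (hf1 _ o) (h2 ▸ hf1 _ o')
    obtain ⟨rfl, rfl⟩ := Prod.mk.inj (hix h3)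
    exact ⟨rfl, Prod.ext rfl (Prod.ext (hf2 _ h2) h1)⟩
  · rintro i (l | l | l)
    · exact (ht l).trans hΛ
    · exact (hd _ _).trans hΛ
    · change |(s' : ℤ) - (m + 1) * q0| ≤ h * Λ
      rw [hs ⟨0, by omega⟩]
      refine (abs_sum_le_sum_abs _ _).trans ((sum_le_card_nsmul _ _ _ fun o _ => hd _ o).trans ?_)
      rw [card_univ, Fintype.card_option, Fintype.card_fin, nsmul_eq_mul]
      gcongr
  · rintro i ⟨a, o, b⟩
    rw [(hg _ _ (hfC _ _)).2]
    cases o with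
    | none =>
      rw [pattern_none]
      simp only [Sum.elim_inl, Sum.elim_inr]
      rw [hs (ix (i, a)), Fintype.sum_option]
      ring
    | some v =>
      rw [pattern_some]
      simp only [Sum.elim_inl, Sum.elim_inr]
      ring

/-- Plan: `s = r + 3`. For `m` let `κ m = Fin s × Option (Fin m) × Fin (r+1)` and
`ι m = Fin (r+1) ⊕ (Fin s × Fin m) ⊕ Unit`, `n m = card (κ m)`, `w m + 1 = card (ι m) = r+1+s m+1`;
transport the matrix of the forms
`(g, some v, i) ↦ e (g, v) + t i`, `(g, none, i) ↦ σ - ∑ v, e (g, v) + t i` by `Fintype.equivFin`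
(or prove a version with the types `κ m`, `ι m` first). Given `S`: `shifts`, then `equal_sums` in
`C'` with `K = s * S + 2` (sets indexed by `Fin S × Fin s`), `j = m + 1`, enumerate each set by
`Option (Fin m)`; `q0` any element of `C`, `e (g, v) = c - q0`, `σ = s' - (m+1) q0`.
Counting: if `C.card ≥ r + 1` then `C.card ≤ 2 (r+1) (C.card / (r+1))`, so
`C.card^((r+1)h) ≤ (2(r+1))^((r+1)h) C'.card^h (2Λ+1)^(r h)`. -/
theorem pattern (r h : ℕ) : ∃ (w n : ℕ → ℕ) (a : ∀ m, Fin (n m) → Fin (w m + 1) → ℤ),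
    (∀ m, (r + 1) * (w m + 1) < n m) ∧ ∀ S : ℕ, ∃ K : ℕ, ∀ (N Λ : ℕ) (C : Finset ℕ),
      (∀ q ∈ C, N ≤ q ∧ q ≤ N + Λ) → K * (Λ + 1) ^ (r * h + 1) < C.card ^ ((r + 1) * h) →
      ∃ m, m < h ∧ ∃ (q0 : ℕ) (q : Fin S → Fin (n m) → ℕ) (b : Fin S → Fin (w m + 1) → ℤ),
        q0 ∈ C ∧ (∀ i j, q i j ∈ C) ∧
        Function.Injective (fun z : Fin S × Fin (n m) => q z.1 z.2) ∧
        (∀ i l, |b i l| ≤ h * Λ) ∧ ∀ i j, (q i j : ℤ) = q0 + lin (a m) (b i) j := by
  have e : ∀ m, Fin (r + 1 + (r + 3) * m + 1) ≃ Fin (r + 1) ⊕ (Fin (r + 3) × Fin m) ⊕ Unit :=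
    fun m => Fintype.equivOfCardEq (by simp only [add_assoc, Fintype.card_fin, Fintype.card_sum, Fintype.card_prod, Fintype.card_unique, Nat.add_left_cancel_iff])
  have e' : ∀ m, Fin ((r + 3) * ((m + 1) * (r + 1))) ≃ Fin (r + 3) × Option (Fin m) × Fin (r + 1) :=
    fun m => Fintype.equivOfCardEq (by simp only [Fintype.card_fin, Fintype.card_prod, Fintype.card_option])
  refine ⟨fun m => r + 1 + (r + 3) * m, fun m => (r + 3) * ((m + 1) * (r + 1)),
    fun m j l => patternA r m (e' m j) (e m l), fun m => by linarith only [], fun S => ?_⟩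
  obtain ⟨K, hK⟩ := pattern_aux r h S
  refine ⟨K, fun N Λ C hC hlt => ?_⟩
  obtain ⟨m, hm, q0, q, b, h1, h2, h3, h4, h5⟩ := hK N Λ C hC hlt
  refine ⟨m, hm, q0, fun i j => q i (e' m j), fun i l => b i (e m l), h1, fun i j => h2 _ _,
    fun z z' hz => ?_, fun i l => h4 _ _, fun i j => ?_⟩
  · obtain ⟨k1, k2⟩ := h3 _ _ _ _ hz
    exact Prod.ext k1 ((e' m).injective k2)
  · rw [h5]
    exact congrArg _ ((e m).sum_comp fun l => (patternA r m (e' m j) l : ℤ) * b i l).symm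

end Pool.Agent.MP_d171e3_nt.H31

end
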