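import Pool.Agent.MP_d171e3_nt.Mg.H31_EvPoly
import Pool.Agent.MP_d171e3_nt.Mg.H31_Pattern

-- part MP_d171e3_nt.H31.Cover
section

/-! From short intervals to the count up to X. -/

namespace Pool.Agent.MP_d171e3_nt.H31

open MvPolynomial Finset

theorem cover_block (r h A K L0 : ℕ) (hh : 1 ≤ h) (P : Set ℕ) [DecidablePred (· ∈ P)]
    (hP : ∀ (L N Λ : ℕ) (C : Finset ℕ), L0 ≤ L → N + Λ ≤ L ^ A → h * Λ * L ≤ N →
      (∀ q ∈ C, q ∈ P ∧ N ≤ q ∧ q ≤ N + Λ) →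
      C.card ^ ((r + 1) * h) ≤ K * (Λ + 1) ^ (r * h + 1))
    (X L : ℕ) (hX : 1 ≤ X) (hL : L0 ≤ L) (hL2 : 2 * X ≤ L ^ A) (m : ℝ)
    (hm : ∀ n : ℕ, n ^ ((r + 1) * h) ≤ K * (2 * X) ^ (r * h + 1) → (n : ℝ) ≤ m) :
    (((Ioc (X / 2) X).filter (· ∈ P)).card : ℝ) ≤ ((h * L + 1 : ℕ) : ℝ) * m := by
  obtain ⟨Y, hY⟩ : ∃ Y, Y = X / 2 + 1 := ⟨_, rfl⟩
  obtain ⟨Λ, hΛ⟩ : ∃ Λ, Λ = Y / (h * L + 1) := ⟨_, rfl⟩
  have hYX : Y ≤ X := by omega
  have h1 : Λ * (h * L + 1) ≤ Y := by rw [hΛ]; exact Nat.div_mul_le_self _ _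
  have h2 : Y < (h * L + 1) * (Λ + 1) := by
    rw [hΛ]; exact Nat.lt_mul_div_succ _ (by omega)
  have hΛY : Λ ≤ Y := by rw [hΛ]; exact Nat.div_le_self _ _
  have hmaps : ∀ q ∈ (Ioc (X / 2) X).filter (· ∈ P), (q - Y) / (Λ + 1) ∈ range (h * L + 1) := by
    intro q hq
    rw [mem_filter, mem_Ioc] at hq
    rw [mem_range, Nat.div_lt_iff_lt_mul (by omega)]
    omega
  rw [card_eq_sum_card_fiberwise hmaps]
  push_cast [Nat.cast_sum]
  have hb : ∀ j ∈ range (h * L + 1),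
      (((((Ioc (X / 2) X).filter (· ∈ P)).filter (fun q => (q - Y) / (Λ + 1) = j)).card : ℕ) : ℝ)
        ≤ m := by
    intro j _
    apply hm
    rcases (((Ioc (X / 2) X).filter (· ∈ P)).filter
      (fun q => (q - Y) / (Λ + 1) = j)).eq_empty_or_nonempty with he | ⟨q0, hq0⟩
    · rw [he, card_empty, zero_pow (by positivity)]; exact Nat.zero_le _
    · have key : ∀ q ∈ ((Ioc (X / 2) X).filter (· ∈ P)).filter
          (fun q => (q - Y) / (Λ + 1) = j), q ∈ P ∧ Y + (Λ + 1) * j ≤ q ∧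
            q ≤ Y + (Λ + 1) * j + Λ ∧ q ≤ X := by
        intro q hq
        rw [mem_filter, mem_filter, mem_Ioc] at hq
        obtain ⟨⟨⟨ha, hb⟩, hc⟩, hd⟩ := hq
        have e1 := Nat.div_add_mod (q - Y) (Λ + 1)
        have e2 := Nat.mod_lt (q - Y) (show 0 < Λ + 1 by omega)
        rw [hd] at e1
        exact ⟨hc, by omega, by omega, hb⟩
      have k0 := key q0 hq0
      have h3 : h * Λ * L ≤ Y + (Λ + 1) * j := by
        have : h * Λ * L ≤ Λ * (h * L + 1) := by linarith only []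
        omega
      have := hP L (Y + (Λ + 1) * j) Λ _ hL (by omega) h3
        (fun q hq => ⟨(key q hq).1, (key q hq).2.1, (key q hq).2.2.1⟩)
      refine this.trans (Nat.mul_le_mul_left _ (Nat.pow_le_pow_left (by omega) _))
  have := sum_le_card_nsmul _ _ _ hb
  rw [card_range, nsmul_eq_mul] at this
  push_cast at this
  exact this

theorem cover_block2 (r h A K L0 : ℕ) (hh : 1 ≤ h) (hA : 1 ≤ A) : ∃ c : ℝ, 0 ≤ c ∧
    ∀ (P : Set ℕ) [DecidablePred (· ∈ P)],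
    (∀ (L N Λ : ℕ) (C : Finset ℕ), L0 ≤ L → N + Λ ≤ L ^ A → h * Λ * L ≤ N →
      (∀ q ∈ C, q ∈ P ∧ N ≤ q ∧ q ≤ N + Λ) →
      C.card ^ ((r + 1) * h) ≤ K * (Λ + 1) ^ (r * h + 1)) →
    ∀ X : ℕ, 1 ≤ X → (((Ioc (X / 2) X).filter (· ∈ P)).card : ℝ) ≤
      c * (X : ℝ) ^ (1 - 1 / ((r : ℝ) + 1) + 1 / (((r : ℝ) + 1) * h) + 1 / (A : ℝ)) := by
  obtain ⟨e, he⟩ : ∃ e : ℕ, e = (r + 1) * h := ⟨_, rfl⟩
  have he0 : e ≠ 0 := by rw [he]; positivity
  have hh' : (0 : ℝ) < h := by exact_mod_cast hh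
  have hA' : (0 : ℝ) < A := by exact_mod_cast hA
  obtain ⟨g, hg⟩ : ∃ g : ℝ, g = 1 - 1 / ((r : ℝ) + 1) + 1 / (((r : ℝ) + 1) * h) := ⟨_, rfl⟩
  have hge : ((r * h + 1 : ℕ) : ℝ) * (e : ℝ)⁻¹ = g := by
    rw [hg, he]; push_cast; field_simp; ring
  refine ⟨((h * (L0 + 1) + 1 : ℝ) + h * 2 ^ (1 / (A : ℝ))) * ((K : ℝ) ^ (e : ℝ)⁻¹ * 2 ^ g),
    by positivity, ?_⟩
  intro P _ hP X hX
  have hX' : (1 : ℝ) ≤ X := by exact_mod_cast hX
  have hX0 : (0 : ℝ) < X := by linarith only [hX']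
  obtain ⟨t, ht⟩ : ∃ t : ℝ, t = (2 * X : ℝ) ^ (1 / (A : ℝ)) := ⟨_, rfl⟩
  have ht0 : 0 ≤ t := by rw [ht]; positivity
  have htA : t ^ A = 2 * X := by
    rw [ht, one_div, Real.rpow_inv_natCast_pow (by positivity) (by omega)]
  have hL2 : 2 * X ≤ (L0 + ⌈t⌉₊) ^ A := by
    have h1 : t ≤ ((L0 + ⌈t⌉₊ : ℕ) : ℝ) := by
      push_cast
      have := Nat.le_ceil t
      have : (0 : ℝ) ≤ L0 := by positivity
      linarith
    have h2 := pow_le_pow_left₀ ht0 h1 A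
    rw [htA] at h2
    exact_mod_cast h2
  have hb := cover_block r h A K L0 hh P hP X (L0 + ⌈t⌉₊) hX (by omega) hL2
    ((K : ℝ) ^ (e : ℝ)⁻¹ * 2 ^ g * (X : ℝ) ^ g) (by
      intro n hn
      rw [← he] at hn
      have h1 : ((n : ℝ)) ^ e ≤ K * (2 * X : ℝ) ^ (r * h + 1) := by exact_mod_cast hn
      have h2 := Real.rpow_le_rpow (by positivity) h1 (show (0 : ℝ) ≤ (e : ℝ)⁻¹ by positivity)
      rw [Real.pow_rpow_inv_natCast (by positivity) he0, Real.mul_rpow (by positivity)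
        (by positivity), ← Real.rpow_natCast_mul (by positivity), hge,
        Real.mul_rpow (by positivity) (by positivity)] at h2
      linarith only [h2])
  refine hb.trans ?_
  rw [← hg, Real.rpow_add hX0]
  have h1 : (1 : ℝ) ≤ (X : ℝ) ^ (1 / (A : ℝ)) := Real.one_le_rpow hX' (by positivity)
  have h2 : t = 2 ^ (1 / (A : ℝ)) * (X : ℝ) ^ (1 / (A : ℝ)) := by
    rw [ht, Real.mul_rpow (by positivity) (by positivity)]
  have h3 : ((h * (L0 + ⌈t⌉₊) + 1 : ℕ) : ℝ) ≤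
      ((h * (L0 + 1) + 1 : ℝ) + h * 2 ^ (1 / (A : ℝ))) * (X : ℝ) ^ (1 / (A : ℝ)) := by
    push_cast
    have h4 := (Nat.ceil_lt_add_one ht0).le
    have h5 : (h : ℝ) * (L0 + ⌈t⌉₊) ≤ h * (L0 + (t + 1)) := by gcongr
    have h6 : (h * (L0 + 1) + 1 : ℝ) ≤ (h * (L0 + 1) + 1 : ℝ) * (X : ℝ) ^ (1 / (A : ℝ)) :=
      le_mul_of_one_le_right (by positivity) h1
    have h7 : (h : ℝ) * t = h * 2 ^ (1 / (A : ℝ)) * (X : ℝ) ^ (1 / (A : ℝ)) := by rw [h2]; ring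
    linarith only [h5, h6, h7]
  calc _ ≤ (((h * (L0 + 1) + 1 : ℝ) + h * 2 ^ (1 / (A : ℝ))) * (X : ℝ) ^ (1 / (A : ℝ))) *
        ((K : ℝ) ^ (e : ℝ)⁻¹ * 2 ^ g * (X : ℝ) ^ g) := by gcongr
    _ = _ := by ring

theorem cover_rec (f : ℕ → ℝ) (c g : ℝ) (hc : 0 ≤ c) (hg : 0 < g) (h1 : f 1 ≤ 2)
    (hr : ∀ X, 1 ≤ X → f X ≤ f (X / 2) + c * (X : ℝ) ^ g) :
    ∀ X : ℕ, 1 ≤ X → f X ≤ (2 + c / (1 - (1 / 2) ^ g)) * (X : ℝ) ^ g := by
  have hq : (1 / 2 : ℝ) ^ g < 1 := Real.rpow_lt_one (by norm_num) (by norm_num) hg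
  have hq0 : 0 < (1 / 2 : ℝ) ^ g := by positivity
  obtain ⟨q, hqq⟩ : ∃ q : ℝ, q = (1 / 2 : ℝ) ^ g := ⟨_, rfl⟩
  rw [← hqq] at hq hq0 ⊢
  have hD : 0 ≤ c / (1 - q) := div_nonneg hc (by linarith)
  have hD2 : c / (1 - q) * (1 - q) = c := div_mul_cancel₀ _ (by linarith only [hq])
  intro X
  induction X using Nat.strong_induction_on with
  | _ X ih =>
    intro hX
    rcases Nat.lt_or_ge X 2 with h2 | h2
    · obtain rfl : X = 1 := by omega
      simp only [Nat.cast_one, Real.one_rpow]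
      linarith only [h1, hD]
    · have a1 := ih (X / 2) (by omega) (by omega)
      have a2 := hr X hX
      have a3 : ((X / 2 : ℕ) : ℝ) ^ g ≤ q * (X : ℝ) ^ g := by
        rw [hqq, ← Real.mul_rpow (by norm_num) (by positivity)]
        refine Real.rpow_le_rpow (by positivity) ?_ hg.le
        have := @Nat.cast_div_le ℝ _ _ _ X 2
        push_cast at this
        linarith only [this]
      have a4 : (0 : ℝ) ≤ (X : ℝ) ^ g := by positivity
      have a5 : (2 + c / (1 - q)) * ((X / 2 : ℕ) : ℝ) ^ g ≤ (2 + c / (1 - q)) * (q * (X : ℝ) ^ g) :=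
        mul_le_mul_of_nonneg_left a3 (by linarith only [hq0, hq, hD])
      have a6 : (2 + c / (1 - q)) * q + c ≤ 2 + c / (1 - q) := by linarith only [hq, hD2]
      have a7 := mul_le_mul_of_nonneg_right a6 a4
      linarith only [a1, a2, a5, a7]

/-- Dyadic covering by short intervals. -/
theorem cover (r h A K L0 : ℕ) (hh : 1 ≤ h) (hA : 1 ≤ A) : ∃ c : ℝ, ∀ P : Set ℕ,
    (∀ (L N Λ : ℕ) (C : Finset ℕ), L0 ≤ L → N + Λ ≤ L ^ A → h * Λ * L ≤ N →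
      (∀ q ∈ C, q ∈ P ∧ N ≤ q ∧ q ≤ N + Λ) →
      C.card ^ ((r + 1) * h) ≤ K * (Λ + 1) ^ (r * h + 1)) →
    ∀ X : ℕ, 1 ≤ X → (({q | q ∈ P ∧ q ≤ X}.ncard : ℕ) : ℝ) ≤
      c * (X : ℝ) ^ (1 - 1 / ((r : ℝ) + 1) + 1 / (((r : ℝ) + 1) * h) + 1 / (A : ℝ)) := by
  classical
  obtain ⟨c, hc, hb⟩ := cover_block2 r h A K L0 hh hA
  obtain ⟨g, hg⟩ : ∃ g : ℝ,
      g = 1 - 1 / ((r : ℝ) + 1) + 1 / (((r : ℝ) + 1) * h) + 1 / (A : ℝ) := ⟨_, rfl⟩
  have hh' : (0 : ℝ) < h := by exact_mod_cast hh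
  have hA' : (0 : ℝ) < A := by exact_mod_cast hA
  have hg0 : 0 < g := by
    have h1 : 1 / ((r : ℝ) + 1) ≤ 1 := by
      rw [div_le_one (by positivity)]
      have : (0 : ℝ) ≤ r := by positivity
      linarith only []
    have h2 : 0 < 1 / (((r : ℝ) + 1) * h) := by positivity
    have h3 : 0 < 1 / (A : ℝ) := by positivity
    linarith only [hg, h1, h2, h3]
  rw [← hg] at hb ⊢
  refine ⟨2 + c / (1 - (1 / 2) ^ g), fun P hP X hX => ?_⟩
  have hs : ∀ X : ℕ, {q | q ∈ P ∧ q ≤ X}.ncard = ((Iic X).filter (· ∈ P)).card := by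
    intro X
    rw [← Set.ncard_coe_finset]
    congr 1
    ext q
    simp only [and_comm, Set.mem_ofPred_eq, coe_filter, mem_Iic]
  rw [hs]
  refine cover_rec (fun X => (((Iic X).filter (· ∈ P)).card : ℝ)) c g hc hg0 ?_ ?_ X hX
  · have : ((Iic 1).filter (· ∈ P)).card ≤ 2 := (card_filter_le _ _).trans (by simp)
    exact_mod_cast this
  · intro X hX
    have h1 := hb P hP X hX
    have h2 : ((Iic X).filter (· ∈ P)).card ≤
        ((Iic (X / 2)).filter (· ∈ P)).card + ((Ioc (X / 2) X).filter (· ∈ P)).card := by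
      refine le_trans (card_le_card ?_) (card_union_le _ _)
      intro q hq
      simp only [mem_filter, mem_Iic, mem_union, mem_Ioc] at hq ⊢
      rcases Nat.lt_or_ge (X / 2) q with h | h
      · exact Or.inr ⟨⟨h, hq.1⟩, hq.2⟩
      · exact Or.inl ⟨h, hq.2⟩
    have h3 : (((Iic X).filter (· ∈ P)).card : ℝ) ≤
        ((Iic (X / 2)).filter (· ∈ P)).card + ((Ioc (X / 2) X).filter (· ∈ P)).card := by
      exact_mod_cast h2
    show (((Iic X).filter (· ∈ P)).card : ℝ) ≤ ((Iic (X / 2)).filter (· ∈ P)).card + _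
    linarith only [h1, h3]

end Pool.Agent.MP_d171e3_nt.H31

end

-- part MP_d171e3_nt.H31.Main
section

/-! Counting primes whose logarithms have bounded rank. -/

namespace Pool.Agent.MP_d171e3_nt.H31

open MvPolynomial Finset
open Pool.Agent.MP_d171e3_nt.H48 (Grow Dep lg grow_range eval_mem_pow rat_mem_pow_zero
  totalDegree_map_le)

lemma zpow_indep {κ : Type} [Fintype κ] (q q' : κ → ℕ) (hq : ∀ j, (q j).Prime)
    (hq' : ∀ j, (q' j).Prime) (hinj : Function.Injective q) (hne : ∀ j j', q j ≠ q' j')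
    (m : κ → ℤ) (h : ∏ j, (q j : ℂ) ^ m j = ∏ j, (q' j : ℂ) ^ m j) : m = 0 := by
  classical
  have h1 : ∏ j, (q j : ℚ) ^ m j = ∏ j, (q' j : ℚ) ^ m j := by
    apply Rat.cast_injective (α := ℂ)
    push_cast
    exact h
  funext j
  have := Fact.mk (hq j)
  have key : ∀ (x : κ → ℕ), (∀ i, (x i).Prime) → ∀ s : Finset κ,
      padicValRat (q j) (∏ i ∈ s, (x i : ℚ) ^ m i) = ∑ i ∈ s, if x i = q j then m i else 0 := by
    intro x hx s
    have h0 : ∀ i, (x i : ℚ) ≠ 0 := fun i => by exact_mod_cast (hx i).ne_zero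
    induction s using Finset.induction_on with
    | empty => simp
    | insert i s hi ih =>
      rw [Finset.prod_insert hi, Finset.sum_insert hi, padicValRat.mul (zpow_ne_zero _ (h0 i))
        (Finset.prod_ne_zero_iff.2 fun i _ => zpow_ne_zero _ (h0 i)), ih, padicValRat.zpow,
        padicValRat.of_nat]
      congr 1
      split_ifs with h
      · rw [h, padicValNat_self]; simp
      · have := Fact.mk (hx i)
        rw [padicValNat_primes (Ne.symm h)]; simp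
  have h2 := congrArg (padicValRat (q j)) h1
  rw [key q hq, key q' hq'] at h2
  simpa only [Pi.zero_apply, hinj.eq_iff, sum_ite_eq', mem_univ, ↓ reduceIte, fun i => (hne j i).symm, sum_const_zero] using h2

theorem interval (r h A : ℕ) (c : ℕ → ℕ) : ∃ K L0 : ℕ, ∀ (L N Λ : ℕ) (C : Finset ℕ),
    L0 ≤ L → N + Λ ≤ L ^ A → h * Λ * L ≤ N → (∀ q ∈ C, q.Prime ∧ N ≤ q ∧ q ≤ N + Λ) →
    (∀ U ⊆ C, ∃ W, Grow W (c U.card) (r + 1) ∧ ∀ q ∈ U, ∀ q' ∈ U, lg q - lg q' ∈ W) →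
    C.card ^ ((r + 1) * h) ≤ K * (Λ + 1) ^ (r * h + 1) := by
  classical
  obtain ⟨w, n, a, hn, hpat⟩ := pattern r h
  choose S L0 hcore using fun m => core (w m) (a m) (r + 1)
    (∑ i ∈ range (n m + 2), c i) A (by simpa only [Fintype.card_fin] using hn m)
  obtain ⟨K, hK⟩ := hpat (∑ m ∈ range h, S m)
  refine ⟨K, ∑ m ∈ range h, L0 m, fun L N Λ C hL hNL hΛ hC hW => ?_⟩
  by_contra hcon
  obtain ⟨m, hm, q0, q, b, hq0, hq, hinj, hb, hlin⟩ := hK N Λ C (fun q hq => (hC q hq).2)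
    (not_le.1 hcon)
  have hS : S m ≤ ∑ m ∈ range h, S m :=
    Finset.single_le_sum (f := S) (fun _ _ => Nat.zero_le _) (mem_range.2 hm)
  have hL0 : L0 m ≤ L :=
    (Finset.single_le_sum (f := L0) (fun _ _ => Nat.zero_le _) (mem_range.2 hm)).trans hL
  refine hcore m L hL0 q0 (fun i => q (Fin.castLE hS i)) (fun i => b (Fin.castLE hS i))
    (hC _ hq0).1.pos ((hC _ hq0).2.2.trans hNL)
    (fun i j => ⟨(hC _ (hq _ _)).1.pos, (hC _ (hq _ _)).2.2.trans hNL⟩) (fun i l => ?_)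
    (fun i j => hlin _ _) (fun i i' hii => ?_) (fun i => ?_)
  · have h1 : ((h * Λ * L : ℕ) : ℤ) ≤ q0 := by exact_mod_cast hΛ.trans (hC _ hq0).2.1
    push_cast at h1
    exact (mul_le_mul_of_nonneg_right (hb _ l) (by positivity)).trans h1
  · refine zpow_indep _ _ (fun j => (hC _ (hq _ _)).1) (fun j => (hC _ (hq _ _)).1)
      (fun j j' hj => ?_) (fun j j' hj => hii ?_)
    · exact congrArg Prod.snd (@hinj (_, j) (_, j') hj)
    · exact Fin.castLE_injective hS (congrArg Prod.fst (@hinj (_, j) (_, j') hj))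
  · obtain ⟨W, h1, h2⟩ := hW (insert q0 (univ.image (q (Fin.castLE hS i)))) (by
      intro x hx
      rcases mem_insert.1 hx with rfl | hx
      · exact hq0
      · obtain ⟨j, -, rfl⟩ := mem_image.1 hx
        exact hq _ _)
    refine ⟨W, h1.mono (Finset.single_le_sum (f := c) (fun _ _ => Nat.zero_le _)
      (mem_range.2 ?_)), fun j => h2 _ (mem_insert_of_mem (mem_image_of_mem _ (mem_univ j))) _
        (mem_insert_self _ _)⟩
    have := (card_insert_le q0 (univ.image (q (Fin.castLE hS i)))).trans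
      (Nat.succ_le_succ card_image_le)
    simp only [card_univ, Fintype.card_fin] at this
    omega

theorem rank_count (r : ℕ) (c : ℕ → ℕ) (ε : ℝ) (hε : 0 < ε) : ∃ C : ℝ, ∀ P : Set ℕ,
    (∀ q ∈ P, q.Prime) → (∀ U : Finset ℕ, (∀ q ∈ U, q ∈ P) →
      ∃ W, Grow W (c U.card) (r + 1) ∧ ∀ q ∈ U, ∀ q' ∈ U, lg q - lg q' ∈ W) →
    ∀ X : ℕ, 1 ≤ X → (({q | q ∈ P ∧ q ≤ X}.ncard : ℕ) : ℝ) ≤
      C * (X : ℝ) ^ (1 - 1 / ((r : ℝ) + 1) + ε) := by
  obtain ⟨h, hh⟩ := exists_nat_gt (2 / ε)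
  have hh0 : (0 : ℝ) < h := lt_trans (by positivity) hh
  have hh1 : 1 ≤ h := by exact_mod_cast hh0
  obtain ⟨K, L0, hK⟩ := interval r h h c
  obtain ⟨C, hC⟩ := cover r h h K L0 hh1 hh1
  refine ⟨|C|, fun P hP hW X hX => (hC P (fun L N Λ C h1 h2 h3 h4 => hK L N Λ C h1 h2 h3
    (fun q hq => ⟨hP q (h4 q hq).1, (h4 q hq).2⟩)
    fun U hU => hW U fun q hq => (h4 q (hU hq)).1) X hX).trans ?_⟩
  have hX1 : (1 : ℝ) ≤ X := by exact_mod_cast hX
  refine mul_le_mul (le_abs_self C) (Real.rpow_le_rpow_of_exponent_le hX1 ?_) (by positivity)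
    (abs_nonneg C)
  have h1 : 1 / (h : ℝ) ≤ ε / 2 := by
    rw [div_lt_iff₀ hε] at hh
    rw [div_le_div_iff₀ hh0 two_pos]; linarith only [hh]
  have h2 : 1 / (((r : ℝ) + 1) * h) ≤ 1 / h :=
    one_div_le_one_div_of_le hh0 (le_mul_of_one_le_left hh0.le (by simp))
  linarith only [h1, h2]

lemma grow_dep_finset {W : Submodule ℚ ℂ} {c p d : ℕ} (h : Grow W c p) (x : ℕ → ℂ)
    (U : Finset ℕ) (hU : ∀ q ∈ U, Dep d W (x q)) :
    Grow (W ⊔ Submodule.span ℚ (x '' U)) (c * (d * (d + 1) ^ p) ^ U.card) p := by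
  induction U using Finset.induction_on with
  | empty => simpa only [coe_empty, Set.image_empty, Submodule.span_empty, bot_le, sup_of_le_left, card_empty, pow_zero, mul_one] using h
  | insert a U ha ih =>
    rw [card_insert_of_notMem ha, coe_insert, Set.image_insert_eq, Submodule.span_insert,
      sup_comm (Submodule.span _ _), ← sup_assoc, pow_succ, ← mul_assoc]
    exact (ih fun q hq => hU q (mem_insert_of_mem hq)).dep
      ((hU a (mem_insert_self _ _)).mono le_sup_left)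

theorem dep_count (r d c : ℕ) (ε : ℝ) (hε : 0 < ε) : ∃ C : ℝ, ∀ (W : Submodule ℚ ℂ) (ω : ℂ),
    Grow W c (r + 1) → ∀ X : ℕ, 1 ≤ X →
      (({q : ℕ | (q.Prime ∧ Dep d W (ω + lg q)) ∧ q ≤ X}.ncard : ℕ) : ℝ) ≤
        C * (X : ℝ) ^ (1 - 1 / ((r : ℝ) + 1) + ε) := by
  obtain ⟨C, hC⟩ := rank_count r (fun n => c * (d * (d + 1) ^ (r + 1)) ^ n) ε hε
  refine ⟨C, fun W ω hW => hC {q : ℕ | q.Prime ∧ Dep d W (ω + lg q)} (fun q hq => hq.1)
    fun U hU => ⟨_, grow_dep_finset hW (fun q => ω + lg q) U fun q hq => (hU q hq).2,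
      fun q hq q' hq' => ?_⟩⟩
  rw [show lg q - lg q' = (ω + lg q) - (ω + lg q') by ring]
  exact sub_mem (Submodule.mem_sup_right (Submodule.subset_span ⟨q, hq, rfl⟩))
    (Submodule.mem_sup_right (Submodule.subset_span ⟨q', hq', rfl⟩))

theorem sparse_fibres (r d : ℕ) (hr : 1 ≤ r) (ε : ℝ) (hε : 0 < ε) : ∃ C : ℝ,
    ∀ (θ : Fin r → ℂ) (ω : ℂ) (X : ℕ), 1 ≤ X →
      (({q : ℕ | q.Prime ∧ q ≤ X ∧ ∃ G : Polynomial ℂ, G ≠ 0 ∧ G.natDegree ≤ d ∧
        (∀ j, ∃ P : MvPolynomial (Fin r) ℚ, P.totalDegree ≤ d ∧ aeval θ P = G.coeff j) ∧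
        G.eval (ω + ((Real.log q : ℝ) : ℂ)) = 0}.ncard : ℕ) : ℝ) ≤
      C * (X : ℝ) ^ (1 - 1 / (r : ℝ) + ε) := by
  obtain ⟨r, rfl⟩ : ∃ r', r = r' + 1 := ⟨r - 1, by omega⟩
  obtain ⟨C, hC⟩ := dep_count r d 1 ε hε
  refine ⟨C, fun θ ω X hX => ?_⟩
  have hW := grow_range θ
  have h1 := hC _ ω hW X hX
  rw [Nat.cast_add_one]
  refine le_trans (Nat.cast_le.2 (Set.ncard_le_ncard ?_ ?_)) h1
  · rintro q ⟨hq, hqX, G, h0, hd, hc, hG⟩
    refine ⟨⟨hq, G, h0, hd, fun j => ?_, hG⟩, hqX⟩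
    obtain ⟨P, hP, hPc⟩ := hc j
    rw [← hPc, aeval_def, eval₂_eq_eval_map]
    have := eval_mem_pow hW.1 (y := θ)
      (fun i => Submodule.mem_sup_right (Submodule.subset_span ⟨i, rfl⟩))
      (H := map (algebraMap ℚ ℂ) P) (a := 0) (b := d)
      (fun β => by rw [coeff_map]; exact rat_mem_pow_zero _ _)
      ((totalDegree_map_le _ _).trans hP)
    rwa [zero_add] at this
  · exact (Set.finite_Iic X).subset fun q hq => hq.2

end Pool.Agent.MP_d171e3_nt.H31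

end
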