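import Mathlib

-- part MP_d171e3_nt.H48.ExpS
section

/-! Formal exponential `exp (sum v_i s_i)` as a multivariate power series, coefficientwise
derivations, and the connection `T d - omega`. -/

namespace Pool.Agent.MP_d171e3_nt.H48

open MvPowerSeries Finset

variable {σ : Type*} [Fintype σ]

/-- product of the factorials of a multi-index -/
def fac (α : σ →₀ ℕ) : ℕ := ∏ i, (α i).factorial

lemma fac_ne_zero (α : σ →₀ ℕ) : fac α ≠ 0 :=
  Finset.prod_ne_zero_iff.2 fun _ _ => Nat.factorial_ne_zero _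

section
variable {R : Type*} [CommRing R]

/-- monomial -/
def mon (v : σ → R) (α : σ →₀ ℕ) : R := ∏ i, v i ^ α i

variable [Algebra ℂ R]

/-- the formal exponential -/
noncomputable def expS (v : σ → R) : MvPowerSeries σ R :=
  fun α => ((fac α : ℂ)⁻¹) • mon v α

lemma coeff_expS (v : σ → R) (α : σ →₀ ℕ) :
    coeff α (expS v) = ((fac α : ℂ)⁻¹) • mon v α := rfl

lemma coeff_expS' (v : σ → R) (α : σ →₀ ℕ) :
    coeff α (expS v) = ∏ i, (((α i).factorial : ℂ)⁻¹) • v i ^ α i := by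
  rw [coeff_expS, Finset.prod_smul, fac, mon]
  simp [Finset.prod_inv_distrib]

lemma add_pow_div (x y : R) (a : ℕ) :
    ((a.factorial : ℂ)⁻¹) • (x + y) ^ a =
      ∑ p ∈ antidiagonal a, (((p.1.factorial : ℂ)⁻¹) • x ^ p.1) *
        (((p.2.factorial : ℂ)⁻¹) • y ^ p.2) := by
  rw [(Commute.all x y).add_pow', Finset.smul_sum]
  refine Finset.sum_congr rfl fun p hp => ?_
  have hp' : p.1 + p.2 = a := by simpa using hp
  rw [smul_mul_smul_comm, ← Nat.cast_smul_eq_nsmul ℂ, smul_smul]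
  congr 1
  have h := Nat.add_choose_mul_factorial_mul_factorial p.1 p.2
  rw [hp'] at h
  have h1 : a.choose p.1 = a.choose p.2 := by
    rw [← hp']; exact Nat.choose_symm_add
  have h2 : (a.factorial : ℂ) = a.choose p.2 * p.1.factorial * p.2.factorial := by
    rw [← h]; push_cast; ring
  have h3 : (p.1.factorial : ℂ) ≠ 0 := by exact_mod_cast Nat.factorial_ne_zero _
  have h4 : (p.2.factorial : ℂ) ≠ 0 := by exact_mod_cast Nat.factorial_ne_zero _
  have h5 : (a.choose p.2 : ℂ) ≠ 0 := by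
    have : 0 < a.choose p.2 := Nat.choose_pos (by omega)
    exact_mod_cast this.ne'
  rw [h1, h2]
  field_simp

lemma expS_add (v w : σ → R) : expS (v + w) = expS v * expS w := by
  classical
  ext α
  rw [coeff_mul, coeff_expS']
  simp only [Pi.add_apply, add_pow_div, coeff_expS']
  rw [Finset.prod_univ_sum]
  refine Finset.sum_nbij'
    (fun p => (Finsupp.equivFunOnFinite.symm fun i => (p i).1,
      Finsupp.equivFunOnFinite.symm fun i => (p i).2))
    (fun q => fun i => (q.1 i, q.2 i)) ?_ ?_ ?_ ?_ ?_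
  · intro p hp
    simp only [Fintype.mem_piFinset, HasAntidiagonal.mem_antidiagonal] at hp ⊢
    ext i
    simp [hp i]
  · intro q hq
    simp only [Fintype.mem_piFinset, HasAntidiagonal.mem_antidiagonal] at hq ⊢
    intro i
    rw [← hq]; simp
  · intro p _
    ext i <;> simp
  · intro q _
    ext i <;> simp
  · intro p _
    rw [Finset.prod_mul_distrib]
    rfl

lemma expS_zero : expS (0 : σ → R) = 1 := by
  classical
  ext α
  rw [coeff_expS, coeff_one]
  split_ifs with h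
  · subst h; simp [fac, mon]
  · obtain ⟨i, hi⟩ : ∃ i, α i ≠ 0 := by
      by_contra hc
      push Not at hc
      exact h (Finsupp.ext hc)
    have : mon (0 : σ → R) α = 0 := Finset.prod_eq_zero (mem_univ i) (by simp [hi])
    simp [this]

lemma expS_mul_neg (v : σ → R) : expS v * expS (-v) = 1 := by
  rw [← expS_add, add_neg_cancel, expS_zero]

lemma map_expS {S : Type*} [CommRing S] [Algebra ℂ S] (φ : R →ₐ[ℂ] S) (v : σ → R) :
    map (φ : R →+* S) (expS v) = expS (fun i => φ (v i)) := by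
  ext α
  rw [coeff_map, coeff_expS, coeff_expS]
  simp [mon, map_prod]

omit [Fintype σ] in
/-- coefficientwise derivation -/
noncomputable def dS (d : Derivation ℂ R R) (f : MvPowerSeries σ R) : MvPowerSeries σ R :=
  fun α => d (coeff α f)

omit [Fintype σ] in
lemma coeff_dS (d : Derivation ℂ R R) (f : MvPowerSeries σ R) (α : σ →₀ ℕ) :
    coeff α (dS d f) = d (coeff α f) := rfl

omit [Fintype σ] in
lemma dS_mul (d : Derivation ℂ R R) (f g : MvPowerSeries σ R) :
    dS d (f * g) = f * dS d g + dS d f * g := by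
  classical
  ext α
  simp only [coeff_dS, coeff_mul, map_add, map_sum, Derivation.leibniz, smul_eq_mul,
    ← Finset.sum_add_distrib]
  refine Finset.sum_congr rfl fun p _ => by ring

omit [Fintype σ] [Algebra ℂ R] in
lemma coeff_X_mul' [DecidableEq σ] (i : σ) (f : MvPowerSeries σ R) (α : σ →₀ ℕ) :
    coeff α (X i * f) = if α i = 0 then 0 else coeff (α - Finsupp.single i 1) f := by
  rw [X_def, coeff_monomial_mul]
  by_cases h : α i = 0
  · rw [if_pos h, if_neg]
    rw [Finsupp.single_le_iff]; omega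
  · rw [if_neg h, if_pos, one_mul]
    rw [Finsupp.single_le_iff]; omega

/-- the linear form `sum w_i s_i` -/
noncomputable def om (w : σ → R) : MvPowerSeries σ R := ∑ i, C (w i) * X i

omit [Algebra ℂ R] in
lemma coeff_om_mul [DecidableEq σ] (w : σ → R) (f : MvPowerSeries σ R) (α : σ →₀ ℕ) :
    coeff α (om w * f) =
      ∑ i, w i * (if α i = 0 then 0 else coeff (α - Finsupp.single i 1) f) := by
  rw [om, Finset.sum_mul, map_sum]
  refine Finset.sum_congr rfl fun i _ => ?_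
  rw [mul_assoc, coeff_C_mul, coeff_X_mul']

omit [Fintype σ] in
lemma der_prod [DecidableEq σ] (d : Derivation ℂ R R) (s : Finset σ) (f : σ → R) :
    d (∏ i ∈ s, f i) = ∑ i ∈ s, (∏ j ∈ s.erase i, f j) * d (f i) := by
  induction s using Finset.induction_on with
  | empty => simp
  | insert a s ha ih =>
    rw [Finset.prod_insert ha, Finset.sum_insert ha, Derivation.leibniz, ih, erase_insert ha,
      smul_eq_mul, smul_eq_mul, Finset.mul_sum, add_comm]
    congr 1
    refine Finset.sum_congr rfl fun i hi => ?_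
    have hne : a ≠ i := fun h => ha (h ▸ hi)
    rw [Finset.erase_insert_of_ne hne, Finset.prod_insert (fun h => ha (mem_of_mem_erase h))]
    ring

lemma dS_expS (d : Derivation ℂ R R) (v : σ → R) :
    dS d (expS v) = om (fun i => d (v i)) * expS v := by
  classical
  ext α
  rw [coeff_dS, coeff_om_mul, coeff_expS', der_prod]
  refine Finset.sum_congr rfl fun i _ => ?_
  by_cases h : α i = 0
  · simp [h]
  · rw [if_neg h, coeff_expS', ← Finset.mul_prod_erase _ _ (mem_univ i)]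
    obtain ⟨b, hb⟩ := Nat.exists_eq_succ_of_ne_zero h
    have h1 : ∏ j ∈ univ.erase i, ((((α - Finsupp.single i 1 : σ →₀ ℕ) j).factorial : ℂ)⁻¹) •
        v j ^ ((α - Finsupp.single i 1 : σ →₀ ℕ) j)
        = ∏ j ∈ univ.erase i, (((α j).factorial : ℂ)⁻¹) • v j ^ α j := by
      refine Finset.prod_congr rfl fun j hj => ?_
      have : j ≠ i := (mem_erase.1 hj).1
      simp [Finsupp.single_eq_of_ne this]
    have h2 : (α - Finsupp.single i 1 : σ →₀ ℕ) i = b := by simp [hb]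
    rw [h1, h2, hb, Derivation.map_smul, Derivation.leibniz_pow]
    have h3 : ((b + 1).factorial : ℂ)⁻¹ • (b + 1) • v i ^ b • d (v i)
        = d (v i) * ((b.factorial : ℂ)⁻¹ • v i ^ b) := by
      rw [← Nat.cast_smul_eq_nsmul ℂ, smul_smul, smul_eq_mul, mul_smul_comm, mul_comm (d (v i))]
      congr 1
      have h3 : (b.factorial : ℂ) ≠ 0 := by exact_mod_cast Nat.factorial_ne_zero _
      have h4 : ((b : ℂ) + 1) ≠ 0 := by exact_mod_cast Nat.succ_ne_zero b
      rw [Nat.factorial_succ]; push_cast; field_simp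
    simp only [Nat.succ_eq_add_one, add_tsub_cancel_right, smul_eq_mul] at h3 ⊢
    rw [h3]; ring

/-- the connection -/
noncomputable def nab (d : Derivation ℂ R R) (T : R) (w : σ → R) (P : MvPowerSeries σ R) :
    MvPowerSeries σ R := C T * dS d P - om w * P

lemma map_nab {S : Type*} [CommRing S] [Algebra ℂ S] (φ : R →ₐ[ℂ] S)
    (d : Derivation ℂ R R) (d' : Derivation ℂ S S) (h : ∀ x, φ (d x) = d' (φ x))
    (T : R) (w : σ → R) (P : MvPowerSeries σ R) :
    map (φ : R →+* S) (nab d T w P) =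
      nab d' (φ T) (fun i => φ (w i)) (map (φ : R →+* S) P) := by
  have h1 : map (φ : R →+* S) (dS d P) = dS d' (map (φ : R →+* S) P) := by
    ext α; simp [coeff_map, coeff_dS, h]
  simp [nab, om, h1, map_sum]

lemma map_nab_iter {S : Type*} [CommRing S] [Algebra ℂ S] (φ : R →ₐ[ℂ] S)
    (d : Derivation ℂ R R) (d' : Derivation ℂ S S) (h : ∀ x, φ (d x) = d' (φ x))
    (T : R) (w : σ → R) (P : MvPowerSeries σ R) (k : ℕ) :
    map (φ : R →+* S) ((nab d T w)^[k] P) =
      (nab d' (φ T) (fun i => φ (w i)))^[k] (map (φ : R →+* S) P) := by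
  induction k with
  | zero => rfl
  | succ k ih => rw [Function.iterate_succ_apply', Function.iterate_succ_apply', map_nab φ d d' h, ih]

lemma expS_mul_nab (d : Derivation ℂ R R) (T : R) (w v : σ → R) (hv : ∀ i, T * d (v i) = w i)
    (P : MvPowerSeries σ R) :
    expS (-v) * nab d T w P = C T * dS d (expS (-v) * P) := by
  have h1 : C T * om (fun i => d ((-v) i)) = - om w := by
    simp only [om, Finset.mul_sum, ← Finset.sum_neg_distrib]
    refine Finset.sum_congr rfl fun i _ => ?_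
    rw [← hv i, ← mul_assoc, ← map_mul]; simp
  rw [dS_mul, dS_expS, nab, mul_add, ← mul_assoc (C T) (_ * _) P, ← mul_assoc (C T) (om _), h1]
  ring

lemma coeff_expS_mul_nab_iter (d : Derivation ℂ R R) (T : R) (w v : σ → R)
    (hv : ∀ i, T * d (v i) = w i) (P : MvPowerSeries σ R) (k : ℕ) (α : σ →₀ ℕ) :
    coeff α (expS (-v) * (nab d T w)^[k] P) =
      (fun f => T * d f)^[k] (coeff α (expS (-v) * P)) := by
  induction k with
  | zero => rfl
  | succ k ih =>
    rw [Function.iterate_succ_apply', Function.iterate_succ_apply', expS_mul_nab d T w v hv,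
      coeff_C_mul, coeff_dS, ih]

end

section box
variable {R : Type*} [CommRing R]

omit [Fintype σ] in
/-- downward closed finite set of multi-indices -/
def Down (I : Finset (σ →₀ ℕ)) : Prop := ∀ α ∈ I, ∀ β, β ≤ α → β ∈ I

omit [Fintype σ] in
lemma coeff_mul_box [DecidableEq σ] {I : Finset (σ →₀ ℕ)} (hI : Down I)
    (f g : MvPowerSeries σ R) {α : σ →₀ ℕ} (hα : α ∈ I) :
    coeff α (f * g) = ∑ γ ∈ I, (if γ ≤ α then coeff (α - γ) f else 0) * coeff γ g := by
  rw [coeff_mul]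
  simp only [ite_mul, zero_mul]
  rw [← Finset.sum_filter]
  refine Finset.sum_nbij' (fun p => p.2) (fun γ => (α - γ, γ)) ?_ ?_ ?_ ?_ ?_
  · intro p hp
    have hp' : p.1 + p.2 = α := by simpa using hp
    have : p.2 ≤ α := by rw [← hp']; exact le_add_self
    simp [this, hI α hα _ this]
  · intro γ hγ
    simp only [mem_filter] at hγ
    simp [tsub_add_cancel_of_le hγ.2]
  · intro p hp
    have hp' : p.1 + p.2 = α := by simpa using hp
    simp [← hp']
  · intro γ _; rfl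
  · intro p hp
    have hp' : p.1 + p.2 = α := by simpa using hp
    simp [← hp']

omit [Fintype σ] in
lemma dvd_coeff_mul_box {I : Finset (σ →₀ ℕ)} (hI : Down I) (x : R)
    (f g : MvPowerSeries σ R) (hg : ∀ γ ∈ I, x ∣ coeff γ g) {α : σ →₀ ℕ} (hα : α ∈ I) :
    x ∣ coeff α (f * g) := by
  classical
  rw [coeff_mul_box hI f g hα]
  exact Finset.dvd_sum fun γ hγ => Dvd.dvd.mul_left (hg γ hγ) _

omit [Fintype σ] in
lemma det_dvd_box [DecidableEq σ] {I : Finset (σ →₀ ℕ)} (hI : Down I)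
    (f : MvPowerSeries σ R) (x : I → MvPowerSeries σ R) :
    (Matrix.of fun α β : I => coeff α.1 (x β)).det ∣
      (Matrix.of fun α β : I => coeff α.1 (f * x β)).det := by
  have : (Matrix.of fun α β : I => coeff α.1 (f * x β)) =
      (Matrix.of fun α γ : I => if γ.1 ≤ α.1 then coeff (α.1 - γ.1) f else 0) *
        (Matrix.of fun α β : I => coeff α.1 (x β)) := by
    ext α β
    rw [Matrix.mul_apply, Matrix.of_apply, coeff_mul_box hI f (x β) α.2,
      ← Finset.sum_coe_sort I]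
    rfl
  rw [this, Matrix.det_mul]
  exact Dvd.intro_left _ rfl

end box

end Pool.Agent.MP_d171e3_nt.H48

end

-- part MP_d171e3_nt.H48.Wronsk
section

/-! The Wronskian of type II approximations does not vanish; degree bound. -/

namespace Pool.Agent.MP_d171e3_nt.H48

open Finset Polynomial

lemma lin_mul_derivative_pow (z : ℂ) (r : ℕ) :
    (X - C z) * derivative ((X - C z) ^ r) = C (r : ℂ) * (X - C z) ^ r := by
  cases r with
  | zero => simp
  | succ r =>
    rw [derivative_pow]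
    simp only [derivative_sub, derivative_X, derivative_C, sub_zero, mul_one, add_tsub_cancel_right]
    ring

lemma wr_ident (z : ℂ) (r s : ℕ) (f h : ℂ[X]) :
    (X - C z) * (((X - C z) ^ r * f) * derivative ((X - C z) ^ s * h) -
        derivative ((X - C z) ^ r * f) * ((X - C z) ^ s * h)) =
      (X - C z) ^ (r + s) * (C ((s : ℂ) - r) * f * h +
        (X - C z) * (f * derivative h - derivative f * h)) := by
  have h1 := lin_mul_derivative_pow z r
  have h2 := lin_mul_derivative_pow z s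
  rw [derivative_mul, derivative_mul, pow_add, C_sub]
  linear_combination ((X - C z) ^ r * f * h) * h2 - ((X - C z) ^ s * f * h) * h1

lemma exists_factor {f : ℂ[X]} (hf : f ≠ 0) (z : ℂ) :
    ∃ (r : ℕ) (g : ℂ[X]), f = (X - C z) ^ r * g ∧ g.eval z ≠ 0 := by
  obtain ⟨q, hq, hn⟩ := exists_eq_pow_rootMultiplicity_mul_and_not_dvd f hf z
  exact ⟨_, q, hq, fun h => hn (dvd_iff_isRoot.2 h)⟩

lemma eq_C_mul_of_wr {f g : ℂ[X]} (hf : f ≠ 0) (h : f * derivative g = derivative f * g) :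
    ∃ κ : ℂ, g = C κ * f := by
  obtain ⟨z, hz⟩ : ∃ z, f.eval z ≠ 0 := by
    by_contra hc
    push Not at hc
    exact hf (Polynomial.funext (by simpa using hc))
  refine ⟨g.eval z / f.eval z, ?_⟩
  by_contra hne
  set u := g - C (g.eval z / f.eval z) * f with hu
  have hu0 : u ≠ 0 := sub_ne_zero.2 hne
  have huz : u.eval z = 0 := by
    simp only [hu, eval_sub, eval_mul, eval_C]; field_simp; ring
  have hw : f * derivative u - derivative f * u = 0 := by
    simp only [hu, derivative_sub, derivative_mul, derivative_C]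
    linear_combination h
  obtain ⟨s, u1, hs, hu1⟩ := exists_factor hu0 z
  have hs0 : s ≠ 0 := by
    rintro rfl
    rw [hs] at huz
    simp at huz
    exact hu1 huz
  have key := wr_ident z 0 s f u1
  rw [← hs, pow_zero, one_mul, hw, mul_zero] at key
  have h2 := (mul_eq_zero.1 key.symm).resolve_left (pow_ne_zero _ (X_sub_C_ne_zero z))
  have h3 := congrArg (eval z) h2
  simp at h3
  tauto

lemma no_simple_pole {f h S T1 : ℂ[X]} (z : ℂ) (hf : f ≠ 0) (hS : S.eval z ≠ 0)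
    (hT : T1.eval z ≠ 0)
    (H : (X - C z) * T1 * (f * derivative h - derivative f * h) = - (f ^ 2 * S)) : False := by
  have hS0 : S ≠ 0 := by rintro rfl; simp at hS
  by_cases hh : h = 0
  · subst hh
    simp [hf, hS0] at H
  obtain ⟨r, f1, hr, hf1⟩ := exists_factor hf z
  obtain ⟨s, h1, hs, hh1⟩ := exists_factor hh z
  have key := wr_ident z r s f1 h1
  rw [← hr, ← hs] at key
  have hX : (X - C z : ℂ[X]) ≠ 0 := X_sub_C_ne_zero z
  have H2 : T1 * ((X - C z) ^ (r + s) * (C ((s : ℂ) - r) * f1 * h1 +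
        (X - C z) * (f1 * derivative h1 - derivative f1 * h1))) =
      - ((X - C z) ^ (r + r) * (f1 ^ 2 * S)) := by
    rw [← key, ← mul_assoc, mul_comm T1, H]
    conv_lhs => rw [hr]
    ring
  rcases le_or_gt r s with hle | hlt
  · obtain ⟨e, rfl⟩ := Nat.exists_eq_add_of_le hle
    have H3 : T1 * ((X - C z) ^ e * (C (((r + e : ℕ) : ℂ) - r) * f1 * h1 +
        (X - C z) * (f1 * derivative h1 - derivative f1 * h1))) = - (f1 ^ 2 * S) := by
      apply mul_left_cancel₀ (pow_ne_zero (r + r) hX)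
      rw [mul_neg, ← H2]; ring
    have H4 := congrArg (eval z) H3
    rcases Nat.eq_zero_or_pos e with rfl | he
    · simp [hf1, hS] at H4
    · simp [hf1, hS, he.ne'] at H4
  · obtain ⟨e, rfl⟩ := Nat.exists_eq_add_of_lt hlt
    have H3 : T1 * (C ((s : ℂ) - (s + e + 1 : ℕ)) * f1 * h1 +
        (X - C z) * (f1 * derivative h1 - derivative f1 * h1)) =
          - ((X - C z) ^ (e + 1) * (f1 ^ 2 * S)) := by
      apply mul_left_cancel₀ (pow_ne_zero (s + e + 1 + s) hX)
      rw [mul_neg, ← mul_assoc _ ((X - C z) ^ (e + 1)), ← pow_add,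
        show s + e + 1 + s + (e + 1) = s + e + 1 + (s + e + 1) by ring, ← H2]
      ring
    have H4 := congrArg (eval z) H3
    have hc : (s : ℂ) - (s + e + 1) ≠ 0 := by
      have : (s : ℂ) - (s + e + 1) = - ((e + 1 : ℕ) : ℂ) := by push_cast; ring
      rw [this, neg_ne_zero]; exact_mod_cast Nat.succ_ne_zero e
    simp [hf1, hh1, hT, hc] at H4

variable {σ : Type*} [Fintype σ] [DecidableEq σ]

/-- `T = prod (1 + a_i z)` -/
noncomputable def TT (a : σ → ℂ) : ℂ[X] := ∏ i, (1 + C (a i) * X)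

/-- `T_i = T / (1 + a_i z)` -/
noncomputable def Ti (a : σ → ℂ) (i : σ) : ℂ[X] := ∏ j ∈ univ.erase i, (1 + C (a j) * X)

/-- `w_i = a_i T_i` -/
noncomputable def ww (a : σ → ℂ) (i : σ) : ℂ[X] := C (a i) * Ti a i

lemma TT_eq (a : σ → ℂ) (i : σ) : TT a = (1 + C (a i) * X) * Ti a i :=
  (Finset.mul_prod_erase _ _ (mem_univ i)).symm

/-- the connection on polynomial vectors -/
noncomputable def nabP (a : σ → ℂ) : MvPowerSeries σ ℂ[X] → MvPowerSeries σ ℂ[X] :=
  nab Polynomial.derivative' (TT a) (ww a)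

lemma coeff_nabP (a : σ → ℂ) (P : MvPowerSeries σ ℂ[X]) (α : σ →₀ ℕ) :
    MvPowerSeries.coeff α (nabP a P) = TT a * derivative (MvPowerSeries.coeff α P) -
      ∑ i, ww a i * (if α i = 0 then 0 else MvPowerSeries.coeff (α - Finsupp.single i 1) P) := by
  rw [nabP, nab, map_sub, MvPowerSeries.coeff_C_mul, coeff_dS, coeff_om_mul]
  rfl

/-- the adjoint connection -/
noncomputable def adj (a : σ → ℂ) (μ : (σ →₀ ℕ) → ℂ[X]) : (σ →₀ ℕ) → ℂ[X] :=
  fun α => TT a * derivative (μ α) + ∑ i, ww a i * μ (α + Finsupp.single i 1)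

omit [Fintype σ] [DecidableEq σ] in
/-- the pairing -/
noncomputable def pair (I : Finset (σ →₀ ℕ)) (μ : (σ →₀ ℕ) → ℂ[X])
    (x : MvPowerSeries σ ℂ[X]) : ℂ[X] := ∑ α ∈ I, μ α * MvPowerSeries.coeff α x

lemma pair_adj {I : Finset (σ →₀ ℕ)} (hI : Down I) (a : σ → ℂ) (μ : (σ →₀ ℕ) → ℂ[X])
    (hμ : ∀ α, α ∉ I → μ α = 0) (x : MvPowerSeries σ ℂ[X]) :
    pair I (adj a μ) x = TT a * derivative (pair I μ x) - pair I μ (nabP a x) := by
  have key : ∀ i : σ, ∑ α ∈ I, μ (α + Finsupp.single i 1) * MvPowerSeries.coeff α x =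
      ∑ α ∈ I, μ α * (if α i = 0 then 0 else MvPowerSeries.coeff (α - Finsupp.single i 1) x) := by
    intro i
    have h1 : ∑ α ∈ I, μ (α + Finsupp.single i 1) * MvPowerSeries.coeff α x =
        ∑ α ∈ I.filter (fun α => α + Finsupp.single i 1 ∈ I),
          μ (α + Finsupp.single i 1) * MvPowerSeries.coeff α x := by
      rw [Finset.sum_filter]
      refine Finset.sum_congr rfl fun α _ => ?_
      split_ifs with h
      · rfl
      · rw [hμ _ h, zero_mul]
    have h2 : ∑ α ∈ I, μ α * (if α i = 0 then 0 else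
          MvPowerSeries.coeff (α - Finsupp.single i 1) x) =
        ∑ α ∈ I.filter (fun α => α i ≠ 0),
          μ α * MvPowerSeries.coeff (α - Finsupp.single i 1) x := by
      rw [Finset.sum_filter]
      refine Finset.sum_congr rfl fun α _ => ?_
      by_cases h : α i = 0 <;> simp [h]
    rw [h1, h2]
    refine Finset.sum_nbij' (fun α => α + Finsupp.single i 1) (fun α => α - Finsupp.single i 1)
      ?_ ?_ ?_ ?_ ?_
    · intro α hα
      simp only [mem_filter] at hα ⊢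
      exact ⟨hα.2, by simp⟩
    · intro α hα
      simp only [mem_filter] at hα ⊢
      have hle : Finsupp.single i 1 ≤ α := by rw [Finsupp.single_le_iff]; omega
      refine ⟨hI α hα.1 _ tsub_le_self, ?_⟩
      rw [tsub_add_cancel_of_le hle]; exact hα.1
    · intro α _; simp
    · intro α hα
      simp only [mem_filter] at hα
      have hle : Finsupp.single i 1 ≤ α := by rw [Finsupp.single_le_iff]; omega
      exact tsub_add_cancel_of_le hle
    · intro α _; simp
  simp only [pair, adj, coeff_nabP, derivative_sum, derivative_mul, add_mul, mul_sub, mul_add,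
    Finset.sum_add_distrib, Finset.sum_sub_distrib, Finset.mul_sum, Finset.sum_mul]
  have e1 : ∑ α ∈ I, ∑ i, ww a i * μ (α + Finsupp.single i 1) * MvPowerSeries.coeff α x =
      ∑ α ∈ I, ∑ i, μ α * (ww a i * (if α i = 0 then 0 else
        MvPowerSeries.coeff (α - Finsupp.single i 1) x)) := by
    rw [Finset.sum_comm, Finset.sum_comm (s := I)]
    refine Finset.sum_congr rfl fun i _ => ?_
    have := congrArg (ww a i * ·) (key i)
    simp only [Finset.mul_sum] at this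
    convert this using 2 <;> ring
  have e2 : ∑ α ∈ I, TT a * (μ α * derivative (MvPowerSeries.coeff α x)) =
      ∑ α ∈ I, μ α * (TT a * derivative (MvPowerSeries.coeff α x)) :=
    Finset.sum_congr rfl fun _ _ => by ring
  have e3 : ∑ α ∈ I, TT a * derivative (μ α) * MvPowerSeries.coeff α x =
      ∑ α ∈ I, TT a * (derivative (μ α) * MvPowerSeries.coeff α x) :=
    Finset.sum_congr rfl fun _ _ => by ring
  rw [e1, e2, e3]
  ring

lemma sum_ww_eval (a : σ → ℂ) (ha : Function.Injective a) (ha0 : ∀ i, a i ≠ 0) (κ : σ → ℂ)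
    (i : σ) : (Ti a i).eval (-(a i)⁻¹) ≠ 0 ∧
      (∑ j, C (κ j) * ww a j).eval (-(a i)⁻¹) = κ i * a i * (Ti a i).eval (-(a i)⁻¹) := by
  constructor
  · rw [Ti, eval_prod, Finset.prod_ne_zero_iff]
    intro j hj
    have hji : j ≠ i := (mem_erase.1 hj).1
    have h1 : a i - a j ≠ 0 := sub_ne_zero.2 fun h => hji (ha h).symm
    have h2 := ha0 i
    simp only [eval_add, eval_one, eval_mul, eval_C, eval_X]
    intro h
    apply h1
    field_simp at h
    linear_combination h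
  · rw [eval_finsetSum, Finset.sum_eq_single i]
    · simp [ww, mul_assoc]
    · intro j _ hji
      have : (Ti a j).eval (-(a i)⁻¹) = 0 := by
        rw [Ti, eval_prod]
        refine Finset.prod_eq_zero (i := i) (mem_erase.2 ⟨hji.symm, mem_univ _⟩) ?_
        have h2 := ha0 i
        simp [h2]
      simp [ww, this]
    · simp

/-- final step: a horizontal (up to a factor) vector is supported at zero -/
lemma support_zero (a : σ → ℂ) (ha : Function.Injective a) (ha0 : ∀ i, a i ≠ 0)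
    (J : Finset (σ →₀ ℕ)) (μ : (σ →₀ ℕ) → ℂ[X]) (hμ : ∀ α, α ∉ J → μ α = 0) {f : ℂ[X]}
    (hf : f ≠ 0) (H : ∀ α, f * adj a μ α = TT a * derivative f * μ α) :
    ∀ α, α ≠ 0 → μ α = 0 := by
  by_contra hc
  push Not at hc
  obtain ⟨α0, hα0, hμ0⟩ := hc
  have hT : TT a ≠ 0 := by
    intro h
    have := congrArg (eval 0) h
    simp [TT, eval_prod] at this
  have hne : (J.filter fun α => μ α ≠ 0).Nonempty :=
    ⟨α0, mem_filter.2 ⟨by by_contra h; exact hμ0 (hμ _ h), hμ0⟩⟩
  obtain ⟨γ, hγ, hmax⟩ := Finset.exists_max_image _ (fun α => ∑ i, α i) hne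
  have hγ0 : μ γ ≠ 0 := (mem_filter.1 hγ).2
  have hz : ∀ β : σ →₀ ℕ, ∑ i, γ i < ∑ i, β i → μ β = 0 := by
    intro β hβ
    by_contra h
    have := hmax β (mem_filter.2 ⟨by by_contra h'; exact h (hμ _ h'), h⟩)
    omega
  have hdeg : ∀ (β : σ →₀ ℕ) (j : σ), ∑ i, (β + Finsupp.single j 1 : σ →₀ ℕ) i = ∑ i, β i + 1 := by
    intro β j
    simp [Finset.sum_add_distrib, Finsupp.single_apply]
  have htop : ∀ β : σ →₀ ℕ, ∑ i, β i = ∑ i, γ i → ∃ κ : ℂ, μ β = C κ * f := by
    intro β hβ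
    apply eq_C_mul_of_wr hf
    have h1 := H β
    have h2 : ∑ i, ww a i * μ (β + Finsupp.single i 1) = 0 :=
      Finset.sum_eq_zero fun j _ => by rw [hz _ (by rw [hdeg]; omega), mul_zero]
    rw [adj, h2, add_zero] at h1
    apply mul_left_cancel₀ hT
    linear_combination h1
  have hpos : 0 < ∑ i, γ i := by
    have h1 := hmax α0 (mem_filter.2 ⟨by by_contra h; exact hμ0 (hμ _ h), hμ0⟩)
    obtain ⟨i, hi⟩ : ∃ i, α0 i ≠ 0 := by
      by_contra hc
      push Not at hc
      exact hα0 (Finsupp.ext hc)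
    have := Finset.single_le_sum (f := fun i => α0 i) (fun _ _ => Nat.zero_le _) (mem_univ i)
    omega
  obtain ⟨i, hi⟩ : ∃ i, γ i ≠ 0 := by
    by_contra hc
    push Not at hc
    simp [hc] at hpos
  have hle : Finsupp.single i 1 ≤ γ := by rw [Finsupp.single_le_iff]; omega
  set α := γ - Finsupp.single i 1 with hα
  have hαγ : α + Finsupp.single i 1 = γ := tsub_add_cancel_of_le hle
  have hdα : ∑ j, α j + 1 = ∑ j, γ j := by rw [← hdeg α i, hαγ]
  choose κ hκ using fun j => htop (α + Finsupp.single j 1) (by rw [hdeg, hdα])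
  have hκi : κ i ≠ 0 := by
    intro h
    have := hκ i
    rw [hαγ, h] at this
    simp [hγ0] at this
  obtain ⟨e1, e2⟩ := sum_ww_eval a ha ha0 κ i
  have hai := ha0 i
  refine no_simple_pole (f := f) (h := μ α) (S := ∑ j, C (κ j) * ww a j)
    (T1 := C (a i) * Ti a i) (-(a i)⁻¹) hf ?_ ?_ ?_
  · rw [e2]; exact mul_ne_zero (mul_ne_zero hκi hai) e1
  · simp [hai, e1]
  · have h1 := H α
    have h2 : ∑ j, ww a j * μ (α + Finsupp.single j 1) = f * ∑ j, C (κ j) * ww a j := by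
      rw [Finset.mul_sum]
      exact Finset.sum_congr rfl fun j _ => by rw [hκ j]; ring
    rw [adj, h2] at h1
    have h3 : (X - C (-(a i)⁻¹)) * (C (a i) * Ti a i) = TT a := by
      rw [TT_eq a i, ← mul_assoc]
      congr 1
      have : C (a i)⁻¹ * C (a i) = (1 : ℂ[X]) := by rw [← C_mul, inv_mul_cancel₀ hai, C_1]
      rw [C_neg]
      linear_combination this
    rw [h3]
    linear_combination h1

lemma stable_contains_zero (a : σ → ℂ) (ha : Function.Injective a) (ha0 : ∀ i, a i ≠ 0)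
    (B : Submodule ℂ[X] ((σ →₀ ℕ) → ℂ[X])) (hB : ∀ μ ∈ B, adj a μ ∈ B) (n : ℕ) :
    ∀ J : Finset (σ →₀ ℕ), J.card = n → Down J →
      ∀ μ ∈ B, μ ≠ 0 → (∀ α, α ∉ J → μ α = 0) →
        ∃ ν ∈ B, ν 0 ≠ 0 ∧ ∀ α, α ≠ 0 → ν α = 0 := by
  induction n with
  | zero =>
    intro J hJ _ μ _ hμ0 hμ
    rw [card_eq_zero] at hJ
    subst hJ
    exact absurd (funext fun α => hμ α (by simp)) hμ0
  | succ n ih =>
    intro J hJ hD μ hμB hμ0 hμ
    obtain ⟨γ, hγ⟩ := Finset.exists_maximal (s := J) (card_pos.1 (by omega))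
    have hγJ : γ ∈ J := hγ.1
    have hD' : Down (J.erase γ) := by
      intro α hα β hβ
      rw [mem_erase] at hα ⊢
      refine ⟨?_, hD α hα.2 β hβ⟩
      rintro rfl
      exact hα.1 (le_antisymm (hγ.2 hα.2 hβ) hβ)
    have hcard : (J.erase γ).card = n := by rw [card_erase_of_mem hγJ]; omega
    by_cases hex : ∃ ν ∈ B, ν ≠ 0 ∧ ∀ α, α ∉ J.erase γ → ν α = 0
    · obtain ⟨ν, h1, h2, h3⟩ := hex
      exact ih _ hcard hD' ν h1 h2 h3
    push Not at hex
    have hnot : ∀ α : σ →₀ ℕ, (α ∉ J ∨ α = γ) → ∀ j, α + Finsupp.single j 1 ∉ J := by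
      intro α hα j hj
      rcases hα with h | rfl
      · exact h (hD _ hj _ le_self_add)
      · have := hγ.2 hj le_self_add j
        simp at this
    have hf : μ γ ≠ 0 := by
      intro h
      obtain ⟨α, h1, h2⟩ := hex μ hμB hμ0
      by_cases hαγ : α = γ
      · exact h2 (hαγ ▸ h)
      · exact h2 (hμ α fun hJ => h1 (mem_erase.2 ⟨hαγ, hJ⟩))
    have hν : μ γ • adj a μ - (TT a * derivative (μ γ)) • μ = 0 := by
      by_contra hne
      obtain ⟨α, h1, h2⟩ := hex _ (B.sub_mem (B.smul_mem _ (hB μ hμB)) (B.smul_mem _ hμB)) hne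
      apply h2
      have h3 : α ∉ J ∨ α = γ := by
        by_contra hc
        push Not at hc
        exact h1 (mem_erase.2 ⟨hc.2, hc.1⟩)
      have h4 : ∑ i, ww a i * μ (α + Finsupp.single i 1) = 0 :=
        Finset.sum_eq_zero fun j _ => by rw [hμ _ (hnot α h3 j), mul_zero]
      simp only [Pi.sub_apply, Pi.smul_apply, smul_eq_mul, adj, h4, add_zero]
      rcases h3 with h | rfl
      · simp [hμ α h]
      · ring
    have hsupp := support_zero a ha ha0 J μ hμ hf (fun α => by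
      have := congrFun hν α
      simp only [Pi.sub_apply, Pi.smul_apply, smul_eq_mul, Pi.zero_apply] at this
      linear_combination this)
    refine ⟨μ, hμB, ?_, hsupp⟩
    intro h0
    apply hμ0
    funext α
    by_cases hα : α = 0
    · rw [hα, h0]; rfl
    · exact hsupp α hα

/-- the Wronskian matrix -/
noncomputable def Wr (I : Finset (σ →₀ ℕ)) (a : σ → ℂ) (P : MvPowerSeries σ ℂ[X]) :
    Matrix I I ℂ[X] :=
  Matrix.of fun α β => MvPowerSeries.coeff α.1 ((nabP a)^[(Fintype.equivFin I β : ℕ)] P)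

lemma Wr_det_ne_zero (a : σ → ℂ) (ha : Function.Injective a) (ha0 : ∀ i, a i ≠ 0)
    {I : Finset (σ →₀ ℕ)} (hI : Down I) (h0 : (0 : σ →₀ ℕ) ∈ I) (P : MvPowerSeries σ ℂ[X])
    (hP : MvPowerSeries.coeff 0 P ≠ 0) : (Wr I a P).det ≠ 0 := by
  intro hdet
  set M := Fintype.card I with hM
  let K := FractionRing ℂ[X]
  have hinj : Function.Injective (algebraMap ℂ[X] K) := IsFractionRing.injective _ _
  let B : ℕ → Submodule ℂ[X] ((σ →₀ ℕ) → ℂ[X]) := fun j =>
    { carrier := {μ | (∀ α, α ∉ I → μ α = 0) ∧ ∀ k < j, pair I μ ((nabP a)^[k] P) = 0}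
      add_mem' := by
        rintro μ ν ⟨h1, h2⟩ ⟨h3, h4⟩
        refine ⟨fun α hα => by simp [h1 α hα, h3 α hα], fun k hk => ?_⟩
        have := h2 k hk
        have := h4 k hk
        simp only [pair, Pi.add_apply, add_mul, Finset.sum_add_distrib] at *
        simp [*]
      zero_mem' := ⟨fun _ _ => rfl, fun k _ => by simp [pair]⟩
      smul_mem' := by
        rintro c μ ⟨h1, h2⟩
        refine ⟨fun α hα => by simp [h1 α hα], fun k hk => ?_⟩
        have := h2 k hk
        simp only [pair, Pi.smul_apply, smul_eq_mul, mul_assoc, ← Finset.mul_sum] at *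
        simp [*] }
  let B' : ℕ → Submodule K (I → K) := fun j =>
    { carrier := {μ | ∀ k < j, ∑ α : I, μ α *
        algebraMap ℂ[X] K (MvPowerSeries.coeff α.1 ((nabP a)^[k] P)) = 0}
      add_mem' := by
        intro μ ν h2 h4 k hk
        simp only [Pi.add_apply, add_mul, Finset.sum_add_distrib]
        rw [h2 k hk, h4 k hk, add_zero]
      zero_mem' := fun k _ => by simp
      smul_mem' := by
        intro c μ h2 k hk
        simp only [Pi.smul_apply, smul_eq_mul, mul_assoc, ← Finset.mul_sum]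
        rw [h2 k hk, mul_zero] }
  have hBB' : ∀ (μ : (σ →₀ ℕ) → ℂ[X]) (k : ℕ), pair I μ ((nabP a)^[k] P) = 0 ↔
      ∑ α : I, algebraMap ℂ[X] K (μ α.1) *
        algebraMap ℂ[X] K (MvPowerSeries.coeff α.1 ((nabP a)^[k] P)) = 0 := by
    intro μ k
    rw [← (map_eq_zero_iff _ hinj), pair, ← Finset.sum_coe_sort I, map_sum]
    simp only [map_mul]
  obtain ⟨v, hv0, hv⟩ := Matrix.exists_vecMul_eq_zero_iff.2 hdet
  let μ0 : (σ →₀ ℕ) → ℂ[X] := fun α => if h : α ∈ I then v ⟨α, h⟩ else 0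
  have hμ0v : ∀ α : I, μ0 α.1 = v α := fun α => by simp [μ0, α.2]
  have hμ0 : μ0 ≠ 0 := by
    intro h
    apply hv0
    funext α
    rw [← hμ0v, h]; rfl
  have hμ0B : μ0 ∈ B M := by
    refine ⟨fun α hα => by simp [μ0, hα], fun k hk => ?_⟩
    have := congrFun hv ((Fintype.equivFin I).symm ⟨k, hk⟩)
    simp only [Matrix.vecMul, dotProduct, Wr, Matrix.of_apply, Equiv.apply_symm_apply,
      Pi.zero_apply] at this
    rw [pair, ← Finset.sum_coe_sort I]
    simp only [hμ0v]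
    exact this
  have hanti : ∀ j, B' (j + 1) ≤ B' j := fun j μ hμ k hk => hμ k (by omega)
  have hex : ∃ j < M, B' j ≤ B' (j + 1) := by
    by_contra hc
    push Not at hc
    have hr : ∀ j ≤ M, Module.finrank K (B' j) + j ≤ M := by
      intro j
      induction j with
      | zero =>
        intro _
        have := Submodule.finrank_le (B' 0)
        simpa [hM] using this
      | succ j ih =>
        intro hj
        have h1 := ih (by omega)
        have h2 : B' (j + 1) < B' j := lt_of_le_not_ge (hanti j) (hc j (by omega))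
        have := Submodule.finrank_lt_finrank_of_lt h2
        omega
    have h1 : Module.finrank K (B' M) = 0 := by have := hr M le_rfl; omega
    rw [Submodule.finrank_eq_zero] at h1
    have h2 : (fun α : I => algebraMap ℂ[X] K (μ0 α.1)) ∈ B' M :=
      fun k hk => (hBB' μ0 k).1 (hμ0B.2 k hk)
    rw [h1, Submodule.mem_bot] at h2
    apply hv0
    funext α
    have := congrFun h2 α
    rw [hμ0v] at this
    exact (map_eq_zero_iff _ hinj).1 this
  obtain ⟨j, hjM, hj⟩ := hex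
  have hstab : ∀ μ ∈ B (j + 1), adj a μ ∈ B (j + 1) := by
    intro μ hμ
    have h1 : ∀ α, α ∉ I → adj a μ α = 0 := by
      intro α hα
      have : ∑ i, ww a i * μ (α + Finsupp.single i 1) = 0 :=
        Finset.sum_eq_zero fun i _ => by
          rw [hμ.1 _ (fun h => hα (hI _ h _ le_self_add)), mul_zero]
      simp [adj, this, hμ.1 α hα]
    have h2 : ∀ k < j, pair I (adj a μ) ((nabP a)^[k] P) = 0 := by
      intro k hk
      rw [pair_adj hI a μ hμ.1, hμ.2 k (by omega), ← Function.iterate_succ_apply' (nabP a),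
        hμ.2 _ (by omega)]
      simp
    have h3 : (fun α : I => algebraMap ℂ[X] K (adj a μ α.1)) ∈ B' j :=
      fun k hk => (hBB' _ k).1 (h2 k hk)
    exact ⟨h1, fun k hk => (hBB' _ k).2 (hj h3 k hk)⟩
  obtain ⟨ν, hνB, hν0, hν⟩ := stable_contains_zero a ha ha0 (B (j + 1)) hstab I.card I rfl hI μ0
    ⟨hμ0B.1, fun k hk => hμ0B.2 k (by omega)⟩ hμ0 hμ0B.1
  have := hνB.2 0 (by omega)
  rw [pair, Finset.sum_eq_single 0 (fun α _ hα => by rw [hν α hα, zero_mul])
    (fun h => absurd h0 h)] at this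
  exact (mul_ne_zero hν0 hP) this

omit [DecidableEq σ] in
lemma natDegree_prod_lin (a : σ → ℂ) (s : Finset σ) :
    (∏ i ∈ s, (1 + C (a i) * X : ℂ[X])).natDegree ≤ Fintype.card σ := by
  refine (natDegree_prod_le _ _).trans ?_
  refine (Finset.sum_le_card_nsmul _ _ 1 fun i _ => ?_).trans ?_
  · compute_degree
  · simpa using card_le_univ s

lemma natDegree_nabP (a : σ → ℂ) (P : MvPowerSeries σ ℂ[X]) (n : ℕ)
    (hP : ∀ α, (MvPowerSeries.coeff α P).natDegree ≤ n) (α : σ →₀ ℕ) :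
    (MvPowerSeries.coeff α (nabP a P)).natDegree ≤ n + Fintype.card σ := by
  rw [coeff_nabP]
  refine (natDegree_sub_le _ _).trans (max_le ?_ ?_)
  · refine natDegree_mul_le.trans ?_
    have h1 := natDegree_prod_lin a univ
    have h2 := (natDegree_derivative_le (MvPowerSeries.coeff α P)).trans
      (tsub_le_self.trans (hP α))
    rw [TT]; omega
  · refine natDegree_sum_le_of_forall_le _ _ fun i _ => ?_
    refine natDegree_mul_le.trans ?_
    have h1 : (ww a i).natDegree ≤ Fintype.card σ :=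
      (natDegree_C_mul_le _ _).trans (natDegree_prod_lin a _)
    split_ifs
    · simp; omega
    · have := hP (α - Finsupp.single i 1); omega

lemma natDegree_nabP_iter (a : σ → ℂ) (P : MvPowerSeries σ ℂ[X]) (n : ℕ)
    (hP : ∀ α, (MvPowerSeries.coeff α P).natDegree ≤ n) (k : ℕ) (α : σ →₀ ℕ) :
    (MvPowerSeries.coeff α ((nabP a)^[k] P)).natDegree ≤ n + k * Fintype.card σ := by
  induction k generalizing α with
  | zero => simpa using hP α
  | succ k ih =>
    rw [Function.iterate_succ_apply']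
    have := natDegree_nabP a _ _ ih α
    rw [add_mul]; omega

lemma natDegree_Wr_det (I : Finset (σ →₀ ℕ)) (a : σ → ℂ) (P : MvPowerSeries σ ℂ[X]) (n : ℕ)
    (hP : ∀ α, (MvPowerSeries.coeff α P).natDegree ≤ n) :
    (Wr I a P).det.natDegree ≤ I.card * (n + I.card * Fintype.card σ) := by
  rw [Matrix.det_apply']
  refine natDegree_sum_le_of_forall_le _ _ fun π _ => ?_
  refine natDegree_mul_le.trans ?_
  rw [natDegree_intCast, zero_add]
  refine (natDegree_prod_le _ _).trans ?_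
  refine (Finset.sum_le_card_nsmul _ _ (n + I.card * Fintype.card σ) fun β _ => ?_).trans ?_
  · refine (natDegree_nabP_iter a P n hP _ _).trans ?_
    have : ((Fintype.equivFin I β : ℕ)) ≤ I.card := by
      have := (Fintype.equivFin I β).2
      simp only [Fintype.card_coe] at this
      omega
    gcongr
  · simp

end Pool.Agent.MP_d171e3_nt.H48

end

-- part MP_d171e3_nt.H48.ZeroEst
section

/-! The two point zero estimate. -/

namespace Pool.Agent.MP_d171e3_nt.H48

open Finset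

/-- Taylor expansion of a polynomial at `ξ` -/
noncomputable def tau (ξ : ℂ) : Polynomial ℂ →ₐ[ℂ] PowerSeries ℂ :=
  Polynomial.aeval (PowerSeries.C ξ + PowerSeries.X)

lemma tau_X (ξ : ℂ) : tau ξ Polynomial.X = PowerSeries.C ξ + PowerSeries.X := by simp [tau]

lemma tau_C (ξ c : ℂ) : tau ξ (Polynomial.C c) = PowerSeries.C c := by
  simp [tau]

lemma tau_derivative (ξ : ℂ) (p : Polynomial ℂ) :
    tau ξ (Polynomial.derivative' p) = PowerSeries.derivative ℂ (tau ξ p) := by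
  rw [tau, Derivation.map_aeval]
  simp

lemma tau_eq (ξ : ℂ) (p : Polynomial ℂ) :
    tau ξ p = ((Polynomial.taylor ξ p : Polynomial ℂ) : PowerSeries ℂ) := by
  have : tau ξ = (Polynomial.coeToPowerSeries.algHom ℂ).comp (Polynomial.taylorAlgHom ξ) := by
    apply Polynomial.algHom_ext
    simp [tau, Polynomial.coeToPowerSeries.algHom_apply, add_comm]
  rw [this]
  simp [Polynomial.coeToPowerSeries.algHom_apply]

lemma tau_zero (p : Polynomial ℂ) : tau 0 p = (p : PowerSeries ℂ) := by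
  rw [tau_eq, Polynomial.taylor_zero]

lemma dvd_of_tau (ξ : ℂ) (p : Polynomial ℂ) (r : ℕ) (h : PowerSeries.X ^ r ∣ tau ξ p) :
    (Polynomial.X - Polynomial.C ξ) ^ r ∣ p := by
  rw [tau_eq, PowerSeries.X_pow_dvd_iff] at h
  have h1 : Polynomial.X ^ r ∣ Polynomial.taylor ξ p := by
    rw [Polynomial.X_pow_dvd_iff]
    intro d hd
    simpa using h d hd
  have h2 := map_dvd (Polynomial.taylorAlgHom (-ξ)) h1
  have h3 : Polynomial.taylorAlgHom (-ξ) (Polynomial.taylor ξ p) = p := by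
    change Polynomial.taylor (-ξ) (Polynomial.taylor ξ p) = p
    rw [Polynomial.taylor_taylor]; simp
  have h4 : Polynomial.taylorAlgHom (-ξ) (Polynomial.X ^ r) =
      (Polynomial.X - Polynomial.C ξ) ^ r := by
    change Polynomial.taylor (-ξ) (Polynomial.X ^ r) = _
    rw [Polynomial.taylor_X_pow, Polynomial.C_neg, sub_eq_add_neg]
  rwa [h3, h4] at h2

lemma X_pow_dvd_derivative {f : PowerSeries ℂ} {r : ℕ} (h : PowerSeries.X ^ r ∣ f) :
    PowerSeries.X ^ (r - 1) ∣ PowerSeries.derivative ℂ f := by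
  rw [PowerSeries.X_pow_dvd_iff] at h ⊢
  intro m hm
  rw [PowerSeries.coeff_derivative, h _ (by omega), zero_mul]

lemma X_pow_dvd_iter (T : PowerSeries ℂ) {f : PowerSeries ℂ} {r : ℕ}
    (h : PowerSeries.X ^ r ∣ f) (k : ℕ) :
    PowerSeries.X ^ (r - k) ∣ (fun g => T * PowerSeries.derivative ℂ g)^[k] f := by
  induction k with
  | zero => simpa using h
  | succ k ih =>
    rw [Function.iterate_succ_apply', ← Nat.sub_sub]
    exact (X_pow_dvd_derivative ih).mul_left _

lemma iter_sum_smul {ι : Type*} (T : PowerSeries ℂ) (s : Finset ι) (c : ι → ℂ)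
    (f : ι → PowerSeries ℂ) (k : ℕ) :
    (fun g => T * PowerSeries.derivative ℂ g)^[k] (∑ i ∈ s, c i • f i) =
      ∑ i ∈ s, c i • (fun g => T * PowerSeries.derivative ℂ g)^[k] (f i) := by
  induction k with
  | zero => rfl
  | succ k ih =>
    simp only [Function.iterate_succ_apply', ih, map_sum, Finset.mul_sum, Derivation.map_smul,
      mul_smul_comm]

lemma det_dvd_rows {ι R : Type*} [Fintype ι] [DecidableEq ι] [CommRing R] (A : Matrix ι ι R)
    (x : ι → R) (h : ∀ i j, x i ∣ A i j) : ∏ i, x i ∣ A.det := by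
  choose B hB using h
  have : A = Matrix.of fun i j => x i * (Matrix.of B) i j := by
    ext i j; simp [hB]
  rw [this, Matrix.det_mul_column]
  exact Dvd.intro _ rfl

variable {σ : Type*} [Fintype σ] [DecidableEq σ]

lemma tau_Wr (I : Finset (σ →₀ ℕ)) (hI : Down I) (a : σ → ℂ) (P : MvPowerSeries σ (Polynomial ℂ))
    (ξ : ℂ) (v : σ → PowerSeries ℂ)
    (hv : ∀ i, tau ξ (1 + Polynomial.C (a i) * Polynomial.X) * PowerSeries.derivative ℂ (v i) =
      PowerSeries.C (a i)) :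
    (Matrix.of fun α β : I => (fun g => tau ξ (TT a) * PowerSeries.derivative ℂ g)^[
        (Fintype.equivFin I β : ℕ)]
      (MvPowerSeries.coeff α.1 (expS (-v) *
        MvPowerSeries.map (tau ξ : Polynomial ℂ →+* PowerSeries ℂ) P))).det ∣
      tau ξ (Wr I a P).det := by
  have hv' : ∀ i, tau ξ (TT a) * PowerSeries.derivative ℂ (v i) = tau ξ (ww a i) := by
    intro i
    rw [TT_eq a i, ww, map_mul, map_mul, tau_C, ← hv i]; ring
  have h1 := det_dvd_box hI (expS v) (fun β : I => expS (-v) *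
    (nab (PowerSeries.derivative ℂ) (tau ξ (TT a)) (fun i => tau ξ (ww a i)))^[
      (Fintype.equivFin I β : ℕ)]
      (MvPowerSeries.map (tau ξ : Polynomial ℂ →+* PowerSeries ℂ) P))
  simp only [coeff_expS_mul_nab_iter _ _ _ v hv'] at h1
  convert h1 using 1
  rw [AlgHom.map_det]
  congr 1
  ext1 α β
  simp only [AlgHom.mapMatrix_apply, Matrix.map_apply, Wr, Matrix.of_apply]
  rw [← mul_assoc, expS_mul_neg, one_mul, ← map_nab_iter (tau ξ) Polynomial.derivative' _
    (tau_derivative ξ), MvPowerSeries.coeff_map]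
  rfl

theorem zero_est (a : σ → ℂ) (ha : Function.Injective a) (ha0 : ∀ i, a i ≠ 0)
    {I : Finset (σ →₀ ℕ)} (hI : Down I) (h0 : (0 : σ →₀ ℕ) ∈ I)
    (P : MvPowerSeries σ (Polynomial ℂ)) (hP : MvPowerSeries.coeff 0 P ≠ 0) (n : ℕ)
    (hdeg : ∀ α, (MvPowerSeries.coeff α P).natDegree ≤ n) (ξ : ℂ) (hξ : ξ ≠ 0)
    (v0 v1 : σ → PowerSeries ℂ)
    (hv0 : ∀ i, tau 0 (1 + Polynomial.C (a i) * Polynomial.X) * PowerSeries.derivative ℂ (v0 i) =
      PowerSeries.C (a i))
    (hv1 : ∀ i, tau ξ (1 + Polynomial.C (a i) * Polynomial.X) * PowerSeries.derivative ℂ (v1 i) =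
      PowerSeries.C (a i))
    (ν ν' : ℕ)
    (hν : ∀ α ∈ I, α ≠ 0 → PowerSeries.X ^ ν ∣ MvPowerSeries.coeff α (expS (-v0) *
        MvPowerSeries.map (tau 0 : Polynomial ℂ →+* PowerSeries ℂ) P))
    (lam : (σ →₀ ℕ) → ℂ) (α0 : σ →₀ ℕ) (hα0 : α0 ∈ I) (hlam : lam α0 ≠ 0)
    (hν' : PowerSeries.X ^ ν' ∣ ∑ α ∈ I, lam α • MvPowerSeries.coeff α (expS (-v1) *
        MvPowerSeries.map (tau ξ : Polynomial ℂ →+* PowerSeries ℂ) P)) :
    (I.card - 1) * (ν - (I.card - 1)) + (ν' - (I.card - 1)) ≤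
      I.card * (n + I.card * Fintype.card σ) := by
  have hW := Wr_det_ne_zero a ha ha0 hI h0 P hP
  have hidx : ∀ β : I, (Fintype.equivFin I β : ℕ) ≤ I.card - 1 := by
    intro β
    have := (Fintype.equivFin I β).2
    simp only [Fintype.card_coe] at this
    omega
  -- order at zero
  have d0 : PowerSeries.X ^ ((I.card - 1) * (ν - (I.card - 1))) ∣ tau 0 (Wr I a P).det := by
    refine dvd_trans ?_ (tau_Wr I hI a P 0 v0 hv0)
    refine dvd_trans ?_ (det_dvd_rows _
      (fun α : I => if α = ⟨0, h0⟩ then 1 else PowerSeries.X ^ (ν - (I.card - 1))) ?_)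
    · rw [← Finset.mul_prod_erase _ _ (mem_univ (⟨0, h0⟩ : I)), if_pos rfl, one_mul,
        Finset.prod_congr rfl (g := fun _ => PowerSeries.X ^ (ν - (I.card - 1)))
          (fun α hα => if_neg (mem_erase.1 hα).1), Finset.prod_const, ← pow_mul, mul_comm,
          card_erase_of_mem (mem_univ _), card_univ, Fintype.card_coe]
    · intro α β
      split_ifs with h
      · exact one_dvd _
      · have hα : α.1 ≠ 0 := fun h' => h (Subtype.ext h')
        refine dvd_trans (pow_dvd_pow _ ?_) (X_pow_dvd_iter _ (hν α.1 α.2 hα) _)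
        have := hidx β; omega
  -- order at ξ
  have d1 : PowerSeries.X ^ (ν' - (I.card - 1)) ∣ tau ξ (Wr I a P).det := by
    refine dvd_trans ?_ (tau_Wr I hI a P ξ v1 hv1)
    set A : Matrix I I (PowerSeries ℂ) := Matrix.of fun α β : I =>
      (fun g => tau ξ (TT a) * PowerSeries.derivative ℂ g)^[(Fintype.equivFin I β : ℕ)]
      (MvPowerSeries.coeff α.1 (expS (-v1) *
        MvPowerSeries.map (tau ξ : Polynomial ℂ →+* PowerSeries ℂ) P)) with hA
    have e1 := Matrix.det_updateRow_sum A ⟨α0, hα0⟩ (fun α => PowerSeries.C (lam α.1))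
    have e2 : PowerSeries.X ^ (ν' - (I.card - 1)) ∣
        (A.updateRow ⟨α0, hα0⟩ (∑ α : I, PowerSeries.C (lam α.1) • A α)).det := by
      refine dvd_trans ?_ (det_dvd_rows _
        (fun α : I => if α = ⟨α0, hα0⟩ then PowerSeries.X ^ (ν' - (I.card - 1)) else 1) ?_)
      · rw [Finset.prod_ite_eq' univ]; simp
      · intro α β
        split_ifs with h
        · rw [h, Matrix.updateRow_self]
          have h3 := X_pow_dvd_iter (tau ξ (TT a)) hν' (Fintype.equivFin I β : ℕ)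
          rw [iter_sum_smul, ← Finset.sum_coe_sort I] at h3
          refine dvd_trans (pow_dvd_pow _ (by have := hidx β; omega)) (dvd_trans h3 ?_)
          apply dvd_of_eq
          rw [Finset.sum_apply]
          refine Finset.sum_congr rfl fun γ _ => ?_
          simp [hA, PowerSeries.smul_eq_C_mul]
        · exact one_dvd _
    rw [e1, smul_eq_mul] at e2
    have hu : IsUnit (PowerSeries.C (lam α0) : PowerSeries ℂ) :=
      (IsUnit.mk0 _ hlam).map _
    exact (IsUnit.dvd_mul_left hu).1 e2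
  have p0 := dvd_of_tau 0 _ _ d0
  have p1 := dvd_of_tau ξ _ _ d1
  have hcop : IsCoprime ((Polynomial.X - Polynomial.C (0 : ℂ)) ^ ((I.card - 1) * (ν - (I.card - 1))))
      ((Polynomial.X - Polynomial.C ξ) ^ (ν' - (I.card - 1))) :=
    (Polynomial.isCoprime_X_sub_C_of_isUnit_sub (by simpa using hξ)).pow
  have h2 := Polynomial.natDegree_le_of_dvd (hcop.mul_dvd p0 p1) hW
  rw [Polynomial.natDegree_mul (pow_ne_zero _ (Polynomial.X_sub_C_ne_zero _))
    (pow_ne_zero _ (Polynomial.X_sub_C_ne_zero _)), Polynomial.natDegree_pow,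
    Polynomial.natDegree_pow, Polynomial.natDegree_X_sub_C, Polynomial.natDegree_X_sub_C,
    mul_one, mul_one] at h2
  exact h2.trans (natDegree_Wr_det I a P n hdeg)

end Pool.Agent.MP_d171e3_nt.H48

end

-- part MP_d171e3_nt.H48.Taylor
section

/-! Taylor series of holomorphic functions on a disc, Cauchy and Schwarz type estimates. -/

namespace Pool.Agent.MP_d171e3_nt.H48

open Finset Metric

/-- Taylor series at a point -/
noncomputable def tay (ξ : ℂ) (f : ℂ → ℂ) : PowerSeries ℂ :=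
  PowerSeries.mk fun k => ((k.factorial : ℂ)⁻¹) * iteratedDeriv k f ξ

lemma coeff_tay (ξ : ℂ) (f : ℂ → ℂ) (k : ℕ) :
    PowerSeries.coeff k (tay ξ f) = ((k.factorial : ℂ)⁻¹) * iteratedDeriv k f ξ := by
  simp [tay]

lemma tay_congr {ξ : ℂ} {f g : ℂ → ℂ} (h : f =ᶠ[nhds ξ] g) : tay ξ f = tay ξ g := by
  ext k
  rw [coeff_tay, coeff_tay, h.iteratedDeriv_eq]

lemma tay_deriv (ξ : ℂ) (f : ℂ → ℂ) :
    tay ξ (deriv f) = PowerSeries.derivative ℂ (tay ξ f) := by
  ext k
  rw [PowerSeries.coeff_derivative, coeff_tay, coeff_tay, iteratedDeriv_succ', Nat.factorial_succ]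
  have h3 : (k.factorial : ℂ) ≠ 0 := by exact_mod_cast Nat.factorial_ne_zero _
  have h4 : ((k : ℂ) + 1) ≠ 0 := by exact_mod_cast Nat.succ_ne_zero k
  push_cast; field_simp

lemma tay_const (ξ c : ℂ) : tay ξ (fun _ => c) = PowerSeries.C c := by
  ext k
  rw [coeff_tay, iteratedDeriv_const, PowerSeries.coeff_C]
  split_ifs with h
  · subst h; simp
  · simp

lemma tay_id (ξ : ℂ) : tay ξ (fun z => z) = PowerSeries.C ξ + PowerSeries.X := by
  ext k
  rw [coeff_tay, iteratedDeriv_fun_id, map_add, PowerSeries.coeff_C, PowerSeries.coeff_X]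
  rcases k with _ | _ | k <;> simp

lemma tay_mul {ξ : ℂ} {f g : ℂ → ℂ} (hf : AnalyticAt ℂ f ξ) (hg : AnalyticAt ℂ g ξ) :
    tay ξ (f * g) = tay ξ f * tay ξ g := by
  ext k
  rw [coeff_tay, iteratedDeriv_mul hf.contDiffAt hg.contDiffAt, PowerSeries.coeff_mul,
    Finset.Nat.sum_antidiagonal_eq_sum_range_succ_mk, Finset.mul_sum]
  refine Finset.sum_congr rfl fun i hi => ?_
  have hi' : i ≤ k := by simpa [Nat.lt_succ_iff] using hi
  rw [coeff_tay, coeff_tay]
  have h := Nat.choose_mul_factorial_mul_factorial hi'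
  have h2 : (k.factorial : ℂ) = k.choose i * i.factorial * (k - i).factorial := by
    rw [← h]; push_cast; ring
  have h3 : (i.factorial : ℂ) ≠ 0 := by exact_mod_cast Nat.factorial_ne_zero _
  have h4 : ((k - i).factorial : ℂ) ≠ 0 := by exact_mod_cast Nat.factorial_ne_zero _
  have h5 : (k.choose i : ℂ) ≠ 0 := by
    have : 0 < k.choose i := Nat.choose_pos hi'
    exact_mod_cast this.ne'
  rw [h2]
  field_simp

lemma tay_add {ξ : ℂ} {f g : ℂ → ℂ} (hf : AnalyticAt ℂ f ξ) (hg : AnalyticAt ℂ g ξ) :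
    tay ξ (f + g) = tay ξ f + tay ξ g := by
  ext k
  rw [map_add, coeff_tay, coeff_tay, coeff_tay, iteratedDeriv_add hf.contDiffAt hg.contDiffAt]
  ring

/-- holomorphic functions on the disc of radius `ρ` -/
def Hol (ρ : ℝ) : Subalgebra ℂ (ℂ → ℂ) where
  carrier := {f | DifferentiableOn ℂ f (ball 0 ρ)}
  mul_mem' := fun hf hg => DifferentiableOn.mul hf hg
  add_mem' := fun hf hg => DifferentiableOn.add hf hg
  algebraMap_mem' := fun c => differentiableOn_const c

lemma Hol.analyticAt {ρ : ℝ} (f : Hol ρ) {ξ : ℂ} (hξ : ξ ∈ ball (0 : ℂ) ρ) :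
    AnalyticAt ℂ f.1 ξ :=
  DifferentiableOn.analyticAt f.2 (isOpen_ball.mem_nhds hξ)

/-- the Taylor homomorphism -/
noncomputable def tayH {ρ : ℝ} {ξ : ℂ} (hξ : ξ ∈ ball (0 : ℂ) ρ) : Hol ρ →ₐ[ℂ] PowerSeries ℂ where
  toFun f := tay ξ f.1
  map_one' := (tay_const ξ 1).trans (map_one _)
  map_mul' f g := tay_mul (Hol.analyticAt f hξ) (Hol.analyticAt g hξ)
  map_zero' := (tay_const ξ 0).trans (map_zero _)
  map_add' f g := tay_add (Hol.analyticAt f hξ) (Hol.analyticAt g hξ)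
  commutes' c := (tay_const ξ c).trans (by simp)

lemma tayH_apply {ρ : ℝ} {ξ : ℂ} (hξ : ξ ∈ ball (0 : ℂ) ρ) (f : Hol ρ) :
    tayH hξ f = tay ξ f.1 := rfl

/-- evaluation -/
def evH (ρ : ℝ) (z : ℂ) : Hol ρ →ₐ[ℂ] ℂ :=
  (Pi.evalAlgHom ℂ (fun _ : ℂ => ℂ) z).comp (Hol ρ).val

lemma evH_apply (ρ : ℝ) (z : ℂ) (f : Hol ρ) : evH ρ z f = f.1 z := rfl

/-- the identity function -/
def idH (ρ : ℝ) : Hol ρ := ⟨fun z => z, differentiableOn_id⟩

/-- polynomials as holomorphic functions -/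
noncomputable def polyH (ρ : ℝ) : Polynomial ℂ →ₐ[ℂ] Hol ρ := Polynomial.aeval (idH ρ)

lemma tayH_polyH {ρ : ℝ} {ξ : ℂ} (hξ : ξ ∈ ball (0 : ℂ) ρ) (p : Polynomial ℂ) :
    tayH hξ (polyH ρ p) = tau ξ p := by
  have : (tayH hξ).comp (polyH ρ) = tau ξ := by
    apply Polynomial.algHom_ext
    rw [tau_X, AlgHom.comp_apply, polyH, Polynomial.aeval_X, tayH_apply]
    exact tay_id ξ
  rw [← this]; rfl

lemma evH_polyH (ρ : ℝ) (z : ℂ) (p : Polynomial ℂ) : evH ρ z (polyH ρ p) = p.eval z := by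
  have : (evH ρ z).comp (polyH ρ) = Polynomial.aeval z := by
    apply Polynomial.algHom_ext
    rw [AlgHom.comp_apply, polyH, Polynomial.aeval_X, Polynomial.aeval_X]
    rfl
  have h := congrArg (fun φ => φ p) this
  simpa [Polynomial.coe_aeval_eq_eval] using h

lemma cauchy_est {ρ : ℝ} (f : Hol ρ) {c : ℂ} {r B : ℝ} (hr : 0 < r) (hc : ‖c‖ + r < ρ)
    (hB : ∀ z, ‖z - c‖ = r → ‖f.1 z‖ ≤ B) (k : ℕ) :
    ‖PowerSeries.coeff k (tay c f.1)‖ ≤ B / r ^ k := by
  have hsub : closedBall c r ⊆ ball (0 : ℂ) ρ := by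
    intro z hz
    rw [mem_closedBall, dist_eq_norm] at hz
    rw [mem_ball, dist_zero_right]
    calc ‖z‖ = ‖c + (z - c)‖ := by ring_nf
      _ ≤ ‖c‖ + ‖z - c‖ := norm_add_le _ _
      _ < ρ := by linarith
  have hd : DiffContOnCl ℂ f.1 (ball c r) := by
    apply DifferentiableOn.diffContOnCl
    rw [closure_ball c hr.ne']
    exact DifferentiableOn.mono f.2 hsub
  have h := Complex.norm_iteratedDeriv_le_of_forall_mem_sphere_norm_le k hr hd
    (fun z hz => hB z (by simpa [dist_eq_norm] using hz))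
  have h3 : (0 : ℝ) < k.factorial := by exact_mod_cast Nat.factorial_pos _
  rw [coeff_tay, norm_mul, norm_inv, Complex.norm_natCast, inv_mul_le_iff₀ h3, ← mul_div_assoc]
  exact h

lemma schwarz_est {ρ : ℝ} (f : Hol ρ) {r B : ℝ} (hr : 0 < r) (hρ : r < ρ)
    (hB : ∀ z, ‖z‖ = r → ‖f.1 z‖ ≤ B) {ν : ℕ} (hν : PowerSeries.X ^ ν ∣ tay 0 f.1)
    {q : ℝ} (hq : q ≤ 1 / 2) {z : ℂ} (hz : ‖z‖ ≤ q * r) : ‖f.1 z‖ ≤ 2 * B * q ^ ν := by
  have hq0 : 0 ≤ q := by
    have := norm_nonneg z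
    by_contra h
    push Not at h
    nlinarith
  have hB0 : 0 ≤ B := le_trans (norm_nonneg _) (hB (r : ℂ) (by simp [hr.le]))
  have hzρ : z ∈ ball (0 : ℂ) ρ := by
    rw [mem_ball, dist_zero_right]; nlinarith
  have hs := Complex.hasSum_taylorSeries_on_ball f.2 hzρ
  have hs' : HasSum (fun n => PowerSeries.coeff n (tay 0 f.1) * z ^ n) (f.1 z) := by
    have : (fun n => PowerSeries.coeff n (tay 0 f.1) * z ^ n) =
        fun n : ℕ => (n.factorial : ℂ)⁻¹ • (z - 0) ^ n • iteratedDeriv n f.1 0 := by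
      funext n
      rw [coeff_tay]; simp; ring
    rw [this]; exact hs
  rw [PowerSeries.X_pow_dvd_iff] at hν
  have hs2 := (hasSum_nat_add_iff' ν).2 hs'
  rw [Finset.sum_eq_zero (fun i hi => by rw [hν i (mem_range.1 hi), zero_mul]), sub_zero] at hs2
  have hg : HasSum (fun n : ℕ => B * q ^ ν * (1 / 2 : ℝ) ^ n) (B * q ^ ν * 2) :=
    hasSum_geometric_two.mul_left _
  have := hs2.norm_le_of_bounded hg (fun n => ?_)
  · linarith
  · have h1 := cauchy_est f (c := 0) hr (by simpa using hρ) (fun z hz => hB z (by simpa using hz))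
      (n + ν)
    rw [norm_mul, norm_pow]
    calc ‖PowerSeries.coeff (n + ν) (tay 0 f.1)‖ * ‖z‖ ^ (n + ν)
        ≤ B / r ^ (n + ν) * (q * r) ^ (n + ν) := by gcongr
      _ = B * q ^ ν * q ^ n := by rw [mul_pow]; field_simp; ring
      _ ≤ B * q ^ ν * (1 / 2) ^ n := by gcongr

lemma two_point_est {ρ : ℝ} (f : Hol ρ) {r B η : ℝ} (hr : 0 < r) (hρ : r < ρ) (hη : 0 < η)
    (hηr : 4 * η ≤ r) (hB : ∀ z, ‖z‖ = r → ‖f.1 z‖ ≤ B) {ν : ℕ}
    (hν : PowerSeries.X ^ ν ∣ tay 0 f.1) {ξ : ℂ} (hξ : ‖ξ‖ ≤ η) (k : ℕ) :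
    ‖PowerSeries.coeff k (tay ξ f.1)‖ ≤ 2 * B * (2 * η / r) ^ ν / η ^ k := by
  refine cauchy_est f hη (by linarith) (fun z hz => ?_) k
  refine schwarz_est f hr hρ hB hν ?_ ?_
  · rw [div_le_iff₀ hr]; linarith
  · rw [div_mul_cancel₀ _ hr.ne']
    calc ‖z‖ = ‖ξ + (z - ξ)‖ := by ring_nf
      _ ≤ ‖ξ‖ + ‖z - ξ‖ := norm_add_le _ _
      _ ≤ 2 * η := by linarith

lemma norm_mul_lt_one {ρ : ℝ} {a z : ℂ} (ha : ‖a‖ * ρ ≤ 1) (hz : z ∈ ball (0 : ℂ) ρ) :
    ‖a * z‖ < 1 := by
  rw [mem_ball, dist_zero_right] at hz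
  rw [norm_mul]
  rcases eq_or_lt_of_le (norm_nonneg a) with h | h
  · rw [← h]; simp
  · calc ‖a‖ * ‖z‖ < ‖a‖ * ρ := by gcongr
      _ ≤ 1 := ha

lemma hasDerivAt_log {a z : ℂ} (h : ‖a * z‖ < 1) :
    HasDerivAt (fun z => Complex.log (1 + a * z)) (a / (1 + a * z)) z := by
  have h1 : HasDerivAt (fun z => 1 + a * z) a z := by
    simpa using ((hasDerivAt_id z).const_mul a).const_add 1
  exact h1.clog (Complex.mem_slitPlane_of_norm_lt_one h)

/-- the function `log (1 + a z)` -/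
noncomputable def logH (ρ : ℝ) (a : ℂ) (ha : ‖a‖ * ρ ≤ 1) : Hol ρ :=
  ⟨fun z => Complex.log (1 + a * z), fun _ hz =>
    (hasDerivAt_log (norm_mul_lt_one ha hz)).differentiableAt.differentiableWithinAt⟩

lemma logH_ode {ρ : ℝ} {a : ℂ} (ha : ‖a‖ * ρ ≤ 1) {ξ : ℂ} (hξ : ξ ∈ ball (0 : ℂ) ρ) :
    tau ξ (1 + Polynomial.C a * Polynomial.X) *
      PowerSeries.derivative ℂ (tayH hξ (logH ρ a ha)) = PowerSeries.C a := by
  rw [← tayH_polyH hξ, tayH_apply, tayH_apply, ← tay_deriv,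
    ← tay_mul (Hol.analyticAt _ hξ) (Hol.analyticAt _ hξ).deriv, ← tay_const ξ a]
  apply tay_congr
  filter_upwards [isOpen_ball.mem_nhds hξ] with z hz
  have h1 := norm_mul_lt_one ha hz
  have h2 : deriv (logH ρ a ha).1 z = a / (1 + a * z) := (hasDerivAt_log h1).deriv
  have h3 : (polyH ρ (1 + Polynomial.C a * Polynomial.X)).1 z = 1 + a * z := by
    rw [← evH_apply, evH_polyH]; simp
  have h4 : 1 + a * z ≠ 0 := Complex.slitPlane_ne_zero (Complex.mem_slitPlane_of_norm_lt_one h1)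
  rw [Pi.mul_apply, h2, h3]
  field_simp

lemma norm_logH_le {ρ : ℝ} {a : ℂ} (ha : ‖a‖ * ρ ≤ 1) {z : ℂ} (hz : ‖z‖ ≤ ρ / 2) :
    ‖(logH ρ a ha).1 z‖ ≤ 1 := by
  have h1 : ‖a * z‖ ≤ 1 / 2 := by
    rw [norm_mul]
    calc ‖a‖ * ‖z‖ ≤ ‖a‖ * (ρ / 2) := by gcongr
      _ ≤ 1 / 2 := by linarith
  have := Complex.norm_log_one_add_half_le_self h1
  change ‖Complex.log (1 + a * z)‖ ≤ 1
  linarith

end Pool.Agent.MP_d171e3_nt.H48

end

-- part MP_d171e3_nt.H48.Arith
section

/-! Denominators. -/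

namespace Pool.Agent.MP_d171e3_nt.H48

open Finset PowerSeries

/-- the integers inside the complex numbers -/
def ZZ : Subring ℂ := (Int.castRingHom ℂ).range

lemma mem_ZZ {x : ℂ} : x ∈ ZZ ↔ ∃ z : ℤ, (z : ℂ) = x := Iff.rfl

lemma ZZ.eq_zero {x : ℂ} (hx : x ∈ ZZ) (h : ‖x‖ < 1) : x = 0 := by
  obtain ⟨z, rfl⟩ := mem_ZZ.1 hx
  rw [Complex.norm_intCast] at h
  have : |z| < 1 := by exact_mod_cast h
  rw [Int.abs_lt_one_iff] at this
  simp [this]

/-- power series whose first coefficients are integers -/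
def IntK (K : ℕ) : Subring (PowerSeries ℂ) where
  carrier := {f | ∀ j ≤ K, coeff j f ∈ ZZ}
  mul_mem' := by
    intro f g hf hg j hj
    rw [coeff_mul]
    refine Subring.sum_mem _ fun p hp => ?_
    have hp' : p.1 + p.2 = j := by simpa using hp
    exact ZZ.mul_mem (hf _ (by omega)) (hg _ (by omega))
  one_mem' := by
    intro j _
    rw [coeff_one]; split_ifs
    · exact ZZ.one_mem
    · exact ZZ.zero_mem
  add_mem' := by
    intro f g hf hg j hj
    rw [map_add]; exact ZZ.add_mem (hf j hj) (hg j hj)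
  zero_mem' := by intro j _; simp
  neg_mem' := by
    intro f hf j hj
    rw [map_neg]; exact ZZ.neg_mem (hf j hj)

lemma C_mem_IntK (K : ℕ) {x : ℂ} (hx : x ∈ ZZ) : (C x : PowerSeries ℂ) ∈ IntK K := by
  intro j _
  rw [coeff_C]; split_ifs
  · exact hx
  · exact ZZ.zero_mem

lemma X_mem_IntK (K : ℕ) : (X : PowerSeries ℂ) ∈ IntK K := by
  intro j _
  rw [coeff_X]; split_ifs
  · exact ZZ.one_mem
  · exact ZZ.zero_mem

lemma rescale_C' (r x : ℂ) : rescale r (C x : PowerSeries ℂ) = C x := by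
  ext j
  rw [coeff_rescale, coeff_C]; split_ifs with h
  · simp [h]
  · simp

lemma log_int {v : PowerSeries ℂ} {a b r : ℂ} {q : ℤ} (hb : b ≠ 0) (hv0 : coeff 0 v = 0)
    (hv : (C b + C a * X) * derivative ℂ v = C a) (hq : r * a = q * b) {K d : ℕ}
    (hd : ∀ j, 1 ≤ j → j ≤ K → j ∣ d) : C (d : ℂ) * rescale r v ∈ IntK K := by
  set u := derivative ℂ v with hu
  have h1 : ∀ j, r ^ (j + 1) * coeff j u = q * (-q) ^ j := by
    intro j
    induction j with
    | zero =>
      have := congrArg (coeff 0) hv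
      simp only [add_mul, map_add, coeff_C_mul, mul_assoc, coeff_zero_X_mul, coeff_zero_C] at this
      apply mul_left_cancel₀ hb
      simp only [zero_add, pow_one, pow_zero, mul_one]
      linear_combination r * this + hq
    | succ j ih =>
      have := congrArg (coeff (j + 1)) hv
      simp only [add_mul, map_add, coeff_C_mul, mul_assoc, coeff_succ_X_mul, coeff_C,
        Nat.succ_ne_zero, if_false] at this
      apply mul_left_cancel₀ hb
      linear_combination r ^ (j + 2) * this - (r ^ (j + 1) * coeff j u) * hq - q * b * ih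
  intro j hj
  rw [coeff_C_mul, coeff_rescale]
  rcases j with _ | j
  · simp [hv0]
  · obtain ⟨e, he⟩ := hd (j + 1) (by omega) hj
    have h2 := h1 j
    rw [hu, coeff_derivative] at h2
    refine mem_ZZ.2 ⟨e * (q * (-q) ^ j), ?_⟩
    rw [he]; push_cast
    linear_combination -(e : ℂ) * h2

variable {σ : Type*} [Fintype σ]

lemma mon_int {v : σ → PowerSeries ℂ} {r : ℂ} {K d D : ℕ}
    (hv : ∀ i, C (d : ℂ) * rescale r (v i) ∈ IntK K) {α : σ →₀ ℕ} (hα : ∑ i, α i ≤ D) :
    C ((d : ℂ) ^ D) * rescale r (mon v α) ∈ IntK K := by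
  obtain ⟨e, rfl⟩ := Nat.exists_eq_add_of_le hα
  have : C ((d : ℂ) ^ (∑ i, α i + e)) * rescale r (mon v α) =
      C ((d : ℂ) ^ e) * ∏ i, (C (d : ℂ) * rescale r (v i)) ^ α i := by
    simp only [mon, map_prod, map_pow, mul_pow, Finset.prod_mul_distrib, Finset.prod_pow_eq_pow_sum,
      pow_add, map_mul]
    ring
  rw [this]
  exact Subring.mul_mem _ (C_mem_IntK K (ZZ.pow_mem (natCast_mem _ _) _))
    (Subring.prod_mem _ fun i _ => Subring.pow_mem _ (hv i) _)

lemma fac_int {Φ : ℕ} {α : σ →₀ ℕ} (h : fac α ∣ Φ) : (Φ : ℂ) * ((fac α : ℂ)⁻¹) ∈ ZZ := by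
  obtain ⟨e, rfl⟩ := h
  have : (fac α : ℂ) ≠ 0 := by exact_mod_cast fac_ne_zero α
  refine mem_ZZ.2 ⟨e, ?_⟩
  push_cast; field_simp

lemma expS_int {v : σ → PowerSeries ℂ} {r : ℂ} {K d D Φ : ℕ}
    (hv : ∀ i, C (d : ℂ) * rescale r (v i) ∈ IntK K) {α : σ →₀ ℕ} (hα : ∑ i, α i ≤ D)
    (h : fac α ∣ Φ) :
    C ((Φ : ℂ) * (d : ℂ) ^ D) * rescale r (MvPowerSeries.coeff α (expS v)) ∈ IntK K := by
  have : C ((Φ : ℂ) * (d : ℂ) ^ D) * rescale r (MvPowerSeries.coeff α (expS v)) =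
      C ((Φ : ℂ) * ((fac α : ℂ)⁻¹)) * (C ((d : ℂ) ^ D) * rescale r (mon v α)) := by
    rw [coeff_expS, smul_eq_C_mul, map_mul (rescale r), rescale_C']
    simp only [map_mul]
    ring
  rw [this]
  exact Subring.mul_mem _ (C_mem_IntK K (fac_int h)) (mon_int hv hα)

lemma tau_int (p : Polynomial ℂ) {n : ℕ} (hp : p.natDegree ≤ n) {δ : ℂ}
    (hδ : ∀ j, δ * p.coeff j ∈ ZZ) {N : ℕ} (hN : N ≠ 0) (Pi : ℕ) (K : ℕ) :
    C (δ * (N : ℂ) ^ n) * rescale ((Pi : ℂ) / N) (tau ((N : ℂ)⁻¹) p) ∈ IntK K := by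
  have hN' : (N : ℂ) ≠ 0 := by exact_mod_cast hN
  rw [p.as_sum_range' (n + 1) (by omega), map_sum, map_sum, Finset.mul_sum]
  refine Subring.sum_mem _ fun j hj => ?_
  have hj' : j ≤ n := by simpa [Nat.lt_succ_iff] using hj
  obtain ⟨e, rfl⟩ := Nat.exists_eq_add_of_le hj'
  have h1 : rescale ((Pi : ℂ) / N) (C ((N : ℂ)⁻¹) + X) = C ((N : ℂ)⁻¹) * (1 + C (Pi : ℂ) * X) := by
    rw [map_add, rescale_C', rescale_X, mul_add, mul_one, ← mul_assoc, ← map_mul, div_eq_inv_mul]
  have : C (δ * (N : ℂ) ^ (j + e)) * rescale ((Pi : ℂ) / N)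
      (tau ((N : ℂ)⁻¹) (Polynomial.monomial j (p.coeff j))) =
      C (δ * p.coeff j * (N : ℂ) ^ e) * (1 + C (Pi : ℂ) * X) ^ j := by
    rw [← Polynomial.C_mul_X_pow_eq_monomial, map_mul (tau _), map_pow, tau_C, tau_X,
      map_mul (rescale _), map_pow, rescale_C', h1, mul_pow, ← map_pow, ← mul_assoc, ← mul_assoc,
      ← map_mul, ← map_mul]
    congr 2
    rw [inv_pow, pow_add]
    field_simp
  rw [this]
  exact Subring.mul_mem _ (C_mem_IntK K (ZZ.mul_mem (hδ j) (ZZ.pow_mem (natCast_mem _ _) _)))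
    (Subring.pow_mem _ (Subring.add_mem _ (Subring.one_mem _)
      (Subring.mul_mem _ (C_mem_IntK K (natCast_mem _ _)) (X_mem_IntK K))) _)

lemma lcmUpto_le (n : ℕ) : Nat.lcmUpto n ≤ 256 ^ n := by
  have h1 := Chebyshev.psi_le_const_mul_self (x := n) (Nat.cast_nonneg n)
  rw [Chebyshev.psi_eq_log_lcmUpto] at h1
  have h2 : Real.log 4 + 4 ≤ Real.log 256 := by
    have h3 : Real.log 256 = Real.log 4 + 6 * Real.log 2 := by
      rw [show (256 : ℝ) = 4 * 2 ^ 6 by norm_num, Real.log_mul (by norm_num) (by norm_num),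
        Real.log_pow]; norm_num
    have := Real.log_two_gt_d9
    rw [h3]; linarith
  have h4 : Real.log (Nat.lcmUpto n) ≤ Real.log (256 ^ n) := by
    rw [Real.log_pow]
    have : (0 : ℝ) ≤ n := Nat.cast_nonneg n
    nlinarith
  have h5 : (0 : ℝ) < Nat.lcmUpto n := by exact_mod_cast Nat.lcmUpto_pos n
  have := (Real.log_le_log_iff h5 (by positivity)).1 h4
  exact_mod_cast this

lemma dvd_lcmUpto {j n : ℕ} (h1 : 1 ≤ j) (h2 : j ≤ n) : j ∣ Nat.lcmUpto n :=
  Finset.dvd_lcm (f := id) (mem_Icc.2 ⟨h1, h2⟩)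

end Pool.Agent.MP_d171e3_nt.H48

end

-- part MP_d171e3_nt.H48.Siegel
section

/-! Type II Pade approximation by Siegel's lemma. -/

namespace Pool.Agent.MP_d171e3_nt.H48

open Finset PowerSeries

open scoped Matrix.Norms.Elementwise in
lemma siegel_series {ι : Type*} [Fintype ι] (f : ι → PowerSeries ℂ) (n t s A : ℕ)
    (hn : n = Fintype.card ι * t + s) (ht : 0 < Fintype.card ι * t)
    (hA : Fintype.card ι * t ≤ A * (s + 1)) (δ : ℕ) (hδ : 1 ≤ δ) (R : ℝ) (hR : 1 ≤ R)
    (hint : ∀ i, C (δ : ℂ) * f i ∈ IntK (n + t)) (hb : ∀ i j, ‖coeff j (f i)‖ ≤ R ^ j) :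
    ∃ Q : Polynomial ℂ, Q ≠ 0 ∧ Q.natDegree ≤ n ∧ (∀ j, Q.coeff j ∈ ZZ) ∧
      (∀ j, ‖Q.coeff j‖ ≤ ((n + 1) * (δ * R ^ (n + t))) ^ A) ∧
      ∀ i j, n < j → j ≤ n + t → coeff j ((Q : PowerSeries ℂ) * f i) = 0 := by
  classical
  have hz : ∀ (p : ι × Fin t) (k : Fin (n + 1)), ∃ z : ℤ,
      (z : ℂ) = δ * coeff (n + 1 + p.2 - k) (f p.1) := by
    intro p k
    have := hint p.1 (n + 1 + p.2 - k) (by have := p.2.2; omega)
    rw [coeff_C_mul] at this
    exact mem_ZZ.1 this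
  choose Z hZ using hz
  let Mt : Matrix (ι × Fin t) (Fin (n + 1)) ℤ := Matrix.of Z
  have hc1 : Fintype.card (ι × Fin t) = Fintype.card ι * t := by simp
  have hc2 : Fintype.card (Fin (n + 1)) = n + 1 := by simp
  obtain ⟨q, hq0, hqM, hq⟩ := Int.Matrix.exists_ne_zero_int_vec_norm_le Mt
    (by rw [hc1, hc2]; omega) (by rw [hc1]; exact ht)
  have hδ' : (1 : ℝ) ≤ δ := by exact_mod_cast hδ
  have hbase : (1 : ℝ) ≤ δ * R ^ (n + t) := one_le_mul_of_one_le_of_one_le hδ' (one_le_pow₀ hR)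
  have hM : ‖Mt‖ ≤ δ * R ^ (n + t) := by
    rw [Matrix.norm_le_iff (by positivity)]
    intro p k
    have h1 : ‖Mt p k‖ = ‖(Z p k : ℂ)‖ := by
      rw [Complex.norm_intCast, Int.norm_eq_abs]; rfl
    rw [h1, hZ, norm_mul, Complex.norm_natCast]
    gcongr
    refine (hb _ _).trans (pow_le_pow_right₀ hR ?_)
    have := p.2.2; omega
  have hqb : ‖q‖ ≤ ((n + 1) * (δ * R ^ (n + t))) ^ A := by
    refine hq.trans ?_
    rw [hc1, hc2]
    have hb1 : (1 : ℝ) ≤ (n + 1) * (δ * R ^ (n + t)) :=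
      one_le_mul_of_one_le_of_one_le (by simp) hbase
    have he : ((Fintype.card ι * t : ℕ) : ℝ) / (((n + 1 : ℕ) : ℝ) - (Fintype.card ι * t : ℕ))
        ≤ (A : ℝ) := by
      have : ((n + 1 : ℕ) : ℝ) - (Fintype.card ι * t : ℕ) = (s + 1 : ℕ) := by
        rw [hn]; push_cast; ring
      rw [this, div_le_iff₀ (by positivity)]
      exact_mod_cast hA
    have he0 : (0 : ℝ) ≤ ((Fintype.card ι * t : ℕ) : ℝ) /
        (((n + 1 : ℕ) : ℝ) - (Fintype.card ι * t : ℕ)) := by
      have : ((n + 1 : ℕ) : ℝ) - (Fintype.card ι * t : ℕ) = (s + 1 : ℕ) := by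
        rw [hn]; push_cast; ring
      rw [this]; positivity
    calc _ ≤ (((n : ℝ) + 1) * (δ * R ^ (n + t))) ^ (((Fintype.card ι * t : ℕ) : ℝ) /
          (((n + 1 : ℕ) : ℝ) - (Fintype.card ι * t : ℕ))) := by
          apply Real.rpow_le_rpow (by positivity) _ he0
          push_cast
          gcongr
          exact max_le hbase hM
      _ ≤ (((n : ℝ) + 1) * (δ * R ^ (n + t))) ^ (A : ℝ) :=
          Real.rpow_le_rpow_of_exponent_le hb1 he
      _ = _ := Real.rpow_natCast _ _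
  let Q : Polynomial ℂ := ∑ k : Fin (n + 1), Polynomial.monomial (k : ℕ) (q k : ℂ)
  have hQc : ∀ j, Q.coeff j = if h : j < n + 1 then (q ⟨j, h⟩ : ℂ) else 0 := by
    intro j
    simp only [Q, Polynomial.finsetSum_coeff, Polynomial.coeff_monomial]
    split_ifs with h
    · rw [Finset.sum_eq_single (⟨j, h⟩ : Fin (n + 1))]
      · simp
      · intro b _ hb
        rw [if_neg]; intro h'; exact hb (Fin.ext h')
      · simp
    · refine Finset.sum_eq_zero fun k _ => ?_
      rw [if_neg]; intro h'; have := k.2; omega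
  refine ⟨Q, ?_, ?_, ?_, ?_, ?_⟩
  · intro h
    apply hq0
    funext k
    have := hQc k
    rw [h, dif_pos k.2] at this
    simp only [Polynomial.coeff_zero, Fin.eta] at this
    exact_mod_cast this.symm
  · rw [Polynomial.natDegree_le_iff_coeff_eq_zero]
    intro j hj
    rw [hQc, dif_neg (by omega)]
  · intro j
    rw [hQc]; split_ifs
    · exact mem_ZZ.2 ⟨_, rfl⟩
    · exact ZZ.zero_mem
  · intro j
    rw [hQc]; split_ifs with h
    · refine le_trans ?_ hqb
      rw [Complex.norm_intCast, ← Int.norm_eq_abs]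
      exact norm_le_pi_norm q _
    · simp; positivity
  · intro i j h1 h2
    have h3 := congrFun hqM (i, ⟨j - (n + 1), by omega⟩)
    simp only [Matrix.mulVec, dotProduct, Pi.zero_apply] at h3
    have h4 := congrArg (Int.cast : ℤ → ℂ) h3
    push_cast at h4
    have hδ0 : (δ : ℂ) ≠ 0 := by exact_mod_cast (by omega : δ ≠ 0)
    apply mul_left_cancel₀ hδ0
    rw [mul_zero, ← h4]
    have hQ : (Q : PowerSeries ℂ) = ∑ k : Fin (n + 1), C (q k : ℂ) * X ^ (k : ℕ) := by
      simp only [Q, ← Polynomial.C_mul_X_pow_eq_monomial]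
      rw [← Polynomial.coeToPowerSeries.ringHom_apply, map_sum]
      simp only [Polynomial.coeToPowerSeries.ringHom_apply, Polynomial.coe_mul, Polynomial.coe_C,
        Polynomial.coe_pow, Polynomial.coe_X]
    rw [hQ, Finset.sum_mul, map_sum, Finset.mul_sum]
    refine Finset.sum_congr rfl fun k _ => ?_
    have hk : (k : ℕ) ≤ j := by have := k.2; omega
    rw [mul_assoc, coeff_C_mul, coeff_X_pow_mul', if_pos hk]
    have h5 : (Mt (i, ⟨j - (n + 1), by omega⟩) k : ℂ) = δ * coeff (j - k) (f i) := by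
      change (Z _ _ : ℂ) = _
      rw [hZ]
      congr 3
      simp only; omega
    rw [h5]; ring

end Pool.Agent.MP_d171e3_nt.H48

end

-- part MP_d171e3_nt.H48.Core
section

/-! The auxiliary function: vanishing, integrality and size. -/

namespace Pool.Agent.MP_d171e3_nt.H48

open Finset Metric

variable {σ : Type*} [Fintype σ] [DecidableEq σ]

lemma tau_lin (ξ a : ℂ) : tau ξ (1 + Polynomial.C a * Polynomial.X) =
    PowerSeries.C (1 + a * ξ) + PowerSeries.C a * PowerSeries.X := by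
  rw [map_add, map_one, map_mul, tau_C, tau_X, map_add, map_one, map_mul]; ring

omit [DecidableEq σ] in
lemma map_mon {R S : Type*} [CommRing R] [CommRing S] [Algebra ℂ R] [Algebra ℂ S]
    (φ : R →ₐ[ℂ] S) (v : σ → R) (α : σ →₀ ℕ) : φ (mon v α) = mon (fun i => φ (v i)) α := by
  simp [mon, map_prod]

omit [DecidableEq σ] in
lemma norm_mon_le {w : σ → ℂ} {b : ℝ} (hb : 1 ≤ b) (hw : ∀ i, ‖w i‖ ≤ b) {α : σ →₀ ℕ} {D : ℕ}
    (hα : ∑ i, α i ≤ D) : ‖mon w α‖ ≤ b ^ D := by
  rw [mon, norm_prod]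
  calc ∏ i, ‖w i ^ α i‖ ≤ ∏ i, b ^ α i := by
        refine Finset.prod_le_prod (fun _ _ => norm_nonneg _) fun i _ => ?_
        rw [norm_pow]; gcongr; exact hw i
    _ = b ^ ∑ i, α i := Finset.prod_pow_eq_pow_sum _ _ _
    _ ≤ b ^ D := pow_le_pow_right₀ hb hα

omit [DecidableEq σ] in
lemma norm_fac_inv_le (α : σ →₀ ℕ) : ‖((fac α : ℂ)⁻¹)‖ ≤ 1 := by
  rw [norm_inv, Complex.norm_natCast]
  apply inv_le_one_of_one_le₀
  exact_mod_cast Nat.one_le_iff_ne_zero.2 (fac_ne_zero α)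

/-- the type II approximants -/
noncomputable def PP (n : ℕ) (Q : Polynomial ℂ) (l : σ → PowerSeries ℂ) :
    MvPowerSeries σ (Polynomial ℂ) :=
  fun α => PowerSeries.trunc (n + 1) ((Q : PowerSeries ℂ) * MvPowerSeries.coeff α (expS l))

omit [DecidableEq σ] in
lemma coeff_PP (n : ℕ) (Q : Polynomial ℂ) (l : σ → PowerSeries ℂ) (α : σ →₀ ℕ) :
    MvPowerSeries.coeff α (PP n Q l) =
      PowerSeries.trunc (n + 1) ((Q : PowerSeries ℂ) * MvPowerSeries.coeff α (expS l)) := rfl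

omit [DecidableEq σ] in
lemma coeff_zero_expS {R : Type*} [CommRing R] [Algebra ℂ R] (l : σ → R) :
    MvPowerSeries.coeff 0 (expS l) = 1 := by
  simp [coeff_expS, fac, mon]

omit [DecidableEq σ] in
lemma PP_zero {n : ℕ} {Q : Polynomial ℂ} (hQ : Q.natDegree ≤ n) (l : σ → PowerSeries ℂ) :
    MvPowerSeries.coeff 0 (PP n Q l) = Q := by
  rw [coeff_PP, coeff_zero_expS, mul_one, PowerSeries.trunc_coe_eq_self (by omega)]

omit [DecidableEq σ] in
lemma PP_deg (n : ℕ) (Q : Polynomial ℂ) (l : σ → PowerSeries ℂ) (α : σ →₀ ℕ) :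
    (MvPowerSeries.coeff α (PP n Q l)).natDegree ≤ n :=
  Nat.lt_succ_iff.1 (PowerSeries.natDegree_trunc_lt _ _)

omit [DecidableEq σ] in
lemma PP_approx {I : Finset (σ →₀ ℕ)} {n t : ℕ} {Q : Polynomial ℂ} (hQ : Q.natDegree ≤ n)
    {l : σ → PowerSeries ℂ}
    (hvan : ∀ α ∈ I, α ≠ 0 → ∀ j, n < j → j ≤ n + t →
      PowerSeries.coeff j ((Q : PowerSeries ℂ) * mon l α) = 0) :
    ∀ α ∈ I, PowerSeries.X ^ (n + t + 1) ∣ MvPowerSeries.coeff α
      (MvPowerSeries.map (tau 0 : Polynomial ℂ →+* PowerSeries ℂ) (PP n Q l) -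
        MvPowerSeries.C (Q : PowerSeries ℂ) * expS l) := by
  intro α hα
  rw [PowerSeries.X_pow_dvd_iff]
  intro j hj
  rw [map_sub, MvPowerSeries.coeff_map, MvPowerSeries.coeff_C_mul, map_sub, coeff_PP]
  change PowerSeries.coeff j (tau 0 _) - _ = 0
  rw [tau_zero, Polynomial.coeff_coe, PowerSeries.coeff_trunc]
  split_ifs with h
  · exact sub_self _
  · by_cases h0 : α = 0
    · rw [h0, coeff_zero_expS, mul_one, Polynomial.coeff_coe,
        Polynomial.coeff_eq_zero_of_natDegree_lt (by omega), sub_self]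
    · rw [coeff_expS, mul_smul_comm, map_smul, hvan α hα h0 j (by omega) (by omega)]
      simp

omit [DecidableEq σ] in
lemma PP_int {n K : ℕ} (hK : n ≤ K) {Q : Polynomial ℂ} (hQ : ∀ j, Q.coeff j ∈ ZZ)
    {l : σ → PowerSeries ℂ} {d D Φ : ℕ}
    (hl : ∀ i, PowerSeries.C (d : ℂ) * PowerSeries.rescale 1 (l i) ∈ IntK K) {α : σ →₀ ℕ}
    (hα : ∑ i, α i ≤ D) (h : fac α ∣ Φ) (j : ℕ) :
    ((Φ : ℂ) * (d : ℂ) ^ D) * (MvPowerSeries.coeff α (PP n Q l)).coeff j ∈ ZZ := by
  rw [coeff_PP, PowerSeries.coeff_trunc]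
  split_ifs with hj
  · have h1 := expS_int hl hα h
    rw [PowerSeries.rescale_one, RingHom.id_apply] at h1
    have h2 : (Q : PowerSeries ℂ) ∈ IntK K := fun j _ => by
      rw [Polynomial.coeff_coe]; exact hQ j
    have h3 := (IntK K).mul_mem h2 h1 j (by omega)
    rwa [mul_left_comm, PowerSeries.coeff_C_mul] at h3
  · simp

omit [DecidableEq σ] in
lemma PP_eval_le {n : ℕ} {Q : Polynomial ℂ} {H R : ℝ} (hR : 1 ≤ R) (hQ : ∀ j, ‖Q.coeff j‖ ≤ H)
    {l : σ → PowerSeries ℂ} {α : σ →₀ ℕ}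
    (hl : ∀ j, ‖PowerSeries.coeff j (mon l α)‖ ≤ R ^ j) {z : ℂ} (hz : ‖z‖ = R⁻¹) :
    ‖(MvPowerSeries.coeff α (PP n Q l)).eval z‖ ≤ (n + 1) ^ 2 * H := by
  have hH : 0 ≤ H := le_trans (norm_nonneg _) (hQ 0)
  have hR0 : 0 < R := by linarith
  rw [Polynomial.eval_eq_sum_range' (n := n + 1) (Nat.lt_succ_of_le (PP_deg n Q l α))]
  refine (norm_sum_le _ _).trans ?_
  refine (Finset.sum_le_card_nsmul _ _ ((n + 1) * H) fun j hj => ?_).trans ?_
  · have hj' : j < n + 1 := mem_range.1 hj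
    rw [coeff_PP, PowerSeries.coeff_trunc, if_pos hj', norm_mul, norm_pow, hz,
      PowerSeries.coeff_mul]
    have h1 : ‖∑ p ∈ antidiagonal j, PowerSeries.coeff p.1 (Q : PowerSeries ℂ) *
        PowerSeries.coeff p.2 (MvPowerSeries.coeff α (expS l))‖ ≤ (j + 1) * (H * R ^ j) := by
      refine (norm_sum_le _ _).trans ?_
      refine (Finset.sum_le_card_nsmul _ _ (H * R ^ j) fun p hp => ?_).trans ?_
      · have hp' : p.1 + p.2 = j := by simpa using hp
        rw [norm_mul, Polynomial.coeff_coe, coeff_expS, map_smul, norm_smul]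
        have h2 := norm_fac_inv_le α
        have h3 : ‖PowerSeries.coeff p.2 (mon l α)‖ ≤ R ^ j :=
          (hl p.2).trans (pow_le_pow_right₀ hR (by omega))
        calc _ ≤ H * (1 * R ^ j) := by gcongr; exact hQ _
          _ = _ := by ring
      · simp
    calc _ ≤ (j + 1) * (H * R ^ j) * R⁻¹ ^ j := by gcongr
      _ = (j + 1) * H := by rw [inv_pow]; field_simp
      _ ≤ (n + 1) * H := by
        gcongr
        exact_mod_cast Nat.lt_succ_iff.1 hj'
  · simp; nlinarith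

/-- the auxiliary function -/
noncomputable def gg (ρ : ℝ) (I : Finset (σ →₀ ℕ)) (lam : (σ →₀ ℕ) → ℂ) (w : σ → Hol ρ)
    (P : MvPowerSeries σ (Polynomial ℂ)) : Hol ρ :=
  ∑ α ∈ I, lam α • MvPowerSeries.coeff α (expS (-w) *
    MvPowerSeries.map (polyH ρ : Polynomial ℂ →+* Hol ρ) P)

omit [DecidableEq σ] in
lemma map_gg {ρ : ℝ} {S : Type*} [CommRing S] [Algebra ℂ S] (φ : Hol ρ →ₐ[ℂ] S)
    (ψ : Polynomial ℂ →ₐ[ℂ] S) (h : ∀ p, φ (polyH ρ p) = ψ p)
    (I : Finset (σ →₀ ℕ)) (lam : (σ →₀ ℕ) → ℂ) (w : σ → Hol ρ)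
    (P : MvPowerSeries σ (Polynomial ℂ)) :
    φ (gg ρ I lam w P) = ∑ α ∈ I, lam α • MvPowerSeries.coeff α (expS (-fun i => φ (w i)) *
      MvPowerSeries.map (ψ : Polynomial ℂ →+* S) P) := by
  rw [gg, map_sum]
  refine Finset.sum_congr rfl fun α _ => ?_
  rw [map_smul]
  congr 1
  have h1 : MvPowerSeries.map (φ : Hol ρ →+* S)
      (MvPowerSeries.map (polyH ρ : Polynomial ℂ →+* Hol ρ) P) =
      MvPowerSeries.map (ψ : Polynomial ℂ →+* S) P := by
    ext β; simp [MvPowerSeries.coeff_map, h]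
  have h2 : (fun i => φ ((-w) i)) = -fun i => φ (w i) := by
    funext i; simp
  rw [← h1, ← h2, ← map_expS, ← map_mul, MvPowerSeries.coeff_map]
  rfl

lemma gg_norm_le {ρ : ℝ} {I : Finset (σ →₀ ℕ)} (hI : Down I) {D : ℕ}
    (hD : ∀ α ∈ I, ∑ i, α i ≤ D) (lam : (σ →₀ ℕ) → ℂ) (w : σ → Hol ρ)
    (P : MvPowerSeries σ (Polynomial ℂ)) (z : ℂ) (hw : ∀ i, ‖(w i).1 z‖ ≤ 2) {B : ℝ}
    (hP : ∀ α ∈ I, ‖(MvPowerSeries.coeff α P).eval z‖ ≤ B) :
    ‖(gg ρ I lam w P).1 z‖ ≤ (∑ α ∈ I, ‖lam α‖) * (I.card * (2 ^ D * B)) := by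
  rw [← evH_apply, map_gg (evH ρ z) (Polynomial.aeval z)
    (fun p => by rw [evH_polyH, Polynomial.coe_aeval_eq_eval]), Finset.sum_mul]
  refine (norm_sum_le _ _).trans (Finset.sum_le_sum fun α hα => ?_)
  rw [norm_smul]
  gcongr
  rw [coeff_mul_box hI _ _ hα]
  refine (norm_sum_le _ _).trans ?_
  refine (Finset.sum_le_card_nsmul _ _ (2 ^ D * B) fun γ hγ => ?_).trans (by simp)
  have h1 : ‖MvPowerSeries.coeff γ (MvPowerSeries.map
      ((Polynomial.aeval z : Polynomial ℂ →ₐ[ℂ] ℂ) : Polynomial ℂ →+* ℂ) P)‖ ≤ B := by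
    rw [MvPowerSeries.coeff_map]
    simpa [Polynomial.coe_aeval_eq_eval] using hP γ hγ
  rw [norm_mul]
  gcongr
  split_ifs with h
  · rw [coeff_expS, norm_smul]
    have h2 := norm_fac_inv_le (α - γ)
    have h3 : ‖mon (-fun i => evH ρ z (w i)) (α - γ)‖ ≤ 2 ^ D :=
      norm_mon_le (by norm_num) (fun i => by simpa [evH_apply] using hw i)
        (hD _ (hI α hα _ tsub_le_self))
    calc _ ≤ 1 * (2 : ℝ) ^ D := by gcongr
      _ = _ := one_mul _
  · simp

omit [DecidableEq σ] in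
lemma gg_order_zero {I : Finset (σ →₀ ℕ)} (hI : Down I) (lam : (σ →₀ ℕ) → ℂ) (u : σ → ℂ)
    (hrel : ∑ α ∈ I, lam α * MvPowerSeries.coeff α (expS u) = 0) (l : σ → PowerSeries ℂ)
    (Q : PowerSeries ℂ) (Y : MvPowerSeries σ (PowerSeries ℂ)) {ν : ℕ}
    (hY : ∀ α ∈ I, PowerSeries.X ^ ν ∣ MvPowerSeries.coeff α (Y - MvPowerSeries.C Q * expS l)) :
    PowerSeries.X ^ ν ∣ ∑ α ∈ I, lam α • MvPowerSeries.coeff α
      (expS (-fun i => l i - PowerSeries.C (u i)) * Y) := by
  have h1 : (-fun i => l i - PowerSeries.C (u i)) = (fun i => PowerSeries.C (u i)) + -l := by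
    funext i; simp [sub_eq_add_neg, add_comm]
  have h2 : expS (-fun i => l i - PowerSeries.C (u i)) * Y =
      expS (-fun i => l i - PowerSeries.C (u i)) * (Y - MvPowerSeries.C Q * expS l) +
        MvPowerSeries.C Q * expS (fun i => PowerSeries.C (u i)) := by
    rw [h1, expS_add]
    have := expS_mul_neg l
    linear_combination (MvPowerSeries.C Q * expS (fun i => PowerSeries.C (u i))) * this
  have h3 : expS (fun i => (PowerSeries.C (u i) : PowerSeries ℂ)) =
      MvPowerSeries.map (Algebra.ofId ℂ (PowerSeries ℂ) : ℂ →+* PowerSeries ℂ) (expS u) := by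
    rw [map_expS]; rfl
  have h4 : ∑ α ∈ I, lam α • MvPowerSeries.coeff α
      (MvPowerSeries.C Q * expS (fun i => (PowerSeries.C (u i) : PowerSeries ℂ))) = 0 := by
    have := congrArg (fun x : ℂ => x • Q) hrel
    simp only [zero_smul, Finset.sum_smul] at this
    rw [← this]
    refine Finset.sum_congr rfl fun α _ => ?_
    rw [MvPowerSeries.coeff_C_mul, h3, MvPowerSeries.coeff_map, mul_smul, mul_comm Q,
      Algebra.smul_def (MvPowerSeries.coeff α (expS u))]
    rfl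
  rw [h2]
  simp only [map_add, smul_add, Finset.sum_add_distrib]
  rw [h4, add_zero]
  refine Finset.dvd_sum fun α hα => ?_
  rw [PowerSeries.smul_eq_C_mul]
  exact (dvd_coeff_mul_box hI _ _ _ hY hα).mul_left _

omit [DecidableEq σ] in
lemma rows_order_zero {I : Finset (σ →₀ ℕ)} (hI : Down I) (l : σ → PowerSeries ℂ)
    (Q : PowerSeries ℂ) (Y : MvPowerSeries σ (PowerSeries ℂ)) {ν : ℕ}
    (hY : ∀ α ∈ I, PowerSeries.X ^ ν ∣ MvPowerSeries.coeff α (Y - MvPowerSeries.C Q * expS l)) :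
    ∀ α ∈ I, α ≠ 0 → PowerSeries.X ^ ν ∣ MvPowerSeries.coeff α (expS (-l) * Y) := by
  classical
  intro α hα h0
  have h2 : expS (-l) * Y = expS (-l) * (Y - MvPowerSeries.C Q * expS l) + MvPowerSeries.C Q := by
    have := expS_mul_neg l
    linear_combination (MvPowerSeries.C Q) * this
  rw [h2, map_add, MvPowerSeries.coeff_C, if_neg h0, add_zero]
  exact dvd_coeff_mul_box hI _ _ _ hY hα

lemma gg_int {I : Finset (σ →₀ ℕ)} (hI : Down I) {D : ℕ} (hD : ∀ α ∈ I, ∑ i, α i ≤ D)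
    {lam : (σ →₀ ℕ) → ℂ} (hlam : ∀ α ∈ I, lam α ∈ ZZ) {Φ d K : ℕ} (hΦ : ∀ α ∈ I, fac α ∣ Φ)
    {r : ℂ} {v : σ → PowerSeries ℂ}
    (hv : ∀ i, PowerSeries.C (d : ℂ) * PowerSeries.rescale r (v i) ∈ IntK K)
    {Y : MvPowerSeries σ (PowerSeries ℂ)} {δ : ℂ}
    (hY : ∀ α ∈ I, PowerSeries.C δ * PowerSeries.rescale r (MvPowerSeries.coeff α Y) ∈ IntK K) :
    PowerSeries.C (((Φ : ℂ) * (d : ℂ) ^ D) * δ) * PowerSeries.rescale r
      (∑ α ∈ I, lam α • MvPowerSeries.coeff α (expS (-v) * Y)) ∈ IntK K := by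
  rw [map_sum, Finset.mul_sum]
  refine Subring.sum_mem _ fun α hα => ?_
  rw [PowerSeries.smul_eq_C_mul, map_mul (PowerSeries.rescale r), rescale_C', mul_left_comm]
  refine Subring.mul_mem _ (C_mem_IntK K (hlam α hα)) ?_
  rw [MvPowerSeries.coeff_mul, map_sum, Finset.mul_sum]
  refine Subring.sum_mem _ fun p hp => ?_
  have hp' : p.1 + p.2 = α := by simpa using hp
  have h1 : p.1 ∈ I := hI α hα _ (by rw [← hp']; exact le_self_add)
  have h2 : p.2 ∈ I := hI α hα _ (by rw [← hp']; exact le_add_self)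
  have hv' : ∀ i, PowerSeries.C (d : ℂ) * PowerSeries.rescale r ((-v) i) ∈ IntK K := by
    intro i
    rw [Pi.neg_apply, map_neg, mul_neg]
    exact Subring.neg_mem _ (hv i)
  have h3 := (IntK K).mul_mem (expS_int hv' (hD _ h1) (hΦ _ h1)) (hY _ h2)
  convert h3 using 1
  simp only [map_mul]
  ring

end Pool.Agent.MP_d171e3_nt.H48

end
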