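import Pool.Agent.MP_d171e3_nt.Mg.Rel
import Pool.Agent.MP_d171e3_nt.Defs

/-! Multi-affine independence: extension, counting, an infinite set. -/

namespace Pool.Agent.MP_d171e3_nt

open Module MvPolynomial

theorem MA_mono {B : Submodule ℚ ℂ} {P Q : Set ℕ} (h : P ⊆ Q) (hQ : MultiAffineIndep B Q) :
    MultiAffineIndep B P := fun F h1 h2 h3 h4 => hQ F h1 h2 (fun q hq => h (h3 q hq)) h4

theorem MA_empty (B : Submodule ℚ ℂ) : MultiAffineIndep B ∅ := by
  intro F _ _ h3 h4
  have hC : F = C (coeff 0 F) := by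
    apply totalDegree_eq_zero_iff_eq_C.mp
    rw [totalDegree_eq_zero_iff]
    intro m hm x
    by_contra hx
    exact h3 x ((mem_vars_iff_mem_support x).mpr ⟨m, hm, Finsupp.mem_support_iff.mpr hx⟩)
  rw [hC, eval_C] at h4
  rw [hC, h4, map_zero]

theorem exists_values (B : Submodule ℚ ℂ) [FiniteDimensional ℚ B] (P : Finset ℕ) (x : ℕ → ℂ) :
    ∃ B' : Submodule ℚ ℂ, FiniteDimensional ℚ B' ∧ finrank ℚ B' ≤ 2 ^ P.card * finrank ℚ B ∧
      ∀ F : MvPolynomial ℕ ℂ, (∀ a, coeff a F ∈ B) → (∀ q, degreeOf q F ≤ 1) →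
        (∀ q ∈ F.vars, q ∈ P) → eval x F ∈ B' := by
  classical
  let b := finBasis ℚ B
  let v : P.powerset × Fin (finrank ℚ B) → ℂ := fun z => b z.2 * ∏ q ∈ z.1.1, x q
  refine ⟨Submodule.span ℚ (Set.range v), FiniteDimensional.span_of_finite ℚ (Set.finite_range v), ?_,
    fun F h1 h2 h3 => ?_⟩
  · have := finrank_range_le_card (R := ℚ) v
    simpa [Set.finrank] using this
  · rw [eval_eq]
    refine Submodule.sum_mem _ fun a ha => ?_
    have e1 : ∏ i ∈ a.support, x i ^ a i = ∏ i ∈ a.support, x i := by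
      refine Finset.prod_congr rfl fun i hi => ?_
      have := degreeOf_le_iff.mp (h2 i) a ha
      have := Finsupp.mem_support_iff.mp hi
      rw [show a i = 1 by omega, pow_one]
    have hs : a.support ∈ P.powerset := Finset.mem_powerset.mpr fun i hi =>
      h3 i ((mem_vars_iff_mem_support i).mpr ⟨a, ha, hi⟩)
    have e2 := congrArg Subtype.val (b.sum_repr ⟨_, h1 a⟩)
    rw [AddSubmonoidClass.coe_finsetSum] at e2
    rw [e1, show coeff a F = _ from e2.symm, Finset.sum_mul]
    refine Submodule.sum_mem _ fun i _ => ?_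
    rw [Submodule.coe_smul, smul_mul_assoc]
    exact Submodule.smul_mem _ _ (Submodule.subset_span ⟨(⟨_, hs⟩, i), rfl⟩)

theorem MA_extend (B : Submodule ℚ ℂ) [FiniteDimensional ℚ B] (P : Finset ℕ)
    (hP : MultiAffineIndep B P) : ∃ T : Finset ℕ, T.card ≤ 4 ^ P.card * finrank ℚ B ^ 2 ∧
      ∀ q : ℕ, q.Prime → q ∉ T → MultiAffineIndep B (insert q P) := by
  classical
  obtain ⟨B', _, hB', hv⟩ := exists_values B P fun q : ℕ => (Real.log q : ℂ)
  obtain ⟨T, hT, hT'⟩ := exceptional B'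
  refine ⟨T, hT.trans ?_, fun q hq hqT F h1 h2 h3 h4 => ?_⟩
  · calc _ ≤ (2 ^ P.card * finrank ℚ B) ^ 2 := Nat.pow_le_pow_left hB' 2
      _ = _ := by rw [mul_pow, ← pow_mul, mul_comm P.card, pow_mul]; norm_num
  set F1 := F.divMonomial (Finsupp.single q 1) with hF1
  set F0 := F.modMonomial (Finsupp.single q 1) with hF0
  have hF : X q * F1 + F0 = F := divMonomial_add_modMonomial_single F q
  have hvar : ∀ a ∈ F.support, ∀ i, a i ≠ 0 → i ≠ q → i ∈ P := fun a ha i hi hiq =>
    (h3 i ((mem_vars_iff_mem_support i).mpr ⟨a, ha, Finsupp.mem_support_iff.mpr hi⟩)).resolve_left hiq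
  have s1 : ∀ a ∈ F1.support, Finsupp.single q 1 + a ∈ F.support := fun a ha => by
    rwa [MvPolynomial.mem_support_iff, hF1, coeff_divMonomial, ← MvPolynomial.mem_support_iff] at ha
  have s0 : ∀ a ∈ F0.support, a ∈ F.support ∧ a q = 0 := fun a ha => by
    rw [MvPolynomial.mem_support_iff] at ha
    by_cases h : Finsupp.single q 1 ≤ a
    · exact (ha (coeff_modMonomial_of_le F h)).elim
    · rw [hF0, coeff_modMonomial_of_not_le F h] at ha
      rw [Finsupp.single_le_iff] at h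
      exact ⟨MvPolynomial.mem_support_iff.mpr ha, by omega⟩
  have a1 : ∀ a, coeff a F1 ∈ B := fun a => by rw [hF1, coeff_divMonomial]; exact h1 _
  have a0 : ∀ a, coeff a F0 ∈ B := fun a => by
    by_cases h : Finsupp.single q 1 ≤ a
    · rw [hF0, coeff_modMonomial_of_le F h]; exact B.zero_mem
    · rw [hF0, coeff_modMonomial_of_not_le F h]; exact h1 _
  have b1 : ∀ i, degreeOf i F1 ≤ 1 := fun i => degreeOf_le_iff.mpr fun a ha => by
    have := degreeOf_le_iff.mp (h2 i) _ (s1 a ha)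
    rw [Finsupp.add_apply] at this
    omega
  have b0 : ∀ i, degreeOf i F0 ≤ 1 := fun i => degreeOf_le_iff.mpr fun a ha =>
    degreeOf_le_iff.mp (h2 i) _ (s0 a ha).1
  have c1 : ∀ i ∈ F1.vars, i ∈ P := fun i hi => by
    obtain ⟨a, ha, hia⟩ := (mem_vars_iff_mem_support i).mp hi
    rw [Finsupp.mem_support_iff] at hia
    refine hvar _ (s1 a ha) i (by rw [Finsupp.add_apply]; omega) ?_
    rintro rfl
    have := degreeOf_le_iff.mp (h2 i) _ (s1 a ha)
    rw [Finsupp.add_apply, Finsupp.single_eq_same] at this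
    omega
  have c0 : ∀ i ∈ F0.vars, i ∈ P := fun i hi => by
    obtain ⟨a, ha, hia⟩ := (mem_vars_iff_mem_support i).mp hi
    rw [Finsupp.mem_support_iff] at hia
    refine hvar _ (s0 a ha).1 i hia ?_
    rintro rfl
    exact hia (s0 a ha).2
  rw [← hF, map_add, map_mul, eval_X] at h4
  have e1 := hT' {q} (fun _ => eval (fun q : ℕ => (Real.log q : ℂ)) F1)
    (fun q' hq' => by rw [Finset.mem_singleton.mp hq']; exact ⟨hq, hqT, hv F1 a1 b1 c1⟩) (by
      rw [Finset.sum_singleton, mul_comm, eq_neg_of_add_eq_zero_left h4]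
      exact B'.neg_mem (hv F0 a0 b0 c0)) q (Finset.mem_singleton_self q)
  rw [e1, mul_zero, zero_add] at h4
  rw [← hF, hP F1 a1 b1 c1 e1, hP F0 a0 b0 c0 h4, mul_zero, add_zero]

open Classical in
theorem MA_count (B : Submodule ℚ ℂ) [FiniteDimensional ℚ B] (P : Finset ℕ)
    (hP : ∀ q ∈ P, q.Prime) (m : ℕ) :
    ((P.powersetCard (m + 1)).filter fun Q : Finset ℕ => ¬ MultiAffineIndep B Q).card ≤
      4 ^ (m + 1) * finrank ℚ B ^ 2 * P.card ^ m := by
  have hT : ∀ Q : Finset ℕ, ∃ T : Finset ℕ, T.card ≤ 4 ^ Q.card * finrank ℚ B ^ 2 ∧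
      (MultiAffineIndep B Q → ∀ q : ℕ, q.Prime → q ∉ T → MultiAffineIndep B (insert q Q)) := by
    intro Q
    by_cases h : MultiAffineIndep B Q
    · obtain ⟨T, h1, h2⟩ := MA_extend B Q h
      exact ⟨T, h1, fun _ => h2⟩
    · exact ⟨∅, by simp, fun h' => (h h').elim⟩
  choose T hT1 hT2 using hT
  have step : ∀ m, ((P.powersetCard (m + 1)).filter fun Q : Finset ℕ =>
      ¬ MultiAffineIndep B Q).card ≤ ((P.powersetCard m).filter fun Q : Finset ℕ =>
        ¬ MultiAffineIndep B Q).card * P.card + P.card ^ m * (4 ^ m * finrank ℚ B ^ 2) := by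
    intro m
    have hsub : ((P.powersetCard (m + 1)).filter fun Q : Finset ℕ => ¬ MultiAffineIndep B Q) ⊆
        (((P.powersetCard m).filter fun Q : Finset ℕ => ¬ MultiAffineIndep B Q).biUnion
          fun Q => P.image fun q => insert q Q) ∪
        (P.powersetCard m).biUnion fun Q => (T Q).image fun q => insert q Q := by
      intro Q hQ
      obtain ⟨h1, h2⟩ := Finset.mem_filter.mp hQ
      obtain ⟨h3, h4⟩ := Finset.mem_powersetCard.mp h1
      obtain ⟨q, hq⟩ : Q.Nonempty := Finset.card_pos.mp (by omega)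
      have h5 : Q.erase q ∈ P.powersetCard m := Finset.mem_powersetCard.mpr
        ⟨(Finset.erase_subset _ _).trans h3, by rw [Finset.card_erase_of_mem hq]; omega⟩
      have h6 := Finset.insert_erase hq
      rw [Finset.mem_union, Finset.mem_biUnion, Finset.mem_biUnion]
      by_cases h : MultiAffineIndep B (Q.erase q : Finset ℕ)
      · refine Or.inr ⟨_, h5, Finset.mem_image.mpr ⟨q, ?_, h6⟩⟩
        by_contra hc
        have := hT2 _ h q (hP q (h3 hq)) hc
        rw [← Finset.coe_insert, h6] at this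
        exact h2 this
      · exact Or.inl ⟨_, Finset.mem_filter.mpr ⟨h5, h⟩, Finset.mem_image.mpr ⟨q, h3 hq, h6⟩⟩
    refine (Finset.card_le_card hsub).trans ((Finset.card_union_le _ _).trans (add_le_add ?_ ?_))
    · exact Finset.card_biUnion_le_card_mul _ _ _ fun Q _ => Finset.card_image_le
    · refine (Finset.card_biUnion_le_card_mul _ _ (4 ^ m * finrank ℚ B ^ 2) fun Q hQ =>
        Finset.card_image_le.trans ?_).trans (Nat.mul_le_mul_right _ ?_)
      · have := hT1 Q
        rwa [(Finset.mem_powersetCard.mp hQ).2] at this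
      · rw [Finset.card_powersetCard]; exact Nat.choose_le_pow _ _
  induction m with
  | zero =>
    have h := step 0
    rw [Finset.powersetCard_zero, Finset.filter_singleton,
      if_neg (by simpa using MA_empty B)] at h
    simp only [Finset.card_empty, zero_mul, pow_zero, one_mul, zero_add, mul_one] at h ⊢
    omega
  | succ m ih =>
    refine (step (m + 1)).trans ?_
    calc _ ≤ 4 ^ (m + 1) * finrank ℚ B ^ 2 * P.card ^ m * P.card +
          P.card ^ (m + 1) * (4 ^ (m + 1) * finrank ℚ B ^ 2) := by gcongr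
      _ = 2 * (4 ^ (m + 1) * finrank ℚ B ^ 2 * P.card ^ (m + 1)) := by ring
      _ ≤ 4 * (4 ^ (m + 1) * finrank ℚ B ^ 2 * P.card ^ (m + 1)) := by gcongr; norm_num
      _ = _ := by ring

theorem MA_infinite (B : Submodule ℚ ℂ) [FiniteDimensional ℚ B] (R : Set ℕ) (hR : R.Infinite)
    (hp : ∀ q ∈ R, q.Prime) : ∃ I ⊆ R, I.Infinite ∧ MultiAffineIndep B I := by
  classical
  have step : ∀ P : {P : Finset ℕ // ↑P ⊆ R ∧ MultiAffineIndep B P},
      ∃ Q : {P : Finset ℕ // ↑P ⊆ R ∧ MultiAffineIndep B P}, P.1 ⊂ Q.1 := by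
    rintro ⟨P, h1, h2⟩
    obtain ⟨T, -, hT⟩ := MA_extend B P h2
    obtain ⟨q, hq, hq'⟩ := hR.exists_notMem_finset (T ∪ P)
    rw [Finset.mem_union, not_or] at hq'
    refine ⟨⟨insert q P, ?_, ?_⟩, Finset.ssubset_insert hq'.2⟩
    · rw [Finset.coe_insert]; exact Set.insert_subset hq h1
    · rw [Finset.coe_insert]; exact hT q (hp q hq) hq'.1
  choose f hf using step
  let P : ℕ → {P : Finset ℕ // ↑P ⊆ R ∧ MultiAffineIndep B P} := fun n =>
    f^[n] ⟨∅, by simp, by simpa using MA_empty B⟩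
  have hm : StrictMono fun n => (P n).1 := strictMono_nat_of_lt_succ fun n => by
    simp only [P, Function.iterate_succ_apply']
    exact hf _
  refine ⟨⋃ n, (P n).1, Set.iUnion_subset fun n => (P n).2.1, fun hfin => ?_, ?_⟩
  · have h1 : ∀ n, n ≤ ((P n).1).card := fun n =>
      (Finset.card_strictMono.comp hm).id_le n
    have h2 : ∀ n, ((P n).1).card ≤ hfin.toFinset.card := fun n =>
      Finset.card_le_card fun q hq => hfin.mem_toFinset.mpr (Set.mem_iUnion.mpr ⟨n, hq⟩)
    have := (h1 (hfin.toFinset.card + 1)).trans (h2 _)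
    omega
  · intro F h1 h2 h3 h4
    have h5 : ∀ q : F.vars, ∃ n, q.1 ∈ (P n).1 := fun q => Set.mem_iUnion.mp (h3 q.1 q.2)
    choose n hn using h5
    refine (P (Finset.univ.sup n)).2.2 F h1 h2 (fun q hq => ?_) h4
    exact hm.monotone (Finset.le_sup (Finset.mem_univ (⟨q, hq⟩ : F.vars))) (hn ⟨q, hq⟩)

end Pool.Agent.MP_d171e3_nt
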