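import Pool.Agent.MP_d171e3_nt.Dim

-- part MP_d171e3_nt.Hilb
section

/-! Affine Hilbert functions and a weak Bezout bound for top-dimensional components. -/

namespace Pool.Agent.MP_d171e3_nt

open MvPolynomial Module

variable {K : Type} [Field K] {σ : Type} [Fintype σ]

theorem mem_V {τ : Type} {T : ℕ} {f : MvPolynomial τ K} :
    f ∈ restrictDegree τ K T ↔ ∀ i, degreeOf i f ≤ T := by
  rw [mem_restrictDegree]
  simp only [degreeOf_le_iff]
  exact ⟨fun h i s hs => h s hs i, fun h s hs i => h i s hs⟩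

theorem mul_mem_V {τ : Type} {a b : ℕ} {f g : MvPolynomial τ K} (hf : f ∈ restrictDegree τ K a)
    (hg : g ∈ restrictDegree τ K b) : f * g ∈ restrictDegree τ K (a + b) :=
  mem_V.mpr fun i => (degreeOf_mul_le i f g).trans (add_le_add (mem_V.mp hf i) (mem_V.mp hg i))

theorem V_mono {τ : Type} {a b : ℕ} (h : a ≤ b) : restrictDegree τ K a ≤ restrictDegree τ K b :=
  fun _ hf => mem_V.mpr fun i => (mem_V.mp hf i).trans h

theorem finrank_V (T : ℕ) : finrank K (restrictDegree σ K T) = (T + 1) ^ Fintype.card σ := by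
  classical
  have e : {n : σ →₀ ℕ | ∀ i, n i ≤ T} ≃ (σ → Fin (T + 1)) :=
    { toFun := fun n i => ⟨n.1 i, Nat.lt_succ_of_le (n.2 i)⟩
      invFun := fun m => ⟨Finsupp.equivFunOnFinite.symm fun i => m i,
        fun i => Nat.le_of_lt_succ (m i).2⟩
      left_inv := fun n => by ext i; rfl
      right_inv := fun m => by ext i; rfl }
  have h := finrank_eq_nat_card_basis (basisRestrictSupport K {n : σ →₀ ℕ | ∀ i, n i ≤ T})
  rw [Nat.card_congr e] at h
  exact h.trans (by simp)

/-- image of the box in the quotient -/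
noncomputable abbrev U (I : Ideal (MvPolynomial σ K)) (T : ℕ) :
    Submodule K (MvPolynomial σ K ⧸ I) :=
  (restrictDegree σ K T).map (Ideal.Quotient.mkₐ K I).toLinearMap

/-- affine Hilbert function -/
noncomputable def HA (I : Ideal (MvPolynomial σ K)) (T : ℕ) : ℕ := finrank K (U I T)

theorem HA_mono (I : Ideal (MvPolynomial σ K)) : Monotone (HA I) := fun _ _ h =>
  Submodule.finrank_mono (Submodule.map_mono (V_mono h))

theorem HA_le (I : Ideal (MvPolynomial σ K)) (T : ℕ) : HA I T ≤ (T + 1) ^ Fintype.card σ :=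
  (Submodule.finrank_map_le _ _).trans (finrank_V T).le

theorem le_HA (p : Ideal (MvPolynomial σ K)) [p.IsPrime] (T : ℕ) : (T + 1) ^ dm p ≤ HA p T := by
  obtain ⟨c, hc, hi⟩ := exists_indep p
  have h1 := finrank_V (K := K) (σ := Fin (dm p)) T
  rw [Fintype.card_fin] at h1
  rw [← h1]
  let f := (aeval (R := K) fun i => Ideal.Quotient.mk p (X (c i))).toLinearMap
  have hf : Function.Injective f := hi
  rw [(Submodule.equivMapOfInjective f hf _).finrank_eq]
  apply Submodule.finrank_mono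
  rintro _ ⟨F, hF, rfl⟩
  refine ⟨rename c F, mem_V.mpr fun i => ?_, ?_⟩
  · by_cases h : ∃ j, c j = i
    · obtain ⟨j, rfl⟩ := h
      rw [degreeOf_rename_of_injective hc]
      exact mem_V.mp hF j
    · by_contra h2
      have : i ∈ (rename c F).vars := mem_vars_iff_degreeOf_ne_zero.mpr (by omega)
      obtain ⟨j, -, hj⟩ := mem_vars_rename _ _ this
      exact h ⟨j, hj⟩
  · have e : (Ideal.Quotient.mkₐ K p).comp (rename c) =
        aeval fun i => Ideal.Quotient.mk p (X (c i)) := by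
      ext i; simp
    exact DFunLike.congr_fun e F

theorem finrank_map_add_le {M N : Type} [AddCommGroup M] [AddCommGroup N] [Module K M] [Module K N]
    (f : M →ₗ[K] N) (P W : Submodule K M) [FiniteDimensional K P] (h1 : W ≤ P)
    (h2 : W ≤ LinearMap.ker f) : finrank K (P.map f) + finrank K W ≤ finrank K P := by
  have h := LinearMap.finrank_range_add_finrank_ker (f.domRestrict P)
  rw [LinearMap.range_domRestrict] at h
  rw [← h]
  have h3 : W ≤ (LinearMap.ker (f.domRestrict P)).map P.subtype := fun w hw =>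
    ⟨⟨w, h1 hw⟩, h2 hw, rfl⟩
  have := (Submodule.finrank_mono h3).trans (Submodule.finrank_map_le _ _)
  omega

theorem HA_step (q : Ideal (MvPolynomial σ K)) [q.IsPrime] {g : MvPolynomial σ K} {D : ℕ}
    (hg : g ∈ restrictDegree σ K D) (hq : g ∉ q) (T : ℕ) :
    HA (q ⊔ Ideal.span {g}) (T + D) + HA q T ≤ HA q (T + D) := by
  have hne : Ideal.Quotient.mk q g ≠ 0 := by rwa [Ne, Ideal.Quotient.eq_zero_iff_mem]
  have h := finrank_map_add_le (Ideal.Quotient.factorₐ K
    (le_sup_left : q ≤ q ⊔ Ideal.span {g})).toLinearMap (U q (T + D))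
    ((U q T).map (LinearMap.mulRight K (Ideal.Quotient.mk q g))) (by
      rintro _ ⟨_, ⟨F, hF, rfl⟩, rfl⟩
      exact ⟨F * g, mul_mem_V hF hg, rfl⟩) (by
      rintro _ ⟨_, ⟨F, hF, rfl⟩, rfl⟩
      change Ideal.Quotient.mk (q ⊔ Ideal.span {g}) (F * g) = 0
      rw [Ideal.Quotient.eq_zero_iff_mem]
      exact Ideal.mem_sup_right (Ideal.mul_mem_left _ _ (Ideal.mem_span_singleton_self g)))
  rw [← Submodule.map_comp, ← (Submodule.equivMapOfInjective _
    (show Function.Injective (LinearMap.mulRight K (Ideal.Quotient.mk q g)) from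
      mul_left_injective₀ hne) _).finrank_eq] at h
  exact h

theorem HA_sum (J : Ideal (MvPolynomial σ K)) (S : Finset (Ideal (MvPolynomial σ K)))
    (hp : ∀ p ∈ S, p.IsPrime) (hJ : ∀ p ∈ S, J ≤ p) (hi : ∀ p ∈ S, ∀ p' ∈ S, p' ≤ p → p' = p) :
    ∃ c, ∀ T, ∑ p ∈ S, HA p T ≤ HA J (T + c) := by
  classical
  have hu : ∀ p : S, ∃ u, u ∉ p.1 ∧ ∀ p' ∈ S, p' ≠ p.1 → u ∈ p' := by
    intro p
    have := hp p.1 p.2
    have hv : ∀ p' : S, ∃ v, v ∉ p.1 ∧ (p'.1 ≠ p.1 → v ∈ p'.1) := by
      intro p'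
      by_cases h : p'.1 = p.1
      · exact ⟨1, (Ideal.ne_top_iff_one _).mp this.ne_top, fun h' => (h' h).elim⟩
      · obtain ⟨v, hv, hv'⟩ := SetLike.not_le_iff_exists.mp fun hle => h (hi _ p.2 _ p'.2 hle)
        exact ⟨v, hv', fun _ => hv⟩
    choose v hv hv' using hv
    refine ⟨∏ p', v p', ?_, fun p' hp' hne => ?_⟩
    · rw [Ideal.IsPrime.prod_mem_iff]
      rintro ⟨p', -, h⟩
      exact hv p' h
    · exact Ideal.prod_mem _ (Finset.mem_univ (⟨p', hp'⟩ : S)) (hv' ⟨p', hp'⟩ hne)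
  choose u hu hu' using hu
  refine ⟨Finset.univ.sup fun p => (u p).totalDegree, fun T => ?_⟩
  set c := Finset.univ.sup fun p => (u p).totalDegree with hc
  have huV : ∀ p, u p ∈ restrictDegree σ K c := fun p => mem_V.mpr fun i =>
    (degreeOf_le_totalDegree _ i).trans
      (Finset.le_sup (f := fun p => (u p).totalDegree) (Finset.mem_univ p))
  let Φ : (MvPolynomial σ K ⧸ J) →ₗ[K] (Π p : S, MvPolynomial σ K ⧸ p.1) :=
    LinearMap.pi fun p => (Ideal.Quotient.factorₐ K (hJ p.1 p.2)).toLinearMap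
  let Ψ : (Π p : S, U p.1 T) →ₗ[K] (Π p : S, MvPolynomial σ K ⧸ p.1) :=
    LinearMap.pi fun p => (LinearMap.mulRight K (Ideal.Quotient.mk p.1 (u p))) ∘ₗ
      (U p.1 T).subtype ∘ₗ LinearMap.proj p
  have hΨ : Function.Injective Ψ := by
    intro x y hxy
    funext p
    have := hp p.1 p.2
    have hne : Ideal.Quotient.mk p.1 (u p) ≠ 0 := by
      rw [Ne, Ideal.Quotient.eq_zero_iff_mem]; exact hu p
    exact Subtype.ext (mul_left_injective₀ hne (congrFun hxy p))
  have hle : LinearMap.range Ψ ≤ (U J (T + c)).map Φ := by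
    rintro _ ⟨x, rfl⟩
    choose F hF hF' using fun p => (x p).2
    refine ⟨_, ⟨∑ p, F p * u p, Submodule.sum_mem _ fun p _ => mul_mem_V (hF p) (huV p), rfl⟩, ?_⟩
    funext p
    change Ideal.Quotient.mk p.1 (∑ p, F p * u p) = (x p).1 * Ideal.Quotient.mk p.1 (u p)
    rw [map_sum, Finset.sum_eq_single p]
    · rw [map_mul, ← hF' p]; rfl
    · intro p' _ hne
      rw [Ideal.Quotient.eq_zero_iff_mem]
      exact Ideal.mul_mem_left _ _ (hu' p' p.1 p.2 fun h => hne (Subtype.ext h.symm))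
    · simp
  have h1 := (Submodule.finrank_mono hle).trans (Submodule.finrank_map_le _ _)
  have : ∀ p : S, Module.Free K (U p.1 T) := fun p => Module.Free.of_divisionRing K _
  rw [LinearMap.finrank_range_of_inj hΨ, finrank_pi_fintype] at h1
  rw [← Finset.sum_coe_sort S]
  exact h1

theorem succ_pow_le (x f : ℕ) : (x + 1) ^ (f + 1) ≤ x ^ (f + 1) + (f + 1) * (x + 1) ^ f := by
  induction f with
  | zero => simp
  | succ f ih =>
    have h : x ^ (f + 1) ≤ (x + 1) ^ (f + 1) := Nat.pow_le_pow_left (Nat.le_succ x) _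
    calc (x + 1) ^ (f + 1 + 1) = (x + 1) ^ (f + 1) * (x + 1) := pow_succ _ _
      _ ≤ (x ^ (f + 1) + (f + 1) * (x + 1) ^ f) * (x + 1) := Nat.mul_le_mul_right _ ih
      _ = x ^ (f + 1 + 1) + x ^ (f + 1) + (f + 1) * (x + 1) ^ (f + 1) := by ring
      _ ≤ _ := by nlinarith

theorem pow_le_sum (n f : ℕ) : n ^ (f + 1) ≤ (f + 1) * ∑ s ∈ Finset.range n, (s + 1) ^ f := by
  induction n with
  | zero => simp
  | succ n ih =>
    rw [Finset.sum_range_succ, mul_add]
    have := succ_pow_le n f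
    omega

theorem telescope {a b : ℕ → ℕ} (ha : Monotone a) {k D : ℕ} (h : ∀ s, b s + k * a s ≤ k * a (s + D))
    (n : ℕ) : ∑ s ∈ Finset.range n, b s ≤ k * (D * a (n + D)) := by
  have h1 : ∑ s ∈ Finset.range n, a (s + D) ≤ ∑ s ∈ Finset.range n, a s + D * a (n + D) := by
    have e1 := Finset.sum_range_add a n D
    have e2 := Finset.sum_range_add a D n
    rw [add_comm D n] at e2
    have e3 : ∑ s ∈ Finset.range D, a (n + s) ≤ D * a (n + D) := by
      have := Finset.sum_le_card_nsmul (Finset.range D) (fun s => a (n + s)) (a (n + D))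
        fun s hs => ha (by have := Finset.mem_range.mp hs; omega)
      simpa using this
    simp only [add_comm D] at e2
    omega
  have h2 := Finset.sum_le_sum fun s (_ : s ∈ Finset.range n) => h s
  rw [Finset.sum_add_distrib, ← Finset.mul_sum, ← Finset.mul_sum] at h2
  have h3 := Nat.mul_le_mul_left k h1
  rw [mul_add] at h3
  omega

theorem count_aux (G : Set (MvPolynomial σ K)) {D e : ℕ} (hG : ∀ g ∈ G, g ∈ restrictDegree σ K D)
    (he : ∀ p : Ideal (MvPolynomial σ K), p.IsPrime → (∀ i, X i ∉ p) → G ⊆ p → dm p ≤ e) (j : ℕ) :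
    ∀ q : Ideal (MvPolynomial σ K), q.IsPrime → dm q = e + j →
      ∀ S : Finset (Ideal (MvPolynomial σ K)),
        (∀ p ∈ S, p.IsPrime ∧ (∀ i, X i ∉ p) ∧ G ⊆ p ∧ dm p = e ∧ q ≤ p) →
        ∃ c, ∀ T, S.card * (T + 1) ^ (e + j) ≤ (e + j) ^ j * D ^ j * HA q (T + c) := by
  classical
  induction j with
  | zero =>
    intro q hq hd S hS
    refine ⟨0, fun T => ?_⟩
    have h1 : S.card ≤ 1 := by
      have : S ⊆ {q} := by
        intro p hp
        obtain ⟨h1, -, -, h4, h5⟩ := hS p hp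
        rw [Finset.mem_singleton]
        by_contra hne
        have := dm_lt (lt_of_le_of_ne h5 (Ne.symm hne))
        omega
      simpa using Finset.card_le_card this
    have h2 := le_HA q T
    rw [hd] at h2
    simp only [pow_zero, one_mul, add_zero] at h2 ⊢
    exact (Nat.mul_le_mul_right _ h1).trans (by rwa [one_mul])
  | succ j ih =>
    intro q hq hd S hS
    rcases S.eq_empty_or_nonempty with rfl | ⟨p0, hp0⟩
    · exact ⟨0, fun T => by simp⟩
    have hXq : ∀ i, X i ∉ q := fun i hi => (hS p0 hp0).2.1 i ((hS p0 hp0).2.2.2.2 hi)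
    obtain ⟨g, hg, hgq⟩ : ∃ g ∈ G, g ∉ q := by
      by_contra hc
      push Not at hc
      have := he q hq hXq hc
      omega
    have hm : ∀ p : Ideal (MvPolynomial σ K), ∃ m, p ∈ S →
        m ∈ (q ⊔ Ideal.span {g}).minimalPrimes ∧ m ≤ p := by
      intro p
      by_cases hp : p ∈ S
      · obtain ⟨h1, -, h3, -, h5⟩ := hS p hp
        obtain ⟨m, hm⟩ := Ideal.exists_minimalPrimes_le (J := p) (I := q ⊔ Ideal.span {g})
          (sup_le h5 ((Ideal.span_singleton_le_iff_mem _).mpr (h3 hg)))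
        exact ⟨m, fun _ => hm⟩
      · exact ⟨⊥, fun h => (hp h).elim⟩
    choose m hm using hm
    have hM : ∀ q' ∈ S.image m, q' ∈ (q ⊔ Ideal.span {g}).minimalPrimes := by
      intro q' hq'
      obtain ⟨p, hp, rfl⟩ := Finset.mem_image.mp hq'
      exact (hm p hp).1
    have hih : ∀ q' : Ideal (MvPolynomial σ K), ∃ c, q' ∈ S.image m → ∀ T,
        (S.filter fun p => m p = q').card * (T + 1) ^ (e + j) ≤
          (e + j) ^ j * D ^ j * HA q' (T + c) := by
      intro q'
      by_cases hq' : q' ∈ S.image m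
      · have h1 := hM q' hq'
        have h2 := h1.isPrime
        have h3 := dm_le_succ h1
        have h4 : dm q' < dm q := dm_lt (lt_of_le_of_ne (le_sup_left.trans h1.le) fun h =>
          hgq (h ▸ h1.le (Ideal.mem_sup_right (Ideal.mem_span_singleton_self g))))
        obtain ⟨c, hc⟩ := ih q' h2 (by omega) (S.filter fun p => m p = q') (by
          intro p hp
          obtain ⟨hp1, hp2⟩ := Finset.mem_filter.mp hp
          obtain ⟨g1, g2, g3, g4, -⟩ := hS p hp1
          exact ⟨g1, g2, g3, g4, hp2 ▸ (hm p hp1).2⟩)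
        exact ⟨c, fun _ => hc⟩
      · exact ⟨0, fun h => (hq' h).elim⟩
    choose c1 hc1 using hih
    obtain ⟨c2, hc2⟩ := HA_sum (q ⊔ Ideal.span {g}) (S.image m) (fun p hp => (hM p hp).isPrime)
      (fun p hp => (hM p hp).le)
      (fun p hp p' hp' hle => le_antisymm hle ((hM p hp).2 (hM p' hp').1 hle))
    set c := (S.image m).sup c1 + c2 with hc
    set k := (e + j) ^ j * D ^ j with hk
    have key : ∀ s, S.card * (s + 1) ^ (e + j) + k * HA q (s + c) ≤ k * HA q (s + D + c) := by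
      intro s
      have h1 : S.card * (s + 1) ^ (e + j) ≤
          k * ∑ q' ∈ S.image m, HA q' (s + (S.image m).sup c1) := by
        rw [Finset.card_eq_sum_card_image m S, Finset.sum_mul, Finset.mul_sum]
        refine Finset.sum_le_sum fun q' hq' => (hc1 q' hq' s).trans ?_
        exact Nat.mul_le_mul_left _ (HA_mono _ (Nat.add_le_add_left (Finset.le_sup hq') _))
      have h2 := hc2 (s + (S.image m).sup c1)
      have h3 := HA_step q (hG g hg) hgq (s + c)
      have h4 : HA (q ⊔ Ideal.span {g}) (s + (S.image m).sup c1 + c2) ≤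
          HA (q ⊔ Ideal.span {g}) (s + c + D) := HA_mono _ (by omega)
      rw [show s + D + c = s + c + D by ring]
      have h5 := Nat.mul_le_mul_left k ((Nat.add_le_add_right (h2.trans h4) _).trans h3)
      rw [mul_add] at h5
      omega
    refine ⟨1 + D + c, fun T => ?_⟩
    have h1 := telescope (a := fun s => HA q (s + c)) (fun s t h => HA_mono _ (by omega)) key (T + 1)
    rw [← Finset.mul_sum] at h1
    have h2 := pow_le_sum (T + 1) (e + j)
    have h3 : (e + j) ^ j ≤ (e + j + 1) ^ j := Nat.pow_le_pow_left (Nat.le_succ _) _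
    calc S.card * (T + 1) ^ (e + (j + 1))
        ≤ S.card * ((e + j + 1) * ∑ s ∈ Finset.range (T + 1), (s + 1) ^ (e + j)) :=
          Nat.mul_le_mul_left _ h2
      _ = (e + j + 1) * (S.card * ∑ s ∈ Finset.range (T + 1), (s + 1) ^ (e + j)) := by ring
      _ ≤ (e + j + 1) * (k * (D * HA q (T + 1 + D + c))) := Nat.mul_le_mul_left _ h1
      _ = (e + j) ^ j * ((e + j + 1) * D ^ (j + 1) * HA q (T + (1 + D + c))) := by
          rw [hk, show T + 1 + D + c = T + (1 + D + c) by ring]; ring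
      _ ≤ (e + j + 1) ^ j * ((e + j + 1) * D ^ (j + 1) * HA q (T + (1 + D + c))) :=
          Nat.mul_le_mul_right _ h3
      _ = _ := by rw [show e + (j + 1) = e + j + 1 by ring]; ring

theorem count_le (G : Set (MvPolynomial σ K)) {D e : ℕ} (hG : ∀ g ∈ G, g ∈ restrictDegree σ K D)
    (he : ∀ p : Ideal (MvPolynomial σ K), p.IsPrime → (∀ i, X i ∉ p) → G ⊆ p → dm p ≤ e)
    (hed : e ≤ Fintype.card σ) (S : Finset (Ideal (MvPolynomial σ K)))
    (hS : ∀ p ∈ S, p.IsPrime ∧ (∀ i, X i ∉ p) ∧ G ⊆ p ∧ dm p = e) :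
    S.card ≤ (2 * Fintype.card σ + 2) ^ (2 * Fintype.card σ) * D ^ (Fintype.card σ - e) := by
  set d := Fintype.card σ with hd
  obtain ⟨c, hc⟩ := count_aux G hG he (d - e) ⊥ Ideal.isPrime_bot (by rw [dm_bot]; omega) S
    fun p hp => ⟨(hS p hp).1, (hS p hp).2.1, (hS p hp).2.2.1, (hS p hp).2.2.2, bot_le⟩
  have h1 := hc c
  rw [show e + (d - e) = d by omega] at h1
  have h2 := HA_le (⊥ : Ideal (MvPolynomial σ K)) (c + c)
  have h3 : (c + c + 1) ^ d ≤ (2 * d + 2) ^ d * (c + 1) ^ d := by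
    rw [← mul_pow]; exact Nat.pow_le_pow_left (by nlinarith) _
  have h4 : d ^ (d - e) ≤ (2 * d + 2) ^ d :=
    (Nat.pow_le_pow_left (by omega) _).trans (Nat.pow_le_pow_right (by omega) (by omega))
  have h5 : S.card * (c + 1) ^ d ≤ ((2 * d + 2) ^ (2 * d) * D ^ (d - e)) * (c + 1) ^ d :=
    calc S.card * (c + 1) ^ d ≤ d ^ (d - e) * D ^ (d - e) * HA ⊥ (c + c) := h1
      _ ≤ (2 * d + 2) ^ d * D ^ (d - e) * ((2 * d + 2) ^ d * (c + 1) ^ d) :=
          Nat.mul_le_mul (Nat.mul_le_mul_right _ h4) (h2.trans h3)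
      _ = _ := by rw [two_mul d, pow_add, ← two_mul d]; ring
  exact Nat.le_of_mul_le_mul_right h5 (by positivity)

end Pool.Agent.MP_d171e3_nt

end

-- part MP_d171e3_nt.Det
section

/-! Upper bound for interpolation determinants of exponentials on a hyperplane. -/

namespace Pool.Agent.MP_d171e3_nt

open MvPolynomial Module

theorem det_row_le {ρ : Type} [Fintype ρ] [DecidableEq ρ] (M : Matrix ρ ρ ℝ) (b : ρ → ℝ)
    (h : ∀ i j, |M i j| ≤ b i) : |M.det| ≤ (Fintype.card ρ).factorial * ∏ i, b i := by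
  rw [Matrix.det_apply']
  refine (Finset.abs_sum_le_sum_abs _ _).trans ?_
  have : ∀ s ∈ (Finset.univ : Finset (Equiv.Perm ρ)),
      |((Equiv.Perm.sign s : ℤ) : ℝ) * ∏ i, M (s i) i| ≤ ∏ i, b i := by
    intro s _
    have h1 : |((Equiv.Perm.sign s : ℤ) : ℝ)| = 1 := by
      rcases Int.units_eq_one_or (Equiv.Perm.sign s) with h | h <;> simp [h]
    rw [abs_mul, h1, one_mul, Finset.abs_prod, ← Equiv.prod_comp s b]
    exact Finset.prod_le_prod (fun i _ => abs_nonneg _) fun i _ => h _ _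
  have h2 := Finset.sum_le_card_nsmul _ _ _ this
  rwa [Finset.card_univ, Fintype.card_perm, nsmul_eq_mul] at h2

theorem det_split_le {ρ : Type} [Fintype ρ] [DecidableEq ρ] (P T : Matrix ρ ρ ℝ)
    (N : Submodule ℝ (ρ → ℝ)) {n : ℕ} (hn : finrank ℝ N ≤ n) (hP : ∀ i, P i ∈ N) {a e : ℝ}
    (ha : 0 ≤ a) (he0 : 0 ≤ e) (he1 : e ≤ 1) (h1 : ∀ i j, |P i j| ≤ a) (h2 : ∀ i j, |T i j| ≤ a * e) :
    |(P + T).det| ≤ 2 ^ Fintype.card ρ *
      ((Fintype.card ρ).factorial * (a ^ Fintype.card ρ * e ^ (Fintype.card ρ - n))) := by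
  have h := (Matrix.detRowAlternating (n := ρ) (R := ℝ)).map_add_univ P T
  change (P + T).det = ∑ s : Finset ρ, Matrix.det (Matrix.of (s.piecewise P T)) at h
  rw [h]
  refine (Finset.abs_sum_le_sum_abs _ _).trans ?_
  have : ∀ s ∈ (Finset.univ : Finset (Finset ρ)), |Matrix.det (Matrix.of (s.piecewise P T))| ≤
      (Fintype.card ρ).factorial * (a ^ Fintype.card ρ * e ^ (Fintype.card ρ - n)) := by
    intro s _
    by_cases hs : s.card ≤ n
    · refine (det_row_le _ (fun i => a * if i ∈ s then 1 else e) fun i j => ?_).trans ?_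
      · by_cases hi : i ∈ s
        · simpa [hi] using h1 i j
        · simpa [hi] using h2 i j
      · refine mul_le_mul_of_nonneg_left ?_ (by positivity)
        rw [Finset.prod_mul_distrib, Finset.prod_const, Finset.card_univ, Finset.prod_ite,
          Finset.prod_const_one, one_mul, Finset.prod_const]
        refine mul_le_mul_of_nonneg_left (pow_le_pow_of_le_one he0 he1 ?_) (by positivity)
        have : (Finset.univ.filter fun i => i ∉ s) = sᶜ := by ext; simp
        rw [this, Finset.card_compl]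
        omega
    · rw [Matrix.det_eq_zero_of_not_linearIndependent_rows, abs_zero]
      · positivity
      · intro hli
        apply hs
        have h3 := hli.comp (Subtype.val : s → ρ) Subtype.val_injective
        have h4 : LinearIndependent ℝ fun i : s => (⟨P i, hP i⟩ : N) := by
          apply LinearIndependent.of_comp N.subtype
          have e : (N.subtype ∘ fun i : s => (⟨P i, hP i⟩ : N)) =
              (fun i => Matrix.of (s.piecewise P T) i) ∘ Subtype.val := by
            funext i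
            exact (Finset.piecewise_eq_of_mem s P T i.2).symm
          rw [e]; exact h3
        have h5 := h4.fintype_card_le_finrank
        rw [Fintype.card_coe] at h5
        omega
  have h2 := Finset.sum_le_card_nsmul _ _ _ this
  rw [Finset.card_univ, Fintype.card_finset, nsmul_eq_mul] at h2
  exact_mod_cast h2

theorem exp_tail {x R : ℝ} {k : ℕ} (hx : |x| ≤ R) (hk : 2 * R ≤ k) :
    |Real.exp x - ∑ m ∈ Finset.range k, x ^ m / m.factorial| ≤
      2 * Real.exp (2 * R) * (1 / 2) ^ k := by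
  have h0 := abs_nonneg x
  have h := Complex.exp_bound' (x := (x : ℂ)) (n := k) (by
    rw [Complex.norm_real, Real.norm_eq_abs, div_le_iff₀ (by positivity)]
    push_cast; linarith)
  have e : Complex.exp x - ∑ m ∈ Finset.range k, (x : ℂ) ^ m / m.factorial =
      ((Real.exp x - ∑ m ∈ Finset.range k, x ^ m / m.factorial : ℝ) : ℂ) := by
    push_cast; rfl
  rw [e, Complex.norm_real, Complex.norm_real, Real.norm_eq_abs, Real.norm_eq_abs] at h
  refine h.trans ?_
  have h1 := Real.pow_div_factorial_le_exp (2 * |x|) (by linarith) k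
  have h2 : Real.exp (2 * |x|) ≤ Real.exp (2 * R) := Real.exp_le_exp.mpr (by linarith)
  have e2 : |x| ^ k / k.factorial * 2 = 2 * ((2 * |x|) ^ k / k.factorial) * (1 / 2) ^ k := by
    rw [mul_pow, one_div, inv_pow]; field_simp
  rw [e2]
  gcongr
  exact h1.trans h2

theorem exp_head {x R : ℝ} (k : ℕ) (hx : |x| ≤ R) :
    |∑ m ∈ Finset.range k, x ^ m / m.factorial| ≤ 2 * Real.exp (2 * R) := by
  have h0 := abs_nonneg x
  refine (Finset.abs_sum_le_sum_abs _ _).trans ?_
  have h1 := Real.sum_le_exp_of_nonneg h0 k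
  have h2 : Real.exp |x| ≤ Real.exp (2 * R) := Real.exp_le_exp.mpr (by linarith)
  have h3 := Real.exp_pos (2 * R)
  simp only [abs_div, abs_pow, Nat.abs_cast]
  linarith

theorem pow_mem_V {K τ : Type} [Field K] {f : MvPolynomial τ K} (hf : f ∈ restrictDegree τ K 1)
    (k : ℕ) : f ^ k ∈ restrictDegree τ K k := by
  induction k with
  | zero => exact mem_V.mpr fun i => by simp [degreeOf_one]
  | succ k ih => rw [pow_succ]; exact mul_mem_V ih hf

theorem det_exp_le {ρ τ : Type} [Fintype ρ] [DecidableEq ρ] [Fintype τ] (a y : ρ → τ → ℝ)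
    {R : ℝ} {k : ℕ} (hR : ∀ r c, |∑ i, a r i * y c i| ≤ R) (hk : 2 * R ≤ k) :
    |(Matrix.of fun r c => Real.exp (∑ i, a r i * y c i)).det| ≤ 2 ^ Fintype.card ρ *
      ((Fintype.card ρ).factorial * ((2 * Real.exp (2 * R)) ^ Fintype.card ρ *
        ((1 / 2) ^ k) ^ (Fintype.card ρ - (k + 1) ^ Fintype.card τ))) := by
  classical
  let ev : MvPolynomial τ ℝ →ₗ[ℝ] (ρ → ℝ) := LinearMap.pi fun c => (aeval (y c)).toLinearMap
  have h := det_split_le
    (Matrix.of fun r c => ∑ m ∈ Finset.range k, (∑ i, a r i * y c i) ^ m / m.factorial)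
    (Matrix.of fun r c => Real.exp (∑ i, a r i * y c i) -
      ∑ m ∈ Finset.range k, (∑ i, a r i * y c i) ^ m / m.factorial)
    ((restrictDegree τ ℝ k).map ev) ((Submodule.finrank_map_le _ _).trans (finrank_V k).le)
    (fun r => by
      refine ⟨∑ m ∈ Finset.range k, ((m.factorial : ℝ)⁻¹) • (∑ i, a r i • X i) ^ m,
        Submodule.sum_mem _ fun m hm => Submodule.smul_mem _ _
          (V_mono (Finset.mem_range.mp hm).le (pow_mem_V ?_ m)), ?_⟩
      · refine Submodule.sum_mem _ fun i _ => Submodule.smul_mem _ _ (mem_V.mpr fun j => ?_)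
        rw [degreeOf_X]; split_ifs <;> simp
      · funext c
        simp [ev, div_eq_inv_mul])
    (a := 2 * Real.exp (2 * R)) (e := (1 / 2) ^ k) (by positivity) (by positivity)
    (pow_le_one₀ (by norm_num) (by norm_num)) (fun r c => exp_head k (hR r c))
    (fun r c => exp_tail (hR r c) hk)
  have e : (Matrix.of fun r c => ∑ m ∈ Finset.range k, (∑ i, a r i * y c i) ^ m / m.factorial) +
      (Matrix.of fun r c => Real.exp (∑ i, a r i * y c i) -
        ∑ m ∈ Finset.range k, (∑ i, a r i * y c i) ^ m / m.factorial) =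
      Matrix.of fun r c => Real.exp (∑ i, a r i * y c i) := by
    ext r c; simp
  rwa [e] at h

theorem numeric {L n k u : ℕ} {R : ℝ} (hL : 0 < L) (hn : 2 * n ≤ L) (hR : R ≤ u)
    (hk : 16 * L ^ 2 * 2 ^ (12 * u) < 2 ^ k) :
    Real.exp R ^ L * (2 ^ L * (L.factorial * ((2 * Real.exp (2 * R)) ^ L *
      ((1 / 2) ^ k) ^ (L - n)))) < 1 := by
  have h1 : Real.exp R ≤ 4 ^ u := by
    calc Real.exp R ≤ Real.exp u := Real.exp_le_exp.mpr hR
      _ = Real.exp 1 ^ u := by rw [← Real.exp_nat_mul, mul_one]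
      _ ≤ 4 ^ u := by
        gcongr
        have := Real.exp_one_lt_d9
        linarith
  have h2 : Real.exp (2 * R) = Real.exp R ^ 2 := by
    rw [← Real.exp_nat_mul]; norm_num
  have h3 : (L.factorial : ℝ) ≤ L ^ L := by exact_mod_cast Nat.factorial_le_pow L
  set E := Real.exp R with hE
  have hE0 : 0 < E := Real.exp_pos R
  set t : ℝ := (1 / 2) ^ k with ht
  have ht0 : 0 < t := by positivity
  have ht1 : t ≤ 1 := pow_le_one₀ (by norm_num) (by norm_num)
  have h4 : (4 * L * E ^ 3) ^ 2 * t < 1 := by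
    have h5 : (16 * L ^ 2 * 2 ^ (12 * u) : ℝ) < 2 ^ k := by exact_mod_cast hk
    have h6 : (4 * L * E ^ 3) ^ 2 ≤ 16 * L ^ 2 * 2 ^ (12 * u) := by
      calc (4 * L * E ^ 3) ^ 2 ≤ (4 * L * (4 ^ u) ^ 3) ^ 2 := by gcongr
        _ = (16 * L ^ 2 * 2 ^ (12 * u) : ℝ) := by
          rw [show (4 : ℝ) ^ u = 2 ^ (2 * u) by rw [pow_mul]; norm_num]; ring
    rw [ht, one_div, inv_pow, ← div_eq_mul_inv, div_lt_one (by positivity)]
    exact h6.trans_lt h5
  have h7 : E ^ L * (2 ^ L * (L.factorial * ((2 * Real.exp (2 * R)) ^ L * t ^ (L - n)))) ≤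
      (4 * L * E ^ 3) ^ L * t ^ (L - n) := by
    rw [h2]
    calc _ ≤ E ^ L * (2 ^ L * (L ^ L * ((2 * E ^ 2) ^ L * t ^ (L - n)))) := by gcongr
      _ = (E * 2 * L * (2 * E ^ 2)) ^ L * t ^ (L - n) := by simp only [mul_pow]; ring
      _ = _ := by congr 2; ring
  refine h7.trans_lt ?_
  have h8 : ((4 * L * E ^ 3) ^ L * t ^ (L - n)) ^ 2 < 1 := by
    calc _ = ((4 * L * E ^ 3) ^ 2) ^ L * t ^ (2 * (L - n)) := by
          generalize 4 * L * E ^ 3 = w; ring
      _ ≤ ((4 * L * E ^ 3) ^ 2) ^ L * t ^ L :=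
        mul_le_mul_of_nonneg_left (pow_le_pow_of_le_one ht0.le ht1 (by omega)) (by positivity)
      _ = ((4 * L * E ^ 3) ^ 2 * t) ^ L := by rw [← mul_pow]
      _ < 1 := pow_lt_one₀ (by positivity) h4 hL.ne'
  by_contra hc
  push Not at hc
  have := one_le_pow₀ (n := 2) hc
  linarith

end Pool.Agent.MP_d171e3_nt

end

-- part MP_d171e3_nt.AuxPoly
section

/-! The auxiliary polynomial. -/

namespace Pool.Agent.MP_d171e3_nt

open MvPolynomial Module

theorem exists_vanish {K σ ι : Type} [Field K] [Fintype σ] [DecidableEq σ] (x : ι → σ → K) (D : ℕ)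
    (h : ∀ s : (σ → Fin (D + 1)) → ι,
      (Matrix.of fun (r c : σ → Fin (D + 1)) => ∏ i, x (s c) i ^ (r i : ℕ)).det = 0) :
    ∃ P : MvPolynomial σ K, P ≠ 0 ∧ P ∈ restrictDegree σ K D ∧ ∀ s, aeval (x s) P = 0 := by
  classical
  let v : ι → (σ → Fin (D + 1)) → K := fun s r => ∏ i, x s i ^ (r i : ℕ)
  have hlt : Submodule.span K (Set.range v) < ⊤ := by
    rw [lt_top_iff_ne_top]
    intro htop
    obtain ⟨κ, a, -, h1, h2⟩ := exists_linearIndependent' K v
    have : Finite κ := h2.finite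
    have := Fintype.ofFinite κ
    have h3 := finrank_span_eq_card h2
    rw [h1, htop, finrank_top, finrank_fintype_fun_eq_card] at h3
    let e := Fintype.equivOfCardEq h3
    have h4 := Matrix.linearIndependent_cols_iff_isUnit.mp
      (show LinearIndependent K (Matrix.of fun (r c : σ → Fin (D + 1)) =>
        ∏ i, x (a (e c)) i ^ (r i : ℕ)).col from h2.comp e e.injective)
    rw [Matrix.isUnit_iff_isUnit_det, h fun c => a (e c)] at h4
    exact not_isUnit_zero h4
  obtain ⟨f, hf0, hf⟩ := Submodule.exists_le_ker_of_lt_top _ hlt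
  let m : (σ → Fin (D + 1)) → σ →₀ ℕ := fun r => Finsupp.equivFunOnFinite.symm fun i => r i
  have hm : Function.Injective m := by
    intro r r' hr
    funext i
    exact Fin.ext (DFunLike.congr_fun hr i)
  refine ⟨∑ r, monomial (m r) (f (Pi.single r 1)), fun h0 => hf0 ?_, ?_, fun s => ?_⟩
  · apply LinearMap.pi_ext'
    intro r
    ext
    have := congrArg (coeff (m r)) h0
    rw [coeff_sum, Finset.sum_eq_single r] at this
    · simpa using this
    · intro r' _ hr'
      rw [coeff_monomial, if_neg (hm.ne hr')]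
    · simp
  · refine Submodule.sum_mem _ fun r _ => (mem_restrictDegree _ _ _).mpr fun s hs i => ?_
    rw [Finset.mem_singleton.mp (support_monomial_subset hs)]
    exact Nat.le_of_lt_succ (r i).2
  · have h1 : f (v s) = 0 := hf (Submodule.subset_span ⟨s, rfl⟩)
    rw [← h1, map_sum, LinearMap.pi_apply_eq_sum_univ]
    refine Finset.sum_congr rfl fun r _ => ?_
    rw [aeval_monomial, Finsupp.prod_fintype _ _ (by simp), smul_eq_mul, mul_comm]
    have e : (fun j => if r = j then (1 : K) else 0) = Pi.single r 1 := by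
      funext j
      simp [Pi.single_apply, eq_comm]
    rw [e]; rfl

variable {Λ σ μ : Type} [Fintype Λ] [Fintype σ] [Fintype μ]

/-- the points of the torus -/
def gam (u : μ → ℚˣ) (A : Λ → σ → μ → ℤ) (s : Λ → ℤ) (i : σ) : ℚˣ := ∏ k, u k ^ (∑ j, s j * A j i k)

omit [Fintype σ] in
theorem gam_add (u : μ → ℚˣ) (A : Λ → σ → μ → ℤ) (s t : Λ → ℤ) :
    gam u A (s + t) = gam u A s * gam u A t := by
  funext i
  simp [gam, add_mul, Finset.sum_add_distrib, zpow_add, Finset.prod_mul_distrib]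

omit [Fintype σ] in
theorem prod_gam (u : μ → ℚˣ) (A : Λ → σ → μ → ℤ) (s : Λ → ℤ) {ι : Type} [Fintype ι] (c : ι → σ)
    (r : ι → ℕ) : ∏ i, gam u A s (c i) ^ r i =
      ∏ k, u k ^ (∑ i, (r i : ℤ) * ∑ j, s j * A j (c i) k) := by
  simp only [gam, ← Finset.prod_pow]
  rw [Finset.prod_comm]
  refine Finset.prod_congr rfl fun k _ => ?_
  induction (Finset.univ : Finset ι) using Finset.cons_induction with
  | empty => simp
  | cons a s ha ih =>
    rw [Finset.prod_cons, Finset.sum_cons, ih, zpow_add, ← zpow_natCast, ← zpow_mul, mul_comm (r a : ℤ)]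

theorem zpow_exp {p : ℕ} (hp : 0 < p) (z : ℤ) : (p : ℝ) ^ z = Real.exp (z * Real.log p) := by
  rw [mul_comm, Real.exp_mul, Real.exp_log (by exact_mod_cast hp), Real.rpow_intCast]

theorem exists_aux (pr : μ → ℕ) (hp : ∀ k, 0 < pr k) (u : μ → ℚˣ) (hu : ∀ k, (u k : ℚ) = pr k)
    (A : Λ → σ → μ → ℤ) (β : σ → ℝ) (i0 : σ) (hβ : β i0 ≠ 0)
    (hA : ∀ j, ∑ i, β i * ∑ k, A j i k * Real.log (pr k) = 0) :
    ∃ c0 : ℕ, ∀ S : ℕ, 0 < S → ∃ P : MvPolynomial σ ℚ, P ≠ 0 ∧
      P ∈ restrictDegree σ ℚ (c0 * S ^ (Fintype.card σ - 1)) ∧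
      ∀ s : Λ → ℤ, (∀ j, 0 ≤ s j ∧ s j ≤ Fintype.card σ * S) →
        aeval (fun i => (gam u A s i : ℚ)) P = 0 := by
  classical
  set d := Fintype.card σ with hd
  have hd0 : 0 < d := Fintype.card_pos_iff.mpr ⟨i0⟩
  set H : ℕ := ∑ i, ∑ j, ∑ k, (A j i k).natAbs with hH
  have hlog : ∀ k, 0 ≤ Real.log (pr k) := fun k => Real.log_natCast_nonneg _
  set h : ℕ := ⌈(d * H : ℝ) * ∑ k, Real.log (pr k)⌉₊ with hh
  set c1 := 12 * h + 2 * d + 6 with hc1
  refine ⟨2 * c1 ^ (d - 1), fun S hS => ?_⟩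
  set D := 2 * c1 ^ (d - 1) * S ^ (d - 1) with hD
  have hD0 : 0 < D := by positivity
  refine (exists_vanish
    (fun (s : {s : Λ → ℤ // ∀ j, 0 ≤ s j ∧ s j ≤ d * S}) i => (gam u A s.1 i : ℚ)) D ?_).imp
    fun P h => ⟨h.1, h.2.1, fun s hs => h.2.2 ⟨s, hs⟩⟩
  intro s
  by_contra hne
  let E : (σ → Fin (D + 1)) → (σ → Fin (D + 1)) → μ → ℤ := fun r c k =>
    ∑ i, ((r i : ℕ) : ℤ) * ∑ j, (s c).1 j * A j i k
  set N0 := D * S * (d * H) with hN0
  have hE : ∀ r c k, |E r c k| ≤ N0 := by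
    intro r c k
    calc |E r c k| ≤ ∑ i, |((r i : ℕ) : ℤ) * ∑ j, (s c).1 j * A j i k| :=
          Finset.abs_sum_le_sum_abs _ _
      _ ≤ ∑ i, (D : ℤ) * ∑ j, (d * S : ℤ) * ∑ k, |A j i k| := by
          refine Finset.sum_le_sum fun i _ => ?_
          rw [abs_mul]
          refine mul_le_mul ?_ ((Finset.abs_sum_le_sum_abs _ _).trans
            (Finset.sum_le_sum fun j _ => ?_)) (abs_nonneg _) (by positivity)
          · rw [Nat.abs_cast]; exact_mod_cast Nat.le_of_lt_succ (r i).2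
          · rw [abs_mul, abs_of_nonneg ((s c).2 j).1]
            exact mul_le_mul ((s c).2 j).2 (Finset.single_le_sum (f := fun k => |A j i k|)
              (fun _ _ => abs_nonneg _) (Finset.mem_univ k)) (abs_nonneg _) (by positivity)
      _ = N0 := by
          simp only [← Finset.mul_sum, hN0, hH]
          push_cast; ring
  set R : ℝ := N0 * ∑ k, Real.log (pr k) with hR
  let y : (σ → Fin (D + 1)) → σ → ℝ := fun c i => ∑ k, (∑ j, (s c).1 j * A j i k : ℤ) * Real.log (pr k)
  have hy : ∀ c, ∑ i, β i * y c i = 0 := by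
    intro c
    have : ∑ i, β i * y c i = ∑ j, (s c).1 j * ∑ i, β i * ∑ k, A j i k * Real.log (pr k) := by
      simp only [y, Finset.mul_sum, Int.cast_sum, Int.cast_mul, Finset.sum_mul]
      rw [Finset.sum_comm (γ := Λ)]
      refine Finset.sum_congr rfl fun i _ => ?_
      rw [Finset.sum_comm]
      exact Finset.sum_congr rfl fun j _ => Finset.sum_congr rfl fun k _ => by ring
    rw [this]
    simp [hA]
  have hx : ∀ r c, ∑ k, (E r c k : ℝ) * Real.log (pr k) =
      ∑ i : {i // i ≠ i0}, (((r i.1 : ℕ) : ℝ) - (r i0 : ℕ) * β i / β i0) * y c i := by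
    intro r c
    have e1 : ∑ k, (E r c k : ℝ) * Real.log (pr k) = ∑ i, ((r i : ℕ) : ℝ) * y c i := by
      simp only [E, y, Finset.mul_sum, Int.cast_sum, Int.cast_mul, Finset.sum_mul, Int.cast_natCast]
      rw [Finset.sum_comm]
      exact Finset.sum_congr rfl fun i _ => Finset.sum_congr rfl fun k _ =>
        Finset.sum_congr rfl fun j _ => by ring
    have e2 := hy c
    rw [Fintype.sum_eq_add_sum_subtype_ne _ i0] at e2
    rw [e1, Fintype.sum_eq_add_sum_subtype_ne _ i0]
    simp only [sub_mul, Finset.sum_sub_distrib]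
    have e3 : ∑ i : {i // i ≠ i0}, ((r i0 : ℕ) : ℝ) * β i / β i0 * y c i =
        ((r i0 : ℕ) : ℝ) / β i0 * ∑ i : {i // i ≠ i0}, β i * y c i := by
      rw [Finset.mul_sum]
      exact Finset.sum_congr rfl fun i _ => by ring
    rw [e3, eq_neg_of_add_eq_zero_right e2]
    field_simp
    ring
  have hxR : ∀ r c, |∑ k, (E r c k : ℝ) * Real.log (pr k)| ≤ R := by
    intro r c
    rw [hR, Finset.mul_sum]
    refine (Finset.abs_sum_le_sum_abs _ _).trans (Finset.sum_le_sum fun k _ => ?_)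
    rw [abs_mul, abs_of_nonneg (hlog k)]
    exact mul_le_mul_of_nonneg_right (by exact_mod_cast hE r c k) (hlog k)
  have hRu : R ≤ (h * (D * S) : ℕ) := by
    have := Nat.le_ceil ((d * H : ℝ) * ∑ k, Real.log (pr k))
    rw [← hh] at this
    have h4 := mul_le_mul_of_nonneg_right this (show (0 : ℝ) ≤ D * S by positivity)
    rw [hR, hN0]
    push_cast
    linarith
  set k0 := (12 * h + 2 * d + 5) * (D * S) with hk0
  have hDS : 0 < D * S := by positivity
  have hb := det_exp_le (fun r (i : {i // i ≠ i0}) => ((r i.1 : ℕ) : ℝ) - (r i0 : ℕ) * β i / β i0)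
    (fun c i => y c i) (R := R) (k := k0) (fun r c => hx r c ▸ hxR r c) (by
      have : 2 * (h * (D * S)) ≤ k0 := by rw [hk0]; nlinarith
      have h5 : ((2 * (h * (D * S)) : ℕ) : ℝ) ≤ k0 := by exact_mod_cast this
      push_cast at h5 hRu
      linarith)
  simp only [← hx] at hb
  have hL : Fintype.card (σ → Fin (D + 1)) = (D + 1) ^ d := by simp [hd]
  have hτ : Fintype.card {i // i ≠ i0} = d - 1 := by simp [hd]
  rw [hL, hτ] at hb
  have hnum := numeric (L := (D + 1) ^ d) (n := (k0 + 1) ^ (d - 1)) (k := k0) (u := h * (D * S))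
    (by positivity) (by
      have h4 : k0 + 1 ≤ c1 * S * D := by rw [hk0, hc1]; nlinarith
      calc 2 * (k0 + 1) ^ (d - 1) ≤ 2 * (c1 * S * D) ^ (d - 1) := by gcongr
        _ = D ^ (d - 1) * D := by
          conv_rhs => rw [mul_comm, hD]
          rw [← hD, mul_pow, mul_pow]; ring
        _ = D ^ d := by rw [← pow_succ, Nat.sub_add_cancel hd0]
        _ ≤ _ := by gcongr; omega) hRu (by
      have h4 : D + 1 ≤ 2 ^ (D * S) :=
        (Nat.succ_le_of_lt Nat.lt_two_pow_self).trans (Nat.pow_le_pow_right (by norm_num) (by nlinarith))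
      have h5 : 16 < 2 ^ (5 * (D * S)) :=
        lt_of_lt_of_le (by norm_num : 16 < 2 ^ 5) (Nat.pow_le_pow_right (by norm_num) (by omega))
      calc 16 * ((D + 1) ^ d) ^ 2 * 2 ^ (12 * (h * (D * S)))
          ≤ 16 * ((2 ^ (D * S)) ^ d) ^ 2 * 2 ^ (12 * (h * (D * S))) := by gcongr
        _ < 2 ^ (5 * (D * S)) * ((2 ^ (D * S)) ^ d) ^ 2 * 2 ^ (12 * (h * (D * S))) := by gcongr
        _ = 2 ^ k0 := by
          rw [← pow_mul, ← pow_mul, ← pow_add, ← pow_add, hk0]; congr 1; ring)
  let Z : Matrix (σ → Fin (D + 1)) (σ → Fin (D + 1)) ℤ :=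
    Matrix.of fun r c => ∏ k, (pr k : ℤ) ^ (E r c k + N0).toNat
  have hZ : Z.map (Int.castRingHom ℝ) =
      Real.exp R • Matrix.of fun r c => Real.exp (∑ k, (E r c k : ℝ) * Real.log (pr k)) := by
    ext r c
    simp only [Z, Matrix.map_apply, Matrix.of_apply, eq_intCast, Int.cast_prod, Int.cast_pow,
      Int.cast_natCast, Matrix.smul_apply, smul_eq_mul]
    rw [← Real.exp_add, hR, Finset.mul_sum, ← Finset.sum_add_distrib, Real.exp_sum]
    refine Finset.prod_congr rfl fun k _ => ?_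
    rw [← zpow_natCast, Int.toNat_of_nonneg (by have := abs_le.mp (hE r c k); omega),
      zpow_exp (hp k)]
    congr 1; push_cast; ring
  have hQ : (Matrix.of fun (r c : σ → Fin (D + 1)) =>
      ∏ i, (gam u A (s c).1 i : ℚ) ^ (r i : ℕ)).map (Rat.castHom ℝ) =
      Matrix.of fun r c => Real.exp (∑ k, (E r c k : ℝ) * Real.log (pr k)) := by
    ext r c
    have h4 := congrArg (fun w : ℚˣ => ((w : ℚ) : ℝ)) (prod_gam u A (s c).1 id fun i => r i)
    simp only [id, Units.coe_prod, Units.val_pow_eq_pow_val, Units.val_zpow_eq_zpow_val, hu,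
      Rat.cast_prod, Rat.cast_pow, Rat.cast_zpow, Rat.cast_natCast] at h4
    simp only [Matrix.map_apply, Matrix.of_apply, eq_ratCast, Rat.cast_prod, Rat.cast_pow]
    rw [h4, Real.exp_sum]
    exact Finset.prod_congr rfl fun k _ => zpow_exp (hp k) _
  have hdet : (Matrix.of fun r c => Real.exp (∑ k, (E r c k : ℝ) * Real.log (pr k))).det ≠ 0 := by
    rw [← hQ, ← RingHom.mapMatrix_apply, ← RingHom.map_det]
    simpa using hne
  have hZd : ((Z.det : ℤ) : ℝ) = Real.exp R ^ ((D + 1) ^ d) *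
      (Matrix.of fun r c => Real.exp (∑ k, (E r c k : ℝ) * Real.log (pr k))).det := by
    rw [← hL, ← Matrix.det_smul, ← hZ, ← RingHom.mapMatrix_apply, ← RingHom.map_det]; rfl
  have hZ0 : Z.det ≠ 0 := by
    intro h0
    rw [h0, Int.cast_zero] at hZd
    exact mul_ne_zero (by positivity) hdet hZd.symm
  have hZ1 : (1 : ℝ) ≤ |((Z.det : ℤ) : ℝ)| := by exact_mod_cast Int.one_le_abs hZ0
  rw [hZd, abs_mul, abs_of_pos (by positivity)] at hZ1
  have := mul_le_mul_of_nonneg_left hb (show 0 ≤ Real.exp R ^ ((D + 1) ^ d) by positivity)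
  linarith

end Pool.Agent.MP_d171e3_nt

end

-- part MP_d171e3_nt.Zero
section

/-! A zero estimate on the torus. -/

namespace Pool.Agent.MP_d171e3_nt

open MvPolynomial Module

variable {K : Type} [Field K] {σ : Type} [Fintype σ]

/-- translation -/
noncomputable def trH (u : σ → Kˣ) : MvPolynomial σ K →ₐ[K] MvPolynomial σ K :=
  aeval fun i => C (u i : K) * X i

omit [Fintype σ] in
theorem trH_comp (u v : σ → Kˣ) : (trH u).comp (trH v) = trH (u * v) := by
  ext i
  simp only [trH, AlgHom.comp_apply, aeval_X, map_mul, aeval_C, algebraMap_eq, Pi.mul_apply,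
    Units.val_mul]
  congr 1; ring

omit [Fintype σ] in
theorem trH_one : trH (1 : σ → Kˣ) = AlgHom.id K _ := by
  ext i; simp [trH]

/-- translation as an automorphism -/
noncomputable def tr (u : σ → Kˣ) : MvPolynomial σ K ≃ₐ[K] MvPolynomial σ K :=
  AlgEquiv.ofAlgHom (trH u) (trH u⁻¹) (by rw [trH_comp, mul_inv_cancel, trH_one])
    (by rw [trH_comp, inv_mul_cancel, trH_one])

omit [Fintype σ] in
theorem tr_tr (u v : σ → Kˣ) (F : MvPolynomial σ K) : tr u (tr v F) = tr (u * v) F :=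
  DFunLike.congr_fun (trH_comp u v) F

omit [Fintype σ] in
theorem tr_one (F : MvPolynomial σ K) : tr 1 F = F := DFunLike.congr_fun trH_one F

omit [Fintype σ] in
theorem tr_X (u : σ → Kˣ) (i : σ) : tr u (X i) = C (u i : K) * X i := aeval_X _ _

theorem tr_monomial (u : σ → Kˣ) (a : σ →₀ ℕ) (c : K) :
    tr u (monomial a c) = monomial a (c * ∏ i, (u i : K) ^ a i) := by
  change aeval _ _ = _
  rw [aeval_monomial, monomial_eq, Finsupp.prod_fintype _ _ (by simp),
    Finsupp.prod_fintype _ _ (by simp)]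
  simp only [mul_pow, Finset.prod_mul_distrib, algebraMap_eq, map_mul, map_prod, map_pow]
  ring

theorem tr_mem_V (u : σ → Kˣ) {D : ℕ} {F : MvPolynomial σ K} (h : F ∈ restrictDegree σ K D) :
    tr u F ∈ restrictDegree σ K D := by
  rw [F.as_sum, map_sum]
  refine Submodule.sum_mem _ fun a ha => ?_
  rw [tr_monomial, mem_restrictDegree]
  intro s hs i
  classical
  have := Finset.mem_singleton.mp (support_monomial_subset hs)
  rw [this]
  exact (mem_restrictDegree _ _ _).mp h a ha i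

omit [Fintype σ] in
theorem eval_tr (u : σ → Kˣ) (F : MvPolynomial σ K) :
    aeval (fun _ => (1 : K)) (tr u F) = aeval (fun i => (u i : K)) F := by
  have : (aeval fun _ => (1 : K)).comp (trH u) = aeval fun i => (u i : K) := by
    ext i; simp [trH]
  exact DFunLike.congr_fun this F

theorem exists_eq_succ {e : ℕ → ℕ} {d : ℕ} (h0 : e 0 < d) (h : ∀ k, e (k + 1) ≤ e k) :
    ∃ k < d, e (k + 1) = e k := by
  by_contra hc
  push Not at hc
  have : ∀ k ≤ d, e k + k < d := by
    intro k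
    induction k with
    | zero => intro _; simpa using h0
    | succ k ih =>
      intro hk
      have := ih (by omega)
      have := hc k (by omega)
      have := h k
      omega
  have := this d le_rfl
  omega

theorem zero_est {Λ : Type} (γ : (Λ → ℤ) → σ → Kˣ) (hγ : ∀ s t, γ (s + t) = γ s * γ t)
    {D S : ℕ} {P : MvPolynomial σ K} (hP0 : P ≠ 0) (hP : P ∈ restrictDegree σ K D)
    (hv : ∀ s : Λ → ℤ, (∀ j, 0 ≤ s j ∧ s j ≤ Fintype.card σ * S) →
      aeval (fun i => (γ s i : K)) P = 0) :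
    ∃ e < Fintype.card σ, ∃ G : AddSubgroup (Λ → ℤ),
      (∀ B : Finset (Λ → ℤ), (∀ s ∈ B, ∀ j, 0 ≤ s j ∧ s j ≤ S) →
        (∀ s ∈ B, ∀ t ∈ B, s - t ∈ G → s = t) →
        B.card ≤ (2 * Fintype.card σ + 2) ^ (2 * Fintype.card σ) * D ^ (Fintype.card σ - e)) ∧
      (∀ (ι : Type) [Fintype ι] (c : ι → σ), (∀ a b : ι →₀ ℕ,
        (∀ s ∈ G, ∏ i, γ s (c i) ^ a i = ∏ i, γ s (c i) ^ b i) → a = b) → Fintype.card ι ≤ e) := by
  classical
  set d := Fintype.card σ with hd
  have hγ0 : γ 0 = 1 := by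
    have := hγ 0 0
    rw [add_zero] at this
    exact left_eq_mul.mp this
  let G : ℕ → Set (MvPolynomial σ K) := fun k =>
    {F | ∃ s : Λ → ℤ, (∀ j, 0 ≤ s j ∧ s j ≤ (min k d : ℕ) * S) ∧ F = tr (γ s) P}
  let E : ℕ → Set ℕ := fun k => {n | ∃ p : Ideal (MvPolynomial σ K), p.IsPrime ∧ (∀ i, X i ∉ p) ∧
    G k ⊆ p ∧ dm p = n}
  have hPG : ∀ k, P ∈ G k := fun k => ⟨0, fun j => ⟨le_rfl, by positivity⟩, by rw [hγ0, tr_one]⟩
  have hEb : ∀ k, ∀ n ∈ E k, n < d := by
    rintro k n ⟨p, hp, -, h, rfl⟩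
    have := dm_lt (q := ⊥) (p := p) (bot_lt_iff_ne_bot.mpr fun hb => hP0 (by
      have := h (hPG k)
      rwa [hb] at this))
    rwa [dm_bot] at this
  have hEbd : ∀ k, BddAbove (E k) := fun k => ⟨d, fun n hn => (hEb k n hn).le⟩
  have hEn : ∀ k, (E k).Nonempty := by
    intro k
    refine ⟨_, RingHom.ker (aeval (R := K) fun _ : σ => (1 : K)), RingHom.ker_isPrime _,
      fun i => by simp [RingHom.mem_ker], ?_, rfl⟩
    rintro _ ⟨s, hs, rfl⟩
    change aeval _ _ = 0
    rw [eval_tr]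
    refine hv s fun j => ⟨(hs j).1, (hs j).2.trans ?_⟩
    exact_mod_cast Nat.mul_le_mul_right S (min_le_right k d)
  have hGm : ∀ k, G k ⊆ G (k + 1) := by
    rintro k _ ⟨s, hs, rfl⟩
    refine ⟨s, fun j => ⟨(hs j).1, (hs j).2.trans ?_⟩, rfl⟩
    exact_mod_cast Nat.mul_le_mul_right S (min_le_min_right d (Nat.le_succ k))
  obtain ⟨k, hk, hke⟩ := exists_eq_succ (e := fun k => sSup (E k)) (d := d)
    (hEb 0 _ (Nat.sSup_mem (hEn 0) (hEbd 0))) fun k => csSup_le_csSup (hEbd k) (hEn _) (by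
      rintro n ⟨p, h1, h2, h3, h4⟩
      exact ⟨p, h1, h2, (hGm k).trans h3, h4⟩)
  obtain ⟨p, hp, hpX, hpG, hpd⟩ := Nat.sSup_mem (hEn (k + 1)) (hEbd (k + 1))
  rw [hke] at hpd
  have hinv : ∀ t F, tr (γ t) (tr (γ (-t)) F) = F := by
    intro t F
    rw [tr_tr, ← hγ, add_neg_cancel, hγ0, tr_one]
  let H : AddSubgroup (Λ → ℤ) :=
    { carrier := {s | ∀ F, tr (γ s) F ∈ p ↔ F ∈ p}
      zero_mem' := fun F => by rw [hγ0, tr_one]
      add_mem' := fun {s t} hs ht F => by rw [hγ, ← tr_tr, hs, ht]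
      neg_mem' := fun {s} hs F => by rw [← hs, hinv] }
  refine ⟨sSup (E k), hEb k _ (Nat.sSup_mem (hEn k) (hEbd k)), H, ?_, ?_⟩
  · intro B hB hBi
    have hinj : Set.InjOn (fun s => p.comap (tr (γ s))) B := by
      intro s hs t ht hst
      refine hBi s hs t ht fun F => ?_
      have h1 : tr (γ (-t)) F ∈ p.comap (tr (γ s)) ↔ tr (γ (-t)) F ∈ p.comap (tr (γ t)) := by
        rw [show p.comap (tr (γ s)) = p.comap (tr (γ t)) from hst]
      rwa [Ideal.mem_comap, Ideal.mem_comap, hinv, tr_tr, ← hγ, ← sub_eq_add_neg] at h1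
    rw [← Finset.card_image_of_injOn hinj]
    refine count_le (G k) (by rintro _ ⟨s, -, rfl⟩; exact tr_mem_V _ hP)
      (fun q h1 h2 h3 => le_csSup (hEbd k) ⟨q, h1, h2, h3, rfl⟩)
      (hEb k _ (Nat.sSup_mem (hEn k) (hEbd k))).le _ ?_
    intro q hq
    obtain ⟨s, hs, rfl⟩ := Finset.mem_image.mp hq
    refine ⟨Ideal.comap_isPrime _ _, fun i hi => ?_, ?_, by rw [dm_comap, hpd]⟩
    · rw [Ideal.mem_comap, tr_X] at hi
      exact hpX i ((Ideal.unit_mul_mem_iff_mem _ ((γ s i).isUnit.map C)).mp hi)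
    · rintro _ ⟨t, ht, rfl⟩
      rw [SetLike.mem_coe, Ideal.mem_comap, tr_tr, ← hγ]
      have h1 : tr (γ (s + t)) P ∈ G (k + 1) := by
        refine ⟨s + t, fun j => ⟨add_nonneg (hB s hs j).1 (ht j).1, ?_⟩, rfl⟩
        have h1 := (hB s hs j).2
        have h2 := (ht j).2
        rw [min_eq_left hk.le] at h2
        rw [min_eq_left (Nat.succ_le_of_lt hk), Pi.add_apply]
        push_cast
        linarith
      exact hpG h1
  · intro ι _ c hc
    rw [← hpd]
    apply card_le_dm (x := fun i => Ideal.Quotient.mk p (X (c i)))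
    rw [algebraicIndependent_iff]
    intro F hF
    let χ : (ι →₀ ℕ) → (Multiplicative H →* MvPolynomial σ K ⧸ p) := fun a =>
      { toFun := fun s => algebraMap K _ ((∏ i, γ s.toAdd.1 (c i) ^ a i : Kˣ) : K)
        map_one' := by simp [hγ0]
        map_mul' := fun s t => by
          simp only [toAdd_mul, AddSubgroup.coe_add, hγ, Pi.mul_apply, mul_pow,
            Finset.prod_mul_distrib, Units.val_mul, map_mul] }
    have hχ : Function.Injective χ := by
      intro a b hab
      refine hc a b fun s hs => ?_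
      have := DFunLike.congr_fun hab (Multiplicative.ofAdd ⟨s, hs⟩)
      exact Units.ext ((algebraMap K (MvPolynomial σ K ⧸ p)).injective this)
    have hli := (linearIndependent_monoidHom (Multiplicative H) (MvPolynomial σ K ⧸ p)).comp χ hχ
    have hFp : rename c F ∈ p := by
      rw [← Ideal.Quotient.eq_zero_iff_mem, ← hF]
      have e : (Ideal.Quotient.mkₐ K p).comp (rename c) =
          aeval fun i => Ideal.Quotient.mk p (X (c i)) := by
        ext i; simp
      exact DFunLike.congr_fun e F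
    have hz := linearIndependent_iff'.mp hli F.support
      (fun a => algebraMap K _ (coeff a F) * ∏ i, Ideal.Quotient.mk p (X (c i)) ^ a i) (by
        funext s
        have h1 := Ideal.Quotient.eq_zero_iff_mem.mpr ((s.toAdd.2 _).mpr hFp)
        have e : (Ideal.Quotient.mkₐ K p).comp ((trH (γ s.toAdd.1)).comp (rename c)) =
            aeval fun i => algebraMap K _ (γ s.toAdd.1 (c i) : K) *
              Ideal.Quotient.mk p (X (c i)) := by
          ext i; simp [trH]; left; rfl
        have h2 := (DFunLike.congr_fun e F).symm.trans h1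
        rw [aeval_def, eval₂_eq'] at h2
        rw [Finset.sum_apply, Pi.zero_apply, ← h2]
        refine Finset.sum_congr rfl fun a _ => ?_
        simp only [χ, Function.comp_apply, Pi.smul_apply, MonoidHom.coe_mk, OneHom.coe_mk,
          smul_eq_mul, mul_pow, Finset.prod_mul_distrib, Units.coe_prod, Units.val_pow_eq_pow_val,
          map_prod, map_pow]
        ring)
    by_contra hF0
    obtain ⟨a, ha⟩ := support_nonempty.mpr hF0
    have h3 := hz a ha
    rcases mul_eq_zero.mp h3 with h | h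
    · exact mem_support_iff.mp ha ((map_eq_zero _).mp h)
    · obtain ⟨i, -, hi⟩ := Finset.prod_eq_zero_iff.mp h
      exact hpX _ (Ideal.Quotient.eq_zero_iff_mem.mp (pow_eq_zero_iff'.mp hi).1)

end Pool.Agent.MP_d171e3_nt

end

-- part MP_d171e3_nt.Hyper
section

/-! Points with coordinates logarithms on a hyperplane without rational points. -/

namespace Pool.Agent.MP_d171e3_nt

open MvPolynomial Module

theorem exists_compl {ι : Type} [Fintype ι] [DecidableEq ι] (W : Submodule ℚ (ι → ℚ)) :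
    ∃ (κ : Type) (_ : Fintype κ) (c : κ → ι), Function.Injective c ∧
      Fintype.card κ + finrank ℚ W = Fintype.card ι ∧
      (∀ t : κ → ℚ, ∑ k, t k • (Pi.single (c k) 1 : ι → ℚ) ∈ W → t = 0) ∧
      ∀ i, ∃ t : κ → ℚ, Pi.single i 1 - ∑ k, t k • (Pi.single (c k) 1 : ι → ℚ) ∈ W := by
  obtain ⟨κ, c, hc, h1, h2⟩ := exists_linearIndependent' ℚ
    fun i : ι => W.mkQ (Pi.single i 1 : ι → ℚ)
  have : Finite κ := h2.finite
  have := Fintype.ofFinite κ
  have htop : Submodule.span ℚ (Set.range fun i : ι => W.mkQ (Pi.single i 1 : ι → ℚ)) = ⊤ := by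
    have e : (fun i : ι => W.mkQ (Pi.single i 1 : ι → ℚ)) = W.mkQ ∘ Pi.basisFun ℚ ι := by
      funext i; simp
    rw [e, Set.range_comp, ← Submodule.map_span, Basis.span_eq, Submodule.map_top,
      Submodule.range_mkQ]
  refine ⟨κ, this, c, hc, ?_, fun t ht => ?_, fun i => ?_⟩
  · have h3 := finrank_span_eq_card h2
    rw [h1, htop, finrank_top] at h3
    rw [← h3, W.finrank_quotient_add_finrank, finrank_fintype_fun_eq_card]
  · funext k
    refine Fintype.linearIndependent_iff.mp h2 t ?_ k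
    have := (Submodule.Quotient.mk_eq_zero W).mpr ht
    rw [← W.mkQ_apply, map_sum] at this
    simpa using this
  · have h3 : W.mkQ (Pi.single i 1 : ι → ℚ) ∈ Submodule.span ℚ
        (Set.range ((fun i : ι => W.mkQ (Pi.single i 1 : ι → ℚ)) ∘ c)) := by
      rw [h1, htop]; trivial
    obtain ⟨t, ht⟩ := (Submodule.mem_span_range_iff_exists_fun ℚ).mp h3
    refine ⟨t, (Submodule.Quotient.mk_eq_zero W).mp ?_⟩
    rw [← W.mkQ_apply, map_sub, map_sum, ← ht]
    simp

theorem padic_prod {μ : Type} (pr : μ → ℕ) (hp : ∀ k, (pr k).Prime) (hi : Function.Injective pr)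
    (z : μ → ℤ) (k0 : μ) [DecidableEq μ] (s : Finset μ) :
    padicValRat (pr k0) (∏ k ∈ s, (pr k : ℚ) ^ z k) = if k0 ∈ s then z k0 else 0 := by
  have := Fact.mk (hp k0)
  have hne : ∀ k, (pr k : ℚ) ^ z k ≠ 0 := fun k => zpow_ne_zero _ (by exact_mod_cast (hp k).ne_zero)
  induction s using Finset.induction_on with
  | empty => simp
  | insert a s ha ih =>
    rw [Finset.prod_insert ha, padicValRat.mul (hne a) (Finset.prod_ne_zero_iff.mpr fun k _ => hne k),
      ih, padicValRat.zpow, padicValRat.of_nat]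
    by_cases h : k0 = a
    · subst h; simp [ha]
    · have := Fact.mk (hp a)
      rw [padicValNat_primes (hi.ne h)]
      simp [h]

theorem zpow_inj {μ : Type} [Fintype μ] (pr : μ → ℕ) (hp : ∀ k, (pr k).Prime)
    (hi : Function.Injective pr) (u : μ → ℚˣ) (hu : ∀ k, (u k : ℚ) = pr k) {z w : μ → ℤ}
    (h : ∏ k, u k ^ z k = ∏ k, u k ^ w k) : z = w := by
  classical
  funext k
  have h1 := congrArg (fun x : ℚˣ => padicValRat (pr k) (x : ℚ)) h
  simpa only [Units.coe_prod, Units.val_zpow_eq_zpow_val, hu, padic_prod pr hp hi, Finset.mem_univ,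
    if_true] using h1

theorem hyper {μ : Type} [Fintype μ] (pr : μ → ℕ) (hp : ∀ k, (pr k).Prime)
    (hi : Function.Injective pr) (d : ℕ) : ∀ (σ : Type) [Fintype σ], Fintype.card σ = d →
      ∀ β : σ → ℂ, LinearIndependent ℚ β → ∀ Y : Submodule ℚ (σ → μ → ℚ),
        (∀ A ∈ Y, ∑ i, β i * ∑ k, (A i k : ℂ) * (Real.log (pr k) : ℂ) = 0) →
        finrank ℚ Y ≤ d * (d - 1) := by
  classical
  induction d using Nat.strong_induction_on with
  | _ d ih =>
  intro σ _ hd β hβ Y hY
  rcases Nat.eq_zero_or_pos d with rfl | hd0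
  · have := Fintype.card_eq_zero_iff.mp hd
    exact (Submodule.finrank_le Y).trans (finrank_zero_of_subsingleton).le
  by_contra hlt
  push Not at hlt
  set l := finrank ℚ Y with hl
  let b := finBasis ℚ Y
  obtain ⟨N, hN⟩ := IsLocalization.exist_integer_multiples_of_finite (nonZeroDivisors ℤ)
    fun x : Fin l × σ × μ => (b x.1).1 x.2.1 x.2.2
  choose A0 hA0 using hN
  let A : Fin l → σ → μ → ℤ := fun j i k => A0 (j, i, k)
  have hN0 : ((N : ℤ) : ℚ) ≠ 0 := by exact_mod_cast nonZeroDivisors.coe_ne_zero N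
  have hA : ∀ j, (fun i k => (A j i k : ℚ)) = ((N : ℤ) : ℚ) • (b j).1 := by
    intro j
    funext i k
    simpa using hA0 (j, i, k)
  let Φ : (Fin l → ℚ) →ₗ[ℚ] (σ → μ → ℚ) := Fintype.linearCombination ℚ fun j i k => (A j i k : ℚ)
  have hΦ : Function.Injective Φ := by
    apply LinearIndependent.fintypeLinearCombination_injective
    have h1 := (b.linearIndependent.map' Y.subtype Y.ker_subtype).units_smul
      fun _ => Units.mk0 _ hN0
    have e : (fun j i k => (A j i k : ℚ)) =
        (fun _ : Fin l => Units.mk0 _ hN0) • (Y.subtype ∘ b) := funext hA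
    rw [e]; exact h1
  have hΦY : ∀ s, Φ s ∈ Y := fun s => by
    rw [Fintype.linearCombination_apply]
    exact Y.sum_mem fun j _ => Y.smul_mem _ (by rw [hA]; exact Y.smul_mem _ (b j).2)
  obtain ⟨i0⟩ : Nonempty σ := Fintype.card_pos_iff.mp (by omega)
  let u : μ → ℚˣ := fun k => Units.mk0 (pr k) (by exact_mod_cast (hp k).ne_zero)
  have hu : ∀ k, (u k : ℚ) = pr k := fun k => rfl
  obtain ⟨c0, hc0⟩ := exists_aux pr (fun k => (hp k).pos) u hu A (fun i => (β i / β i0).re) i0
    (by simp [hβ.ne_zero i0]) (by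
      intro j
      have h1 := hY _ (show (fun i k => (A j i k : ℚ)) ∈ Y by
        rw [hA]; exact Y.smul_mem _ (b j).2)
      have h2 : ∑ i, β i / β i0 * ((∑ k, A j i k * Real.log (pr k) : ℝ) : ℂ) = 0 := by
        simp only [div_mul_eq_mul_div, ← Finset.sum_div]
        rw [div_eq_zero_iff]
        left
        rw [← h1]
        push_cast; rfl
      have h3 := congrArg Complex.re h2
      simpa only [Complex.re_sum, Complex.re_mul_ofReal, Complex.zero_re] using h3)
  set C := (2 * d + 2) ^ (2 * d) with hC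
  set S := C * (c0 + 1) ^ d with hS
  have hS0 : 0 < S := by positivity
  obtain ⟨P, hP0, hP, hPv⟩ := hc0 S hS0
  obtain ⟨e, he, G, hG1, hG2⟩ := zero_est (gam u A) (gam_add u A) hP0 hP hPv
  rw [hd] at he hG1
  let cs : (Fin l → ℤ) → (Fin l → ℚ) := fun s j => s j
  let GQ := Submodule.span ℚ (cs '' G)
  -- counting classes modulo G
  obtain ⟨κ, _, c, hc, hκ, hκ1, -⟩ := exists_compl GQ
  let f : (κ → Fin (S + 1)) → Fin l → ℤ := fun t => Function.extend c (fun k => (t k : ℕ)) 0
  have hf : ∀ t, cs (f t) = ∑ k, ((t k : ℕ) : ℚ) • (Pi.single (c k) 1 : Fin l → ℚ) := by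
    intro t
    funext j
    simp only [cs, f, Finset.sum_apply, Pi.smul_apply, Pi.single_apply, smul_eq_mul, mul_ite,
      mul_one, mul_zero]
    by_cases h : ∃ k, c k = j
    · obtain ⟨k, rfl⟩ := h
      simp [hc.extend_apply, hc.eq_iff]
    · rw [Function.extend_apply' _ _ _ h, Finset.sum_eq_zero fun k _ => if_neg fun h' => h ⟨k, h'.symm⟩]
      simp
  have hfG : ∀ t t', f t - f t' ∈ G → t = t' := by
    intro t t' h
    have h1 : cs (f t) - cs (f t') ∈ GQ :=
      Submodule.subset_span ⟨_, h, by funext j; simp [cs]⟩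
    rw [hf, hf, ← Finset.sum_sub_distrib] at h1
    simp only [← sub_smul] at h1
    have h2 := hκ1 _ h1
    funext k
    have h3 := sub_eq_zero.mp (congrFun h2 k)
    exact Fin.ext (by exact_mod_cast h3)
  have hcount := hG1 (Finset.univ.image f) (by
      intro s hs j
      obtain ⟨t, -, rfl⟩ := Finset.mem_image.mp hs
      by_cases h : ∃ k, c k = j
      · obtain ⟨k, rfl⟩ := h
        simp only [f, hc.extend_apply]
        exact ⟨by positivity, by exact_mod_cast Nat.le_of_lt_succ (t k).2⟩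
      · simp only [f]
        rw [Function.extend_apply' _ _ _ h]
        simp) (by
      intro s hs s' hs' h
      obtain ⟨t, -, rfl⟩ := Finset.mem_image.mp hs
      obtain ⟨t', -, rfl⟩ := Finset.mem_image.mp hs'
      rw [hfG t t' h])
  rw [Finset.card_image_of_injective _ fun t t' h => hfG t t' (by rw [h, sub_self]; exact G.zero_mem),
    Finset.card_univ, Fintype.card_fun, Fintype.card_fin] at hcount
  rw [Fintype.card_fin] at hκ
  -- the characters trivial on G
  let L : Submodule ℚ (σ → ℚ) :=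
    { carrier := {a | ∀ s ∈ GQ, ∀ k, ∑ i, a i * Φ s i k = 0}
      zero_mem' := fun s _ k => by simp
      add_mem' := fun {a a'} ha ha' s hs k => by
        simp only [Pi.add_apply, add_mul, Finset.sum_add_distrib, ha s hs k, ha' s hs k, add_zero]
      smul_mem' := fun r a ha s hs k => by
        simp only [Pi.smul_apply, smul_eq_mul, mul_assoc, ← Finset.mul_sum, ha s hs k, mul_zero] }
  obtain ⟨κ', _, c', hc', -, hκ1', hκ2'⟩ := exists_compl L
  have hsum : ∀ (t : κ' → ℚ) (w : σ → ℚ),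
      ∑ i, (∑ k, t k • (Pi.single (c' k) 1 : σ → ℚ)) i * w i = ∑ k, t k * w (c' k) := by
    intro t w
    simp only [Finset.sum_apply, Finset.sum_mul]
    rw [Finset.sum_comm]
    refine Finset.sum_congr rfl fun k _ => ?_
    simp [Pi.single_apply]
  have hr : Fintype.card κ' ≤ e := by
    refine hG2 κ' c' fun a a' h => ?_
    have h1 : ∑ k, ((a k : ℚ) - a' k) • (Pi.single (c' k) 1 : σ → ℚ) ∈ L := by
      intro s hs m
      rw [hsum]
      induction hs using Submodule.span_induction with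
      | mem x hx =>
        obtain ⟨s, hs, rfl⟩ := hx
        have h2 := h s hs
        rw [prod_gam, prod_gam] at h2
        have h3 := congrArg (fun z : ℤ => (z : ℚ)) (congrFun (zpow_inj pr hp hi u hu h2) m)
        simp only [sub_mul, Finset.sum_sub_distrib, sub_eq_zero, Φ, Fintype.linearCombination_apply,
          Finset.sum_apply, Pi.smul_apply, smul_eq_mul, cs]
        exact_mod_cast h3
      | zero => simp
      | add x y _ _ hx hy =>
        simp only [map_add, Pi.add_apply, mul_add, Finset.sum_add_distrib, hx, hy, add_zero]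
      | smul r x _ hx =>
        simp only [map_smul, Pi.smul_apply, smul_eq_mul, mul_left_comm _ r, ← Finset.mul_sum, hx,
          mul_zero]
    have h2 := hκ1' _ h1
    ext k
    exact_mod_cast sub_eq_zero.mp (congrFun h2 k)
  choose t ht using hκ2'
  have hrow : ∀ s ∈ GQ, ∀ i m, Φ s i m = ∑ k, t i k * Φ s (c' k) m := by
    intro s hs i m
    have h1 := ht i s hs m
    simp only [Pi.sub_apply, sub_mul, Finset.sum_sub_distrib, hsum] at h1
    simpa [Pi.single_apply, sub_eq_zero] using h1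
  have ht1 : ∀ k, t (c' k) = Pi.single k 1 := by
    intro k
    have h1 := hκ1' (Pi.single k 1 - t (c' k)) (by
      have h2 := ht (c' k)
      simp only [Pi.sub_apply, sub_smul, Finset.sum_sub_distrib]
      have e : ∑ x, (Pi.single k (1 : ℚ) : κ' → ℚ) x • (Pi.single (c' x) 1 : σ → ℚ) =
          Pi.single (c' k) 1 := by
        simp [Pi.single_apply]
      rwa [e])
    exact (sub_eq_zero.mp h1).symm
  let Ψ : (Fin l → ℚ) →ₗ[ℚ] (κ' → μ → ℚ) := LinearMap.funLeft ℚ (μ → ℚ) c' ∘ₗ Φ
  have hIH := ih (Fintype.card κ') (by omega) κ' rfl (fun k => ∑ i, t i k • β i) (by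
      rw [Fintype.linearIndependent_iff]
      intro g hg k
      simp only [Finset.smul_sum, smul_smul] at hg
      rw [Finset.sum_comm] at hg
      simp only [← Finset.sum_smul] at hg
      have h1 := Fintype.linearIndependent_iff.mp hβ _ hg (c' k)
      simpa [ht1, Pi.single_apply] using h1) (GQ.map Ψ) (by
      rintro _ ⟨s, hs, rfl⟩
      rw [← hY _ (hΦY s)]
      have e : ∀ i, ∑ m, (Φ s i m : ℂ) * (Real.log (pr m) : ℂ) =
          ∑ k, (t i k : ℂ) * ∑ m, (Ψ s k m : ℂ) * (Real.log (pr m) : ℂ) := by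
        intro i
        simp only [Finset.mul_sum]
        rw [Finset.sum_comm]
        refine Finset.sum_congr rfl fun m _ => ?_
        rw [hrow s hs i m]
        simp only [Rat.cast_sum, Rat.cast_mul, Finset.sum_mul, mul_assoc]
        rfl
      simp only [e]
      simp only [Finset.sum_mul, Rat.smul_def]
      rw [Finset.sum_comm]
      refine Finset.sum_congr rfl fun i _ => ?_
      rw [Finset.mul_sum]
      exact Finset.sum_congr rfl fun k _ => by ring)
  have hrank : finrank ℚ (GQ.map Ψ) = finrank ℚ GQ := by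
    rw [← LinearMap.range_domRestrict, LinearMap.finrank_range_of_inj]
    rw [injective_iff_map_eq_zero]
    intro s hs
    apply Subtype.ext
    apply hΦ
    funext i m
    rw [hrow s.1 s.2]
    have h1 : ∀ k, Φ s.1 (c' k) m = 0 := fun k => congrFun (congrFun hs k) m
    simp [h1]
  rw [hrank] at hIH
  have h1 : (d - 1) * (d - e) + 1 ≤ Fintype.card κ := by
    have h2 : Fintype.card κ' * (Fintype.card κ' - 1) ≤ e * (d - 1) :=
      Nat.mul_le_mul hr (by omega)
    have h3 : (d - 1) * (d - e) + e * (d - 1) = d * (d - 1) := by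
      rw [mul_comm e, ← mul_add, Nat.sub_add_cancel he.le, mul_comm]
    omega
  have h2 : S ^ ((d - 1) * (d - e)) * (S + 1) ≤ S ^ ((d - 1) * (d - e)) * S :=
    calc S ^ ((d - 1) * (d - e)) * (S + 1) ≤ (S + 1) ^ ((d - 1) * (d - e) + 1) := by
          rw [pow_succ]; gcongr; omega
      _ ≤ (S + 1) ^ Fintype.card κ := Nat.pow_le_pow_right (by omega) h1
      _ ≤ C * (c0 * S ^ (d - 1)) ^ (d - e) := hcount
      _ = S ^ ((d - 1) * (d - e)) * (C * c0 ^ (d - e)) := by rw [mul_pow, ← pow_mul]; ring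
      _ ≤ S ^ ((d - 1) * (d - e)) * S := by
          refine Nat.mul_le_mul_left _ (Nat.mul_le_mul_left _ ?_)
          exact (Nat.pow_le_pow_left (Nat.le_succ _) _).trans
            (Nat.pow_le_pow_right (by omega) (by omega))
  have := Nat.le_of_mul_le_mul_left h2 (by positivity)
  omega

end Pool.Agent.MP_d171e3_nt

end

-- part MP_d171e3_nt.Rel
section

/-! Linear relations among logarithms of primes with coefficients in a finite-dimensional space. -/

namespace Pool.Agent.MP_d171e3_nt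

open Module

/-- the linear form -/
noncomputable def lf {μ : Type} [Fintype μ] (pr : μ → ℕ) : (μ → ℂ) →ₗ[ℚ] ℂ where
  toFun f := ∑ k, f k * (Real.log (pr k) : ℂ)
  map_add' f g := by simp [add_mul, Finset.sum_add_distrib]
  map_smul' c f := by simp [Finset.smul_sum]

theorem ker_bound {μ : Type} [Fintype μ] (pr : μ → ℕ) (hp : ∀ k, (pr k).Prime)
    (hi : Function.Injective pr) (B : Submodule ℚ ℂ) [FiniteDimensional ℚ B]
    (W : Submodule ℚ (μ → ℂ)) (h1 : ∀ f ∈ W, ∀ k, f k ∈ B) (h2 : ∀ f ∈ W, lf pr f = 0) :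
    finrank ℚ W ≤ finrank ℚ B * (finrank ℚ B - 1) := by
  classical
  let b := finBasis ℚ B
  let Θ : (Fin (finrank ℚ B) → μ → ℚ) →ₗ[ℚ] (μ → ℂ) :=
    { toFun := fun A k => ∑ i, A i k • (b i : ℂ)
      map_add' := fun A A' => by funext k; simp [add_smul, Finset.sum_add_distrib]
      map_smul' := fun c A => by funext k; simp [Finset.smul_sum, smul_smul] }
  have h := hyper pr hp hi _ (Fin (finrank ℚ B)) (Fintype.card_fin _) (fun i => (b i : ℂ))
    (b.linearIndependent.map' B.subtype B.ker_subtype) (W.comap Θ) (by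
      intro A hA
      rw [← h2 _ hA]
      simp only [lf, Θ, LinearMap.coe_mk, AddHom.coe_mk, Finset.sum_mul, Finset.mul_sum,
        Rat.smul_def]
      rw [Finset.sum_comm]
      exact Finset.sum_congr rfl fun k _ => Finset.sum_congr rfl fun i _ => by ring)
  refine le_trans ?_ ((Submodule.finrank_map_le Θ _).trans h)
  apply Submodule.finrank_mono
  intro f hf
  have e : Θ (fun i k => b.repr ⟨f k, h1 f hf k⟩ i) = f := by
    funext k
    have := congrArg Subtype.val (b.sum_repr ⟨f k, h1 f hf k⟩)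
    rw [AddSubmonoidClass.coe_finsetSum] at this
    exact this
  exact ⟨_, by rw [SetLike.mem_coe, Submodule.mem_comap, e]; exact hf, e⟩

theorem rel_bound {μ : Type} [Fintype μ] (pr : μ → ℕ) (hp : ∀ k, (pr k).Prime)
    (hi : Function.Injective pr) (B : Submodule ℚ ℂ) [FiniteDimensional ℚ B]
    (W : Submodule ℚ (μ → ℂ)) [FiniteDimensional ℚ W] (h1 : ∀ f ∈ W, ∀ k, f k ∈ B)
    (h2 : ∀ f ∈ W, lf pr f ∈ B) : finrank ℚ W ≤ finrank ℚ B ^ 2 := by
  have h := LinearMap.finrank_range_add_finrank_ker ((lf pr).domRestrict W)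
  have h3 : finrank ℚ (LinearMap.range ((lf pr).domRestrict W)) ≤ finrank ℚ B := by
    apply Submodule.finrank_mono
    rintro _ ⟨f, rfl⟩
    exact h2 f.1 f.2
  have h4 := ker_bound pr hp hi B ((LinearMap.ker ((lf pr).domRestrict W)).map W.subtype)
    (by rintro _ ⟨f, -, rfl⟩; exact h1 f.1 f.2) (by rintro _ ⟨f, hf, rfl⟩; exact hf)
  rw [Submodule.finrank_map_subtype_eq] at h4
  rw [← h]
  rcases Nat.eq_zero_or_pos (finrank ℚ B) with h0 | h0
  · rw [h0] at h3 h4 ⊢; omega
  · have : finrank ℚ B * (finrank ℚ B - 1) + finrank ℚ B = finrank ℚ B ^ 2 := by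
      rw [← Nat.mul_succ, Nat.succ_eq_add_one, Nat.sub_add_cancel h0, sq]
    omega

theorem exceptional (B : Submodule ℚ ℂ) [FiniteDimensional ℚ B] :
    ∃ T : Finset ℕ, T.card ≤ finrank ℚ B ^ 2 ∧ ∀ (S : Finset ℕ) (b : ℕ → ℂ),
      (∀ q ∈ S, q.Prime ∧ q ∉ T ∧ b q ∈ B) → ∑ q ∈ S, b q * (Real.log q : ℂ) ∈ B →
        ∀ q ∈ S, b q = 0 := by
  classical
  by_contra hc
  push Not at hc
  have key : ∀ j ≤ finrank ℚ B ^ 2 + 1, ∃ (T S : Finset ℕ) (W : Submodule ℚ (ℕ → ℂ)),
      T.card ≤ j ∧ (∀ q ∈ S, q.Prime) ∧ FiniteDimensional ℚ W ∧ finrank ℚ W = j ∧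
      (∀ f ∈ W, (∀ q ∈ T, f q = 0) → f = 0) ∧
      ∀ f ∈ W, (∀ q, f q ∈ B) ∧ (∀ q ∉ S, f q = 0) ∧ ∑ q ∈ S, f q * (Real.log q : ℂ) ∈ B := by
    intro j
    induction j with
    | zero =>
      intro _
      refine ⟨∅, ∅, ⊥, le_rfl, by simp, inferInstance, finrank_bot _ _, fun f hf _ => hf, ?_⟩
      intro f hf
      rw [Submodule.mem_bot] at hf
      simp [hf]
    | succ j ih =>
      intro hj
      obtain ⟨T, S, W, h1, h2, h3, h4, h5, h6⟩ := ih (by omega)
      obtain ⟨S', b, g1, g2, q0, g3, g4⟩ := hc T (by omega)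
      let f0 : ℕ → ℂ := fun q => if q ∈ S' then b q else 0
      have hf0T : ∀ q ∈ T, f0 q = 0 := fun q hq => if_neg fun h => (g1 q h).2.1 hq
      have hf00 : f0 q0 ≠ 0 := by simpa [f0, g3] using g4
      have hf0W : f0 ∉ W := fun h => hf00 (congrFun (h5 f0 h hf0T) q0)
      have hdec : ∀ f ∈ W ⊔ Submodule.span ℚ {f0}, ∃ w ∈ W, ∃ c : ℚ, f = w + c • f0 := by
        intro f hf
        obtain ⟨w, hw, z, hz, rfl⟩ := Submodule.mem_sup.mp hf
        obtain ⟨c, rfl⟩ := Submodule.mem_span_singleton.mp hz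
        exact ⟨w, hw, c, rfl⟩
      refine ⟨insert q0 T, S ∪ S', W ⊔ Submodule.span ℚ {f0},
        (Finset.card_insert_le _ _).trans (by omega), ?_, inferInstance, ?_, ?_, ?_⟩
      · intro q hq
        rcases Finset.mem_union.mp hq with h | h
        exacts [h2 q h, (g1 q h).1]
      · have := Submodule.finrank_sup_add_finrank_inf_eq W (Submodule.span ℚ {f0})
        rwa [(Submodule.disjoint_span_singleton_of_notMem hf0W).eq_bot, finrank_bot, add_zero,
          finrank_span_singleton (fun h => hf00 (congrFun h q0)), h4] at this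
      · intro f hf hT
        obtain ⟨w, hw, c, rfl⟩ := hdec f hf
        have hw0 : w = 0 := h5 w hw fun q hq => by
          simpa [hf0T q hq] using hT q (Finset.mem_insert_of_mem hq)
        have hc0 : c = 0 := by
          simpa [hw0, hf00] using hT q0 (Finset.mem_insert_self _ _)
        simp [hw0, hc0]
      · intro f hf
        obtain ⟨w, hw, c, rfl⟩ := hdec f hf
        obtain ⟨k1, k2, k3⟩ := h6 w hw
        refine ⟨fun q => B.add_mem (k1 q) (B.smul_mem c ?_), fun q hq => ?_, ?_⟩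
        · by_cases h : q ∈ S'
          · simpa [f0, h] using (g1 q h).2.2
          · simp [f0, h]
        · rw [Finset.mem_union, not_or] at hq
          simp [k2 q hq.1, f0, hq.2]
        · simp only [Pi.add_apply, Pi.smul_apply, add_mul, Finset.sum_add_distrib, smul_mul_assoc,
            ← Finset.smul_sum]
          refine B.add_mem ?_ (B.smul_mem c ?_)
          · rwa [← Finset.sum_subset Finset.subset_union_left fun q _ hq => by simp [k2 q hq]]
          · rw [← Finset.sum_subset Finset.subset_union_right fun q _ hq => by simp [f0, hq]]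
            rwa [Finset.sum_congr rfl fun q hq => by simp only [f0, if_pos hq]; rfl]
  obtain ⟨T, S, W, -, h2, h3, h4, -, h6⟩ := key _ le_rfl
  let ρ : (ℕ → ℂ) →ₗ[ℚ] (S → ℂ) := LinearMap.funLeft ℚ ℂ Subtype.val
  have h := rel_bound (fun q : S => q.1) (fun q => h2 q.1 q.2) Subtype.val_injective B (W.map ρ)
    (by rintro _ ⟨f, hf, rfl⟩ k; exact (h6 f hf).1 _) (by
      rintro _ ⟨f, hf, rfl⟩
      have := (h6 f hf).2.2
      rwa [← Finset.sum_coe_sort] at this)
  rw [← LinearMap.range_domRestrict, LinearMap.finrank_range_of_inj, h4] at h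
  · omega
  · rw [injective_iff_map_eq_zero]
    intro f hf
    ext q
    by_cases hq : q ∈ S
    · exact congrFun hf ⟨q, hq⟩
    · exact (h6 f.1 f.2).2.1 q hq

end Pool.Agent.MP_d171e3_nt

end
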